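import Pool.Agent.Work.MP_55ff09_co.PL.Base
import Pool.Agent.Work.MP_d76268_co.Menger

/-! MP_55ff09_co, block PL, item MEN (Menger's theorem for connectors). -/

set_option autoImplicit false

namespace Pool.Agent.IM55.PL

open SimpleGraph Pool.Agent.IM55

namespace XMEN

variable {V : Type}

/-- adjacency inside `U` -/
def E (G : SimpleGraph V) (U : Set V) (u v : V) : Prop := u ∈ U ∧ v ∈ U ∧ G.Adj u v

theorem chain_conn {G : SimpleGraph V} {U : Set V} : ∀ (t : List V) (c : V),
    (c :: t).IsChain (E G U) → (G.induce {x | x ∈ c :: t}).Connected := by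
  intro t
  induction t with
  | nil =>
    intro c _
    have e : {x | x ∈ [c]} = ({c} : Set V) := by
      ext x
      simp
    rw [e]
    exact conn_singleton c
  | cons d t ih =>
    intro c h
    rw [List.isChain_cons_cons] at h
    have e : {x | x ∈ c :: d :: t} = ({c} : Set V) ∪ {x | x ∈ d :: t} := by
      ext x
      simp
    rw [e]
    exact conn_union (conn_singleton c) (ih d h.2)
      ⟨c, rfl, d, List.mem_cons_self, Or.inr h.1.2.2⟩

theorem chain_sub {G : SimpleGraph V} {U : Set V} : ∀ (t : List V) (c : V), c ∈ U →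
    (c :: t).IsChain (E G U) → ∀ x ∈ c :: t, x ∈ U := by
  intro t
  induction t with
  | nil =>
    intro c hc _ x hx
    rw [List.mem_singleton] at hx
    rw [hx]
    exact hc
  | cons d t ih =>
    intro c hc h x hx
    rw [List.isChain_cons_cons] at h
    rcases List.mem_cons.1 hx with rfl | hx
    · exact hc
    · exact ih d h.1.2.1 h.2 x hx

theorem list_cr {G : SimpleGraph V} {U A B : Set V} {l : List V}
    (h : BiP4.IsAB (E G U) (A ∩ U) (B ∩ U) l) : Cr G U A B {x | x ∈ l} := by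
  obtain ⟨h1, -, h3, h4, h5⟩ := h
  cases l with
  | nil => exact absurd rfl h1
  | cons c t =>
    have hc := h4 c rfl
    refine ⟨chain_conn t c h3, chain_sub t c hc.2 h3, ⟨c, List.mem_cons_self, hc.1⟩, ?_⟩
    have h6 := h5 ((c :: t).getLast h1) (List.getLast?_eq_some_getLast h1)
    exact ⟨_, List.getLast_mem h1, h6.1⟩

theorem pc_list {G : SimpleGraph V} {U Q A B : Set V} {w : ℕ → V} {l : ℕ} (hQ : Q ⊆ U)
    (h : PC G Q A B w l) :
    BiP4.IsAB (E G U) (A ∩ U) (B ∩ U) ((List.range (l + 1)).map w) := by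
  have hs : ∀ i ≤ l, w i ∈ U := fun i hi => hQ (h.sub ⟨i, hi, rfl⟩)
  refine ⟨?_, ?_, ?_, ?_, ?_⟩
  · simp
  · refine List.Nodup.map_on ?_ List.nodup_range
    intro i hi j hj hij
    exact h.ip.inj i (Nat.le_of_lt_succ (List.mem_range.1 hi)) j
      (Nat.le_of_lt_succ (List.mem_range.1 hj)) hij
  · rw [List.isChain_map, List.isChain_range_succ]
    intro m hm
    exact ⟨hs m (by omega), hs (m + 1) (by omega), h.ip.adj m hm⟩
  · intro a ha
    rw [List.head?_map, List.head?_range] at ha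
    simp at ha
    rw [← ha]
    exact ⟨(h.hA 0 (Nat.zero_le _)).2 rfl, hs 0 (Nat.zero_le _)⟩
  · intro a ha
    rw [List.getLast?_map, List.getLast?_range] at ha
    simp at ha
    rw [← ha]
    exact ⟨(h.hB l le_rfl).2 rfl, hs l le_rfl⟩

end XMEN

theorem i_MEN (hIPA : S_IPA) : S_MEN := by
  intro V _ G U A B m
  classical
  have : Fintype V := Fintype.ofFinite V
  by_cases hk : ∀ S : Finset V,
      (∀ l, BiP4.IsAB (XMEN.E G U) (A ∩ U) (B ∩ U) l → ∃ x ∈ l, x ∈ S) → m ≤ S.card
  · left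
    obtain ⟨P, hP, hd⟩ := BiP4.menger V (XMEN.E G U) (A ∩ U) (B ∩ U) m hk
    refine ⟨fun i => if h : i < m then {x | x ∈ P ⟨i, h⟩} else ∅, ?_, ?_⟩
    · intro i hi
      simp only [dif_pos hi]
      exact XMEN.list_cr (hP _)
    · intro i hi j hj hij
      simp only [dif_pos hi, dif_pos hj]
      rw [Set.disjoint_left]
      intro x hx hx'
      exact hd ⟨i, hi⟩ ⟨j, hj⟩ (fun h => hij (congrArg Fin.val h)) hx hx'
  · right
    push Not at hk
    obtain ⟨S, hS, hc⟩ := hk
    refine ⟨↑S ∩ U, Set.inter_subset_right, ?_, ?_⟩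
    · refine lt_of_le_of_lt ?_ hc
      rw [← Set.ncard_coe_finset]
      exact Set.ncard_le_ncard Set.inter_subset_left (Set.toFinite _)
    · intro Q hQ
      obtain ⟨w, l, hw⟩ := hIPA G U A B Q hQ
      obtain ⟨x, hx, hxS⟩ := hS _ (XMEN.pc_list hQ.sub hw)
      rw [List.mem_map] at hx
      obtain ⟨i, hi, rfl⟩ := hx
      have h1 : w i ∈ Q := hw.sub ⟨i, Nat.le_of_lt_succ (List.mem_range.1 hi), rfl⟩
      exact ⟨w i, h1, hxS, hQ.sub h1⟩

end Pool.Agent.IM55.PL
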