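import Pool.Agent.Work.MP_55ff09_co.PL.Base

/-!
# MP_55ff09_co, block PL, item MPC
-/

set_option autoImplicit false

namespace Pool.Agent.IM55.PL

open SimpleGraph Pool.Agent.IM55

theorem i_MPC (h1 : S_IPA) : S_MPC := by
  intro V _ G C P Q hC hP hQ
  obtain ⟨u, hu, hPu⟩ := hP
  obtain ⟨v, hv, hQv⟩ := hQ
  obtain ⟨w, l, h⟩ := h1 G C {x | P x} {x | Q x} C ⟨hC, subset_rfl, ⟨u, hu, hPu⟩, ⟨v, hv, hQv⟩⟩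
  refine ⟨rng w l, h.sub, rng_conn h.ip, w 0, ⟨0, Nat.zero_le _, rfl⟩, w l, ⟨l, le_rfl, rfl⟩,
    (h.hA 0 (Nat.zero_le _)).2 rfl, (h.hB l le_rfl).2 rfl, ?_, ?_⟩
  · rintro x ⟨i, hi, rfl⟩ hx
    rw [(h.hA i hi).1 hx]
  · rintro x ⟨i, hi, rfl⟩ hx
    rw [(h.hB i hi).1 hx]

end Pool.Agent.IM55.PL
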