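import Pool.Agent.Work.MP_55ff09_co.PL.Stmts2

/-!
# MP_55ff09_co, block PL: small lemmas for all items
-/

set_option autoImplicit false

namespace Pool.Agent.IM55.PL

open SimpleGraph Pool.Agent.IM55

variable {V : Type} {G : SimpleGraph V}

theorem conn_singleton (v : V) : (G.induce ({v} : Set V)).Connected := by
  have h1 : Subsingleton ({v} : Set V) := Set.subsingleton_coe _ |>.2 Set.subsingleton_singleton
  have h2 : Nonempty ({v} : Set V) := ⟨⟨_, rfl⟩⟩
  exact ⟨fun x y => by rw [Subsingleton.elim x y]⟩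

/-- the vertices of a part of a walk form a connected set -/
theorem seg_conn (w : ℕ → V) (a b : ℕ) (hab : a ≤ b)
    (h : ∀ i, a ≤ i → i < b → G.Adj (w i) (w (i + 1))) :
    (G.induce {v | ∃ i, a ≤ i ∧ i ≤ b ∧ w i = v}).Connected := by
  induction b, hab using Nat.le_induction with
  | base =>
    have e : {v | ∃ i, a ≤ i ∧ i ≤ a ∧ w i = v} = ({w a} : Set V) := by
      ext v
      constructor
      · rintro ⟨i, h1, h2, rfl⟩
        have : i = a := le_antisymm h2 h1
        subst this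
        rfl
      · rintro rfl
        exact ⟨a, le_rfl, le_rfl, rfl⟩
    rw [e]
    exact conn_singleton _
  | succ b hab ih =>
    have ih' := ih (fun i h1 h2 => h i h1 (by omega))
    have e : {v | ∃ i, a ≤ i ∧ i ≤ b + 1 ∧ w i = v} =
        {v | ∃ i, a ≤ i ∧ i ≤ b ∧ w i = v} ∪ ({w (b + 1)} : Set V) := by
      ext v
      constructor
      · rintro ⟨i, h1, h2, rfl⟩
        rcases Nat.lt_or_ge i (b + 1) with h3 | h3
        · exact Or.inl ⟨i, h1, by omega, rfl⟩
        · have : i = b + 1 := by omega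
          subst this
          exact Or.inr rfl
      · rintro (⟨i, h1, h2, rfl⟩ | h1)
        · exact ⟨i, h1, by omega, rfl⟩
        · rw [Set.mem_singleton_iff] at h1
          subst h1
          exact ⟨b + 1, by omega, le_rfl, rfl⟩
    rw [e]
    exact conn_union ih' (conn_singleton _)
      ⟨w b, ⟨b, hab, le_rfl, rfl⟩, w (b + 1), rfl, Or.inr (h b hab (Nat.lt_succ_self b))⟩

theorem rng_conn {w : ℕ → V} {l : ℕ} (h : IP G w l) : (G.induce (rng w l)).Connected := by
  have e : rng w l = {v | ∃ i, 0 ≤ i ∧ i ≤ l ∧ w i = v} := by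
    ext v
    constructor
    · rintro ⟨i, h1, h2⟩
      exact ⟨i, Nat.zero_le _, h1, h2⟩
    · rintro ⟨i, -, h1, h2⟩
      exact ⟨i, h1, h2⟩
  rw [e]
  exact seg_conn w 0 l (Nat.zero_le _) (fun i _ h2 => h.adj i h2)

theorem ip_seg_conn {w : ℕ → V} {l a b : ℕ} (h : IP G w l) (hab : a ≤ b) (hb : b ≤ l) :
    (G.induce {v | ∃ i, a ≤ i ∧ i ≤ b ∧ w i = v}).Connected :=
  seg_conn w a b hab (fun i _ h2 => h.adj i (by omega))

/-- a connected set with a vertex satisfying `P` and a vertex not satisfying `P` has an edge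
between such vertices -/
theorem exit_edge {X : Set V} (hX : (G.induce X).Connected) (P : V → Prop) {x y : V}
    (hx : x ∈ X) (hPx : P x) (hy : y ∈ X) (hPy : ¬ P y) :
    ∃ u ∈ X, ∃ v ∈ X, P u ∧ ¬ P v ∧ G.Adj u v := by
  obtain ⟨p⟩ := hX.preconnected ⟨x, hx⟩ ⟨y, hy⟩
  obtain ⟨d, -, hd1, hd2⟩ := p.exists_boundary_dart {z | P (z : V)} hPx hPy
  exact ⟨d.fst, d.fst.2, d.snd, d.snd.2, hd1, hd2, d.adj⟩

/-- a connected set meeting `S` whose vertices in `S` have all their neighbours in `X` inside `S`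
is contained in `S` -/
theorem conn_subset {X S : Set V} (hX : (G.induce X).Connected) (h : (X ∩ S).Nonempty)
    (hS : ∀ u ∈ X, u ∈ S → ∀ v ∈ X, G.Adj u v → v ∈ S) : X ⊆ S := by
  intro y hy
  by_contra hyS
  obtain ⟨x, hx, hxS⟩ := h
  obtain ⟨u, hu, v, hv, h1, h2, h3⟩ := exit_edge hX (fun z => z ∈ S) hx hxS hy hyS
  exact h2 (hS u hu h1 v hv h3)

theorem pc_cr {U A B : Set V} {w : ℕ → V} {l : ℕ} (h : PC G U A B w l) :
    Cr G U A B (rng w l) where
  conn := rng_conn h.ip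
  sub := h.sub
  hA := ⟨w 0, ⟨0, Nat.zero_le _, rfl⟩, (h.hA 0 (Nat.zero_le _)).2 rfl⟩
  hB := ⟨w l, ⟨l, le_rfl, rfl⟩, (h.hB l le_rfl).2 rfl⟩

theorem anti_disjoint {X Y : Set V} (h : Anti G X Y) : Disjoint X Y :=
  Set.disjoint_left.2 fun x hx hy => (h x hx x hy).1 rfl

theorem ap_fm {U A B : Set V} {m : ℕ} {w : ℕ → ℕ → V} {l : ℕ → ℕ} (h : AP G U A B m w l) :
    Fm G U A B m (fun c => rng (w c) (l c)) :=
  ⟨fun i hi => pc_cr (h.1 i hi), fun i hi j hj hij => anti_disjoint (h.2 i hi j hj hij)⟩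

theorem cr_mono {U U' A B Q : Set V} (h : Cr G U A B Q) (hU : U ⊆ U') : Cr G U' A B Q :=
  ⟨h.conn, h.sub.trans hU, h.hA, h.hB⟩

theorem fm_mono {U U' A B : Set V} {m m' : ℕ} {Q : ℕ → Set V} (h : Fm G U A B m Q) (hU : U ⊆ U')
    (hm : m' ≤ m) : Fm G U' A B m' Q :=
  ⟨fun i hi => cr_mono (h.1 i (by omega)) hU, fun i hi j hj => h.2 i (by omega) j (by omega)⟩

theorem ap_mono {U U' A B : Set V} {m m' : ℕ} {w : ℕ → ℕ → V} {l : ℕ → ℕ}
    (h : AP G U A B m w l) (hU : U ⊆ U') (hm : m' ≤ m) : AP G U' A B m' w l :=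
  ⟨fun c hc => ⟨(h.1 c (by omega)).ip, (h.1 c (by omega)).sub.trans hU, (h.1 c (by omega)).hA,
    (h.1 c (by omega)).hB⟩, fun c hc c' hc' => h.2 c (by omega) c' (by omega)⟩

theorem subset_clN (X : Set V) : X ⊆ clN G X := fun x hx => ⟨x, hx, Or.inl rfl⟩

theorem clN_mono {X Y : Set V} (h : X ⊆ Y) : clN G X ⊆ clN G Y :=
  fun _ ⟨x, hx, hy⟩ => ⟨x, h hx, hy⟩

theorem touch_iff_clN {X Y : Set V} : Touch G X Y ↔ (clN G X ∩ Y).Nonempty := by
  constructor
  · rintro ⟨x, hx, y, hy, h⟩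
    exact ⟨y, ⟨x, hx, h.imp (fun e => e.symm) id⟩, hy⟩
  · rintro ⟨y, ⟨x, hx, h⟩, hy⟩
    exact ⟨x, hx, y, hy, h.imp (fun e => e.symm) id⟩

theorem clN_iff {X : Set V} {y : V} : y ∈ clN G X ↔ Touch G X {y} := by
  rw [touch_iff_clN]
  constructor
  · intro h
    exact ⟨y, h, rfl⟩
  · rintro ⟨z, hz, rfl⟩
    exact hz

theorem clN_eq_union (X : Set V) : clN G X = X ∪ opN G X := by
  ext y
  constructor
  · rintro ⟨x, hx, rfl | h⟩
    · exact Or.inl hx
    · by_cases hy : y ∈ X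
      · exact Or.inl hy
      · exact Or.inr ⟨hy, x, hx, h⟩
  · rintro (h | ⟨-, x, hx, h⟩)
    · exact ⟨y, h, Or.inl rfl⟩
    · exact ⟨x, hx, Or.inr h⟩

theorem clN_ncard [Finite V] {Δ : ℕ} (hG : DegLe G Δ) (v : V) : (clN G {v}).ncard ≤ Δ + 1 := by
  have e : clN G {v} = insert v (G.neighborSet v) := by
    ext y
    constructor
    · rintro ⟨x, hx, h⟩
      rw [Set.mem_singleton_iff] at hx
      subst hx
      rcases h with rfl | h
      · exact Or.inl rfl
      · exact Or.inr h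
    · rintro (rfl | h)
      · exact ⟨y, rfl, Or.inl rfl⟩
      · exact ⟨v, rfl, Or.inr h⟩
  rw [e]
  exact (Set.ncard_insert_le _ _).trans (Nat.succ_le_succ (hG v))

theorem clN_ncard_set [Finite V] {Δ : ℕ} (hG : DegLe G Δ) (X : Set V) :
    (clN G X).ncard ≤ X.ncard * (Δ + 1) := by
  have e : clN G X = ⋃ v ∈ X, clN G {v} := by
    ext y
    simp only [Set.mem_iUnion, exists_prop]
    constructor
    · rintro ⟨x, hx, h⟩
      exact ⟨x, hx, x, rfl, h⟩
    · rintro ⟨x, hx, x', hx', h⟩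
      rw [Set.mem_singleton_iff] at hx'
      subst hx'
      exact ⟨x', hx, h⟩
  have hfin : X.Finite := Set.toFinite X
  induction X, hfin using Set.Finite.induction_on with
  | empty => simp [clN]
  | @insert a s ha hs ih =>
    have e1 : clN G (insert a s) = clN G {a} ∪ clN G s := by
      ext y
      constructor
      · rintro ⟨x, hx | hx, h⟩
        · exact Or.inl ⟨x, hx, h⟩
        · exact Or.inr ⟨x, hx, h⟩
      · rintro (⟨x, hx, h⟩ | ⟨x, hx, h⟩)
        · exact ⟨x, Or.inl hx, h⟩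
        · exact ⟨x, Or.inr hx, h⟩
    rw [e1, Set.ncard_insert_of_notMem ha hs]
    have ih' : (clN G s).ncard ≤ s.ncard * (Δ + 1) := by
      apply ih
      ext y
      simp only [Set.mem_iUnion, exists_prop]
      constructor
      · rintro ⟨x, hx, h⟩
        exact ⟨x, hx, x, rfl, h⟩
      · rintro ⟨x, hx, x', hx', h⟩
        rw [Set.mem_singleton_iff] at hx'
        subst hx'
        exact ⟨x', hx, h⟩
    calc (clN G {a} ∪ clN G s).ncard ≤ (clN G {a}).ncard + (clN G s).ncard :=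
          Set.ncard_union_le _ _
      _ ≤ (Δ + 1) + s.ncard * (Δ + 1) := Nat.add_le_add (clN_ncard hG a) ih'
      _ = (s.ncard + 1) * (Δ + 1) := by ring

theorem bd_subset (U B X : Set V) : bd G U B X ⊆ X := fun _ h => h.1

/-- the boundary of a larger set inside a smaller one -/
theorem bd_anti {U B X Y : Set V} (h : X ⊆ Y) {x : V} (hx : x ∈ X) (hb : x ∈ bd G U B Y) :
    x ∈ bd G U B X :=
  ⟨hx, hb.2.imp id fun ⟨y, hy, hyY, ha⟩ => ⟨y, hy, fun h' => hyY (h h'), ha⟩⟩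

/-- a vertex of `X` outside the boundary has all its neighbours in `U` inside `X` -/
theorem adj_of_not_bd {U B X : Set V} {x y : V} (hx : x ∈ X) (hb : x ∉ bd G U B X) (hy : y ∈ U)
    (ha : G.Adj x y) : y ∈ X := by
  by_contra h
  exact hb ⟨hx, Or.inr ⟨y, hy, h, ha⟩⟩

/-- a connected set in `U` that avoids the boundary of `X` is inside or outside `X` -/
theorem conn_in_or_out {U B X S : Set V} (hS : (G.induce S).Connected) (hSU : S ⊆ U)
    (hb : Disjoint S (bd G U B X)) : S ⊆ X ∨ Disjoint S X := by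
  by_cases h : (S ∩ X).Nonempty
  · left
    exact conn_subset hS h fun u hu huX v hv ha =>
      adj_of_not_bd huX (fun hbd => Set.disjoint_left.1 hb hu hbd) (hSU hv) ha
  · right
    rw [Set.disjoint_iff_inter_eq_empty]
    exact Set.not_nonempty_iff_eq_empty.1 h

end Pool.Agent.IM55.PL
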