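import Pool.Agent.Work.MP_55ff09_co.Stmts
import Pool.Agent.Work.MP_55ff09_co.TreeWidth

/-!
# MP_55ff09_co, block PL (polylogarithmic product structure): definitions

Paper proof: note 3813. `Touch`, `Anti`, `Model`, `Box`, `Near`, `DegLe`, `IsInducedMinor` are in
`Pool.Agent.IM55`.
-/

set_option autoImplicit false

namespace Pool.Agent.IM55.PL

open SimpleGraph Pool.Agent.IM55

variable {V : Type}

/-- every graph on `n` vertices is an induced minor of `G` -/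
def HasAll (G : SimpleGraph V) (n : ℕ) : Prop := ∀ H : SimpleGraph (Fin n), IsInducedMinor H G

/-! ### Connectors and induced paths -/

/-- `Q` is a connector in `U` between `A` and `B` -/
structure Cr (G : SimpleGraph V) (U A B Q : Set V) : Prop where
  conn : (G.induce Q).Connected
  sub : Q ⊆ U
  hA : (Q ∩ A).Nonempty
  hB : (Q ∩ B).Nonempty

/-- `Q i`, `i < m`, are pairwise disjoint connectors -/
def Fm (G : SimpleGraph V) (U A B : Set V) (m : ℕ) (Q : ℕ → Set V) : Prop :=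
  (∀ i < m, Cr G U A B (Q i)) ∧ ∀ i < m, ∀ j < m, i ≠ j → Disjoint (Q i) (Q j)

/-- the vertex set of the path `w 0, ..., w l` -/
def rng (w : ℕ → V) (l : ℕ) : Set V := {v | ∃ i ≤ l, w i = v}

/-- `w 0, ..., w l` is an induced path -/
structure IP (G : SimpleGraph V) (w : ℕ → V) (l : ℕ) : Prop where
  adj : ∀ i < l, G.Adj (w i) (w (i + 1))
  inj : ∀ i ≤ l, ∀ j ≤ l, w i = w j → i = j
  ind : ∀ i ≤ l, ∀ j ≤ l, G.Adj (w i) (w j) → i = j + 1 ∨ j = i + 1

/-- an induced path in `U` whose first vertex, and no other one, is in `A`, and whose last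
vertex, and no other one, is in `B` -/
structure PC (G : SimpleGraph V) (U A B : Set V) (w : ℕ → V) (l : ℕ) : Prop where
  ip : IP G w l
  sub : rng w l ⊆ U
  hA : ∀ i ≤ l, (w i ∈ A ↔ i = 0)
  hB : ∀ i ≤ l, (w i ∈ B ↔ i = l)

/-- `m` pairwise anticomplete path connectors -/
def AP (G : SimpleGraph V) (U A B : Set V) (m : ℕ) (w : ℕ → ℕ → V) (l : ℕ → ℕ) : Prop :=
  (∀ c < m, PC G U A B (w c) (l c)) ∧
    ∀ c < m, ∀ c' < m, c ≠ c' → Anti G (rng (w c) (l c)) (rng (w c') (l c'))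

/-! ### Cuts -/

/-- the boundary of `X` in `U` (on the side of `B`) -/
def bd (G : SimpleGraph V) (U B X : Set V) : Set V :=
  {x | x ∈ X ∧ (x ∈ B ∨ ∃ y ∈ U, y ∉ X ∧ G.Adj x y)}

/-- `X` is a minimum cut -/
def Ct (G : SimpleGraph V) (U A B : Set V) (M : ℕ) (X : Set V) : Prop :=
  A ∩ U ⊆ X ∧ X ⊆ U ∧ (bd G U B X).ncard = M

/-- all cuts have at least `M` boundary vertices, `M` is attained, and every vertex of `U ∖ D` is a
boundary vertex of a cut of size `M` -/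
structure CutSys (G : SimpleGraph V) (U A B D : Set V) (M : ℕ) : Prop where
  sub : D ⊆ U
  min : ∀ X, A ∩ U ⊆ X → X ⊆ U → M ≤ (bd G U B X).ncard
  ex : ∃ X, Ct G U A B M X
  crit : ∀ y ∈ U, y ∉ D → ∃ X, Ct G U A B M X ∧ y ∈ bd G U B X

/-- the rows `R a`, `a ∈ I`, are connected and pairwise anticomplete -/
structure Rows (G : SimpleGraph V) (I : Finset ℕ) (R : ℕ → Set V) : Prop where
  conn : ∀ a ∈ I, (G.induce (R a)).Connected
  anti : ∀ a ∈ I, ∀ a' ∈ I, a ≠ a' → Anti G (R a) (R a')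

/-- the union of the rows -/
def Un (I : Finset ℕ) (R : ℕ → Set V) : Set V := {v | ∃ a ∈ I, v ∈ R a}

open Classical in
/-- the rows in `I` which lie in `X` and avoid the boundary -/
noncomputable def nR (G : SimpleGraph V) (U B : Set V) (I : Finset ℕ) (R : ℕ → Set V)
    (X : Set V) : ℕ :=
  (I.filter fun a => R a ⊆ X ∧ Disjoint (R a) (bd G U B X)).card

open Classical in
/-- the rows of the zone between `Y` and `X` -/
noncomputable def zR (G : SimpleGraph V) (U B : Set V) (I : Finset ℕ) (R : ℕ → Set V)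
    (Y X : Set V) : Finset ℕ :=
  I.filter fun a => R a ⊆ X ∧ Disjoint (R a) (bd G U B X) ∧ Disjoint (R a) Y

/-- every vertex `z` has a leg `Lg z`, a connected set which contains `z` and the root `r` -/
structure Legs (G : SimpleGraph V) (r : V) (Lg : V → Set V) : Prop where
  conn : ∀ z, (G.induce (Lg z)).Connected
  self : ∀ z, z ∈ Lg z
  root : ∀ z, r ∈ Lg z

open Classical in
/-- number of pairs `(a, c)`, `a ∈ I`, `c < m`, such that `R a` touches `Q c` -/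
noncomputable def tp (G : SimpleGraph V) (I : Finset ℕ) (m : ℕ) (R Q : ℕ → Set V) : ℕ :=
  ((I ×ˢ Finset.range m).filter fun p => Touch G (R p.1) (Q p.2)).card

open Classical in
/-- number of `c ∈ I` such that `X` touches `Q c` -/
noncomputable def tn (G : SimpleGraph V) (I : Finset ℕ) (X : Set V) (Q : ℕ → Set V) : ℕ :=
  (I.filter fun c => Touch G X (Q c)).card

/-! ### Sampled rows and columns -/

/-- `t` columns `w j`, `g` rows `R k` in the zones of a chain of cuts `W k`, all walls meet every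
column at most `K` times, `w j (τ j k)` touches `R k`, and its leg is anticomplete to all other rows
and columns -/
structure Pre (G : SimpleGraph V) (r : V) (Lg : V → Set V) (U B : Set V) (t g K : ℕ)
    (W R : ℕ → Set V) (w : ℕ → ℕ → V) (l : ℕ → ℕ) (τ : ℕ → ℕ → ℕ) : Prop where
  ip : ∀ j < t, IP G (w j) (l j)
  sub : ∀ j < t, rng (w j) (l j) ⊆ U
  col : ∀ j < t, ∀ j' < t, j ≠ j' → Anti G (rng (w j) (l j)) (rng (w j') (l j'))
  mono : ∀ k < g, W k ⊆ W (k + 1)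
  wsub : ∀ k ≤ g, W k ⊆ U
  wall : ∀ j < t, ∀ k ≤ g, (bd G U B (W k) ∩ rng (w j) (l j)).ncard ≤ K
  rconn : ∀ k < g, (G.induce (R k)).Connected
  ranti : ∀ k < g, ∀ k' < g, k ≠ k' → Anti G (R k) (R k')
  up : ∀ k < g, R k ⊆ W (k + 1) ∧ Disjoint (R k) (bd G U B (W (k + 1)))
  low : ∀ k < g, Disjoint (R k) (W k)
  len : ∀ j < t, ∀ k < g, τ j k ≤ l j
  con : ∀ j < t, ∀ k < g, Touch G {w j (τ j k)} (R k)
  leg : ∀ j < t, ∀ k < g, ∀ k' < g, k' ≠ k → Anti G (Lg (w j (τ j k))) (R k')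
  legc : ∀ j < t, ∀ k < g, ∀ j' < t, j' ≠ j → Anti G (Lg (w j (τ j k))) (rng (w j') (l j'))

/-- the contact positions are strictly monotone in `k` on every column -/
def Mon (t g : ℕ) (τ : ℕ → ℕ → ℕ) : Prop :=
  ∀ j < t, (∀ k < g, ∀ k' < g, k < k' → τ j k < τ j k') ∨
    ∀ k < g, ∀ k' < g, k < k' → τ j k' < τ j k

/-- the bad gaps of the row `k`: `l` such that `R k` touches some column strictly between the contact
vertices of the rows `l` and `l + 1`, both larger or both smaller than `k` -/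
def bg (G : SimpleGraph V) (t g : ℕ) (R : ℕ → Set V) (w : ℕ → ℕ → V) (τ : ℕ → ℕ → ℕ)
    (k : ℕ) : Set ℕ :=
  {l | l + 1 < g ∧ (k < l ∨ l + 1 < k) ∧ ∃ j < t, ∃ i : ℕ,
    ((τ j l < i ∧ i < τ j (l + 1)) ∨ (τ j (l + 1) < i ∧ i < τ j l)) ∧ Touch G {w j i} (R k)}

/-- `t` columns, `g` rows, the row `R k` touches the column `w j` only in the interval
`[α j k, β j k]`, the intervals have gaps; `Vg j k` is the leg of the contact vertex -/
structure Frame (G : SimpleGraph V) (r : V) (t g : ℕ) (R : ℕ → Set V) (w : ℕ → ℕ → V) (l : ℕ → ℕ)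
    (α β τ : ℕ → ℕ → ℕ) (Vg : ℕ → ℕ → Set V) : Prop where
  ip : ∀ j < t, IP G (w j) (l j)
  col : ∀ j < t, ∀ j' < t, j ≠ j' → Anti G (rng (w j) (l j)) (rng (w j') (l j'))
  rconn : ∀ k < g, (G.induce (R k)).Connected
  ranti : ∀ k < g, ∀ k' < g, k ≠ k' → Anti G (R k) (R k')
  ord : ∀ j < t, ∀ k < g, α j k ≤ τ j k ∧ τ j k ≤ β j k ∧ β j k ≤ l j
  gap : ∀ j < t, ∀ k < g, ∀ k' < g, k < k' → β j k + 2 ≤ α j k'
  conf : ∀ j < t, ∀ k < g, ∀ i ≤ l j, Touch G {w j i} (R k) → α j k ≤ i ∧ i ≤ β j k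
  con : ∀ j < t, ∀ k < g, Touch G {w j (τ j k)} (R k)
  vconn : ∀ j < t, ∀ k < g, (G.induce (Vg j k)).Connected
  vroot : ∀ j < t, ∀ k < g, r ∈ Vg j k
  vself : ∀ j < t, ∀ k < g, w j (τ j k) ∈ Vg j k
  vrow : ∀ j < t, ∀ k < g, ∀ k' < g, k' ≠ k → Anti G (Vg j k) (R k')
  vcol : ∀ j < t, ∀ k < g, ∀ j' < t, j' ≠ j → Anti G (Vg j k) (rng (w j') (l j'))

open Classical in
/-- the columns touched by `K` -/
noncomputable def tch (G : SimpleGraph V) (t : ℕ) (w : ℕ → ℕ → V) (l : ℕ → ℕ) (K : Set V) :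
    Finset ℕ := (Finset.range t).filter fun j => Touch G K (rng (w j) (l j))

/-- an induced grid with cells `seg q ∪ ps q`; the column `x` consists of the sets `seg (x, y)`; a
leg `Vg q` from `seg q` to `r` touches only `seg q'` with `q'` in the same column; the rows `R y`
are anticomplete to all `seg (x, y')` and all `Vg (x, y')` with `y' ≠ y` -/
structure World (G : SimpleGraph V) (r : V) (M : ℕ) (seg ps Vg : ℤ × ℤ → Set V)
    (R : ℤ → Set V) : Prop where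
  model : Model G (Box 0 0 M) (fun q => seg q ∪ ps q)
  sconn : ∀ q ∈ Box 0 0 M, (G.induce (seg q)).Connected
  sadj : ∀ x y : ℤ, (x, y) ∈ Box 0 0 M → (x, y + 1) ∈ Box 0 0 M →
    Touch G (seg (x, y)) (seg (x, y + 1))
  santi : ∀ q ∈ Box 0 0 M, ∀ q' ∈ Box 0 0 M, q.1 ≠ q'.1 → Anti G (seg q) (seg q')
  vconn : ∀ q ∈ Box 0 0 M, (G.induce (Vg q)).Connected
  vroot : ∀ q ∈ Box 0 0 M, r ∈ Vg q
  cont : ∀ q ∈ Box 0 0 M, ∃ z ∈ Vg q, z ∈ seg q ∧ Touch G {z} (R q.2)
  vcol : ∀ q ∈ Box 0 0 M, ∀ q' ∈ Box 0 0 M, q.1 ≠ q'.1 → Anti G (Vg q) (seg q')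
  vps : ∀ q ∈ Box 0 0 M, ∀ q' ∈ Box 0 0 M, Anti G (Vg q) (ps q')
  rconn : ∀ y : ℤ, 0 ≤ y → y < M → (G.induce (R y)).Connected
  ranti : ∀ y y' : ℤ, 0 ≤ y → y < M → 0 ≤ y' → y' < M → y ≠ y' → Anti G (R y) (R y')
  rseg : ∀ q ∈ Box 0 0 M, ∀ y : ℤ, 0 ≤ y → y < M → y ≠ q.2 → Anti G (R y) (seg q)
  rlega : ∀ q ∈ Box 0 0 M, ∀ y : ℤ, 0 ≤ y → y < M → y ≠ q.2 → Anti G (R y) (Vg q)

/-- number of cells in `Q` touched by `X` -/
noncomputable def cellN (G : SimpleGraph V) (Q : Set (ℤ × ℤ)) (B : ℤ × ℤ → Set V)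
    (X : Set V) : ℕ := {q | q ∈ Q ∧ Touch G X (B q)}.ncard

/-- the cell `q` lies in the block `(i, j)` of side `L` (row `i`, column `j`), at distance at least
`ρ` from its sides -/
def InBlk (a b L ρ : ℤ) (i j : ℕ) (q : ℤ × ℤ) : Prop :=
  a + j * L + ρ ≤ q.1 ∧ q.1 < a + j * L + L - ρ ∧ b + i * L + ρ ≤ q.2 ∧ q.2 < b + i * L + L - ρ

/-- A connected set `W` with vertices `y d`, `d = ((i, j), t)`, near cells `q d` in the block
`(i, j)`: the only vertex of `W` which touches cells at distance at most `wd d + z + 1` from `q d`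
is `y d`, and it touches a cell at distance at most `wd d ≤ ρ`. `W` touches at most `z` cells. -/
structure Tails (G : SimpleGraph V) (n N z L ρ : ℕ) (a b : ℤ) (B : ℤ × ℤ → Set V) (W : Set V)
    (q : (Fin n × Fin n) × Fin N → ℤ × ℤ) (wd : (Fin n × Fin n) × Fin N → ℕ)
    (y : (Fin n × Fin n) × Fin N → V) : Prop where
  model : Model G (Box a b (n * L)) B
  conn : (G.induce W).Connected
  mem : ∀ d, y d ∈ W
  inj : ∀ d d', y d = y d' → d = d'
  le : ∀ d, wd d ≤ ρ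
  cells : cellN G (Box a b (n * L)) B W ≤ z
  near : ∀ d, ∃ p ∈ Box a b (n * L), Touch G {y d} (B p) ∧ Near (wd d) p (q d)
  only : ∀ d, ∀ x ∈ W, ∀ p ∈ Box a b (n * L), Touch G {x} (B p) →
    Near (wd d + (z + 1)) p (q d) → x = y d
  blk : ∀ d, InBlk a b L (ρ + (2 * z + 4)) d.1.1 d.1.2 (q d)
  far : ∀ d d', d ≠ d' → ¬ Near (2 * ρ + (3 * z + 4)) (q d) (q d')

/-- Inside the box `[x₀, x₀ + s) × [y₀, y₀ + s)` of a world all legs escape: `E q ⊆ Vg q` is
connected, contains the contact vertex `z q` and a vertex `e q`, which is the only one that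
touches `seg (q.1, y')` for `y'` outside `[y₀, y₀ + s)`. -/
structure Esc (G : SimpleGraph V) (M : ℕ) (seg Vg : ℤ × ℤ → Set V) (R : ℤ → Set V)
    (x₀ y₀ : ℤ) (s : ℕ) (E : ℤ × ℤ → Set V) (z e : ℤ × ℤ → V) : Prop where
  sub : ∀ q ∈ Box x₀ y₀ s, E q ⊆ Vg q
  conn : ∀ q ∈ Box x₀ y₀ s, (G.induce (E q)).Connected
  zE : ∀ q ∈ Box x₀ y₀ s, z q ∈ E q
  zseg : ∀ q ∈ Box x₀ y₀ s, z q ∈ seg q
  zR : ∀ q ∈ Box x₀ y₀ s, Touch G {z q} (R q.2)
  eE : ∀ q ∈ Box x₀ y₀ s, e q ∈ E q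
  out : ∀ q ∈ Box x₀ y₀ s, ∃ y' : ℤ, (q.1, y') ∈ Box 0 0 M ∧ (y' < y₀ ∨ y₀ + s ≤ y') ∧
    Touch G {e q} (seg (q.1, y'))
  only : ∀ q ∈ Box x₀ y₀ s, ∀ x ∈ E q, ∀ y' : ℤ, (q.1, y') ∈ Box 0 0 M →
    (y' < y₀ ∨ y₀ + s ≤ y') → Touch G {x} (seg (q.1, y')) → x = e q

/-- a handle: a connected set which touches at most `k` cells of the world, two of them in the box
`[x, x + s) × [y, y + s)` and in columns at distance at least `σ` -/
def Hdl (G : SimpleGraph V) (M : ℕ) (B : ℤ × ℤ → Set V) (σ : ℤ) (k : ℕ) (x y : ℤ) (s : ℕ)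
    (X : Set V) : Prop :=
  (G.induce X).Connected ∧ cellN G (Box 0 0 M) B X ≤ k ∧
    ∃ q ∈ Box x y s, ∃ q' ∈ Box x y s, σ ≤ |q.1 - q'.1| ∧ Touch G X (B q) ∧ Touch G X (B q')

/-! ### Labels -/

/-- closed neighbourhood -/
def clN (G : SimpleGraph V) (X : Set V) : Set V := {y | ∃ x ∈ X, y = x ∨ G.Adj x y}

/-- open neighbourhood -/
def opN (G : SimpleGraph V) (X : Set V) : Set V := {y | y ∉ X ∧ ∃ x ∈ X, G.Adj x y}

/-- greedy nets in the breadth first search layers, with parents `π` and weights -/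
structure Net (G : SimpleGraph V) (r : V) (p : V → V) (X : Set V) (π : V → V) (wt : V → ℕ) :
    Prop where
  par : ∀ v, v ≠ r → G.Adj v (p v) ∧ G.dist r (p v) + 1 = G.dist r v
  root : r ∈ X
  sep : ∀ x ∈ X, ∀ y ∈ X, x ≠ y → G.dist r x = G.dist r y → 4 < G.dist x y
  cov : ∀ v, ∃ x ∈ X, G.dist r x = G.dist r v ∧ G.dist v x ≤ 4
  pi : ∀ x ∈ X, x ≠ r → π x ∈ X ∧ G.dist r (π x) + 1 = G.dist r x ∧ G.dist (p x) (π x) ≤ 4
  pip : ∀ x ∈ X, x ≠ r → p x ∈ X → π x = p x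
  pos : ∀ x ∈ X, 1 ≤ wt x
  two : ∀ x ∈ X, ∀ x' ∈ X, x ≠ r → x' ≠ r → x ≠ x' → π x = π x' → wt x + wt x' < wt (π x)
  one : ∀ x ∈ X, x ≠ r → wt x < wt (π x)
  top : wt r ≤ Nat.card V
  heavy : ∀ x ∈ X, x ≠ r → ∃ x' ∈ X, x' ≠ r ∧ p x' = π x ∧ wt x ≤ wt x'

/-- cores: `top x` is the first vertex (closest to the root) of the core of `x`; a core is a vertical
path; where it ends, the weight at least doubles -/
structure Core (G : SimpleGraph V) (r : V) (p : V → V) (X : Set V) (π : V → V) (wt : V → ℕ)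
    (top : V → V) : Prop where
  mem : ∀ x ∈ X, top x ∈ X
  idem : ∀ x ∈ X, top (top x) = top x
  up : ∀ x ∈ X, top x ≠ x → x ≠ r ∧ p x ∈ X ∧ top (p x) = top x
  inj : ∀ x ∈ X, ∀ y ∈ X, top x = top y → G.dist r x = G.dist r y → x = y
  dbl : ∀ x ∈ X, x ≠ r → top x = x → 2 * wt x < wt (π x)

/-- `a` is a nearest point map onto `X`: the vertices with the same image as `v` contain a connected
set with at most 5 vertices that contains `v` and `a v` -/
structure Nearest (G : SimpleGraph V) (X : Set V) (a : V → V) : Prop where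
  mem : ∀ v, a v ∈ X
  fix : ∀ x ∈ X, a x = x
  near : ∀ v, ∀ x ∈ X, G.dist v (a v) ≤ G.dist v x
  conn : ∀ v, ∃ D : Set V, (G.induce D).Connected ∧ v ∈ D ∧ a v ∈ D ∧ D.ncard ≤ 5 ∧
    ∀ x ∈ D, a x = a v

/-- A labelling: the label of `v` is `lb v`; `co` is the set of core vertices; the core of the label
`i` is `{x | x ∈ co ∧ lb x = i}`; `ly` are the layers -/
structure Lab (G : SimpleGraph V) (c : ℕ) (r : V) (ly : V → ℕ) (lb : V → V) (co : Set V) :
    Prop where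
  lay : ∀ u v, G.Adj u v → ly u ≤ ly v + 1
  conn : ∀ v, (G.induce {x | x ∈ co ∧ lb x = lb v}).Connected
  reach : ∀ v, ∃ D : Set V, (G.induce D).Connected ∧ v ∈ D ∧ (D ∩ co).Nonempty ∧
    D.ncard ≤ c ∧ ∀ x ∈ D, lb x = lb v
  width : ∀ i j, {v | lb v = i ∧ ly v = j}.ncard ≤ c
  exits : ∀ i, {v | v ∈ co ∧ lb v = i ∧ ∃ u, G.Adj v u ∧ lb u ≠ i}.ncard ≤ c
  legs : ∀ z, ∃ L : Set V, (G.induce L).Connected ∧ z ∈ L ∧ r ∈ L ∧
    (lb '' clN G L).ncard ≤ c * (Nat.log 2 (Nat.card V) + 1)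

/-- the graph of the labels -/
def qG (G : SimpleGraph V) (lb : V → V) : SimpleGraph V :=
  SimpleGraph.fromRel fun i j => ∃ u v, lb u = i ∧ lb v = j ∧ G.Adj u v

/-- every label has at most `f` vertices in `U` outside its core -/
def Thin (lb : V → V) (co : Set V) (f : ℕ) (U : Set V) : Prop :=
  ∀ i, {x | x ∈ U ∧ lb x = i ∧ x ∉ co}.ncard ≤ f

/-- a bramble of order at least `k` (pairwise intersecting connected sets) -/
structure Brm (J : SimpleGraph V) (k : ℕ) (BB : Set (Set V)) : Prop where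
  conn : ∀ B ∈ BB, (J.induce B).Connected
  int : ∀ B ∈ BB, ∀ B' ∈ BB, (B ∩ B').Nonempty
  ord : ∀ S : Set V, S.ncard < k → ∃ B ∈ BB, Disjoint B S

/-- `X` meets or is adjacent to a vertex with label in `B` -/
def TL (G : SimpleGraph V) (lb : V → V) (X B : Set V) : Prop := ∃ y ∈ clN G X, lb y ∈ B

/-- `h` hubs: connected, pairwise anticomplete, no label meets two of them, thin, and every hub
touches, for every set `S` of fewer than `k` labels, an element of the bramble avoiding `S` -/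
structure Hubs (G : SimpleGraph V) (lb : V → V) (co : Set V) (BB : Set (Set V)) (f k h : ℕ)
    (P : ℕ → Set V) : Prop where
  conn : ∀ a < h, (G.induce (P a)).Connected
  anti : ∀ a < h, ∀ b < h, a ≠ b → Anti G (P a) (P b)
  lab : ∀ a < h, ∀ b < h, a ≠ b → ∀ x ∈ P a, ∀ y ∈ P b, lb x ≠ lb y
  thin : Thin lb co f {v | ∃ a < h, v ∈ P a}
  ord : ∀ a < h, ∀ S : Set V, S.ncard < k → ∃ B ∈ BB, Disjoint B S ∧ TL G lb (P a) B

/-- `U` is a region for the pair of hubs `P a`, `P b` (among `n` hubs) -/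
structure Lk (G : SimpleGraph V) (lb : V → V) (co : Set V) (P : ℕ → Set V) (n f a b : ℕ)
    (U : Set V) : Prop where
  disa : Disjoint U (P a)
  disb : Disjoint U (P b)
  anti : ∀ x < n, x ≠ a → x ≠ b → Anti G U (P x)
  thin : Thin lb co f U

/-- a set of vertices that touches `P` only at the end: the path `w 0, ..., w l` touches the vertices
with labels in `B` only with its last vertex -/
structure Tip (G : SimpleGraph V) (lb : V → V) (co : Set V) (f : ℕ) (B : Set V) (w : ℕ → V)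
    (l : ℕ) : Prop where
  ip : IP G w l
  thin : Thin lb co f (rng w l)
  cont : ∀ a b d, a ≤ b → b ≤ d → d ≤ l → lb (w a) = lb (w d) → lb (w b) = lb (w a)
  last : TL G lb {w l} B
  only : ∀ i < l, ¬ TL G lb {w i} B

/-- `G` embeds in the strong product of a path and a graph of tree width at most `w` -/
def Emb (G : SimpleGraph V) (w : ℕ) : Prop :=
  ∃ (W : Type) (J : SimpleGraph W) (k : ℕ) (φ : V → W × Fin k), TreewidthLE J w ∧
    Function.Injective φ ∧ ∀ u v, G.Adj u v →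
      ((φ u).1 = (φ v).1 ∨ J.Adj (φ u).1 (φ v).1) ∧
      ((φ u).2 = (φ v).2 ∨ (SimpleGraph.pathGraph k).Adj (φ u).2 (φ v).2)

end Pool.Agent.IM55.PL
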