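import Pool.Agent.Work.MP_55ff09_co.PL.Base

/-!
# MP_55ff09_co, block PL, item AVG
-/

set_option autoImplicit false

namespace Pool.Agent.IM55.PL

open SimpleGraph Pool.Agent.IM55

namespace XAVG

open Finset

variable {t m : ℕ}

/-- resampling the coordinate `j` -/
def rs (j : Fin t) : ((Fin t → Fin m) × Fin m) ≃ ((Fin t → Fin m) × Fin m) where
  toFun p := (Function.update p.1 j p.2, p.1 j)
  invFun p := (Function.update p.1 j p.2, p.1 j)
  left_inv := by
    rintro ⟨F, c⟩
    simp
  right_inv := by
    rintro ⟨F, c⟩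
    simp

theorem resample (j : Fin t) (g : (Fin t → Fin m) → ℕ) :
    ∑ F : Fin t → Fin m, ∑ c : Fin m, g (Function.update F j c) = m * ∑ F, g F := by
  have h1 : ∑ p : (Fin t → Fin m) × Fin m, g (Function.update p.1 j p.2) =
      ∑ p : (Fin t → Fin m) × Fin m, g p.1 :=
    Equiv.sum_comp (rs j) (fun p : (Fin t → Fin m) × Fin m => g p.1)
  rw [Fintype.sum_prod_type, Fintype.sum_prod_type] at h1
  rw [h1, Finset.mul_sum]
  refine Finset.sum_congr rfl fun F _ => ?_
  simp

theorem card_fun : Fintype.card (Fin t → Fin m) = m ^ t := by simp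

theorem load (j : Fin t) (x : Fin m → ℕ) :
    m * ∑ F : Fin t → Fin m, x (F j) = m ^ t * ∑ c, x c := by
  rw [← resample j (fun F => x (F j))]
  simp

theorem pair {j j' : Fin t} (h : j ≠ j') (R : Fin m → Fin m → Prop) [DecidableRel R] (l : ℕ)
    (hR : ∀ c, (univ.filter fun c' => R c c').card ≤ l) :
    m * (univ.filter fun F : Fin t → Fin m => R (F j) (F j')).card ≤ l * m ^ t := by
  have h1 := resample j' (fun F : Fin t → Fin m => if R (F j) (F j') then 1 else 0)
  rw [Finset.card_filter, ← h1]
  calc ∑ F : Fin t → Fin m, ∑ c : Fin m,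
        (if R (Function.update F j' c j) (Function.update F j' c j') then 1 else 0)
      ≤ ∑ F : Fin t → Fin m, l := by
        refine Finset.sum_le_sum fun F _ => ?_
        have h2 := hR (F j)
        rw [Finset.card_filter] at h2
        simpa [Function.update_of_ne h] using h2
    _ = l * m ^ t := by
        rw [Finset.sum_const, Finset.card_univ, card_fun, smul_eq_mul, mul_comm]

/-- goodness of a tuple for a row -/
def good (P : ℕ → Prop) (Q : ℕ → ℕ → Prop) (F : Fin t → Fin m) : Prop :=
  Function.Injective F ∧ (∀ j, P (F j)) ∧ ∀ j j', j ≠ j' → ¬ Q (F j) (F j')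

open Classical in
theorem good_card (P : ℕ → Prop) (Q : ℕ → ℕ → Prop) (d l : ℕ) (hd : 1 ≤ d) (hm : 0 < m)
    (hbig : 2 * d ^ t * t ^ 2 * (l + 1) ≤ m)
    (hP : m ≤ d * (univ.filter fun c : Fin m => P c).card)
    (hQ : ∀ c : Fin m, (univ.filter fun c' : Fin m => Q c c').card ≤ l) :
    m ^ t ≤ 2 * d ^ t * (univ.filter fun F : Fin t → Fin m => good P Q F).card := by
  set p := (univ.filter fun c : Fin m => P c).card with hp
  -- all tuples with `P`
  have hA : (univ.filter fun F : Fin t → Fin m => ∀ j, P (F j)).card = p ^ t := by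
    have : (univ.filter fun F : Fin t → Fin m => ∀ j, P (F j)) =
        Fintype.piFinset (fun _ : Fin t => univ.filter fun c : Fin m => P c) := by
      ext F
      simp [Fintype.mem_piFinset]
    rw [this, Fintype.card_piFinset]
    simp [hp]
  have hA' : m ^ t ≤ d ^ t * p ^ t := by
    rw [← mul_pow]
    exact Nat.pow_le_pow_left hP t
  -- the pairs
  set pr := (univ : Finset (Fin t × Fin t)).filter fun q => q.1 ≠ q.2 with hpr
  have hprc : pr.card ≤ t ^ 2 := by
    refine (Finset.card_le_univ _).trans ?_
    simp [sq]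
  set E := fun q : Fin t × Fin t =>
    univ.filter fun F : Fin t → Fin m => F q.1 = F q.2 ∨ Q (F q.1) (F q.2) with hE
  have hEc : ∀ q ∈ pr, m * (E q).card ≤ (l + 1) * m ^ t := by
    intro q hq
    have hne : q.1 ≠ q.2 := (Finset.mem_filter.1 hq).2
    refine pair hne (fun c c' : Fin m => c = c' ∨ Q c c') (l + 1) fun c => ?_
    have : (univ.filter fun c' : Fin m => c = c' ∨ Q c c') ⊆
        {c} ∪ (univ.filter fun c' : Fin m => Q c c') := by
      intro c' hc'
      simp only [Finset.mem_filter, Finset.mem_univ, true_and] at hc'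
      simp only [Finset.mem_union, Finset.mem_singleton, Finset.mem_filter, Finset.mem_univ,
        true_and]
      rcases hc' with h | h
      · exact Or.inl h.symm
      · exact Or.inr h
    refine (Finset.card_le_card this).trans ((Finset.card_union_le _ _).trans ?_)
    have := hQ c
    simp only [Finset.card_singleton]
    omega
  have hsub : (univ.filter fun F : Fin t → Fin m => ∀ j, P (F j)) ⊆
      (univ.filter fun F : Fin t → Fin m => good P Q F) ∪ pr.biUnion E := by
    intro F hF
    simp only [Finset.mem_filter, Finset.mem_univ, true_and] at hF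
    rw [Finset.mem_union]
    by_cases hg : good P Q F
    · exact Or.inl (by simpa using hg)
    · right
      rw [Finset.mem_biUnion]
      unfold good at hg
      by_cases hi : Function.Injective F
      · have : ¬ ∀ j j', j ≠ j' → ¬ Q (F j) (F j') := fun h => hg ⟨hi, hF, h⟩
        push Not at this
        obtain ⟨j, j', hne, hq⟩ := this
        exact ⟨(j, j'), by simp [hpr, hne], by simp [hE, hq]⟩
      · unfold Function.Injective at hi
        push Not at hi
        obtain ⟨j, j', he, hne⟩ := hi
        exact ⟨(j, j'), by simp [hpr, hne], by simp [hE, he]⟩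
  have hbad : m * (pr.biUnion E).card ≤ t ^ 2 * ((l + 1) * m ^ t) := by
    calc m * (pr.biUnion E).card ≤ m * ∑ q ∈ pr, (E q).card :=
          Nat.mul_le_mul_left _ Finset.card_biUnion_le
      _ = ∑ q ∈ pr, m * (E q).card := Finset.mul_sum _ _ _
      _ ≤ ∑ q ∈ pr, (l + 1) * m ^ t := Finset.sum_le_sum hEc
      _ = pr.card * ((l + 1) * m ^ t) := by rw [Finset.sum_const, smul_eq_mul]
      _ ≤ t ^ 2 * ((l + 1) * m ^ t) := Nat.mul_le_mul_right _ hprc
  set b := (pr.biUnion E).card with hb
  set g := (univ.filter fun F : Fin t → Fin m => good P Q F).card with hg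
  have h1 : p ^ t ≤ g + b := by
    rw [← hA]
    exact (Finset.card_le_card hsub).trans (Finset.card_union_le _ _)
  -- `2 d ^ t b ≤ m ^ t`
  have h2 : 2 * d ^ t * b ≤ m ^ t := by
    have h3 : m * (2 * d ^ t * b) ≤ m * m ^ t := by
      calc m * (2 * d ^ t * b) = 2 * d ^ t * (m * b) := by ring
        _ ≤ 2 * d ^ t * (t ^ 2 * ((l + 1) * m ^ t)) := Nat.mul_le_mul_left _ hbad
        _ = (2 * d ^ t * t ^ 2 * (l + 1)) * m ^ t := by ring
        _ ≤ m * m ^ t := Nat.mul_le_mul_right _ hbig
    exact Nat.le_of_mul_le_mul_left h3 hm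
  have h4 : d ^ t * p ^ t ≤ d ^ t * g + d ^ t * b := by
    rw [← mul_add]
    exact Nat.mul_le_mul_left _ h1
  have h5 : 2 * d ^ t * b = 2 * (d ^ t * b) := by ring
  have h6 : 2 * d ^ t * g = 2 * (d ^ t * g) := by ring
  rw [h5] at h2
  rw [h6]
  omega

end XAVG

open Finset in
open Classical in
/-- AVG: averaging over `t`-tuples of columns -/
theorem i_AVG : S_AVG := by
  intro t d K m s N l S P Q x hd hN hm hbig hS hP hQ hx
  have hδ : 1 ≤ d ^ t := Nat.one_le_pow _ _ hd
  set δ := d ^ t with hδd
  have htm : t ≤ m := by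
    have h1 : t ≤ 2 * δ * t ^ 2 * (l + 1) := by
      rcases Nat.eq_zero_or_pos t with h | h
      · simp [h]
      · calc t = 1 * 1 * t * 1 := by ring
          _ ≤ 2 * δ * t ^ 2 * (l + 1) := by
            refine Nat.mul_le_mul (Nat.mul_le_mul (Nat.mul_le_mul (by norm_num) hδ) ?_) (by omega)
            nlinarith
    exact h1.trans hbig
  rcases Nat.eq_zero_or_pos s with hs | hs
  · refine ⟨id, ∅, fun j hj => lt_of_lt_of_le hj htm, fun j _ j' _ h => h, by simp, by simp [hs],
      by simp⟩
  let Ω := Fin t → Fin m
  have hΩ : Fintype.card Ω = m ^ t := by simp [Ω]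
  have hmt : 0 < m ^ t := pow_pos hm t
  -- the number of good rows
  let gd : ℕ → Ω → ℕ := fun i F => ((S i).filter fun a => XAVG.good (P a) (Q a) F).card
  let y : ℕ → Ω → ℕ := fun i F => ∑ j : Fin t, x i (F j)
  have hgood : ∀ i < s, ∀ a ∈ S i,
      m ^ t ≤ 2 * δ * (univ.filter fun F : Ω => XAVG.good (P a) (Q a) F).card := by
    intro i hi a ha
    refine XAVG.good_card (P a) (Q a) d l hd hm hbig ?_ ?_
    · refine (hP i hi a ha).trans (Nat.mul_le_mul_left _ ?_)
      have : {c | c < m ∧ P a c} ⊆
          ((univ.filter fun c : Fin m => P a c).image (fun c : Fin m => (c : ℕ)) : Finset ℕ) := by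
        rintro c ⟨h1, h2⟩
        simp only [Finset.coe_image, Set.mem_image, Finset.mem_coe, Finset.mem_filter,
          Finset.mem_univ, true_and]
        exact ⟨⟨c, h1⟩, h2, rfl⟩
      refine (Set.ncard_le_ncard this (Finset.finite_toSet _)).trans ?_
      rw [Set.ncard_coe_finset]
      exact Finset.card_image_le
    · intro c
      refine le_trans ?_ (hQ i hi a ha c c.2)
      have e : ((univ.filter fun c' : Fin m => Q a c c').image (fun c : Fin m => (c : ℕ))).card =
          (univ.filter fun c' : Fin m => Q a c c').card :=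
        Finset.card_image_of_injective _ Fin.val_injective
      rw [← e, ← Set.ncard_coe_finset]
      refine Set.ncard_le_ncard ?_ ((Set.finite_lt_nat m).subset fun c' h => h.1)
      intro c' hc'
      simp only [Finset.coe_image, Set.mem_image, Finset.mem_coe, Finset.mem_filter,
        Finset.mem_univ, true_and] at hc'
      obtain ⟨c'', h1, rfl⟩ := hc'
      exact ⟨c''.2, h1⟩
  -- the sets of tuples
  let T : ℕ → Finset Ω := fun i => univ.filter fun F : Ω =>
    N ≤ 16 * δ * gd i F ∧ y i F ≤ 16 * δ * (K * t + 1)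
  have hT : ∀ i < s, m ^ t ≤ 16 * δ * (T i).card := by
    intro i hi
    have hSi : 1 ≤ (S i).card := hN.trans (hS i hi)
    set B := univ.filter fun F : Ω => N ≤ 16 * δ * gd i F with hB
    set H := univ.filter fun F : Ω => 16 * δ * (K * t + 1) < y i F with hH
    have hTB : B ⊆ T i ∪ H := by
      intro F hF
      rw [Finset.mem_union]
      by_cases h : y i F ≤ 16 * δ * (K * t + 1)
      · left
        simp only [T, Finset.mem_filter, Finset.mem_univ, true_and]
        exact ⟨by simpa [hB] using hF, h⟩
      · right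
        simp only [hH, Finset.mem_filter, Finset.mem_univ, true_and]
        omega
    -- double counting of good rows
    have hsum : ∑ F : Ω, gd i F =
        ∑ a ∈ S i, (univ.filter fun F : Ω => XAVG.good (P a) (Q a) F).card := by
      simp only [gd, Finset.card_filter]
      rw [Finset.sum_comm]
    have h1 : (S i).card * m ^ t ≤ 2 * δ * ∑ F : Ω, gd i F := by
      rw [hsum, Finset.mul_sum]
      calc (S i).card * m ^ t = ∑ a ∈ S i, m ^ t := by rw [Finset.sum_const, smul_eq_mul]
        _ ≤ _ := Finset.sum_le_sum fun a ha => hgood i hi a ha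
    have h2 : 16 * δ * ∑ F : Ω, gd i F ≤ 16 * δ * (B.card * (S i).card) + m ^ t * (S i).card := by
      have h3 : ∀ F : Ω, 16 * δ * gd i F ≤
          (if F ∈ B then 16 * δ * (S i).card else 0) + (S i).card := by
        intro F
        by_cases hF : F ∈ B
        · rw [if_pos hF]
          have : gd i F ≤ (S i).card := Finset.card_filter_le _ _
          exact (Nat.mul_le_mul_left _ this).trans (Nat.le_add_right _ _)
        · rw [if_neg hF, zero_add]
          simp only [hB, Finset.mem_filter, Finset.mem_univ, true_and, not_le] at hF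
          exact (le_of_lt hF).trans (hS i hi)
      calc 16 * δ * ∑ F : Ω, gd i F = ∑ F : Ω, 16 * δ * gd i F := Finset.mul_sum _ _ _
        _ ≤ ∑ F : Ω, ((if F ∈ B then 16 * δ * (S i).card else 0) + (S i).card) :=
            Finset.sum_le_sum fun F _ => h3 F
        _ = 16 * δ * (B.card * (S i).card) + m ^ t * (S i).card := by
            rw [Finset.sum_add_distrib, Finset.sum_const, Finset.card_univ, hΩ, smul_eq_mul,
              Finset.sum_ite_mem, Finset.univ_inter, Finset.sum_const, smul_eq_mul]
            ring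
    have h4 : 7 * m ^ t ≤ 16 * δ * B.card := by
      have h5 : (S i).card * (7 * m ^ t) ≤ (S i).card * (16 * δ * B.card) := by
        have e1 : 16 * δ * ∑ F : Ω, gd i F = 8 * (2 * δ * ∑ F : Ω, gd i F) := by ring
        have e2 : 16 * δ * (B.card * (S i).card) = (S i).card * (16 * δ * B.card) := by ring
        have e3 : m ^ t * (S i).card = (S i).card * m ^ t := by ring
        have e4 : (S i).card * (7 * m ^ t) = 7 * ((S i).card * m ^ t) := by ring
        rw [e1, e2, e3] at h2
        rw [e4]
        omega
      exact Nat.le_of_mul_le_mul_left h5 hSi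
    -- the loads
    have h6 : 16 * δ * H.card ≤ m ^ t := by
      have h7 : ∑ F : Ω, y i F ≤ t * (K * m ^ t) := by
        have h8 : ∀ j : Fin t, ∑ F : Ω, x i (F j) ≤ K * m ^ t := by
          intro j
          have h9 := XAVG.load j (fun c : Fin m => x i c)
          have h10 : ∑ c : Fin m, x i c ≤ K * m := by
            rw [Fin.sum_univ_eq_sum_range (fun c => x i c) m]
            exact hx i hi
          have h11 : m * ∑ F : Ω, x i (F j) ≤ m * (K * m ^ t) := by
            calc m * ∑ F : Ω, x i (F j) = m ^ t * ∑ c : Fin m, x i c := h9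
              _ ≤ m ^ t * (K * m) := Nat.mul_le_mul_left _ h10
              _ = m * (K * m ^ t) := by ring
          exact Nat.le_of_mul_le_mul_left h11 hm
        calc ∑ F : Ω, y i F = ∑ j : Fin t, ∑ F : Ω, x i (F j) := by
              simp only [y]
              rw [Finset.sum_comm]
          _ ≤ ∑ j : Fin t, K * m ^ t := Finset.sum_le_sum fun j _ => h8 j
          _ = t * (K * m ^ t) := by simp
      have h12 : 16 * δ * (K * t + 1) * H.card ≤ ∑ F : Ω, y i F := by
        calc 16 * δ * (K * t + 1) * H.card = ∑ F ∈ H, 16 * δ * (K * t + 1) := by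
              rw [Finset.sum_const, smul_eq_mul, mul_comm]
          _ ≤ ∑ F ∈ H, y i F := by
              refine Finset.sum_le_sum fun F hF => ?_
              simp only [hH, Finset.mem_filter, Finset.mem_univ, true_and] at hF
              exact hF.le
          _ ≤ ∑ F : Ω, y i F :=
              Finset.sum_le_sum_of_subset (Finset.subset_univ _)
      have h13 : (K * t + 1) * (16 * δ * H.card) ≤ (K * t + 1) * m ^ t := by
        calc (K * t + 1) * (16 * δ * H.card) = 16 * δ * (K * t + 1) * H.card := by ring
          _ ≤ t * (K * m ^ t) := h12.trans h7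
          _ = K * t * m ^ t := by ring
          _ ≤ (K * t + 1) * m ^ t := Nat.mul_le_mul_right _ (Nat.le_succ _)
      exact Nat.le_of_mul_le_mul_left h13 (Nat.succ_pos _)
    have h14 : 16 * δ * B.card ≤ 16 * δ * (T i).card + 16 * δ * H.card := by
      rw [← mul_add]
      exact Nat.mul_le_mul_left _ ((Finset.card_le_card hTB).trans (Finset.card_union_le _ _))
    omega
  -- choose the tuple
  obtain ⟨F, hF⟩ : ∃ F : Ω, s ≤ 16 * δ * ((Finset.range s).filter fun i => F ∈ T i).card := by
    by_contra hcon
    push Not at hcon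
    have h1 : ∑ F : Ω, 16 * δ * ((Finset.range s).filter fun i => F ∈ T i).card <
        ∑ F : Ω, s := by
      refine Finset.sum_lt_sum_of_nonempty ?_ fun F _ => hcon F
      haveI : Nonempty (Fin m) := ⟨⟨0, hm⟩⟩
      exact Finset.univ_nonempty
    have h2 : ∑ F : Ω, 16 * δ * ((Finset.range s).filter fun i => F ∈ T i).card =
        ∑ i ∈ Finset.range s, 16 * δ * (T i).card := by
      rw [← Finset.mul_sum, ← Finset.mul_sum]
      congr 1
      simp only [Finset.card_filter]
      rw [Finset.sum_comm]
      refine Finset.sum_congr rfl fun i _ => ?_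
      rw [← Finset.card_filter]
      congr 1
      ext F
      simp
    have h3 : s * m ^ t ≤ ∑ i ∈ Finset.range s, 16 * δ * (T i).card := by
      calc s * m ^ t = ∑ i ∈ Finset.range s, m ^ t := by simp
        _ ≤ _ := Finset.sum_le_sum fun i hi => hT i (Finset.mem_range.1 hi)
    rw [h2, Finset.sum_const, Finset.card_univ, hΩ, smul_eq_mul, mul_comm (m ^ t) s] at h1
    omega
  set J := (Finset.range s).filter fun i => F ∈ T i with hJ
  have hJpos : 0 < J.card := by
    rcases Nat.eq_zero_or_pos J.card with h | h
    · rw [h] at hF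
      omega
    · exact h
  have hJT : ∀ i ∈ J, N ≤ 16 * δ * gd i F ∧ y i F ≤ 16 * δ * (K * t + 1) := by
    intro i hi
    have := (Finset.mem_filter.1 hi).2
    simpa [T] using this
  have hinj : Function.Injective F := by
    obtain ⟨i, hi⟩ := Finset.card_pos.1 hJpos
    have h1 := (hJT i hi).1
    have h2 : 0 < gd i F := by
      rcases Nat.eq_zero_or_pos (gd i F) with h | h
      · rw [h] at h1
        omega
      · exact h
    obtain ⟨a, ha⟩ := Finset.card_pos.1 h2
    exact (Finset.mem_filter.1 ha).2.1
  refine ⟨fun j => if h : j < t then (F ⟨j, h⟩ : ℕ) else 0, J, ?_, ?_, Finset.filter_subset _ _,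
    hF, ?_⟩
  · intro j hj
    simp only [dif_pos hj]
    exact (F ⟨j, hj⟩).2
  · intro j hj j' hj' hne he
    simp only [dif_pos hj, dif_pos hj'] at he
    have := hinj (Fin.val_injective he)
    exact hne (by simpa using this)
  · intro i hi
    obtain ⟨h1, h2⟩ := hJT i hi
    constructor
    · refine le_trans (le_of_eq ?_) h2
      simp only [y]
      rw [← Fin.sum_univ_eq_sum_range
        (fun j => x i (if h : j < t then (F ⟨j, h⟩ : ℕ) else 0)) t]
      refine Finset.sum_congr rfl fun j _ => ?_
      simp
    · refine h1.trans (Nat.mul_le_mul_left _ ?_)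
      simp only [gd]
      rw [← Set.ncard_coe_finset]
      refine Set.ncard_le_ncard ?_ ((S i).finite_toSet.subset fun a h => h.1)
      intro a ha
      simp only [Finset.coe_filter, Set.mem_setOf_eq] at ha
      obtain ⟨ha1, ha2, ha3, ha4⟩ := ha
      refine ⟨ha1, ?_, ?_⟩
      · intro j hj
        simp only [dif_pos hj]
        exact ha3 ⟨j, hj⟩
      · intro j hj j' hj' hne
        simp only [dif_pos hj, dif_pos hj']
        exact ha4 ⟨j, hj⟩ ⟨j', hj'⟩ (fun h => hne (by simpa using h))

end Pool.Agent.IM55.PL
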