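import Pool.Agent.Work.MP_55ff09_co.PL.Base

set_option autoImplicit false

namespace Pool.Agent.IM55.PL

namespace XAVH

/-- a permutation of `Fin h` as a function on natural numbers -/
def g {h : ℕ} (s : Equiv.Perm (Fin h)) (i : ℕ) : ℕ := if hi : i < h then (s ⟨i, hi⟩ : ℕ) else 0

theorem g_val {h : ℕ} (s : Equiv.Perm (Fin h)) {i : ℕ} (hi : i < h) : g s i = (s ⟨i, hi⟩ : ℕ) := by
  unfold g
  rw [dif_pos hi]

theorem g_lt {h : ℕ} (s : Equiv.Perm (Fin h)) {i : ℕ} (hi : i < h) : g s i < h := by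
  rw [g_val s hi]
  exact (s _).2

theorem g_inj {h : ℕ} (s : Equiv.Perm (Fin h)) {i j : ℕ} (hi : i < h) (hj : j < h)
    (e : g s i = g s j) : i = j := by
  rw [g_val s hi, g_val s hj] at e
  have := s.injective (Fin.ext e)
  exact congrArg Fin.val this

theorem g_surj {h : ℕ} (s : Equiv.Perm (Fin h)) {e : ℕ} (he : e < h) : ∃ i < h, g s i = e := by
  refine ⟨(s.symm ⟨e, he⟩ : Fin h), (s.symm ⟨e, he⟩).2, ?_⟩
  rw [g_val s (s.symm ⟨e, he⟩).2]
  simp

theorem g_mul {h : ℕ} (s τ : Equiv.Perm (Fin h)) {i : ℕ} (hi : i < h) :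
    g (s * τ) i = g s (g τ i) := by
  rw [g_val _ hi, g_val s (g_lt τ hi)]
  simp only [Equiv.Perm.coe_mul, Function.comp_apply]
  congr 2
  exact Fin.ext (g_val τ hi).symm

theorem g_swap_left {h l l' : ℕ} (hl : l < h) (hl' : l' < h) :
    g (Equiv.swap (⟨l, hl⟩ : Fin h) ⟨l', hl'⟩) l = l' := by
  rw [g_val _ hl, Equiv.swap_apply_left]

theorem g_swap_ne {h l l' i : ℕ} (hl : l < h) (hl' : l' < h) (hi : i < h) (h1 : i ≠ l)
    (h2 : i ≠ l') : g (Equiv.swap (⟨l, hl⟩ : Fin h) ⟨l', hl'⟩) i = i := by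
  rw [g_val _ hi, Equiv.swap_apply_of_ne_of_ne]
  · intro e
    exact h1 (congrArg Fin.val e)
  · intro e
    exact h2 (congrArg Fin.val e)

/-- the sum over all permutations does not depend on the third index -/
theorem sum_eq {h : ℕ} (x : ℕ → ℕ → ℕ → ℕ) {i j l l' : ℕ} (hi : i < h) (hj : j < h) (hl : l < h)
    (hl' : l' < h) (h1 : l ≠ i) (h2 : l ≠ j) (h3 : l' ≠ i) (h4 : l' ≠ j) :
    ∑ s : Equiv.Perm (Fin h), x (g s i) (g s j) (g s l') =
      ∑ s : Equiv.Perm (Fin h), x (g s i) (g s j) (g s l) := by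
  have e := Equiv.sum_comp (Equiv.mulRight (Equiv.swap (⟨l, hl⟩ : Fin h) ⟨l', hl'⟩))
    (fun s : Equiv.Perm (Fin h) => x (g s i) (g s j) (g s l))
  rw [← e]
  refine Finset.sum_congr rfl fun s _ => ?_
  simp only [Equiv.coe_mulRight]
  rw [g_mul s _ hi, g_mul s _ hj, g_mul s _ hl, g_swap_left hl hl',
    g_swap_ne hl hl' hi h1.symm h3.symm, g_swap_ne hl hl' hj h2.symm h4.symm]

/-- the sum over the third index is the sum over all values -/
theorem sum_third {h : ℕ} (x : ℕ → ℕ → ℕ → ℕ) (s : Equiv.Perm (Fin h)) {i j : ℕ} (hi : i < h)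
    (hj : j < h) :
    ∑ l ∈ (Finset.range h).filter (fun l => l ≠ i ∧ l ≠ j), x (g s i) (g s j) (g s l) =
      ∑ e ∈ (Finset.range h).filter (fun e => e ≠ g s i ∧ e ≠ g s j), x (g s i) (g s j) e := by
  refine Finset.sum_bij (fun l _ => g s l) ?_ ?_ ?_ ?_
  · intro l hl
    simp only [Finset.mem_filter, Finset.mem_range] at hl ⊢
    refine ⟨g_lt s hl.1, ?_, ?_⟩
    · intro e
      exact hl.2.1 (g_inj s hl.1 hi e)
    · intro e
      exact hl.2.2 (g_inj s hl.1 hj e)
  · intro a ha b hb e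
    simp only [Finset.mem_filter, Finset.mem_range] at ha hb
    exact g_inj s ha.1 hb.1 e
  · intro b hb
    simp only [Finset.mem_filter, Finset.mem_range] at hb
    obtain ⟨i', hi', e⟩ := g_surj s hb.1
    refine ⟨i', ?_, e⟩
    simp only [Finset.mem_filter, Finset.mem_range]
    refine ⟨hi', ?_, ?_⟩
    · rintro rfl
      exact hb.2.1 e.symm
    · rintro rfl
      exact hb.2.2 e.symm
  · intro l _
    rfl

theorem card_two {h i j : ℕ} (hi : i < h) (hj : j < h) (hij : i ≠ j) :
    ((Finset.range h).filter (fun l => l ≠ i ∧ l ≠ j)).card = h - 2 := by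
  have e : (Finset.range h).filter (fun l => l ≠ i ∧ l ≠ j) =
      ((Finset.range h).erase i).erase j := by
    ext l
    simp only [Finset.mem_filter, Finset.mem_range, Finset.mem_erase]
    tauto
  rw [e, Finset.card_erase_of_mem, Finset.card_erase_of_mem, Finset.card_range]
  · omega
  · exact Finset.mem_range.mpr hi
  · exact Finset.mem_erase.mpr ⟨hij.symm, Finset.mem_range.mpr hj⟩

theorem triple {h d m : ℕ} (x : ℕ → ℕ → ℕ → ℕ)
    (hx : ∀ a < h, ∀ b < h, a ≠ b →
      d * ∑ e ∈ (Finset.range h).filter (fun e => e ≠ a ∧ e ≠ b), x a b e ≤ h * m)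
    {i j l : ℕ} (hi : i < h) (hj : j < h) (hl : l < h) (hij : i ≠ j) (h1 : l ≠ i) (h2 : l ≠ j) :
    (h - 2) * (d * ∑ s : Equiv.Perm (Fin h), x (g s i) (g s j) (g s l)) ≤
      ∑ _s : Equiv.Perm (Fin h), h * m := by
  have e1 : ∑ l' ∈ (Finset.range h).filter (fun l => l ≠ i ∧ l ≠ j),
      ∑ s : Equiv.Perm (Fin h), x (g s i) (g s j) (g s l') =
      (h - 2) * ∑ s : Equiv.Perm (Fin h), x (g s i) (g s j) (g s l) := by
    rw [Finset.sum_congr rfl (fun l' hl' => ?_), Finset.sum_const, card_two hi hj hij,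
      smul_eq_mul]
    simp only [Finset.mem_filter, Finset.mem_range] at hl'
    exact sum_eq x hi hj hl hl'.1 h1 h2 hl'.2.1 hl'.2.2
  rw [mul_left_comm, ← e1, Finset.sum_comm, Finset.mul_sum]
  refine Finset.sum_le_sum fun s _ => ?_
  rw [sum_third x s hi hj]
  exact hx _ (g_lt s hi) _ (g_lt s hj) (fun e => hij (g_inj s hi hj e))

end XAVH

open XAVH in
theorem i_AVH : S_AVH := by
  intro n h d m x hh hx
  have hnn : n ≤ n ^ 2 := by
    rw [sq]
    exact Nat.le_mul_self n
  have hnh : n ≤ h := by omega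
  by_cases hn : n ≤ 1
  · refine ⟨fun i => i, fun i hi => lt_of_lt_of_le hi hnh, fun i hi j hj hij => hij, ?_⟩
    intro i hi j hj hij
    omega
  have hh9 : 9 ≤ h := by
    have : 2 ^ 2 ≤ n ^ 2 := Nat.pow_le_pow_left (by omega) 2
    omega
  -- the total cost
  let cost : Equiv.Perm (Fin h) → ℕ := fun s =>
    ∑ i ∈ Finset.range n, ∑ j ∈ (Finset.range n).filter (fun j => i ≠ j),
      (h - 2) * (d * ∑ l ∈ (Finset.range n).filter (fun l => l ≠ i ∧ l ≠ j),
        x (g s i) (g s j) (g s l))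
  have htot : ∑ s : Equiv.Perm (Fin h), cost s ≤
      ∑ _s : Equiv.Perm (Fin h), n ^ 3 * (h * m) := by
    simp only [cost]
    rw [Finset.sum_comm]
    have e1 : ∀ i ∈ Finset.range n, ∑ s : Equiv.Perm (Fin h),
        ∑ j ∈ (Finset.range n).filter (fun j => i ≠ j),
        (h - 2) * (d * ∑ l ∈ (Finset.range n).filter (fun l => l ≠ i ∧ l ≠ j),
          x (g s i) (g s j) (g s l)) ≤ n * (n * ∑ _s : Equiv.Perm (Fin h), h * m) := by
      intro i hi
      rw [Finset.mem_range] at hi
      rw [Finset.sum_comm]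
      have e2 : ∀ j ∈ (Finset.range n).filter (fun j => i ≠ j), ∑ s : Equiv.Perm (Fin h),
          (h - 2) * (d * ∑ l ∈ (Finset.range n).filter (fun l => l ≠ i ∧ l ≠ j),
            x (g s i) (g s j) (g s l)) ≤ n * ∑ _s : Equiv.Perm (Fin h), h * m := by
        intro j hj
        simp only [Finset.mem_filter, Finset.mem_range] at hj
        rw [← Finset.mul_sum, ← Finset.mul_sum, Finset.sum_comm, Finset.mul_sum, Finset.mul_sum]
        calc ∑ l ∈ (Finset.range n).filter (fun l => l ≠ i ∧ l ≠ j),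
              (h - 2) * (d * ∑ s : Equiv.Perm (Fin h), x (g s i) (g s j) (g s l))
            ≤ ∑ l ∈ (Finset.range n).filter (fun l => l ≠ i ∧ l ≠ j),
              ∑ _s : Equiv.Perm (Fin h), h * m := by
              refine Finset.sum_le_sum fun l hl => ?_
              simp only [Finset.mem_filter, Finset.mem_range] at hl
              exact triple x hx (by omega) (by omega) (by omega) hj.2 hl.2.1 hl.2.2
          _ = ((Finset.range n).filter (fun l => l ≠ i ∧ l ≠ j)).card *
              ∑ _s : Equiv.Perm (Fin h), h * m := by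
              rw [Finset.sum_const, smul_eq_mul]
          _ ≤ n * ∑ _s : Equiv.Perm (Fin h), h * m := by
              refine Nat.mul_le_mul_right _ ?_
              refine (Finset.card_filter_le _ _).trans ?_
              rw [Finset.card_range]
      refine (Finset.sum_le_sum e2).trans ?_
      rw [Finset.sum_const, smul_eq_mul]
      refine Nat.mul_le_mul_right _ ?_
      refine (Finset.card_filter_le _ _).trans ?_
      rw [Finset.card_range]
    refine (Finset.sum_le_sum e1).trans ?_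
    rw [Finset.sum_const, smul_eq_mul, Finset.card_range]
    apply le_of_eq
    calc n * (n * (n * ∑ _s : Equiv.Perm (Fin h), h * m))
        = n ^ 3 * ∑ _s : Equiv.Perm (Fin h), h * m := by
          generalize ∑ _s : Equiv.Perm (Fin h), h * m = Z
          ring
      _ = ∑ _s : Equiv.Perm (Fin h), n ^ 3 * (h * m) := by rw [Finset.mul_sum]
  obtain ⟨s, -, hs⟩ := Finset.exists_le_of_sum_le Finset.univ_nonempty htot
  refine ⟨g s, fun i hi => g_lt s (by omega), fun i hi j hj hij e =>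
    hij (g_inj s (by omega) (by omega) e), ?_⟩
  intro i hi j hj hij
  set S := ∑ l ∈ (Finset.range n).filter (fun l => l ≠ i ∧ l ≠ j), x (g s i) (g s j) (g s l)
    with hS
  have e3 : (h - 2) * (d * S) ≤ cost s := by
    calc (h - 2) * (d * S) ≤ ∑ j ∈ (Finset.range n).filter (fun j => i ≠ j),
          (h - 2) * (d * ∑ l ∈ (Finset.range n).filter (fun l => l ≠ i ∧ l ≠ j),
            x (g s i) (g s j) (g s l)) :=
          Finset.single_le_sum (f := fun j => (h - 2) *
            (d * ∑ l ∈ (Finset.range n).filter (fun l => l ≠ i ∧ l ≠ j),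
              x (g s i) (g s j) (g s l))) (fun _ _ => Nat.zero_le _)
            (Finset.mem_filter.mpr ⟨Finset.mem_range.mpr hj, hij⟩)
      _ ≤ cost s :=
          Finset.single_le_sum (f := fun i => ∑ j ∈ (Finset.range n).filter (fun j => i ≠ j),
            (h - 2) * (d * ∑ l ∈ (Finset.range n).filter (fun l => l ≠ i ∧ l ≠ j),
              x (g s i) (g s j) (g s l))) (fun _ _ => Nat.zero_le _) (Finset.mem_range.mpr hi)
  have e4 : (h - 2) * (d * S) ≤ (h - 2) * (2 * n ^ 3 * m) := by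
    refine e3.trans (hs.trans ?_)
    calc n ^ 3 * (h * m) ≤ n ^ 3 * ((2 * (h - 2)) * m) :=
          Nat.mul_le_mul_left _ (Nat.mul_le_mul_right _ (by omega))
      _ = (h - 2) * (2 * n ^ 3 * m) := by ring
  have e5 : d * S ≤ 2 * n ^ 3 * m := Nat.le_of_mul_le_mul_left e4 (by omega)
  exact e5.trans (Nat.mul_le_mul_right _ (Nat.le_succ _))

end Pool.Agent.IM55.PL
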