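import Pool.Agent.Work.MP_55ff09_co.PL.Base

/-!
# MP_55ff09_co, block PL, item BDG: few bad gaps
-/

set_option autoImplicit false

namespace Pool.Agent.IM55.PL

open SimpleGraph Pool.Agent.IM55

namespace XBDG

variable {V : Type} {G : SimpleGraph V}

/-- a walk from inside `X` to outside `X` has a boundary vertex -/
theorem exit_fwd {U B X : Set V} {f : ℕ → V} {a b : ℕ} (hab : a ≤ b)
    (hadj : ∀ i, a ≤ i → i < b → G.Adj (f i) (f (i + 1)))
    (hU : ∀ i, a ≤ i → i ≤ b → f i ∈ U) (ha : f a ∈ X) (hb : f b ∉ X) :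
    ∃ c, a ≤ c ∧ c ≤ b ∧ f c ∈ bd G U B X := by
  induction b, hab using Nat.le_induction with
  | base => exact absurd ha hb
  | succ b hab ih =>
    by_cases h : f b ∈ X
    · exact ⟨b, hab, by omega, h, Or.inr ⟨f (b + 1), hU _ (by omega) le_rfl, hb,
        hadj b hab (by omega)⟩⟩
    · obtain ⟨c, h1, h2, h3⟩ := ih (fun i h1 h2 => hadj i h1 (by omega))
        (fun i h1 h2 => hU i h1 (by omega)) h
      exact ⟨c, h1, by omega, h3⟩

/-- a walk from outside `X` to inside `X` has a boundary vertex -/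
theorem exit_bwd {U B X : Set V} {f : ℕ → V} {a b : ℕ} (hab : a ≤ b)
    (hadj : ∀ i, a ≤ i → i < b → G.Adj (f i) (f (i + 1)))
    (hU : ∀ i, a ≤ i → i ≤ b → f i ∈ U) (ha : f a ∉ X) (hb : f b ∈ X) :
    ∃ c, a ≤ c ∧ c ≤ b ∧ f c ∈ bd G U B X := by
  induction b, hab using Nat.le_induction with
  | base => exact absurd hb ha
  | succ b hab ih =>
    by_cases h : f b ∈ X
    · obtain ⟨c, h1, h2, h3⟩ := ih (fun i h1 h2 => hadj i h1 (by omega))
        (fun i h1 h2 => hU i h1 (by omega)) h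
      exact ⟨c, h1, by omega, h3⟩
    · exact ⟨b + 1, by omega, le_rfl, hb, Or.inr ⟨f b, hU _ hab (by omega), h,
        (hadj b hab (by omega)).symm⟩⟩

/-- between a position in `X` and a position outside `X` or on the boundary of `X` there is a
boundary position -/
theorem between {U B X : Set V} {f : ℕ → V} {L p q : ℕ} (hip : IP G f L) (hU : rng f L ⊆ U)
    (hp : p ≤ L) (hq : q ≤ L) (h1 : f p ∈ X) (h2 : f q ∉ X ∨ f q ∈ bd G U B X) :
    ∃ c, min p q ≤ c ∧ c ≤ max p q ∧ f c ∈ bd G U B X := by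
  rcases h2 with h2 | h2
  · rcases le_total p q with h | h
    · obtain ⟨c, h3, h4, h5⟩ := exit_fwd (B := B) h (fun i _ h4 => hip.adj i (by omega))
        (fun i _ h4 => hU ⟨i, by omega, rfl⟩) h1 h2
      exact ⟨c, by omega, by omega, h5⟩
    · obtain ⟨c, h3, h4, h5⟩ := exit_bwd (B := B) h (fun i _ h4 => hip.adj i (by omega))
        (fun i _ h4 => hU ⟨i, by omega, rfl⟩) h2 h1
      exact ⟨c, by omega, by omega, h5⟩
  · exact ⟨q, by omega, by omega, h2⟩

/-- counting -/
theorem cnt [Finite V] {f : ℕ → V} {L g : ℕ} {S : Set ℕ} {T : Set V} {τ : ℕ → ℕ}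
    (hinj : ∀ i ≤ L, ∀ j ≤ L, f i = f j → i = j)
    (hmon : (∀ k < g, ∀ k' < g, k < k' → τ k < τ k') ∨ ∀ k < g, ∀ k' < g, k < k' → τ k' < τ k)
    (hS : ∀ l ∈ S, l + 1 < g ∧ ∃ c ≤ L, min (τ l) (τ (l + 1)) < c ∧ c ≤ max (τ l) (τ (l + 1)) ∧
      f c ∈ T) : S.ncard ≤ (T ∩ rng f L).ncard := by
  have hS2 : ∀ l, ∃ c, l ∈ S → c ≤ L ∧ min (τ l) (τ (l + 1)) < c ∧
      c ≤ max (τ l) (τ (l + 1)) ∧ f c ∈ T := by
    intro l
    by_cases h : l ∈ S
    · obtain ⟨-, c, h1, h2⟩ := hS l h
      exact ⟨c, fun _ => ⟨h1, h2⟩⟩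
    · exact ⟨0, fun h' => absurd h' h⟩
  choose c hc using hS2
  refine Set.ncard_le_ncard_of_injOn (fun l => f (c l)) ?_ ?_ (Set.toFinite _)
  · intro l hl
    exact ⟨(hc l hl).2.2.2, c l, (hc l hl).1, rfl⟩
  · have key : ∀ l ∈ S, ∀ l' ∈ S, l < l' → f (c l) ≠ f (c l') := by
      intro l hl l' hl' hlt he
      have e := hinj _ (hc l hl).1 _ (hc l' hl').1 he
      obtain ⟨-, h1, h2, -⟩ := hc l hl
      obtain ⟨-, h3, h4, -⟩ := hc l' hl'
      have g1 := (hS l hl).1
      have g2 := (hS l' hl').1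
      rcases hmon with hm | hm
      · have a1 := hm l (by omega) (l + 1) (by omega) (by omega)
        have a2 := hm l' (by omega) (l' + 1) (by omega) (by omega)
        have a3 : τ (l + 1) ≤ τ l' := by
          rcases Nat.lt_or_ge (l + 1) l' with h | h
          · exact (hm (l + 1) (by omega) l' (by omega) h).le
          · have : l' = l + 1 := by omega
            rw [this]
        omega
      · have a1 := hm l (by omega) (l + 1) (by omega) (by omega)
        have a2 := hm l' (by omega) (l' + 1) (by omega) (by omega)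
        have a3 : τ l' ≤ τ (l + 1) := by
          rcases Nat.lt_or_ge (l + 1) l' with h | h
          · exact (hm (l + 1) (by omega) l' (by omega) h).le
          · have : l' = l + 1 := by omega
            rw [this]
        omega
    intro l hl l' hl' he
    rcases Nat.lt_trichotomy l l' with h | h | h
    · exact absurd he (key l hl l' hl' h)
    · exact h
    · exact absurd he.symm (key l' hl' l hl h)

section

variable {r : V} {Lg : V → Set V} {U B : Set V} {t g K₀ : ℕ} {W R : ℕ → Set V}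
  {w : ℕ → ℕ → V} {l : ℕ → ℕ} {τ : ℕ → ℕ → ℕ}

theorem wmono (h : Pre G r Lg U B t g K₀ W R w l τ) {a b : ℕ} (hab : a ≤ b) (hb : b ≤ g) :
    W a ⊆ W b := by
  induction b, hab using Nat.le_induction with
  | base => exact subset_rfl
  | succ b hab ih => exact (ih (by omega)).trans (h.mono b (by omega))

/-- a column vertex touching `R k` is in `W (k + 1)` -/
theorem in_up (h : Pre G r Lg U B t g K₀ W R w l τ) {j k i : ℕ} (hj : j < t) (hk : k < g)
    (hi : i ≤ l j) (ht : Touch G {w j i} (R k)) : w j i ∈ W (k + 1) := by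
  obtain ⟨x, hx, y, hy, hxy⟩ := ht
  rw [Set.mem_singleton_iff] at hx
  subst hx
  have hyW := (h.up k hk).1 hy
  rcases hxy with hxy | hxy
  · rw [hxy]
    exact hyW
  · exact adj_of_not_bd hyW (fun hb => Set.disjoint_left.1 (h.up k hk).2 hy hb)
      (h.sub j hj ⟨i, hi, rfl⟩) hxy.symm

/-- a column vertex touching `R k` is not in `W k` or on its boundary -/
theorem out_low (h : Pre G r Lg U B t g K₀ W R w l τ) {j k i : ℕ} (hk : k < g)
    (ht : Touch G {w j i} (R k)) : w j i ∉ W k ∨ w j i ∈ bd G U B (W k) := by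
  obtain ⟨x, hx, y, hy, hxy⟩ := ht
  rw [Set.mem_singleton_iff] at hx
  subst hx
  have hyW : y ∉ W k := fun h' => Set.disjoint_left.1 (h.low k hk) hy h'
  have hyU : y ∈ U := h.wsub (k + 1) (by omega) ((h.up k hk).1 hy)
  rcases hxy with hxy | hxy
  · left
    rw [hxy]
    exact hyW
  · by_cases hw : w j i ∈ W k
    · exact Or.inr ⟨hw, Or.inr ⟨y, hyU, hyW, hxy⟩⟩
    · exact Or.inl hw

theorem out_anti {X Y : Set V} (hXY : X ⊆ Y) {x : V} (hx : x ∉ Y ∨ x ∈ bd G U B Y) :
    x ∉ X ∨ x ∈ bd G U B X := by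
  by_cases h : x ∈ X
  · rcases hx with hx | hx
    · exact absurd (hXY h) hx
    · exact Or.inr (bd_anti hXY h hx)
  · exact Or.inl h

/-- the bad gaps above `k` -/
theorem high (h : Pre G r Lg U B t g K₀ W R w l τ) {j k m i : ℕ} (hj : j < t) (hk : k < g)
    (hm : m + 1 < g) (hkm : k < m)
    (hi : (τ j m < i ∧ i < τ j (m + 1)) ∨ (τ j (m + 1) < i ∧ i < τ j m))
    (ht : Touch G {w j i} (R k)) :
    ∃ c ≤ l j, min (τ j m) (τ j (m + 1)) < c ∧ c ≤ max (τ j m) (τ j (m + 1)) ∧
      w j c ∈ bd G U B (W (k + 1)) := by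
  have l1 := h.len j hj m (by omega)
  have l2 := h.len j hj (m + 1) hm
  have hil : i ≤ l j := by omega
  have hv := in_up h hj hk hil ht
  rcases hi with hi | hi
  · have hu := out_anti (wmono h (show k + 1 ≤ m + 1 by omega) (by omega))
      (out_low h hm (h.con j hj (m + 1) hm))
    obtain ⟨c, h1, h2, h3⟩ := between (h.ip j hj) (h.sub j hj) hil l2 hv hu
    exact ⟨c, by omega, by omega, by omega, h3⟩
  · have hu := out_anti (wmono h (show k + 1 ≤ m by omega) (by omega))
      (out_low h (show m < g by omega) (h.con j hj m (by omega)))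
    obtain ⟨c, h1, h2, h3⟩ := between (h.ip j hj) (h.sub j hj) hil l1 hv hu
    exact ⟨c, by omega, by omega, by omega, h3⟩

/-- the bad gaps below `k` -/
theorem below (h : Pre G r Lg U B t g K₀ W R w l τ) {j k m i : ℕ} (hj : j < t) (hk : k < g)
    (hm : m + 1 < g) (hkm : m + 1 < k)
    (hi : (τ j m < i ∧ i < τ j (m + 1)) ∨ (τ j (m + 1) < i ∧ i < τ j m))
    (ht : Touch G {w j i} (R k)) :
    ∃ c ≤ l j, min (τ j m) (τ j (m + 1)) < c ∧ c ≤ max (τ j m) (τ j (m + 1)) ∧
      w j c ∈ bd G U B (W k) := by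
  have l1 := h.len j hj m (by omega)
  have l2 := h.len j hj (m + 1) hm
  have hil : i ≤ l j := by omega
  have hv := out_low h hk ht
  rcases hi with hi | hi
  · have hu : w j (τ j (m + 1)) ∈ W k := wmono h (show m + 1 + 1 ≤ k by omega) (by omega)
      (in_up h hj hm l2 (h.con j hj (m + 1) hm))
    obtain ⟨c, h1, h2, h3⟩ := between (h.ip j hj) (h.sub j hj) l2 hil hu hv
    exact ⟨c, by omega, by omega, by omega, h3⟩
  · have hu : w j (τ j m) ∈ W k := wmono h (show m + 1 ≤ k by omega) (by omega)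
      (in_up h hj (by omega) l1 (h.con j hj m (by omega)))
    obtain ⟨c, h1, h2, h3⟩ := between (h.ip j hj) (h.sub j hj) l1 hil hu hv
    exact ⟨c, by omega, by omega, by omega, h3⟩

end

theorem union_bound {S : Set ℕ} {T : ℕ → Set ℕ} {t n : ℕ} (hS : ∀ x ∈ S, ∃ j < t, x ∈ T j)
    (hT : ∀ j < t, (T j).Finite ∧ (T j).ncard ≤ n) : S.Finite ∧ S.ncard ≤ t * n := by
  have key : ∀ m ≤ t, {x | ∃ j < m, x ∈ T j}.Finite ∧ {x | ∃ j < m, x ∈ T j}.ncard ≤ m * n := by
    intro m
    induction m with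
    | zero =>
      intro _
      have e : {x | ∃ j < 0, x ∈ T j} = (∅ : Set ℕ) := by
        ext x
        simp
      rw [e]
      simp
    | succ m ih =>
      intro hm
      obtain ⟨i1, i2⟩ := ih (by omega)
      obtain ⟨t1, t2⟩ := hT m (by omega)
      have e : {x | ∃ j < m + 1, x ∈ T j} = {x | ∃ j < m, x ∈ T j} ∪ T m := by
        ext x
        constructor
        · rintro ⟨j, hj, hx⟩
          rcases Nat.lt_or_ge j m with h | h
          · exact Or.inl ⟨j, h, hx⟩
          · have : j = m := by omega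
            rw [this] at hx
            exact Or.inr hx
        · rintro (⟨j, hj, hx⟩ | hx)
          · exact ⟨j, by omega, hx⟩
          · exact ⟨m, by omega, hx⟩
      rw [e]
      refine ⟨i1.union t1, (Set.ncard_union_le _ _).trans ?_⟩
      rw [Nat.succ_mul]
      omega
  obtain ⟨k1, k2⟩ := key t le_rfl
  exact ⟨k1.subset hS, (Set.ncard_le_ncard hS k1).trans k2⟩

end XBDG

open XBDG in
theorem i_BDG : S_BDG := by
  intro V _ G r Lg U B t g K₀ W R w l τ h hmon k hk
  have main := union_bound (S := bg G t g R w τ k) (t := t) (n := 2 * K₀)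
    (T := fun j => {m | m + 1 < g ∧ (k < m ∨ m + 1 < k) ∧ ∃ i : ℕ,
      ((τ j m < i ∧ i < τ j (m + 1)) ∨ (τ j (m + 1) < i ∧ i < τ j m)) ∧ Touch G {w j i} (R k)})
    (by
      rintro m ⟨h1, h2, j, hj, i, h3, h4⟩
      exact ⟨j, hj, h1, h2, i, h3, h4⟩)
    (by
      intro j hj
      constructor
      · refine (Set.finite_lt_nat g).subset ?_
        rintro m ⟨h1, -⟩
        show m < g
        omega
      · have e : {m | m + 1 < g ∧ (k < m ∨ m + 1 < k) ∧ ∃ i : ℕ,
            ((τ j m < i ∧ i < τ j (m + 1)) ∨ (τ j (m + 1) < i ∧ i < τ j m)) ∧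
              Touch G {w j i} (R k)} =
            {m | m + 1 < g ∧ k < m ∧ ∃ i : ℕ,
            ((τ j m < i ∧ i < τ j (m + 1)) ∨ (τ j (m + 1) < i ∧ i < τ j m)) ∧
              Touch G {w j i} (R k)} ∪
            {m | m + 1 < g ∧ m + 1 < k ∧ ∃ i : ℕ,
            ((τ j m < i ∧ i < τ j (m + 1)) ∨ (τ j (m + 1) < i ∧ i < τ j m)) ∧
              Touch G {w j i} (R k)} := by
          ext m
          constructor
          · rintro ⟨h1, h2 | h2, h3⟩
            · exact Or.inl ⟨h1, h2, h3⟩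
            · exact Or.inr ⟨h1, h2, h3⟩
          · rintro (⟨h1, h2, h3⟩ | ⟨h1, h2, h3⟩)
            · exact ⟨h1, Or.inl h2, h3⟩
            · exact ⟨h1, Or.inr h2, h3⟩
        have c1 : {m | m + 1 < g ∧ k < m ∧ ∃ i : ℕ,
            ((τ j m < i ∧ i < τ j (m + 1)) ∨ (τ j (m + 1) < i ∧ i < τ j m)) ∧
              Touch G {w j i} (R k)}.ncard ≤ K₀ := by
          refine (cnt (T := bd G U B (W (k + 1))) (h.ip j hj).inj (hmon j hj) ?_).trans
            (h.wall j hj (k + 1) (by omega))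
          rintro m ⟨h1, h2, i, h3, h4⟩
          exact ⟨h1, high h hj hk h1 h2 h3 h4⟩
        have c2 : {m | m + 1 < g ∧ m + 1 < k ∧ ∃ i : ℕ,
            ((τ j m < i ∧ i < τ j (m + 1)) ∨ (τ j (m + 1) < i ∧ i < τ j m)) ∧
              Touch G {w j i} (R k)}.ncard ≤ K₀ := by
          refine (cnt (T := bd G U B (W k)) (h.ip j hj).inj (hmon j hj) ?_).trans
            (h.wall j hj k (by omega))
          rintro m ⟨h1, h2, i, h3, h4⟩
          exact ⟨h1, below h hj hk h1 h2 h3 h4⟩
        show (Set.ncard _) ≤ _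
        rw [e]
        refine (Set.ncard_union_le _ _).trans ?_
        omega)
  refine ⟨main.1, main.2.trans ?_⟩
  nlinarith [Nat.zero_le (K₀ * t)]

end Pool.Agent.IM55.PL
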