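import Pool.Agent.Work.MP_55ff09_co.PL.Base
import Pool.Agent.Work.Tools.GridThm.All

/-!
# MP_55ff09_co, block PL, item BRM: large tree width gives a bramble of pairwise intersecting sets
-/

set_option autoImplicit false

namespace Pool.Agent.IM55.PL

open SimpleGraph Pool.Agent.IM55

namespace XBRM

variable {V : Type} {J : SimpleGraph V}

/-- `U` is a union of components of `J - S` -/
structure Cls (J : SimpleGraph V) (S U : Set V) : Prop where
  sub : ∀ x ∈ U, x ∉ S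
  closed : ∀ u ∈ U, ∀ v, v ∉ S → J.Adj u v → v ∈ U

theorem comp_sub {S U E : Set V} (hU : Cls J S U) (hE : GridThm.Comp J Sᶜ E) {v : V} (hv : v ∈ E)
    (hvU : v ∈ U) : E ⊆ U :=
  conn_subset hE.conn ⟨v, hv, hvU⟩ fun u _ huU w hw huw => hU.closed u huU w (hE.sub hw) huw

theorem diff_cls {S U E : Set V} (hU : Cls J S U) (hE : GridThm.Comp J Sᶜ E) :
    Cls J S (U \ E) where
  sub := fun x hx => hU.sub x hx.1
  closed := fun u hu v hv huv => ⟨hU.closed u hu.1 v hv huv, fun hvE =>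
    hu.2 (hE.closed v hvE u (hU.sub u hu.1) huv.symm)⟩

theorem chain_in {S U : Set V} (hU : Cls J S U) : ∀ (l : List V), l.IsChain J.Adj →
    (∀ x ∈ l, x ∉ S) → (∀ x ∈ l.head?, x ∈ U) → ∀ x ∈ l, x ∈ U := by
  intro l
  induction l with
  | nil => intro _ _ _ x hx; simp at hx
  | cons a t ih =>
    intro hc hS hh x hx
    have ha : a ∈ U := hh a (by simp)
    rcases List.mem_cons.1 hx with rfl | hx
    · exact ha
    · rcases t with _ | ⟨b, t⟩
      · simp at hx
      · rw [List.isChain_cons_cons] at hc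
        have hb : b ∈ U := hU.closed a ha b (hS b (by simp)) hc.1
        refine ih hc.2 (fun y hy => hS y (List.mem_cons_of_mem _ hy)) ?_ x hx
        intro y hy
        simp at hy
        subst hy
        exact hb

theorem split [Finite V] {S X : Set V} {k : ℕ} (hk : 1 ≤ k) (hX : X.ncard = 6 * k)
    (hS : S.ncard < k)
    (hE : ∀ E, GridThm.Comp J Sᶜ E → (E ∩ X).ncard ≤ 3 * k) :
    ∃ U, Cls J S U ∧ k ≤ (U ∩ X).ncard ∧ k ≤ ((Sᶜ \ U) ∩ X).ncard := by
  classical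
  have hX' : 5 * k + 1 ≤ (Sᶜ ∩ X).ncard := by
    have h1 : X.ncard ≤ (Sᶜ ∩ X).ncard + S.ncard := by
      have : X ⊆ (Sᶜ ∩ X) ∪ S := by
        intro x hx
        by_cases h : x ∈ S
        · exact Or.inr h
        · exact Or.inl ⟨h, hx⟩
      exact (Set.ncard_le_ncard this (Set.toFinite _)).trans (Set.ncard_union_le _ _)
    omega
  have hex : ∃ n : ℕ, ∃ U, Cls J S U ∧ k ≤ (U ∩ X).ncard ∧ U.ncard = n :=
    ⟨_, Sᶜ, ⟨fun x hx => hx, fun _ _ v hv _ => hv⟩, by omega, rfl⟩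
  obtain ⟨U, hU, hUk, hUn⟩ := Nat.find_spec hex
  refine ⟨U, hU, hUk, ?_⟩
  have hne : (U ∩ X).Nonempty := by
    rw [Set.nonempty_iff_ne_empty]
    intro h0
    rw [h0, Set.ncard_empty] at hUk
    omega
  obtain ⟨v, hvU, hvX⟩ := hne
  obtain ⟨E, hEc, hvE⟩ := GridThm.exists_comp (G := J) (D := Sᶜ) (v := v) (hU.sub v hvU)
  have hlt : (U \ E).ncard < U.ncard := by
    apply Set.ncard_lt_ncard _ (Set.toFinite _)
    refine ⟨Set.sdiff_subset, fun h => ?_⟩
    exact (h hvU).2 hvE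
  have hsmall : ((U \ E) ∩ X).ncard < k := by
    by_contra hcon
    push Not at hcon
    exact Nat.find_min hex (m := (U \ E).ncard) (by omega) ⟨U \ E, diff_cls hU hEc, hcon, rfl⟩
  have h3 : (U ∩ X).ncard ≤ ((U \ E) ∩ X).ncard + (E ∩ X).ncard := by
    have : U ∩ X ⊆ ((U \ E) ∩ X) ∪ (E ∩ X) := by
      rintro x ⟨hx, hxX⟩
      by_cases h : x ∈ E
      · exact Or.inr ⟨h, hxX⟩
      · exact Or.inl ⟨⟨hx, h⟩, hxX⟩
    exact (Set.ncard_le_ncard this (Set.toFinite _)).trans (Set.ncard_union_le _ _)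
  have h4 : (Sᶜ ∩ X).ncard ≤ (U ∩ X).ncard + ((Sᶜ \ U) ∩ X).ncard := by
    have : Sᶜ ∩ X ⊆ (U ∩ X) ∪ ((Sᶜ \ U) ∩ X) := by
      rintro x ⟨hx, hxX⟩
      by_cases h : x ∈ U
      · exact Or.inl ⟨h, hxX⟩
      · exact Or.inr ⟨⟨hx, h⟩, hxX⟩
    exact (Set.ncard_le_ncard this (Set.toFinite _)).trans (Set.ncard_union_le _ _)
  have h5 := hE E hEc
  omega

theorem claim [Finite V] {k : ℕ} (hk : 1 ≤ k) {C S₀ : Set V} {c : V → ℕ}
    (hM : GridThm.Mesh J (6 * k) k C S₀ c) {S : Set V} (hS : S.ncard < k) :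
    ∃ E, GridThm.Comp J Sᶜ E ∧ 3 * k < (E ∩ GridThm.nbs J C).ncard := by
  classical
  by_contra hcon
  push Not at hcon
  obtain ⟨U, hU, h1, h2⟩ := split hk hM.card hS hcon
  obtain ⟨Y, hY, hYk⟩ := Set.exists_subset_card_eq h1
  obtain ⟨Z, hZ, hZk⟩ := Set.exists_subset_card_eq h2
  obtain ⟨P, hP, hPc⟩ := hM.link Y Z (fun x hx => (hY hx).2) (fun x hx => (hZ hx).2)
    (Set.disjoint_left.2 fun x hx hx' => (hZ hx').1.2 (hY hx).1) (by rw [hYk, hZk]) hYk.le
  have hmeet : ∀ l ∈ P, ∃ x ∈ l, x ∈ S := by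
    intro l hl
    by_contra hno
    push Not at hno
    obtain ⟨y, mid, z, rfl, hy, hz, -, -⟩ := (hP.cp l hl).ex
    have := chain_in hU _ (hP.cp _ hl).ch hno (by
      intro x hx
      simp at hx
      subst hx
      exact (hY hy).1) z (by simp)
    exact (hZ hz).1.2 this
  have hf : ∀ l : List V, ∃ x : V, l ∈ P → x ∈ l ∧ x ∈ S := by
    intro l
    by_cases hl : l ∈ P
    · obtain ⟨x, hx, hxS⟩ := hmeet l hl
      exact ⟨x, fun _ => ⟨hx, hxS⟩⟩
    · by_cases hV : Nonempty V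
      · exact ⟨hV.some, fun h => absurd h hl⟩
      · exfalso
        obtain ⟨⟨v, _⟩⟩ := hM.conn.nonempty
        exact hV ⟨v⟩
  choose f hf using hf
  have hle : P.card ≤ S.ncard := by
    have hfin : S.Finite := Set.toFinite S
    rw [Set.ncard_eq_toFinset_card S hfin]
    apply Finset.card_le_card_of_injOn f
    · intro l hl
      have := (hf l (Finset.mem_coe.1 hl)).2
      exact Finset.mem_coe.2 (hfin.mem_toFinset.2 this)
    · intro l hl l' hl' e
      by_contra hne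
      have h3 := (hf l (Finset.mem_coe.1 hl)).1
      have h4 := (hf l' (Finset.mem_coe.1 hl')).1
      rw [← e] at h4
      exact hP.dis l (Finset.mem_coe.1 hl) l' (Finset.mem_coe.1 hl') hne h3 h4
  omega

end XBRM

theorem i_BRM : S_BRM := by
  intro V _ J k hk hT
  by_cases hM : ∃ C S c, GridThm.Mesh J (6 * k) k C S c
  · obtain ⟨C, S₀, c, hM⟩ := hM
    refine ⟨{E | ∃ S : Set V, S.ncard < k ∧ GridThm.Comp J Sᶜ E ∧
      3 * k < (E ∩ GridThm.nbs J C).ncard}, ⟨?_, ?_, ?_⟩⟩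
    · rintro E ⟨S, -, hE, -⟩
      exact hE.conn
    · rintro E ⟨S, -, hE, h1⟩ E' ⟨S', -, hE', h2⟩
      by_contra hno
      rw [Set.not_nonempty_iff_eq_empty] at hno
      have hd : Disjoint (E ∩ GridThm.nbs J C) (E' ∩ GridThm.nbs J C) := by
        rw [Set.disjoint_left]
        rintro x ⟨hx, -⟩ ⟨hx', -⟩
        have : x ∈ E ∩ E' := ⟨hx, hx'⟩
        rw [hno] at this
        exact this
      have h3 := Set.ncard_union_eq hd (Set.toFinite _) (Set.toFinite _)
      have h4 : ((E ∩ GridThm.nbs J C) ∪ (E' ∩ GridThm.nbs J C)).ncard ≤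
          (GridThm.nbs J C).ncard :=
        Set.ncard_le_ncard (Set.union_subset Set.inter_subset_right Set.inter_subset_right)
          (Set.toFinite _)
      rw [hM.card] at h4
      omega
    · intro S hS
      obtain ⟨E, hE, h⟩ := XBRM.claim hk hM hS
      exact ⟨E, ⟨S, hS, hE, h⟩, Set.disjoint_left.2 fun x hx hxS => hE.sub hx hxS⟩
  · exfalso
    apply hT
    push Not at hM
    exact GridThm.a6 J (6 * k) k (7 * k) (by omega) hk (by omega) hM

end Pool.Agent.IM55.PL
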