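import Pool.Agent.Work.MP_55ff09_co.PL.Base

/-!
# MP_55ff09_co, block PL: item CLP
-/

set_option autoImplicit false

namespace Pool.Agent.IM55.PL

open SimpleGraph Pool.Agent.IM55

theorem i_CLP : S_CLP := by
  intro V G r M seg ps Vg R hW x y₁ y₂ hx0 hxM hy0 hy hyM
  have hbox : ∀ y : ℤ, y₁ ≤ y → y ≤ y₂ → (x, y) ∈ Box 0 0 M := by
    intro y h1 h2
    exact ⟨by omega, by omega, by omega, by omega⟩
  have key : ∀ n : ℕ, y₁ + n ≤ y₂ →
      (G.induce {v | ∃ y : ℤ, y₁ ≤ y ∧ y ≤ y₁ + n ∧ v ∈ seg (x, y)}).Connected := by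
    intro n
    induction n with
    | zero =>
      intro hn
      have e : {v | ∃ y : ℤ, y₁ ≤ y ∧ y ≤ y₁ + (0 : ℕ) ∧ v ∈ seg (x, y)} = seg (x, y₁) := by
        ext v
        constructor
        · rintro ⟨y, h1, h2, h3⟩
          have : y = y₁ := by push_cast at h2; omega
          rwa [this] at h3
        · intro hv
          exact ⟨y₁, le_rfl, by push_cast; omega, hv⟩
      rw [e]
      exact hW.sconn _ (hbox _ le_rfl hy)
    | succ n ih =>
      intro hn
      push_cast at hn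
      have e : {v | ∃ y : ℤ, y₁ ≤ y ∧ y ≤ y₁ + ((n + 1 : ℕ) : ℤ) ∧ v ∈ seg (x, y)} =
          {v | ∃ y : ℤ, y₁ ≤ y ∧ y ≤ y₁ + n ∧ v ∈ seg (x, y)} ∪ seg (x, y₁ + n + 1) := by
        ext v
        constructor
        · rintro ⟨y, h1, h2, h3⟩
          push_cast at h2
          rcases lt_or_ge (y₁ + n) y with h4 | h4
          · right
            have : y = y₁ + n + 1 := by omega
            rwa [this] at h3
          · left
            exact ⟨y, h1, h4, h3⟩
        · rintro (⟨y, h1, h2, h3⟩ | h3)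
          · exact ⟨y, h1, by push_cast; omega, h3⟩
          · exact ⟨y₁ + n + 1, by omega, by push_cast; omega, h3⟩
      rw [e]
      refine conn_union (ih (by omega)) (hW.sconn _ (hbox _ (by omega) (by omega))) ?_
      obtain ⟨u, hu, v, hv, h⟩ := hW.sadj x (y₁ + n) (hbox _ (by omega) (by omega))
        (hbox _ (by omega) (by omega))
      exact ⟨u, ⟨y₁ + n, by omega, le_rfl, hu⟩, v, hv, h⟩
  have h := key (y₂ - y₁).toNat (by omega)
  have e : y₁ + ((y₂ - y₁).toNat : ℤ) = y₂ := by omega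
  rwa [e] at h

end Pool.Agent.IM55.PL
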