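import Pool.Agent.Work.MP_55ff09_co.PL.Stmts

/-!
# MP_55ff09_co, block PL: statements with proofs (part 2: worlds, sparsification, labels, hubs)

Conventions as in `Stmts.lean`. In the directory above, `LO.lean` contains `exists_tail` and the
assembly of `ArrayData` (local case), `NL.lean` the geometry of slots (`NL.ox`, `NL.oy`,
`NL.sep_sub`, ...) and `claimNonlocal`, which is close to HND below.
-/

set_option autoImplicit false

namespace Pool.Agent.IM55.PL

open SimpleGraph Pool.Agent.IM55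

/-! ## Worlds: from a world to every graph on `n` vertices -/

/-- SLT: slots. `N` boxes of side `s` in each block `(i, j)`, far apart. Take
`L = (N + 2) (s + 2 ρ + 2) + λ`, `x ((i, j), t) = a + j L + ρ + t (s + 2 ρ + 2)`,
`y ((i, j), t) = b + i L + ρ`. -/
def S_SLT : Prop := ∀ n N s ρ lo : ℕ, ∃ L : ℕ, lo ≤ L ∧ s ≤ L ∧ ∀ a b : ℤ,
  ∃ x y : (Fin n × Fin n) × Fin N → ℤ,
    (∀ d, ∀ q ∈ Box (x d) (y d) s, InBlk a b L ρ d.1.1 d.1.2 q) ∧
    (∀ d, Box (x d) (y d) s ⊆ Box a b (n * L)) ∧
    ∀ d d', ∀ q ∈ Box (x d) (y d) s, ∀ q' ∈ Box (x d') (y d') s, ∀ p, Near ρ p q → Near ρ p q' →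
      d = d'

/-- SEL (from ClaimTrans): selection of `N` of `N'` slots in every block, without conflicts; `Q d` is
the zone of the slot `d`. Each of the at most `k` points of `Z₀` is in at most one `Q d`, so at most
`k` slots are bad. With `W = (Fin n × Fin n) × Fin N`, `m = n² N k + 1` candidates for each
element of `W` (different elements use different slots) which are not bad
(`N' = N (m + k)`: in the `t`-th group of `m + k` slots of a block at least `m` are not bad), conflict
`R (u, c) (u', c')` if `F` of the slot of `(u, c)` meets `Q` of the slot of `(u', c')`: every slot has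
at most `k` conflicts. -/
def S_SEL : Prop := ∀ n N k : ℕ, ∃ N' : ℕ, ∀ (Q : (Fin n × Fin n) × Fin N' → Set (ℤ × ℤ))
  (F : (Fin n × Fin n) × Fin N' → Finset (ℤ × ℤ)) (Z₀ : Finset (ℤ × ℤ)),
  (∀ p d d', p ∈ Q d → p ∈ Q d' → d = d') → (∀ d, (F d).card ≤ k) → Z₀.card ≤ k →
  ∃ φ : (Fin n × Fin n) × Fin N → Fin N', (∀ u t t', φ (u, t) = φ (u, t') → t = t') ∧
    (∀ d, ∀ p ∈ Z₀, p ∉ Q (d.1, φ d)) ∧
    ∀ d d', d ≠ d' → ∀ p ∈ F (d.1, φ d), p ∉ Q (d'.1, φ d')

/-- RAD: a free annulus. Proof: the `k + 1` annuli `{p | i (z + 2) < |p - q|_∞ ≤ i (z + 2) + z + 1}`,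
`i ≤ k`, are disjoint, so one of them contains no point of `F`; `w = i (z + 2)`. -/
def S_RAD : Prop := ∀ (k z : ℕ) (F : Finset (ℤ × ℤ)) (q : ℤ × ℤ), F.card ≤ k →
  ∃ w : ℕ, w ≤ k * (z + 2) ∧ ∀ p ∈ F, Near (w + (z + 1)) p q → Near w p q

/-- GT1 (from SLT, SEL, RAD; `exists_tail` in `LO.lean`): tails. Proof: `z = k (n² N + 1)`,
`ρ = k (z + 2)`. Slots with margin `ρ' = 2 ρ + 3 z + s + 10`, `N'` from SEL. In each slot choose
`q`, `D` as in the hypothesis, `F d` = cells touched by `D`, `Q d` = cells at distance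
`≤ ρ + z + 1` from the slot box, `Z₀` = cells touched by `S`. Select by SEL. For the selected
ones: `wd d` from RAD (`F d`); then `exists_tail` for the connected set `D ∪ S` and
`T x := x touches a cell p with Near (wd d) p (q d)` (a vertex of `D` touching `B (q d)` satisfies
it, no vertex of `S` does): a vertex `y d ∈ D` and a connected `τ d ⊆ D ∪ S`, `y d ∈ τ d`,
`τ d ∩ S ≠ ∅`, `T (y d)`, and `T x → x = y d` on `τ d`. `W = S ∪ ⋃ τ d`. `W` touches at most
`k + n² N k = z` cells. `only`: let `x ∈ W` touch `p`, `Near (wd d + z + 1) p (q d)`; `x ∉ S`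
(selection); `x ∈ D d'` with `d' ≠ d` is impossible (selection); so `x ∈ τ d ∩ D d`, by the choice
of `wd d` we have `Near (wd d) p (q d)`, so `T x`. `inj`: `y d` touches a cell near `q d`. -/
def S_GT1 : Prop := ∀ n k s N lo : ℕ, ∃ L : ℕ, lo ≤ L ∧ s ≤ L ∧
  ∀ {V : Type} [Finite V] (G : SimpleGraph V) (a b : ℤ) (B : ℤ × ℤ → Set V) (S : Set V),
  Model G (Box a b (n * L)) B → (G.induce S).Connected →
  cellN G (Box a b (n * L)) B S ≤ k →
  (∀ x y : ℤ, Box x y s ⊆ Box a b (n * L) → ∃ q ∈ Box x y s, ∃ D : Set V,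
    (G.induce D).Connected ∧ Touch G D (B q) ∧ Touch G D S ∧
    cellN G (Box a b (n * L)) B D ≤ k) →
  ∃ (W : Set V) (q : (Fin n × Fin n) × Fin N → ℤ × ℤ) (wd : (Fin n × Fin n) × Fin N → ℕ)
    (y : (Fin n × Fin n) × Fin N → V),
    Tails G n N (k * (n * n * N + 1)) L (k * (k * (n * n * N + 1) + 2)) a b B W q wd y

/-- GT2 (from ClaimArray): tails give everything. Proof: LinkSet in `W` with the `n * n` classes
`{y ((i, j), t) | t}` gives connected pairwise anticomplete `J (i, j) ⊆ W` with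
`y ((i,j), t), y ((i,j), t') ∈ J (i,j)`, `t ≠ t'`. `q i j`, `q' i j` = the cells from `near`. `Z` = cells
touched by `W`. `sep` by `far`, positions by `blk`; `excl`: if `J (i', j')` touches a cell `p` at
distance `≤ z + 1` from the cell of `y d ∈ J (i, j)` then `Near (wd d + z + 1) p (q d)`, so by
`only` the touching vertex is `y d`, which is in `J (i, j)`: contradiction. See `claimLocal`. -/
def S_GT2 : Prop := ∀ (n Δ N z L ρ : ℕ), LinkSet Δ (n * n) N → 7 * z + 20 ≤ L →
  ∀ {V : Type} [Finite V] (G : SimpleGraph V) (a b : ℤ) (B : ℤ × ℤ → Set V) (W : Set V)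
  (q : (Fin n × Fin n) × Fin N → ℤ × ℤ) (wd : (Fin n × Fin n) × Fin N → ℕ)
  (y : (Fin n × Fin n) × Fin N → V), DegLe G Δ → Tails G n N z L ρ a b B W q wd y → HasAll G n

/-- GTK (from GT1, GT2, ClaimLink). -/
def S_GTK : Prop := ∀ n Δ k s : ℕ, ∃ L : ℕ, s ≤ L ∧ ∀ {V : Type} [Finite V] (G : SimpleGraph V)
  (a b : ℤ) (B : ℤ × ℤ → Set V) (S : Set V), DegLe G Δ → Model G (Box a b (n * L)) B →
  (G.induce S).Connected → cellN G (Box a b (n * L)) B S ≤ k →
  (∀ x y : ℤ, Box x y s ⊆ Box a b (n * L) → ∃ q ∈ Box x y s, ∃ D : Set V,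
    (G.induce D).Connected ∧ Touch G D (B q) ∧ Touch G D S ∧
    cellN G (Box a b (n * L)) B D ≤ k) → HasAll G n

/-- LOC (from GTK, ClaimTouchCard): in every large box of a world there is an `s × s` box all of
whose legs touch segments above or below it, or we are done. Proof: `L` from GTK with
`k = s + Δ + 1`. If the second alternative fails, every sub-box contains `q` such that `Vg q` touches
`seg (q.1, y')` only for `y'` in its range. GTK with `S = {r}` (touches at most `Δ + 1` cells),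
`D = Vg q`: contains `r`, meets `seg q`, and touches at most `s` cells, by `vcol`, `vps`. -/
def S_LOC : Prop := ∀ n Δ s : ℕ, ∃ L : ℕ, s ≤ L ∧ ∀ {V : Type} [Finite V] (G : SimpleGraph V)
  (r : V) (M : ℕ) (seg ps Vg : ℤ × ℤ → Set V) (R : ℤ → Set V), DegLe G Δ →
  World G r M seg ps Vg R → ∀ x y : ℤ, Box x y (n * L) ⊆ Box 0 0 M → HasAll G n ∨
  ∃ x₀ y₀ : ℤ, Box x₀ y₀ s ⊆ Box x y (n * L) ∧ ∀ q ∈ Box x₀ y₀ s, ∃ y' : ℤ,
    (q.1, y') ∈ Box 0 0 M ∧ (y' < y₀ ∨ y₀ + s ≤ y') ∧ Touch G (Vg q) (seg (q.1, y'))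

/-- EXP (from MPC): for every `q` in the box apply MPC in `Vg q` with `P x := x = z` (`z` the contact
vertex) and `Q x := x` touches some `seg (q.1, y')` with `y'` outside the range. -/
def S_EXP : Prop := ∀ {V : Type} [Finite V] (G : SimpleGraph V) (r : V) (M : ℕ)
  (seg ps Vg : ℤ × ℤ → Set V) (R : ℤ → Set V), World G r M seg ps Vg R → ∀ (x₀ y₀ : ℤ) (s : ℕ),
  Box x₀ y₀ s ⊆ Box 0 0 M → (∀ q ∈ Box x₀ y₀ s, ∃ y' : ℤ,
    (q.1, y') ∈ Box 0 0 M ∧ (y' < y₀ ∨ y₀ + s ≤ y') ∧ Touch G (Vg q) (seg (q.1, y'))) →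
  ∃ (E : ℤ × ℤ → Set V) (z e : ℤ × ℤ → V), Esc G M seg Vg R x₀ y₀ s E z e

/-- SID: pigeonhole. Use the `2 n` rows `y₀, ..., y₀ + 2n - 1` and the columns
`x₀ + (σ + 1) i`, `i < n² 2 ^ (2n)`: many columns have the same pattern `y ↦ Up (x, y)`, and in a
pattern some `n` rows have the same value. -/
def S_SID : Prop := ∀ n σ : ℕ, ∃ s : ℕ, ∀ (Up : ℤ × ℤ → Prop) (x₀ y₀ : ℤ),
  ∃ X Y : ℕ → ℤ, (∀ i < n * n, x₀ ≤ X i ∧ X i < x₀ + s) ∧ (∀ j < n, y₀ ≤ Y j ∧ Y j < y₀ + s) ∧
    (∀ i < n * n, ∀ i' < n * n, i ≠ i' → (σ : ℤ) ≤ |X i - X i'|) ∧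
    (∀ j < n, ∀ j' < n, j ≠ j' → Y j ≠ Y j') ∧
    ((∀ i < n * n, ∀ j < n, Up (X i, Y j)) ∨ ∀ i < n * n, ∀ j < n, ¬ Up (X i, Y j))

/-- K1A (from K1): `C i j = E (i n + j) i ∪ Cp (i n + j) ∪ E (i n + j) j`. -/
def S_K1A : Prop := ∀ {V : Type} [Finite V] (G : SimpleGraph V) (n : ℕ) (H : ℕ → Set V)
  (E : ℕ → ℕ → Set V) (Cp : ℕ → Set V), (∀ a < n, (G.induce (H a)).Connected) →
  (∀ a < n, ∀ b < n, a ≠ b → Anti G (H a) (H b)) →
  (∀ i < n * n, (G.induce (Cp i)).Connected ∧ ∀ a < n, Anti G (Cp i) (H a)) →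
  (∀ i < n * n, ∀ a < n, (G.induce (E i a)).Connected ∧ Touch G (E i a) (H a) ∧
    Touch G (E i a) (Cp i) ∧ ∀ b < n, b ≠ a → Anti G (E i a) (H b)) →
  (∀ i < n * n, ∀ i' < n * n, i ≠ i' → Anti G (Cp i) (Cp i') ∧
    ∀ a < n, Anti G (E i a) (Cp i') ∧ ∀ b < n, Anti G (E i a) (E i' b)) → HasAll G n

/-- COM (from MPC, ClaimTouchCard): two escaping legs which touch give a handle. Proof: the set
`E q ∪ E q'` is connected; MPC with `P x := x` touches `seg (q.1, y')` for some `y'` in the range,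
`Q x := x` touches `seg (q'.1, y')` for some `y'` in the range (`z q`, `z q'` satisfy `P`, `Q`): a
connected `X` in which only `u` satisfies `P` and only `v` satisfies `Q`. A cell touched by `X` is
touched by some `x ∈ E q` (or `E q'`); by `vcol`, `vps` it is a cell of column `q.1` touched through
`seg`; if it is in the range `x = u`, otherwise `x = e q` (`only`); same for `q'`. So `X` touches
only cells touched by one of the four vertices `u, v, e q, e q'`, at most `4 (Δ + 1)`. `u` touches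
a cell of column `q.1` with second coordinate in the range, which is in the box; same for `v`. -/
def S_COM : Prop := ∀ {V : Type} [Finite V] (G : SimpleGraph V) (r : V) (Δ M : ℕ)
  (seg ps Vg : ℤ × ℤ → Set V) (R : ℤ → Set V), DegLe G Δ → World G r M seg ps Vg R →
  ∀ (x₀ y₀ : ℤ) (s : ℕ) (E : ℤ × ℤ → Set V) (z e : ℤ × ℤ → V), Box x₀ y₀ s ⊆ Box 0 0 M →
  Esc G M seg Vg R x₀ y₀ s E z e → ∀ q ∈ Box x₀ y₀ s, ∀ q' ∈ Box x₀ y₀ s, q.1 ≠ q'.1 →
  Touch G (E q) (E q') →
  ∃ X, Hdl G M (fun c => seg c ∪ ps c) |q.1 - q'.1| (4 * (Δ + 1)) x₀ y₀ s X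

/-- CLP: a part of a column is connected. Induction on `y₂ - y₁` with `sconn`, `sadj`. -/
def S_CLP : Prop := ∀ {V : Type} (G : SimpleGraph V) (r : V) (M : ℕ)
  (seg ps Vg : ℤ × ℤ → Set V) (R : ℤ → Set V), World G r M seg ps Vg R →
  ∀ x y₁ y₂ : ℤ, 0 ≤ x → x < M → 0 ≤ y₁ → y₁ ≤ y₂ → y₂ < M →
  (G.induce {v | ∃ y : ℤ, y₁ ≤ y ∧ y ≤ y₂ ∧ v ∈ seg (x, y)}).Connected

/-- HDL (from LOC, EXP, SID, K1A, COM, CLP): every box of side `L₀` contains a handle, or we are
done. Proof: `s` from SID (`n`, `σ + 1`), `L` from LOC, `L₀ = n L`. LOC and EXP give a box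
`[x₀, x₀+s) × [y₀, y₀+s)` with `Esc`. `Up q` := `e q` touches `seg (q.1, y')` for some
`y' ≥ y₀ + s` (in the world). SID: columns `X i`, rows `Y a`. If `E (X i, Y a)` touches
`E (X i', Y b)` for some `i ≠ i'`: COM. Otherwise K1A with hubs `R (Y a)`, `E i a = E (X i, Y a)`,
and `Cp i` = all `seg (X i, y')`, `y₀ + s ≤ y' < M` if all are `Up`, and all `seg (X i, y')`,
`0 ≤ y' < y₀` otherwise (CLP; nonempty because some leg escapes there). Anticomplete:
`rseg`, `rlega`, `ranti`, `vcol`, `santi`; `Touch (E i a) (R (Y a))` by `zR`. (`n = 0`: trivial.) -/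
def S_HDL : Prop := ∀ n Δ σ : ℕ, ∃ L₀ : ℕ, ∀ {V : Type} [Finite V] (G : SimpleGraph V) (r : V)
  (M : ℕ) (seg ps Vg : ℤ × ℤ → Set V) (R : ℤ → Set V), DegLe G Δ → World G r M seg ps Vg R →
  ∀ x y : ℤ, Box x y L₀ ⊆ Box 0 0 M → HasAll G n ∨
  ∃ X, Hdl G M (fun c => seg c ∪ ps c) σ (4 * (Δ + 1)) x y L₀ X

/-- GRD: greedy choice of pairwise 'non-touching' handles in given slots (pure combinatorics).
Scales: `S 0 = L₀`, `S (i+1) = F (S i)`; use `S N` (or define `S` by recursion on `N`). Induction on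
`N`: given slots of side `F (S N)` for `N + 1` handles: choose a handle `h N` in the slot
`N` (it contains a box of side `L₀`); by the last hypothesis (scale `S N`) each other slot contains
a box of side `S N` no handle of which is in relation `T` to `h N`; apply the induction hypothesis
to these smaller slots. -/
def S_GRD : Prop := ∀ (F : ℕ → ℕ) (N L₀ : ℕ), (∀ s, s ≤ F s) → ∃ S : ℕ, L₀ ≤ S ∧
  ∀ (α : Type) [Nonempty α] (W : Set (ℤ × ℤ)) (Hd : ℤ → ℤ → ℕ → α → Prop) (T : α → α → Prop),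
  (∀ h h', T h h' → T h' h) →
  (∀ x y s x' y' s' h, Box x y (s : ℕ) ⊆ Box x' y' (s' : ℕ) → Hd x y s h → Hd x' y' s' h) →
  (∀ x y : ℤ, Box x y L₀ ⊆ W → ∃ h, Hd x y L₀ h) →
  (∀ (x y : ℤ) (s : ℕ) (h : α), L₀ ≤ s → Box x y (F s) ⊆ W →
    (∃ x₁ y₁ s₁, Box x₁ y₁ (s₁ : ℕ) ⊆ W ∧ Hd x₁ y₁ s₁ h) →
    ∃ x' y' : ℤ, Box x' y' s ⊆ Box x y (F s) ∧ ∀ h', Hd x' y' s h' → ¬ T h h') →
  ∀ x y : ℕ → ℤ, (∀ i < N, Box (x i) (y i) S ⊆ W) →
  ∃ h : ℕ → α, (∀ i < N, Hd (x i) (y i) S (h i)) ∧ ∀ i < N, ∀ j < N, i ≠ j → ¬ T (h i) (h j)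

/-- HND (from SLT, SEL, ClaimArray): anticomplete handles in all slots give everything. Proof:
`z = n² k`, `N'` from SEL (`N = 1`, `k`), slots with margin `2 z + 10` (and `7 z + 20 ≤ L`). `F d` =
cells touched by `X d`, `Q d` = cells at distance `≤ z + 1` from the slot box, `Z₀ = ∅`; ClaimArray
with the selected handles, `Z` = all cells they touch. See `claimNonlocal`. -/
def S_HND : Prop := ∀ n k : ℕ, ∃ N' : ℕ, ∀ s : ℕ, ∃ (L : ℕ)
  (x y : (Fin n × Fin n) × Fin N' → ℤ), (∀ d, Box (x d) (y d) s ⊆ Box 0 0 (n * L)) ∧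
  ∀ {V : Type} [Finite V] (G : SimpleGraph V) (B : ℤ × ℤ → Set V)
    (X : (Fin n × Fin n) × Fin N' → Set V), Model G (Box 0 0 (n * L)) B →
    (∀ d, Hdl G (n * L) B (3 * (n * n * k) + 4) k (x d) (y d) s (X d)) →
    (∀ d d', d ≠ d' → Anti G (X d) (X d')) → HasAll G n

/-- WRL (from HDL, GTK, GRD, HND): worlds give everything. Proof: `k = 4 (Δ + 1)`,
`σ = 3 n² k + 4`, `L₀` from HDL, `N'` from HND, `F s = n L(s)` (+ `s`) with `L(s)` from GTK for `s`
and `k`, `S` from GRD for `N = n² N'`, then `L`, slots from HND with `s = S`, `M = n L`. Suppose not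
`HasAll G n`. GRD with `α` = sets `X`, `Hd x y s X := Hdl G M B σ k x y s X`, `T = Touch G`: handles
exist by HDL; if for a handle `X₀` and a box of side `F s` every sub-box of side `s` contained a
handle touching `X₀`, GTK with `S = X₀`, `D` = these handles gives `HasAll` (the model
restricted to the box; the number of cells touched in it is at most the total number). -/
def S_WRL : Prop := ∀ n Δ : ℕ, ∃ M : ℕ, ∀ {V : Type} [Finite V] (G : SimpleGraph V) (r : V)
  (seg ps Vg : ℤ × ℤ → Set V) (R : ℤ → Set V), DegLe G Δ → World G r M seg ps Vg R →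
  HasAll G n

/-! ## Dense theorem and sparsification -/

/-- DEN (from WRL, FRW, ORD, PSB, SMP): `M` from WRL, `t`, `g` from FRW, `K₀` from SMP, `g'` from ORD,
`C` from SMP for `g' + 1` (then PSB with `φ = id`). -/
def S_DEN : Prop := ∀ n Δ d K : ℕ, ∃ C : ℕ, 0 < C ∧
  ∀ {V : Type} [Finite V] (G : SimpleGraph V) (r : V) (Lg : V → Set V) (U A B : Set V)
  (I : Finset ℕ) (R : ℕ → Set V) (M m ℓ : ℕ) (w : ℕ → ℕ → V) (l : ℕ → ℕ),
  DegLe G Δ → Legs G r Lg → Rows G I R → CutSys G U A B (Un I R) M → AP G U A B m w l →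
  M ≤ K * m → 1 ≤ ℓ → (∀ z, tn G I (Lg z) R ≤ ℓ) →
  (∀ z, tn G (Finset.range m) (Lg z) (fun c => rng (w c) (l c)) ≤ ℓ) →
  C * ℓ ≤ m → C * m ≤ I.card → I.card * m ≤ d * tp G I m R (fun c => rng (w c) (l c)) →
  HasAll G n

/-- DRW: if `U` is the union of the rows, every connector lies in one row and touches no other.
Proof: a connected subset of the union of pairwise anticomplete sets lies in one of them. So
`tp ≤ m` (at most one row for each column). -/
def S_DRW : Prop := ∀ {V : Type} [Finite V] (G : SimpleGraph V) (A B : Set V) (I : Finset ℕ)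
  (R : ℕ → Set V) (m : ℕ) (Q : ℕ → Set V), Rows G I R → Fm G (Un I R) A B m Q →
  tp G I m R Q ≤ m

/-- SPR (from DEN, IM, CRI, DRW): sparsification. Proof: `K` from IM, `C'` from DEN (`n, Δ, d, K`),
`C = C' + K + d`. `M = K m ≤ k`; CRI with `D = Un I R`: `U`, containing `M` disjoint connectors.
IM in `U`: `m` anticomplete path connectors `w c`. If `d tp > |I| m` and `CutSys`: DEN (their ranges
are a family in `U ⊆ U₀`, connected because they are paths) gives `HasAll`, contradiction. If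
`U = Un I R`: `tp ≤ m`, `d m ≤ |I| m`. -/
def S_SPR : Prop := ∀ n Δ d : ℕ, ∃ C : ℕ, 0 < C ∧ ∀ {V : Type} [Finite V] (G : SimpleGraph V)
  (r : V) (Lg : V → Set V) (U₀ A B : Set V) (I : Finset ℕ) (R : ℕ → Set V) (k m ℓ : ℕ),
  DegLe G Δ → ¬ HasAll G n → Legs G r Lg → Rows G I R → Un I R ⊆ U₀ → (∃ L, Fm G U₀ A B k L) →
  1 ≤ ℓ → (∀ z, tn G I (Lg z) R ≤ ℓ) →
  (∀ z m' Q, Fm G U₀ A B m' Q → tn G (Finset.range m') (Lg z) Q ≤ ℓ) →
  C * ℓ ≤ m → C * m ≤ k → C * m ≤ I.card →
  ∃ (w : ℕ → ℕ → V) (l : ℕ → ℕ), AP G U₀ A B m w l ∧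
    d * tp G I m R (fun c => rng (w c) (l c)) ≤ I.card * m

/-! ## Labels -/

/-- GR1: greedy maximal separated set, by decreasing load. Induction on `L.ncard` (remove a vertex
of minimal load `v`; put it into `X` if it is close to no element of the `X` for the rest). -/
def S_GR1 : Prop := ∀ {V : Type} [Finite V] (L : Set V) (cl : V → V → Prop) (load : V → ℕ),
  (∀ v, cl v v) → (∀ u v, cl u v → cl v u) →
  ∃ X ⊆ L, (∀ x ∈ X, ∀ y ∈ X, x ≠ y → ¬ cl x y) ∧
    ∀ v ∈ L, ∃ y ∈ X, cl v y ∧ load v ≤ load y ∧ (v ∈ X → y = v)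

/-- NET (from GR1): nets. Proof: `p v` = a neighbour of `v ≠ r` in the layer above (closer to `r`).
Downward induction on `j` (start above the largest distance): sets `X_i`, `i ≥ j`, in the layers
`L_i = {v | dist r v = i}`, weights on them and parents `π` for `i > j`, such that all properties of
`Net` hold for them and the sum of the weights of `X_j` is `|X_j| + |X_(j+1)| + ...`. Step from `j+1`
to `j`: `load v = ` maximum of `wt x` over `x ∈ X_(j+1)` with `p x = v` (0 if there is none),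
`X_j` from GR1 for `L = L_j`, `cl u v := dist u v ≤ 4`. For `x ∈ X_(j+1)` let `π x = p x` if
`p x ∈ X_j`, otherwise the `y ∈ X_j` of GR1 for `v = p x`; `wt y = 1 + ∑ {x ∈ X_(j+1) | π x = y} wt x`.
`heavy`: `load (π x) ≥ load (p x) ≥ wt x ≥ 1`, so there is `x' ∈ X_(j+1)` with `p x' = π x` and
`wt x' = load (π x)`. At `j = 0`: `L_0 = {r}`, `X_0 = {r}`, `wt r = |X| ≤ |V|`. -/
def S_NET : Prop := ∀ {V : Type} [Finite V] (G : SimpleGraph V) (r : V), G.Connected →
  ∃ (p : V → V) (X : Set V) (π : V → V) (wt : V → ℕ), Net G r p X π wt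

/-- COR: cores. Proof: for `y ∈ X` with at least one `x ∈ X`, `x ≠ r`, `p x = y`, let `nc y` be such an
`x` of maximal weight. `x ∈ X`, `x ≠ r` is continuing if `p x ∈ X` and `nc (p x) = x`;
`top x = top (p x)` if `x` is continuing and `top x = x` otherwise (recursion on `dist r x`, or:
the last element of the chain). `inj`: by induction on the distance, a vertex has at most one
continuing child. `dbl`: `top x = x` means that `x` is not continuing (`top (p x) ≠ x`: it is closer
to the root). By `heavy` there is `x''` with `p x'' = π x`, `wt x ≤ wt x''`; let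
`x' = nc (π x)`, `wt x' ≥ wt x'' ≥ wt x`, `p x' = π x ∈ X`, `π x' = π x` by `pip`. `x' ≠ x`
(otherwise `p x = π x ∈ X` and `x` is continuing); so `wt x + wt x' < wt (π x)` by `two`. -/
def S_COR : Prop := ∀ {V : Type} [Finite V] (G : SimpleGraph V) (r : V) (p : V → V) (X : Set V)
  (π : V → V) (wt : V → ℕ), Net G r p X π wt → ∃ top : V → V, Core G r p X π wt top

/-- COC: facts about a core (`x ∈ X`, going up with `p` stays in the core until `top x`): for every
`j` between `dist r (top x)` and `dist r x` there is a `y` in the core in the layer `j` with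
`dist x y = dist r x - j`, (so) any two elements of a core have distance equal to the difference of
their layers, and the core is connected. -/
def S_COC : Prop := ∀ {V : Type} [Finite V] (G : SimpleGraph V) (r : V) (p : V → V) (X : Set V)
  (π : V → V) (wt : V → ℕ) (top : V → V), G.Connected → Net G r p X π wt →
  Core G r p X π wt top →
  (∀ x ∈ X, ∀ j, G.dist r (top x) ≤ j → j ≤ G.dist r x →
    ∃ y ∈ X, top y = top x ∧ G.dist r y = j) ∧
  (∀ x ∈ X, ∀ y ∈ X, top x = top y → G.dist r x ≤ G.dist r y →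
    G.dist x y + G.dist r x = G.dist r y) ∧
  ∀ x ∈ X, (G.induce {y | y ∈ X ∧ top y = top x}).Connected

/-- NEA: nearest point map. Proof: every `v` has distance at most 4 from `X`. By recursion on
`d(v) = ` distance from `v` to `X`: `a v = v` if `v ∈ X`, otherwise `a v = a v'` for a chosen
neighbour `v'` with `d(v') = d(v) - 1`. `D` = the chain of chosen neighbours from `v` to `a v`. -/
def S_NEA : Prop := ∀ {V : Type} [Finite V] (G : SimpleGraph V) (X : Set V), G.Connected →
  (∀ v, ∃ x ∈ X, G.dist v x ≤ 4) → ∃ a : V → V, Nearest G X a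

/-- EXI (from COC): few core vertices have a neighbour outside their cell. Proof: let `x ∈ X`,
`u` a neighbour, `top (a u) ≠ top x`. `dist u (a u) ≤ dist u x = 1`, so `x' = a u` has
`dist x x' ≤ 2`. If the core of `x` contained `y` in the layer of `x'`, then
`dist y x = |dist r y - dist r x| ≤ dist x x' ≤ 2` (COC), so `dist y x' ≤ 4`, `y ≠ x'`:
contradiction to `sep`. So the layer of `x'`, which differs by at most 2 from the layer of `x`,
is outside the range of layers of the core: `x` is one of the first two or the last two vertices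
of the core. -/
def S_EXI : Prop := ∀ {V : Type} [Finite V] (G : SimpleGraph V) (r : V) (p : V → V) (X : Set V)
  (π : V → V) (wt : V → ℕ) (top a : V → V), G.Connected → Net G r p X π wt →
  Core G r p X π wt top → Nearest G X a →
  ∀ i, {v | v ∈ X ∧ top v = i ∧ ∃ u, G.Adj v u ∧ top (a u) ≠ i}.ncard ≤ 4

/-- WID (from COC, ClaimBall): `v` with `top (a v) = i` in layer `j` has distance at most 4 from
`x = a v`, whose layer is in `[j - 4, j + 4]`; the core `i` has at most one vertex in each of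
these 9 layers, and a ball of radius 4 has at most `(Δ + 1) ^ 5` vertices. -/
def S_WID : Prop := ∀ Δ : ℕ, ∃ c : ℕ, ∀ {V : Type} [Finite V] (G : SimpleGraph V) (r : V)
  (p : V → V) (X : Set V) (π : V → V) (wt : V → ℕ) (top a : V → V), DegLe G Δ → G.Connected →
  Net G r p X π wt → Core G r p X π wt top → Nearest G X a →
  ∀ i j, {v | top (a v) = i ∧ G.dist r v = j}.ncard ≤ c

/-- LEG (from COC): legs with few labels in their closed neighbourhood. Proof: `lb v = top (a v)`.
(1) For a set `K` inside a core, `lb '' clN G K` has at most `1 + 4 Δ` elements: a neighbour with a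
label different from the core is a neighbour of one of at most 4 vertices (`c₁ = 4`).
(2) Claim: for `x ∈ X` with `top x = x` there is a connected `L ∋ x, r` with
`|lb '' clN G L| ≤ c₀ (1 + log2 (wt r) - log2 (wt x))`, `c₀ = 1 + 4 Δ + 7 (Δ + 1)`. Induction on
`dist r x`. `x = r`: `L = {r}`. Otherwise let `y = π x`, `t = top y`; `2 wt x < wt y ≤ wt t` (`dbl`;
weights increase upwards, `one`, since `π = p` inside a core by `pip`), so
`log2 (wt t) ≥ log2 (wt x) + 1`. `L` = `{x, p x}` ∪ (vertices of a path of length at most 4 from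
`p x` to `y`) ∪ (the core part from `y` up to `t`) ∪ (the leg of `t`). (3) for `z`: path of length at
most 4 to `x ∈ X` (`cov`), core part from `x` to `top x`, leg of `top x`. `wt r ≤ |V|`. -/
def S_LEG : Prop := ∀ Δ : ℕ, ∃ c : ℕ, ∀ {V : Type} [Finite V] (G : SimpleGraph V) (r : V)
  (p : V → V) (X : Set V) (π : V → V) (wt : V → ℕ) (top lb : V → V), DegLe G Δ →
  G.Connected → Net G r p X π wt → Core G r p X π wt top → (∀ x ∈ X, lb x = top x) →
  (∀ i, {v | v ∈ X ∧ lb v = i ∧ ∃ u, G.Adj v u ∧ lb u ≠ i}.ncard ≤ 4) →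
  ∀ z, ∃ L : Set V, (G.induce L).Connected ∧ z ∈ L ∧ r ∈ L ∧
    (lb '' clN G L).ncard ≤ c * (Nat.log 2 (Nat.card V) + 1)

/-- LAB (from NET, COR, COC, NEA, EXI, WID, LEG): `lb v = top (a v)`, `co = X`, `ly = dist r`. For
`conn`: `{x ∈ X | lb x = lb v}` is the core of `a v`. -/
def S_LAB : Prop := ∀ Δ : ℕ, ∃ c : ℕ, ∀ {V : Type} [Finite V] (G : SimpleGraph V), DegLe G Δ →
  G.Connected → ∃ (r : V) (ly : V → ℕ) (lb : V → V) (co : Set V), Lab G c r ly lb co

/-- PRD: product structure from the labels. Proof: number the vertices of label `i` in layer `j` by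
elements of `Fin c` (injectively). `J` on `V × Fin c`: `(i, a) ~ (i', a')` if `(i, a) ≠ (i', a')` and
`i = i'` or `(qG G lb).Adj i i'`; bags `bag x ×ˢ univ`. `φ v = ((lb v, number of v), ly v)`,
`k` larger than all `ly v`. -/
def S_PRD : Prop := ∀ {V : Type} [Finite V] (G : SimpleGraph V) (c W : ℕ) (r : V)
  (ly : V → ℕ) (lb : V → V) (co : Set V), Lab G c r ly lb co → TreewidthLE (qG G lb) W →
  Emb G (c * (W + 1))

/-- DSJ (from GridThm.PT0 = `GridThm.T0`): components. For every component `K` choose the embedding of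
`G.induce K`; `J` = disjoint union (sigma type over `G.ConnectedComponent`), trees glued to
a new vertex with empty bag, `k` = maximum. -/
def S_DSJ : Prop := ∀ {V : Type} [Finite V] (G : SimpleGraph V) (w : ℕ),
  (∀ v, Emb (G.induce {u | G.Reachable v u}) w) → Emb G w

/-! ## Hubs -/

/-- BRM (from `GridThm.A6` etc.: `¬ TreeWidthLE` gives `Mesh J (6 k) k C S c` as `6k + k ≤ 7k + 2`; the
definitions of `TreewidthLE` here and `TreeWidthLE` there are the same). Let `X = nbs J C`,
`|X| = 6k`. Claim: for `|S| < k` some component of `J - S` has more than `3k` vertices of `X`. If not: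
`|X ∖ S| > 5k`, and the components can be divided into two groups with at least `k` vertices of `X`
in each (if the largest has `≥ k`, hence between `k` and `3k`: it and the rest `> 2k`; otherwise add
components until there are `≥ k`, less than `2k`); take `Y`, `Z` of size `k` in the two groups; the
`k` disjoint paths between them (`link`) cannot all meet `S`: contradiction. `BB` = all these
components; two of them share a vertex of `X`. -/
def S_BRM : Prop := ∀ {V : Type} [Finite V] (J : SimpleGraph V) (k : ℕ), 1 ≤ k →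
  ¬ TreewidthLE J (7 * k) → ∃ BB : Set (Set V), Brm J k BB

/-- EX1 (from IPA): extension of a path into one label class `V_i = {v | lb v = i}`. `T v`: `v` touches
the target. Proof: let `y ∈ V_i ∩ clN G {w l}` and `x ∈ V_i` with `T x`; `K` = `D_y ∪ D_x ∪ core of i`
(`Lab.reach`, `Lab.conn`), connected, contained in `V_i`, with at most `2 c` vertices outside `co`.
IPA in `K` with `A = clN G {w l}`, `B = {v | T v}`: an induced path `u 0, ..., u s`. As `w l`
does not satisfy `T`, `u 0 ≠ w l` (if `u 0 = w l` then `s > 0`, and `u 1` is adjacent to `w l`,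
against `PC.hA`). New path: `w 0, ..., w l, u 0, ..., u s`; the vertices `w a`, `a < l`, do not
touch `V_i`. The old path has at most one vertex with label `i`, namely `w l`. -/
def S_EX1 : Prop := ∀ {V : Type} [Finite V] (G : SimpleGraph V) (c : ℕ) (r : V) (ly : V → ℕ)
  (lb : V → V) (co : Set V) (w : ℕ → V) (l : ℕ) (i : V) (T : V → Prop), Lab G c r ly lb co →
  Tip G lb co (2 * c + 1) {i} w l → (∃ x, lb x = i ∧ T x) → (∀ a ≤ l, ¬ T (w a)) →
  ∃ (w' : ℕ → V) (l' : ℕ), l < l' ∧ (∀ a ≤ l, w' a = w a) ∧ IP G w' l' ∧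
    Thin lb co (2 * c + 1) (rng w' l') ∧
    (∀ a b d, a ≤ b → b ≤ d → d ≤ l' → lb (w' a) = lb (w' d) → lb (w' b) = lb (w' a)) ∧
    (∀ a, l < a → a ≤ l' → lb (w' a) = i) ∧ T (w' l') ∧ ∀ a < l', ¬ T (w' a)

/-- EXT (from EX1, IPA): extension of a path through a bramble set `B` until it touches
`B'`. Proof: let `i 0, ..., i q` be an induced path of `qG G lb` in `B` from IPA with
`A = {i | TL G lb {w l} {i}}` and `B'` as second set. Induction on the length of the remaining label
path `i j, ..., i q`: the current path touches the label `i j` only with its last vertex, no label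
`i j'`, `j' > j`, and not `B'`. EX1 with `i = i j` and `T v := TL G lb {v} (insert (i (j+1)) B')`
(`T v := TL G lb {v} B'` if `j = q`; a vertex `x` as required exists because `i j ~ i (j+1)` in
`qG`, resp. `i q ∈ B'` and the label is used). If the last vertex touches `B'`, stop. Otherwise
continue with `j + 1`: new vertices have label `i j` and touch `i j'` with `j' > j` only if
`j' = j + 1`. -/
def S_EXT : Prop := ∀ {V : Type} [Finite V] (G : SimpleGraph V) (c : ℕ) (r : V) (ly : V → ℕ)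
  (lb : V → V) (co : Set V) (w : ℕ → V) (l : ℕ) (B B' : Set V), Lab G c r ly lb co →
  Tip G lb co (2 * c + 1) B w l → ((qG G lb).induce B).Connected → (B ∩ B').Nonempty →
  (∀ i ∈ B, ∃ v, lb v = i) → (∀ a ≤ l, ¬ TL G lb {w a} B') →
  ∃ (w' : ℕ → V) (l' : ℕ), (∀ a ≤ l, w' a = w a) ∧ l ≤ l' ∧ Tip G lb co (2 * c + 1) B' w' l'

/-- PTH (from EXT): a path touching the whole bramble. Proof: every `i` in a bramble set `B` is used:
an unused label is isolated in `qG`, so `B = {i}`, but some bramble set avoids `{i}` (`2 ≤ k`) and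
meets `B`. Start with one vertex with label in some `B` and extend by EXT to bramble sets not yet
touched; the number of touched bramble sets increases. -/
def S_PTH : Prop := ∀ {V : Type} [Finite V] (G : SimpleGraph V) (c : ℕ) (r : V) (ly : V → ℕ)
  (lb : V → V) (co : Set V) (k : ℕ) (BB : Set (Set V)), Lab G c r ly lb co → 2 ≤ k →
  Brm (qG G lb) k BB → ∃ (w : ℕ → V) (l : ℕ), IP G w l ∧ Thin lb co (2 * c + 1) (rng w l) ∧
    (∀ a b d, a ≤ b → b ≤ d → d ≤ l → lb (w a) = lb (w d) → lb (w b) = lb (w a)) ∧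
    ∀ B ∈ BB, TL G lb (rng w l) B

/-- HUB (from PTH): hubs. Proof: for a set `X` of vertices let 'order of `X` ≥ k' mean: for every `S` of
fewer than `k` labels some `B ∈ BB` avoids `S` and touches `X`. If `X` has not order `≥ a` (there is
`S` with `|S| < a` meeting all `B` touching `X`) and `Y` not order `≥ b`, then `X ∪ Y` has not order
`≥ a + b - 1`. A single vertex has not order `≥ Δ + 2` (`S` = labels of its closed neighbourhood).
The path of PTH has order `≥ 2 h (k + 2 Δ + 2)`. Cut it greedily into `2 h` consecutive intervals of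
order `≥ k`, with one vertex between two consecutive ones: take the shortest initial interval of
order `≥ k` (it has not order `≥ k + Δ + 1`), skip a vertex, and continue with the rest. An
interval of order `≥ k ≥ k₀ = (3 c + 1) Δ + 3` is not contained in one label class `i`: otherwise
the labels of its closed neighbourhood are `i` and labels of neighbours of vertices of `co` with
an exit (at most `c`, `Lab.exits`) or of vertices outside `co` (at most `2c + 1`). So, since every
label occurs in one interval of the path (PTH), no label meets two intervals whose indices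
differ by at least 2. Hubs: the intervals with even index; they are anticomplete (`IP.ind`). -/
def S_HUB : Prop := ∀ Δ c : ℕ, ∃ k₀ : ℕ, ∀ (h k : ℕ) {V : Type} [Finite V] (G : SimpleGraph V)
  (r : V) (ly : V → ℕ) (lb : V → V) (co : Set V) (BB : Set (Set V)), DegLe G Δ →
  Lab G c r ly lb co → k₀ ≤ k → Brm (qG G lb) (2 * h * (k + 2 * Δ + 2)) BB →
  ∃ P : ℕ → Set V, Hubs G lb co BB (2 * c + 1) k h P

/-- RLZ (from IPA for the graph `qG`): realisation of a connected set of labels. Proof: an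
induced path of labels `i 0 = lb x, ..., i q = lb y` in `Q`. For each `j < q` an edge `u v` of `G`
from label `i j` to label `i (j+1)`. `C` = union of the cores of the `i j` and of the sets `D` of
`Lab.reach` for `x`, `y` and all these `u`, `v`; each label contains two of these sets. -/
def S_RLZ : Prop := ∀ {V : Type} [Finite V] (G : SimpleGraph V) (c : ℕ) (r : V) (ly : V → ℕ)
  (lb : V → V) (co : Set V), Lab G c r ly lb co → ∀ (Q : Set V) (x y : V),
  ((qG G lb).induce Q).Connected → lb x ∈ Q → lb y ∈ Q →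
  ∃ C : Set V, (G.induce C).Connected ∧ x ∈ C ∧ y ∈ C ∧ (∀ v ∈ C, lb v ∈ Q) ∧
    Thin lb co (2 * c) C

/-- LNK (from MEN for `qG`, RLZ, IPA): connectors between two hubs. Proof: let `T_a`, `T_b` be the
sets of labels of `clN G (P a)`, `clN G (P b)`. MEN in `qG G lb`, `U = univ`: if a set `S` of fewer than
`k` labels meets all connectors between `T_a` and `T_b`: by `Hubs.ord` there are `B, B' ∈ BB`
avoiding `S`, `B` meets `T_a`, `B'` meets `T_b`, and `B ∪ B'` is connected: contradiction. So there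
are `k` disjoint connectors `Q i`. RLZ for `Q i` with `x ∈ clN G (P a)`, `y ∈ clN G (P b)`, labels in
`Q i`: a connected `C ∋ x, y`. IPA in `C` with the sets `clN G (P a)`, `clN G (P b)`: an induced path;
only its first vertex is in `clN G (P a)`, only its last one in `clN G (P b)`. No vertex is in `P a`:
the first one, if in `P a`, is not the last (`Anti G (P a) (P b)`) and the second would be in
`clN G (P a)`. So the first vertex is in `opN G (P a)`, same for `b`. -/
def S_LNK : Prop := ∀ {V : Type} [Finite V] (G : SimpleGraph V) (c : ℕ) (r : V) (ly : V → ℕ)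
  (lb : V → V) (co : Set V) (BB : Set (Set V)) (K f k h : ℕ) (P : ℕ → Set V),
  Lab G c r ly lb co → Brm (qG G lb) K BB → Hubs G lb co BB f k h P →
  ∀ a < h, ∀ b < h, a ≠ b → ∃ L : ℕ → Set V,
    Fm G {v | v ∉ P a ∧ v ∉ P b} (opN G (P a)) (opN G (P b)) k L ∧
    Thin lb co (2 * c) {v | ∃ i < k, v ∈ L i}

/-- THN: legs touch few connectors of a thin set. Proof: if `L` touches `Q j` then some label
`i ∈ lb '' clN G L` occurs in `Q j`. Fix a label `i`. Every `Q j` meeting `V_i` contains a vertex of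
`V_i` with a neighbour outside `V_i`: this is clear if `Q j` is not inside `V_i` (connected); if
`Q j ⊆ V_i`, its vertices in `opN X` and in `opN Y` have neighbours `x ∈ X`, `y ∈ Y`, and
`lb x ≠ lb y`, so one of them is outside `V_i`. The number of vertices in `U ∩ V_i` with a
neighbour outside `V_i` is at most `c` (in `co`, `Lab.exits`) plus `f`; the `Q j` are disjoint. -/
def S_THN : Prop := ∀ {V : Type} [Finite V] (G : SimpleGraph V) (c f : ℕ) (r : V) (ly : V → ℕ)
  (lb : V → V) (co U X Y L : Set V), Lab G c r ly lb co → Thin lb co f U →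
  (∀ x ∈ X, ∀ y ∈ Y, lb x ≠ lb y) → ∀ (m : ℕ) (Q : ℕ → Set V),
  Fm G U (opN G X) (opN G Y) m Q →
  tn G (Finset.range m) L Q ≤ (lb '' clN G L).ncard * (c + f)

/-- AVH: averaging over `n`-tuples of hubs (pure combinatorics). Proof: consider all functions
`F : Fin n → Fin h`. For distinct `i, j, l` the sum over `F` of `x (F i) (F j) (F l)` (0 if two
arguments are equal) is `h ^ (n-3)` times the sum over all triples, at most `h ^ (n-3) h^2 h m / d`;
so the total over all `(i, j, l)`, divided by the number `h ^ n` of functions, is at most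
`n^3 m / d`; it exceeds `2 n^3 m / d` for less than half of the functions (or is always 0); less
than half of the functions are not injective (`n^2 / h < 1/2`). -/
def S_AVH : Prop := ∀ (n h d m : ℕ) (x : ℕ → ℕ → ℕ → ℕ), 2 * n ^ 2 + 1 ≤ h →
  (∀ a < h, ∀ b < h, a ≠ b →
    d * ∑ e ∈ (Finset.range h).filter (fun e => e ≠ a ∧ e ≠ b), x a b e ≤ h * m) →
  ∃ f : ℕ → ℕ, (∀ i < n, f i < h) ∧ (∀ i < n, ∀ j < n, i ≠ j → f i ≠ f j) ∧
    ∀ i < n, ∀ j < n, i ≠ j →
      d * ∑ l ∈ (Finset.range n).filter (fun l => l ≠ i ∧ l ≠ j), x (f i) (f j) (f l)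
        ≤ (2 * n ^ 3 + 1) * m

/-- FAM (from LNK, SPR, THN, AVH): sparse families between `n` hubs. Proof: for `a ≠ b < h` let
`U₀ = Un I P ∪ ⋃ L i`, `I = range h ∖ {a, b}`, `L` from LNK; it is disjoint from `P a`, `P b` and thin
with constant `4 c + 1`. SPR with `d = 8 (2 n ^ 3 + 1)` and `2 m` connectors,
`ℓ' = (5 c + 2) ℓ`: a leg touches at most `ℓ` hubs (a touched hub contains a vertex with a label
in `lb '' clN G L`, and a label meets at most one hub), and at most `(5 c + 1) ℓ` members of a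
disjoint family by THN. AVH with `x a b e` = number of connectors of the family of `(a, b)`
touching `P e`: `n` hubs `f i` such that for `i ≠ j` at most `2 m / 8` of the connectors of
`(f i, f j)` touch one of the other chosen hubs. Keep `m` connectors touching none; `U i j` = union
of their vertex sets. -/
def S_FAM : Prop := ∀ n Δ c : ℕ, ∃ C : ℕ, 0 < C ∧ ∀ {V : Type} [Finite V] (G : SimpleGraph V)
  (r : V) (Lg : V → Set V) (ly : V → ℕ) (lb : V → V) (co : Set V) (BB : Set (Set V))
  (K k h m ℓ : ℕ) (P : ℕ → Set V), DegLe G Δ → ¬ HasAll G n → Lab G c r ly lb co →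
  Legs G r Lg → (∀ z, (lb '' clN G (Lg z)).ncard ≤ ℓ) → 1 ≤ ℓ → Brm (qG G lb) K BB →
  Hubs G lb co BB (2 * c + 1) k h P → C * ℓ ≤ m → C * m ≤ k → C * m ≤ h →
  ∃ (f : ℕ → ℕ) (U : ℕ → ℕ → Set V) (w : ℕ → ℕ → ℕ → ℕ → V) (l : ℕ → ℕ → ℕ → ℕ),
    (∀ i < n, f i < h) ∧ (∀ i < n, ∀ j < n, i ≠ j → f i ≠ f j) ∧
    ∀ i < n, ∀ j < n, i ≠ j → Lk G lb co (fun x => P (f x)) n (4 * c + 1) i j (U i j) ∧
      AP G (U i j) (opN G (P (f i))) (opN G (P (f j))) m (w i j) (l i j)

/-- STP (from SPR, THN, TCH): one pair is linked; the other families are made sparse and cleaned.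
The pair to be linked has index `N`; put `w' = w N`. (1) If some connector `c < C m` of the pair `N` has
`l N c ≤ 1`, let `c₀ = rng (w N c) (l N c)` (at most 2 vertices): it touches at most `2 (Δ + 1)` of the
disjoint connectors of every family `s < N`; keep `m` of the others. (2) Otherwise let
`R c = {w N c i | 1 ≤ i < l N c}`, `c ∈ I = range (C m)`: connected, pairwise anticomplete, anticomplete
to all hubs (its vertices are in `U N`, not in `opN (P (a N))` by `PC.hA`, not in `P (a N)` by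
`Lk`; same for `b N`). SPR for `s < N` with `U₀ = Un I R ∪ U s`, `L` = the connectors of the family
`s`, `d = 8 (N + 1)`, `8 m` connectors, `ℓ' = (c + 2 f + 1) ℓ` (THN for `U N` resp. for `U₀`, which
is thin with constant `2 f`; the leg touches `R c` only if it touches `rng (w N c) (l N c)`).
For each `s` at most `2 |I| / d` of the rows touch more than `4 m` of the `8 m` new connectors of
`s`, and `N · 2 |I| / d < |I|`; so some `R c` touches at most `4 m` of them for all
`s < N`. `c₀ = rng (w N c) (l N c)` has two more vertices, which touch at most `2 (Δ + 1) ≤ m`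
of them; keep `m` new connectors not touched by `c₀`, `U' s` = union of their vertex sets. -/
def S_STP : Prop := ∀ n Δ c f N : ℕ, ∃ C : ℕ, 0 < C ∧ ∀ {V : Type} [Finite V]
  (G : SimpleGraph V) (r : V) (Lg : V → Set V) (ly : V → ℕ) (lb : V → V) (co : Set V)
  (P : ℕ → Set V) (m ℓ : ℕ) (a b : ℕ → ℕ) (U : ℕ → Set V) (w : ℕ → ℕ → ℕ → V)
  (l : ℕ → ℕ → ℕ), DegLe G Δ → ¬ HasAll G n → Lab G c r ly lb co → Legs G r Lg →
  (∀ z, (lb '' clN G (Lg z)).ncard ≤ ℓ) → 1 ≤ ℓ →
  (∀ x < n, ∀ y < n, x ≠ y → ∀ u ∈ P x, ∀ v ∈ P y, lb u ≠ lb v) →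
  (∀ s ≤ N, a s < n ∧ b s < n ∧ a s ≠ b s ∧ Lk G lb co P n f (a s) (b s) (U s) ∧
    AP G (U s) (opN G (P (a s))) (opN G (P (b s))) (C * m) (w s) (l s)) → C * ℓ ≤ m →
  ∃ (c₀ : Set V) (U' : ℕ → Set V) (w' : ℕ → ℕ → ℕ → V) (l' : ℕ → ℕ → ℕ),
    (G.induce c₀).Connected ∧ c₀ ⊆ U N ∧ Touch G c₀ (P (a N)) ∧ Touch G c₀ (P (b N)) ∧
    ∀ s < N, U' s ⊆ U s ∪ U N ∧ Anti G (U' s) c₀ ∧ Lk G lb co P n (2 * f) (a s) (b s) (U' s) ∧
      AP G (U' s) (opN G (P (a s))) (opN G (P (b s))) m (w' s) (l' s)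

/-- PRC (from STP): all pairs are linked. Induction on `N` (for all `f`): `C_0 = 1`,
`C_(N+1) = C (C_N(2f) + C)` with `C` from STP (`m = (C_N(2f) + C) ℓ`; shorten the families of
`Nat.le` many connectors if necessary). The link of the pair `N` is `c₀ ⊆ U N`, and all later links
lie in the sets `U' s`, which are anticomplete to `c₀`. `c₀` is anticomplete to the other hubs by
`Lk.anti`. -/
def S_PRC : Prop := ∀ n Δ c f N : ℕ, ∃ C : ℕ, 0 < C ∧ ∀ {V : Type} [Finite V]
  (G : SimpleGraph V) (r : V) (Lg : V → Set V) (ly : V → ℕ) (lb : V → V) (co : Set V)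
  (P : ℕ → Set V) (ℓ : ℕ) (a b : ℕ → ℕ) (U : ℕ → Set V) (w : ℕ → ℕ → ℕ → V)
  (l : ℕ → ℕ → ℕ), DegLe G Δ → ¬ HasAll G n → Lab G c r ly lb co → Legs G r Lg →
  (∀ z, (lb '' clN G (Lg z)).ncard ≤ ℓ) → 1 ≤ ℓ →
  (∀ x < n, ∀ y < n, x ≠ y → ∀ u ∈ P x, ∀ v ∈ P y, lb u ≠ lb v) →
  (∀ s < N, a s < n ∧ b s < n ∧ a s ≠ b s ∧ Lk G lb co P n f (a s) (b s) (U s) ∧
    AP G (U s) (opN G (P (a s))) (opN G (P (b s))) (C * ℓ) (w s) (l s)) →
  ∃ D : ℕ → Set V, (∀ s < N, (G.induce (D s)).Connected ∧ Touch G (D s) (P (a s)) ∧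
      Touch G (D s) (P (b s)) ∧ (∀ x < n, x ≠ a s → x ≠ b s → Anti G (D s) (P x)) ∧
      D s ⊆ {v | ∃ s' < N, v ∈ U s'}) ∧
    ∀ s < N, ∀ s' < N, s ≠ s' → Anti G (D s) (D s')

/-- TPC (from BRM, HUB, FAM, PRC, K1, PRD, LAB): the connected case. Proof: `n ≤ 1` is impossible.
`c` from LAB, `Lg z` from `Lab.legs`, `ℓ = c (log2 |V| + 1) + 1`, `C_P` from PRC with `f = 4 c + 1`,
`N = n²`, `C_F` from FAM, `m = (C_P + C_F) ℓ`, `k = h = C_F m + k₀ + 1`,
`K = 2 h (k + 2 Δ + 2) ≤ C' (log2 |V| + 1)^2`. If `¬ TreewidthLE (qG G lb) (7 K)`: BRM, HUB, FAM, then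
PRC for the `n²` pairs `s ↦ (s / n, s % n)` (if `s / n = s % n` use `(s / n, (s / n + 1) % n)`), hubs
`P (f x)`, and K1 with `C i j = D (i n + j)`: `HasAll`, contradiction. So PRD applies. -/
def S_TPC : Prop := ∀ n Δ : ℕ, ∃ C : ℕ, ∀ {V : Type} [Finite V] (G : SimpleGraph V),
  DegLe G Δ → G.Connected → ¬ HasAll G n → Emb G (C * (Nat.log 2 (Nat.card V) + 1) ^ 2)

/-- FIN (from TPC, DSJ): THEOREM P. Components have at most `|V|` vertices, degrees at most `Δ` and
are induced subgraphs, so they do not contain all graphs on `n = |W|` vertices; `Emb` is monotone. -/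
def S_FIN : Prop := ∀ {W : Type} [Finite W] (H : SimpleGraph W) (Δ : ℕ), ∃ C : ℕ,
  ∀ {V : Type} [Finite V] (G : SimpleGraph V), DegLe G Δ → ¬ IsInducedMinor H G →
    Emb G (C * (Nat.log 2 (Nat.card V) + 1) ^ 2)

end Pool.Agent.IM55.PL
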