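import Pool.Agent.Work.MP_55ff09_co.PL.Base
import Pool.Agent.Work.MP_55ff09_co.PL.Stmts2

set_option autoImplicit false

namespace Pool.Agent.IM55.PL

open SimpleGraph Pool.Agent.IM55

namespace XCOC

variable {V : Type} {G : SimpleGraph V} {r : V} {p : V → V} {X : Set V} {π : V → V} {wt : V → ℕ}
  {top : V → V}

theorem step (hN : Net G r p X π wt) (hC : Core G r p X π wt top) {x : V} (hx : x ∈ X)
    (h : top x ≠ x) : p x ∈ X ∧ top (p x) = top x ∧ G.Adj x (p x) ∧
      G.dist r (p x) + 1 = G.dist r x := by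
  obtain ⟨h1, h2, h3⟩ := hC.up x hx h
  exact ⟨h2, h3, (hN.par x h1).1, (hN.par x h1).2⟩

theorem top_le (hN : Net G r p X π wt) (hC : Core G r p X π wt top) :
    ∀ n : ℕ, ∀ x ∈ X, G.dist r x = n → G.dist r (top x) ≤ G.dist r x := by
  intro n
  induction n with
  | zero =>
    intro x hx hn
    by_cases h : top x = x
    · rw [h]
    · have := (step hN hC hx h).2.2.2
      omega
  | succ n ih =>
    intro x hx hn
    by_cases h : top x = x
    · rw [h]
    · obtain ⟨h1, h2, h3, h4⟩ := step hN hC hx h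
      have := ih (p x) h1 (by omega)
      rw [h2] at this
      omega

/-- going up `k` steps -/
theorem iter (hG : G.Connected) (hN : Net G r p X π wt) (hC : Core G r p X π wt top) :
    ∀ k : ℕ, ∀ x ∈ X, G.dist r (top x) + k ≤ G.dist r x →
      ∃ y ∈ X, top y = top x ∧ G.dist r y + k = G.dist r x ∧ G.dist y x ≤ k := by
  intro k
  induction k with
  | zero =>
    intro x hx _
    exact ⟨x, hx, rfl, rfl, by simp⟩
  | succ k ih =>
    intro x hx hk
    have h : top x ≠ x := by
      intro h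
      rw [h] at hk
      omega
    obtain ⟨h1, h2, h3, h4⟩ := step hN hC hx h
    obtain ⟨y, hy, h5, h6, h7⟩ := ih (p x) h1 (by rw [h2]; omega)
    refine ⟨y, hy, h5.trans h2, by omega, ?_⟩
    have h8 : G.dist y x ≤ G.dist y (p x) + G.dist (p x) x := hG.dist_triangle
    have h9 : G.dist (p x) x = 1 := SimpleGraph.dist_eq_one_iff_adj.2 h3.symm
    omega

theorem conn (hN : Net G r p X π wt) (hC : Core G r p X π wt top) :
    ∀ n : ℕ, ∀ x ∈ X, G.dist r x = n → ∃ S : Set V, S ⊆ {y | y ∈ X ∧ top y = top x} ∧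
      (G.induce S).Connected ∧ x ∈ S ∧ top x ∈ S := by
  intro n
  induction n with
  | zero =>
    intro x hx hn
    by_cases h : top x = x
    · exact ⟨{x}, by rintro y rfl; exact ⟨hx, rfl⟩, conn_singleton x, rfl, h⟩
    · have := (step hN hC hx h).2.2.2
      omega
  | succ n ih =>
    intro x hx hn
    by_cases h : top x = x
    · exact ⟨{x}, by rintro y rfl; exact ⟨hx, rfl⟩, conn_singleton x, rfl, h⟩
    · obtain ⟨h1, h2, h3, h4⟩ := step hN hC hx h
      obtain ⟨S, hS, hc, hp, ht⟩ := ih (p x) h1 (by omega)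
      rw [h2] at hS ht
      refine ⟨{x} ∪ S, ?_, conn_union (conn_singleton x) hc ⟨x, rfl, p x, hp, Or.inr h3⟩,
        Or.inl rfl, Or.inr ht⟩
      rintro y (rfl | hy)
      · exact ⟨hx, rfl⟩
      · exact hS hy

end XCOC

open XCOC in
theorem i_COC : S_COC := by
  intro V _ G r p X π wt top hG hN hC
  refine ⟨?_, ?_, ?_⟩
  · intro x hx j h1 h2
    obtain ⟨y, hy, h3, h4, -⟩ := iter hG hN hC (G.dist r x - j) x hx (by omega)
    exact ⟨y, hy, h3, by omega⟩
  · intro x hx y hy ht hle
    have h1 := top_le hN hC _ x hx rfl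
    rw [ht] at h1
    obtain ⟨z, hz, h3, h4, h5⟩ := iter hG hN hC (G.dist r y - G.dist r x) y hy (by omega)
    have h6 : z = x := hC.inj z hz x hx (h3.trans ht.symm) (by omega)
    rw [h6] at h5
    have h7 : G.dist r y ≤ G.dist r x + G.dist x y := hG.dist_triangle
    omega
  · intro x hx
    have htop : top x ∈ {y | y ∈ X ∧ top y = top x} := ⟨hC.mem x hx, hC.idem x hx⟩
    apply induce_connected_of_patches (top x) htop
    rintro y ⟨hy, hyt⟩
    obtain ⟨S, hS, hc, h1, h2⟩ := XCOC.conn hN hC _ y hy rfl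
    rw [hyt] at hS h2
    exact ⟨S, hS, h2, h1, hc.preconnected _ _⟩

end Pool.Agent.IM55.PL
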