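import Pool.Agent.Work.MP_55ff09_co.PL.Base

/-!
# Block [55ff09 PL], item COL: greedy colouring of the square of `G`
-/

set_option autoImplicit false

namespace Pool.Agent.IM55.PL

open SimpleGraph Pool.Agent.IM55

namespace XCOL

variable {V : Type}

/-- vertices in conflict with `u` are in the second neighbourhood -/
theorem conflict {G : SimpleGraph V} {u v : V} (h : ¬ Disjoint (clN G {u}) (clN G {v})) :
    v ∈ clN G (clN G {u}) := by
  rw [Set.not_disjoint_iff] at h
  obtain ⟨y, ⟨x, hx, h1⟩, ⟨x', hx', h2⟩⟩ := h
  rw [Set.mem_singleton_iff] at hx hx'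
  subst hx hx'
  refine ⟨y, ⟨x, rfl, h1⟩, ?_⟩
  rcases h2 with rfl | h2
  · exact Or.inl rfl
  · exact Or.inr h2.symm

end XCOL

theorem i_COL : S_COL := by
  intro V _ G Δ hG
  classical
  haveI := Fintype.ofFinite V
  have hcard : ∀ u : V, (clN G (clN G {u})).ncard ≤ (Δ + 1) ^ 2 := by
    intro u
    calc (clN G (clN G {u})).ncard ≤ (clN G {u}).ncard * (Δ + 1) := clN_ncard_set hG _
      _ ≤ (Δ + 1) * (Δ + 1) := Nat.mul_le_mul_right _ (clN_ncard hG u)
      _ = (Δ + 1) ^ 2 := by ring
  have key : ∀ s : Finset V, ∃ c : V → ℕ, (∀ v, c v < (Δ + 1) ^ 2) ∧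
      ∀ u ∈ s, ∀ v ∈ s, u ≠ v → c u = c v → Disjoint (clN G {u}) (clN G {v}) := by
    intro s
    induction s using Finset.induction_on with
    | empty => exact ⟨fun _ => 0, fun _ => by positivity, by simp⟩
    | insert a s ha ih =>
      obtain ⟨c, hc, hc'⟩ := ih
      -- the colours in conflict
      let T : Finset V := Finset.univ.filter fun v => v ≠ a ∧ v ∈ clN G (clN G {a})
      have hT : T.card < (Δ + 1) ^ 2 := by
        have h1 : T ⊂ (clN G (clN G {a})).toFinset := by
          rw [Finset.ssubset_iff_of_subset]
          · refine ⟨a, ?_, ?_⟩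
            · rw [Set.mem_toFinset]
              exact ⟨a, ⟨a, rfl, Or.inl rfl⟩, Or.inl rfl⟩
            · intro h
              exact (Finset.mem_filter.1 h).2.1 rfl
          · intro v hv
            rw [Set.mem_toFinset]
            exact (Finset.mem_filter.1 hv).2.2
        have h2 := Finset.card_lt_card h1
        rw [← Set.ncard_eq_toFinset_card'] at h2
        exact h2.trans_le (hcard a)
      obtain ⟨x, hx, hxT⟩ : ∃ x ∈ Finset.range ((Δ + 1) ^ 2), x ∉ T.image c := by
        by_contra hcon
        push Not at hcon
        have h3 : Finset.range ((Δ + 1) ^ 2) ⊆ T.image c := hcon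
        have h4 := (Finset.card_le_card h3).trans Finset.card_image_le
        rw [Finset.card_range] at h4
        omega
      have hfree : ∀ v ∈ s, c v = x → Disjoint (clN G {a}) (clN G {v}) := by
        intro v hv hvx
        by_contra hcon
        have hva : v ≠ a := fun h => ha (h ▸ hv)
        exact hxT (Finset.mem_image.2 ⟨v, Finset.mem_filter.2 ⟨Finset.mem_univ _, hva,
          XCOL.conflict hcon⟩, hvx⟩)
      refine ⟨Function.update c a x, fun v => ?_, fun u hu v hv huv h => ?_⟩
      · by_cases hva : v = a
        · subst hva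
          rw [Function.update_self]
          exact Finset.mem_range.1 hx
        · rw [Function.update_of_ne hva]
          exact hc v
      · rcases Finset.mem_insert.1 hu with rfl | hu'
        · have hvu : v ≠ u := huv.symm
          rw [Function.update_self, Function.update_of_ne hvu] at h
          exact hfree v ((Finset.mem_insert.1 hv).resolve_left hvu) h.symm
        · rcases Finset.mem_insert.1 hv with rfl | hv'
          · rw [Function.update_self, Function.update_of_ne huv] at h
            exact (hfree u hu' h).symm
          · have hua : u ≠ a := fun h => ha (h ▸ hu')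
            have hva : v ≠ a := fun h => ha (h ▸ hv')
            rw [Function.update_of_ne hua, Function.update_of_ne hva] at h
            exact hc' u hu' v hv' huv h
  obtain ⟨c, hc, hc'⟩ := key Finset.univ
  exact ⟨c, hc, fun u v huv h => hc' u (Finset.mem_univ _) v (Finset.mem_univ _) huv h⟩

end Pool.Agent.IM55.PL
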