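import Pool.Agent.Work.MP_55ff09_co.PL.Base

/-!
# MP_55ff09_co, block PL, item COM: two escaping legs which touch give a handle
-/

set_option autoImplicit false

namespace Pool.Agent.IM55.PL

open SimpleGraph Pool.Agent.IM55

namespace XCOM

/-- a vertex of an escaping leg touches only few cells -/
theorem cell {V : Type} {G : SimpleGraph V} {r : V} {M : ℕ} {seg ps Vg : ℤ × ℤ → Set V}
    {R : ℤ → Set V} (hW : World G r M seg ps Vg R) {x₀ y₀ : ℤ} {s : ℕ} {E : ℤ × ℤ → Set V}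
    {z e : ℤ × ℤ → V} (hB : Box x₀ y₀ s ⊆ Box 0 0 M) (hE : Esc G M seg Vg R x₀ y₀ s E z e)
    {q : ℤ × ℤ} (hq : q ∈ Box x₀ y₀ s) {x u : V} (hx : x ∈ E q)
    (hu : (∃ y' : ℤ, y₀ ≤ y' ∧ y' < y₀ + s ∧ Touch G {x} (seg (q.1, y'))) → x = u)
    {c : ℤ × ℤ} (hc : c ∈ Box 0 0 M) (ht : Touch G {x} (seg c ∪ ps c)) :
    x = u ∨ x = e q := by
  have hxV : x ∈ Vg q := hE.sub q hq hx
  have hqM := hB hq
  obtain ⟨x', hx', y, hy, hxy⟩ := ht
  rw [Set.mem_singleton_iff] at hx'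
  subst hx'
  rcases hy with hy | hy
  · have hc1 : q.1 = c.1 := by
      by_contra hne
      have := hW.vcol q hqM c hc hne x' hxV y hy
      rcases hxy with h | h
      · exact this.1 h
      · exact this.2 h
    have hce : c = (q.1, c.2) := by rw [hc1]
    have htt : Touch G {x'} (seg (q.1, c.2)) := by
      rw [← hce]; exact ⟨x', rfl, y, hy, hxy⟩
    by_cases hr : y₀ ≤ c.2 ∧ c.2 < y₀ + s
    · exact Or.inl (hu ⟨c.2, hr.1, hr.2, htt⟩)
    · right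
      refine hE.only q hq x' hx c.2 (by rw [← hce]; exact hc) ?_ htt
      by_contra hcon
      push Not at hcon
      exact hr ⟨hcon.1, hcon.2⟩
  · exfalso
    have := hW.vps q hqM c hc x' hxV y hy
    rcases hxy with h | h
    · exact this.1 h
    · exact this.2 h

end XCOM

open XCOM in
theorem i_COM (h1 : S_MPC) (h2 : ClaimTouchCard) : S_COM := by
  classical
  intro V _ G r Δ M seg ps Vg R hG hW x₀ y₀ s E z e hB hE q hq q' hq' hne ht
  have hconn : (G.induce (E q ∪ E q')).Connected := conn_union (hE.conn q hq) (hE.conn q' hq') ht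
  obtain ⟨hqa, hqb, hqc, hqd⟩ := hq
  obtain ⟨hqa', hqb', hqc', hqd'⟩ := hq'
  have hq : q ∈ Box x₀ y₀ s := ⟨hqa, hqb, hqc, hqd⟩
  have hq' : q' ∈ Box x₀ y₀ s := ⟨hqa', hqb', hqc', hqd'⟩
  obtain ⟨X, hXC, hXconn, u, hu, v, hv, hPu, hQv, hPu', hQv'⟩ := h1 G (E q ∪ E q')
    (fun x => ∃ y' : ℤ, y₀ ≤ y' ∧ y' < y₀ + s ∧ Touch G {x} (seg (q.1, y')))
    (fun x => ∃ y' : ℤ, y₀ ≤ y' ∧ y' < y₀ + s ∧ Touch G {x} (seg (q'.1, y'))) hconn
    ⟨z q, Or.inl (hE.zE q hq), q.2, hqc, hqd, z q, rfl, z q, hE.zseg q hq, Or.inl rfl⟩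
    ⟨z q', Or.inr (hE.zE q' hq'), q'.2, hqc', hqd', z q', rfl, z q', hE.zseg q' hq', Or.inl rfl⟩
  refine ⟨X, hXconn, ?_, ?_⟩
  · -- few cells
    have hdisj := hW.model.disj
    obtain ⟨hfin, hcard⟩ := h2 V inferInstance G Δ (Box 0 0 M) (fun c => seg c ∪ ps c) hG hdisj
      ({u, v, e q, e q'} : Set V)
    have hsub : {c | c ∈ Box 0 0 (M : ℤ) ∧ Touch G X (seg c ∪ ps c)} ⊆
        {c | c ∈ Box 0 0 (M : ℤ) ∧ Touch G ({u, v, e q, e q'} : Set V) (seg c ∪ ps c)} := by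
      rintro c ⟨hc, x, hx, y, hy, hxy⟩
      refine ⟨hc, x, ?_, y, hy, hxy⟩
      have htx : Touch G {x} (seg c ∪ ps c) := ⟨x, rfl, y, hy, hxy⟩
      rcases hXC hx with hxE | hxE
      · rcases cell hW hB hE hq hxE (hPu' x hx) hc htx with h | h
        · rw [h]; simp
        · rw [h]; simp
      · rcases cell hW hB hE hq' hxE (hQv' x hx) hc htx with h | h
        · rw [h]; simp
        · rw [h]; simp
    have h4 : ({u, v, e q, e q'} : Set V).ncard ≤ 4 := by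
      refine (Set.ncard_insert_le _ _).trans ?_
      refine Nat.succ_le_succ ((Set.ncard_insert_le _ _).trans ?_)
      refine Nat.succ_le_succ ((Set.ncard_insert_le _ _).trans ?_)
      rw [Set.ncard_singleton]
    unfold cellN
    exact (Set.ncard_le_ncard hsub hfin).trans (hcard.trans (Nat.mul_le_mul_right _ h4))
  · obtain ⟨y1, hy1, hy1', u', hu', w1, hw1, ht1⟩ := hPu
    obtain ⟨y2, hy2, hy2', v', hv', w2, hw2, ht2⟩ := hQv
    rw [Set.mem_singleton_iff] at hu' hv'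
    subst hu' hv'
    exact ⟨(q.1, y1), ⟨hqa, hqb, hy1, hy1'⟩, (q'.1, y2), ⟨hqa', hqb', hy2, hy2'⟩, le_rfl,
      ⟨u', hu, w1, Or.inl hw1, ht1⟩, ⟨v', hv, w2, Or.inl hw2, ht2⟩⟩

end Pool.Agent.IM55.PL
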