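import Pool.Agent.Work.MP_55ff09_co.PL.Base

/-!
# MP_55ff09_co, block PL, item COR: cores
-/

set_option autoImplicit false

namespace Pool.Agent.IM55.PL

open SimpleGraph Pool.Agent.IM55

namespace XCOR

open Classical in
/-- `n` steps upwards, as long as the vertices are continuing -/
noncomputable def T {V : Type} (c : V → Prop) (p : V → V) : ℕ → V → V
  | 0, x => x
  | n + 1, x => if c x then T c p n (p x) else x

theorem T_not {V : Type} (c : V → Prop) (p : V → V) (n : ℕ) (x : V) (h : ¬ c x) : T c p n x = x := by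
  cases n with
  | zero => rfl
  | succ n => simp [T, h]

theorem T_succ {V : Type} (c : V → Prop) (p : V → V) (n : ℕ) (x : V) (h : c x) :
    T c p (n + 1) x = T c p n (p x) := by
  simp [T, h]

end XCOR

open XCOR

theorem i_COR : S_COR := by
  intro V _ G r p X π wt hN
  -- the heaviest children
  have hch : ∀ y : V, ∃ z : V, (∃ x, x ∈ X ∧ x ≠ r ∧ p x = y) →
      (z ∈ X ∧ z ≠ r ∧ p z = y) ∧ ∀ x, x ∈ X → x ≠ r → p x = y → wt x ≤ wt z := by
    intro y
    by_cases h : ∃ x, x ∈ X ∧ x ≠ r ∧ p x = y
    · obtain ⟨x₀, hx₀⟩ := h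
      obtain ⟨z, hz, hmax⟩ := Set.exists_max_image {x | x ∈ X ∧ x ≠ r ∧ p x = y} wt
        (Set.toFinite _) ⟨x₀, hx₀⟩
      exact ⟨z, fun _ => ⟨hz, fun x h1 h2 h3 => hmax x ⟨h1, h2, h3⟩⟩⟩
    · exact ⟨y, fun h' => absurd h' h⟩
  choose nc hnc using hch
  let c : V → Prop := fun x => x ∈ X ∧ x ≠ r ∧ p x ∈ X ∧ nc (p x) = x
  let top : V → V := fun x => T c p (G.dist r x) x
  have hdist : ∀ x, c x → G.dist r (p x) + 1 = G.dist r x := fun x hx => (hN.par x hx.2.1).2
  have ta : ∀ x, c x → top x = top (p x) := by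
    intro x hx
    show T c p (G.dist r x) x = T c p (G.dist r (p x)) (p x)
    rw [← hdist x hx, T_succ c p _ x hx]
  have tb : ∀ x, ¬ c x → top x = x := fun x hx => T_not c p _ x hx
  -- induction on the layer
  have key : ∀ n : ℕ, ∀ x ∈ X, G.dist r x = n →
      top x ∈ X ∧ G.dist r (top x) ≤ G.dist r x ∧ top (top x) = top x := by
    intro n
    induction n using Nat.strong_induction_on with
    | _ n ih =>
      intro x hx hn
      by_cases h : c x
      · have h1 := hdist x h
        obtain ⟨a1, a2, a3⟩ := ih (G.dist r (p x)) (by omega) (p x) h.2.2.1 rfl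
        rw [ta x h]
        exact ⟨a1, by omega, a3⟩
      · have h1 := tb x h
        rw [h1]
        exact ⟨hx, le_rfl, h1⟩
  have hlt : ∀ x, c x → G.dist r (top x) < G.dist r x := by
    intro x hx
    have h1 := (key _ (p x) hx.2.2.1 rfl).2.1
    have h2 := hdist x hx
    rw [ta x hx]
    omega
  refine ⟨top, fun x hx => (key _ x hx rfl).1, fun x hx => (key _ x hx rfl).2.2, ?_, ?_, ?_⟩
  · intro x hx hne
    have h : c x := by
      by_contra h
      exact hne (tb x h)
    exact ⟨h.2.1, h.2.2.1, (ta x h).symm⟩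
  · have hinj : ∀ n : ℕ, ∀ x ∈ X, ∀ y ∈ X, G.dist r x = n → top x = top y →
        G.dist r x = G.dist r y → x = y := by
      intro n
      induction n using Nat.strong_induction_on with
      | _ n ih =>
        intro x hx y hy hn ht hd
        by_cases h1 : c x
        · by_cases h2 : c y
          · have e1 := hdist x h1
            have e2 := hdist y h2
            rw [ta x h1, ta y h2] at ht
            have e3 := ih (G.dist r (p x)) (by omega) (p x) h1.2.2.1 (p y) h2.2.2.1 rfl ht (by omega)
            rw [← h1.2.2.2, ← h2.2.2.2, e3]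
          · have e1 := hlt x h1
            rw [ht, tb y h2] at e1
            omega
        · by_cases h2 : c y
          · have e1 := hlt y h2
            rw [← ht, tb x h1] at e1
            omega
          · rw [← tb x h1, ht, tb y h2]
    intro x hx y hy ht hd
    exact hinj _ x hx y hy rfl ht hd
  · intro x hx hxr ht
    have h : ¬ c x := by
      intro h
      have e1 := hlt x h
      rw [ht] at e1
      exact lt_irrefl _ e1
    obtain ⟨x2, h1, h2, h3, h4⟩ := hN.heavy x hx hxr
    obtain ⟨⟨b1, b2, b3⟩, b4⟩ := hnc (π x) ⟨x2, h1, h2, h3⟩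
    have hπ := (hN.pi x hx hxr).1
    have h5 : π (nc (π x)) = π x := by
      rw [hN.pip _ b1 b2 (by rw [b3]; exact hπ), b3]
    have h6 : x ≠ nc (π x) := by
      intro h6
      have h7 : p x = π x := by
        conv_lhs => rw [h6]
        exact b3
      exact h ⟨hx, hxr, by rw [h7]; exact hπ, by rw [h7]; exact h6.symm⟩
    have h7 := hN.two x hx (nc (π x)) b1 hxr b2 h6 h5.symm
    have h8 := b4 x2 h1 h2 h3
    omega

end Pool.Agent.IM55.PL
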