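import Pool.Agent.Work.MP_55ff09_co.PL.Base

set_option autoImplicit false

namespace Pool.Agent.IM55.PL

open SimpleGraph Pool.Agent.IM55

namespace XCRI

variable {V : Type} {G : SimpleGraph V}

theorem key [Finite V] (h1 : S_MEN) (h2 : S_MIB) (U A B : Set V) (M : ℕ) (Q : ℕ → Set V)
    (hQ : Fm G U A B M Q) (y : V) (_hy : y ∈ U)
    (hno : ¬ ∃ Q, Fm G (U \ {y}) A B M Q) : ∃ X, Ct G U A B M X ∧ y ∈ bd G U B X := by
  rcases h1 G (U \ {y}) A B M with h | ⟨T, hTU, hTc, hT⟩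
  · exact absurd h hno
  · have hT' : ∀ Q, Cr G U A B Q → (Q ∩ insert y T).Nonempty := by
      intro Q hQ
      by_cases hyQ : y ∈ Q
      · exact ⟨y, hyQ, Or.inl rfl⟩
      · obtain ⟨x, hx1, hx2⟩ := hT Q ⟨hQ.conn, fun x hx => ⟨hQ.sub hx, fun e => hyQ (by
          rw [Set.mem_singleton_iff] at e; exact e ▸ hx)⟩, hQ.hA, hQ.hB⟩
        exact ⟨x, hx1, Or.inr hx2⟩
    let X : Set V := {v | v ∈ U ∧ ∃ S : Set V, (G.induce S).Connected ∧ S ⊆ U ∧ v ∈ S ∧
      (S ∩ A).Nonempty ∧ ∀ x ∈ S, x ∈ insert y T → x = v}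
    have hXU : X ⊆ U := fun v hv => hv.1
    have hAX : A ∩ U ⊆ X := by
      intro v hv
      refine ⟨hv.2, {v}, conn_singleton v, ?_, rfl, ⟨v, rfl, hv.1⟩, fun x hx _ => hx⟩
      intro x hx
      rw [Set.mem_singleton_iff] at hx
      exact hx ▸ hv.2
    have hbd : bd G U B X ⊆ insert y T := by
      intro x hx
      by_contra hxT
      obtain ⟨⟨hxU, S, hS, hSU, hxS, hSA, hST⟩, hb⟩ := hx
      have hno : ∀ z ∈ S, z ∉ insert y T := by
        intro z hz hzT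
        have := hST z hz hzT
        subst this
        exact hxT hzT
      rcases hb with hB | ⟨y', hy'U, hy'X, ha⟩
      · obtain ⟨z, hz1, hz2⟩ := hT' S ⟨hS, hSU, hSA, ⟨x, hxS, hB⟩⟩
        exact hno z hz1 hz2
      · apply hy'X
        refine ⟨hy'U, S ∪ {y'}, ?_, ?_, Or.inr rfl, ?_, ?_⟩
        · exact conn_union hS (conn_singleton _) ⟨x, hxS, y', rfl, Or.inr ha⟩
        · rintro z (hz | hz)
          · exact hSU hz
          · rw [Set.mem_singleton_iff] at hz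
            exact hz ▸ hy'U
        · obtain ⟨z, hz1, hz2⟩ := hSA
          exact ⟨z, Or.inl hz1, hz2⟩
        · rintro z (hz | hz) hzT
          · exact absurd hzT (hno z hz)
          · exact hz
    have hM : M ≤ (bd G U B X).ncard := h2 G U A B M Q hQ X hAX hXU
    have hc : (insert y T).ncard ≤ M := (Set.ncard_insert_le _ _).trans hTc
    have he : bd G U B X = insert y T :=
      Set.eq_of_subset_of_ncard_le hbd (hc.trans hM) (Set.toFinite _)
    refine ⟨X, ⟨hAX, hXU, ?_⟩, ?_⟩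
    · exact le_antisymm (he ▸ hc) hM
    · rw [he]
      exact Or.inl rfl

end XCRI

theorem i_CRI (h1 : S_MEN) (h2 : S_MIB) : S_CRI := by
  intro V _ G U₀ A B D M hD hQ₀
  obtain ⟨U, hU, hmin⟩ := (Set.toFinite
    {U : Set V | D ⊆ U ∧ U ⊆ U₀ ∧ ∃ Q, Fm G U A B M Q}).exists_minimal
    ⟨U₀, hD, le_rfl, hQ₀⟩
  obtain ⟨hDU, hUU, Q, hQ⟩ := hU
  refine ⟨U, hDU, hUU, ⟨Q, hQ⟩, ?_⟩
  by_cases hUD : U = D
  · exact Or.inl hUD
  · right
    have crit : ∀ y ∈ U, y ∉ D → ∃ X, Ct G U A B M X ∧ y ∈ bd G U B X := by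
      intro y hy hyD
      refine XCRI.key h1 h2 U A B M Q hQ y hy ?_
      intro hex
      have h3 : U ⊆ U \ {y} := hmin ⟨fun x hx => ⟨hDU hx, fun e => hyD (by
        rw [Set.mem_singleton_iff] at e; exact e ▸ hx)⟩,
        Set.sdiff_subset.trans hUU, hex⟩ Set.sdiff_subset
      exact (h3 hy).2 rfl
    refine ⟨hDU, fun X h3 h4 => h2 G U A B M Q hQ X h3 h4, ?_, crit⟩
    obtain ⟨y, hy, hyD⟩ : ∃ y ∈ U, y ∉ D := by
      by_contra hcon
      push Not at hcon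
      exact hUD (Set.Subset.antisymm hcon hDU)
    obtain ⟨X, hX, -⟩ := crit y hy hyD
    exact ⟨X, hX⟩

end Pool.Agent.IM55.PL
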