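import Pool.Agent.Work.MP_55ff09_co.PL.Base

/-!
# MP_55ff09_co, block PL, item CUT
-/

set_option autoImplicit false

namespace Pool.Agent.IM55.PL

open SimpleGraph Pool.Agent.IM55

namespace XCUT

theorem aux {V : Type} {G : SimpleGraph V} {C S T : Set V} {u v : V}
    (hC : (G.induce C).Connected) (hu : u ∈ C) (hv : v ∈ C) (hQv : Touch G {v} T)
    (huniq : ∀ x ∈ C, Touch G {x} S → x = u) (hanti : Anti G S T) : Disjoint C S := by
  rw [Set.disjoint_left]
  intro x hx hxS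
  have hxu : x = u := huniq x hx ⟨x, rfl, x, hxS, Or.inl rfl⟩
  subst hxu
  by_cases hvx : v = x
  · subst hvx
    obtain ⟨a, ha, t, ht, h⟩ := hQv
    rw [Set.mem_singleton_iff] at ha
    subst ha
    rcases h with h | h
    · exact (hanti a hxS t ht).1 h
    · exact (hanti a hxS t ht).2 h
  · obtain ⟨a, ha, b, hb, hax, hbx, hab⟩ := exit_edge hC (fun z => z = x) hx rfl hv hvx
    subst hax
    exact hbx (huniq b hb ⟨b, rfl, a, hxS, Or.inr hab.symm⟩)

end XCUT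

theorem i_CUT (h1 : S_MPC) : S_CUT := by
  intro V _ G C S T hC hS hT hanti
  obtain ⟨s, hs, s', hs', hss⟩ := hS
  obtain ⟨t, ht, t', ht', htt⟩ := hT
  obtain ⟨C', hC'C, hC', u, hu, v, hv, hPu, hQv, hP, hQ⟩ := h1 G C (fun x => Touch G {x} S)
    (fun x => Touch G {x} T) hC ⟨s, hs, s, rfl, s', hs', hss⟩ ⟨t, ht, t, rfl, t', ht', htt⟩
  have hanti' : Anti G T S := fun x hx y hy =>
    ⟨fun h => (hanti y hy x hx).1 h.symm, fun h => (hanti y hy x hx).2 h.symm⟩
  refine ⟨C', hC'C, hC', ?_, ?_, ?_⟩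
  · obtain ⟨a, ha, b, hb, h⟩ := hPu
    rw [Set.mem_singleton_iff] at ha
    subst ha
    exact ⟨a, hu, b, hb, h⟩
  · obtain ⟨a, ha, b, hb, h⟩ := hQv
    rw [Set.mem_singleton_iff] at ha
    subst ha
    exact ⟨a, hv, b, hb, h⟩
  · rw [Set.disjoint_union_right]
    exact ⟨XCUT.aux hC' hu hv hQv hP hanti, XCUT.aux hC' hv hu hPu hQ hanti'⟩

end Pool.Agent.IM55.PL
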