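import Pool.Agent.Work.MP_55ff09_co.PL.Base

/-!
# MP_55ff09_co, block PL: item DEN
-/

set_option autoImplicit false

namespace Pool.Agent.IM55.PL

open SimpleGraph Pool.Agent.IM55

theorem i_DEN (hW : S_WRL) (hF : S_FRW) (hO : S_ORD) (hP : S_PSB) (hS : S_SMP) : S_DEN := by
  intro n Δ d K
  obtain ⟨M₀, hM₀⟩ := hW n Δ
  obtain ⟨t, g, hF'⟩ := hF n Δ M₀
  obtain ⟨K₀, hK₀⟩ := hS Δ d K t
  obtain ⟨g', hg'⟩ := hO Δ t g K₀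
  obtain ⟨C, hC, hC'⟩ := hK₀ (g' + 1) (Nat.succ_pos _)
  refine ⟨C, hC, ?_⟩
  intro V _ G r Lg U A B I R M m ℓ w l hG hL hR hcs hap hMK hℓ hl1 hl2 h1 h2 h3
  obtain ⟨W, R', w', l', τ, hPre⟩ := hC' G r Lg U A B I R M m ℓ w l hG hL hR hcs hap hMK hℓ hl1
    hl2 h1 h2 h3
  obtain ⟨W', hPre'⟩ := hP G r Lg U B t g' (g' + 1) K₀ W R' w' l' τ (fun k => k) hPre
    (fun k hk => by omega) (fun k _ k' _ h => h)
  obtain ⟨R'', w'', l'', α, β, τ', Vg, hFr⟩ := hg' G r Lg U B W' _ w' l' _ hG hL hPre'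
  rcases hF' G r R'' w'' l'' α β τ' Vg hG hFr with h | ⟨seg, ps, Vg', R3, hw⟩
  · exact h
  · exact hM₀ G r seg ps Vg' R3 hG hw

end Pool.Agent.IM55.PL
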