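import Pool.Agent.Work.MP_55ff09_co.PL.Base

/-!
# MP_55ff09_co, block PL, item DRW: connectors in the union of the rows
-/

set_option autoImplicit false

namespace Pool.Agent.IM55.PL

open SimpleGraph Pool.Agent.IM55

namespace XDRW

variable {V : Type} {G : SimpleGraph V}

theorem row {A B : Set V} {I : Finset ℕ} {R : ℕ → Set V} (hR : Rows G I R) {Q : Set V}
    (hQ : Cr G (Un I R) A B Q) : ∃ a ∈ I, Q ⊆ R a := by
  obtain ⟨x, hx, -⟩ := hQ.hA
  obtain ⟨a, ha, hxa⟩ := hQ.sub hx
  refine ⟨a, ha, conn_subset hQ.conn ⟨x, hx, hxa⟩ ?_⟩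
  intro u _ hua v hv huv
  obtain ⟨a', ha', hva'⟩ := hQ.sub hv
  by_cases h : a = a'
  · subst h
    exact hva'
  · exact absurd huv (hR.anti a ha a' ha' h u hua v hva').2

theorem uniq {A B : Set V} {I : Finset ℕ} {R : ℕ → Set V} (hR : Rows G I R) {Q : Set V}
    (hQ : Cr G (Un I R) A B Q) {a a' : ℕ} (ha : a ∈ I) (ha' : a' ∈ I)
    (h : Touch G (R a) Q) (h' : Touch G (R a') Q) : a = a' := by
  obtain ⟨b, hb, hQb⟩ := row hR hQ
  have key : ∀ c ∈ I, Touch G (R c) Q → c = b := by
    intro c hc hcQ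
    by_contra hcb
    obtain ⟨x, hx, y, hy, hxy⟩ := hcQ.mono subset_rfl hQb
    have := hR.anti c hc b hb hcb x hx y hy
    rcases hxy with e | e
    · exact this.1 e
    · exact this.2 e
  rw [key a ha h, key a' ha' h']

end XDRW

theorem i_DRW : S_DRW := by
  intro V _ G A B I R m Q hR hF
  classical
  unfold tp
  calc ((I ×ˢ Finset.range m).filter fun p => Touch G (R p.1) (Q p.2)).card
      ≤ (Finset.range m).card := by
        apply Finset.card_le_card_of_injOn (fun p => p.2)
        · intro p hp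
          have hp' := Finset.mem_filter.1 (Finset.mem_coe.1 hp)
          exact Finset.mem_coe.2 (Finset.mem_product.1 hp'.1).2
        · intro p hp p' hp' e
          have hp1 := Finset.mem_filter.1 (Finset.mem_coe.1 hp)
          have hp2 := Finset.mem_filter.1 (Finset.mem_coe.1 hp')
          have e' : p.2 = p'.2 := e
          obtain ⟨h1, h2⟩ := Finset.mem_product.1 hp1.1
          obtain ⟨h3, h4⟩ := Finset.mem_product.1 hp2.1
          have h5 := hp2.2
          rw [← e'] at h5
          exact Prod.ext (XDRW.uniq hR (hF.1 p.2 (Finset.mem_range.1 h2)) h1 h3 hp1.2 h5) e'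
    _ = m := Finset.card_range m

end Pool.Agent.IM55.PL
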