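import Pool.Agent.Work.MP_55ff09_co.PL.Base
import Pool.Agent.Work.Tools.GridThm.Stmts

/-!
# Item DSJ: components
-/

set_option autoImplicit false

namespace Pool.Agent.IM55.PL

open SimpleGraph Pool.Agent.IM55

namespace XDSJ

variable {ι : Type} {T W : ι → Type}

theorem adj_some (t : ∀ i, SimpleGraph (T i)) (r : ∀ i, T i) (i : ι) {x y : T i}
    (h : (t i).Adj x y) :
    (Pool.Agent.GridThm.glue t r).Adj (some ⟨i, x⟩) (some ⟨i, y⟩) := by
  rw [Pool.Agent.GridThm.glue, SimpleGraph.fromRel_adj]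
  refine ⟨?_, Or.inl (Or.inr ⟨i, x, y, rfl, rfl, h⟩)⟩
  intro hh
  simp only [Option.some.injEq, Sigma.mk.injEq, heq_eq_eq, true_and] at hh
  exact h.ne hh

/-- Disjoint union. -/
def dj (J : ∀ i, SimpleGraph (W i)) : SimpleGraph (Σ i, W i) where
  Adj a b := ∃ i x y, a = ⟨i, x⟩ ∧ b = ⟨i, y⟩ ∧ (J i).Adj x y
  symm := ⟨by
    rintro a b ⟨i, x, y, h1, h2, h3⟩
    exact ⟨i, y, x, h2, h1, h3.symm⟩⟩
  loopless := ⟨by
    rintro a ⟨i, x, y, h1, h2, h3⟩
    rw [h1] at h2
    simp only [Sigma.mk.injEq, heq_eq_eq, true_and] at h2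
    exact h3.ne h2⟩

/-- The parts. -/
def bg (bag : ∀ i, T i → Set (W i)) : Option (Σ i, T i) → Set (Σ i, W i)
  | none => ∅
  | some x => Sigma.mk x.1 '' bag x.1 x.2

theorem mem_bg {bag : ∀ i, T i → Set (W i)} {i : ι} {a : W i} {x : Option (Σ i, T i)} :
    (⟨i, a⟩ : Σ i, W i) ∈ bg bag x ↔ ∃ y, x = some ⟨i, y⟩ ∧ a ∈ bag i y := by
  rcases x with _ | ⟨j, y⟩
  · simp [bg]
  · constructor
    · rintro ⟨b, hb, hb2⟩
      simp only [Sigma.mk.injEq] at hb2
      obtain ⟨h1, h2⟩ := hb2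
      subst h1
      rw [heq_eq_eq] at h2
      subst h2
      exact ⟨y, rfl, hb⟩
    · rintro ⟨z, hz, ha⟩
      simp only [Option.some.injEq, Sigma.mk.injEq] at hz
      obtain ⟨h1, h2⟩ := hz
      subst h1
      rw [heq_eq_eq] at h2
      subst h2
      exact ⟨a, ha, rfl⟩

theorem tw_dj (hT : Pool.Agent.GridThm.PT0) (J : ∀ i, SimpleGraph (W i)) (w : ℕ)
    (h : ∀ i, TreewidthLE (J i) w) : TreewidthLE (dj J) w := by
  unfold TreewidthLE at h
  choose T t bag h1 h2 h3 h4 using h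
  have hne : ∀ i, Nonempty (T i) := fun i => (h1 i).connected.nonempty
  refine ⟨Option (Σ i, T i), Pool.Agent.GridThm.glue t (fun i => (hne i).some), bg bag,
    hT ι T t _ h1, ?_, ?_, ?_⟩
  · rintro ⟨i, a⟩
    let f : ((t i).induce {x | a ∈ bag i x}) →g
        (Pool.Agent.GridThm.glue t (fun i => (hne i).some)).induce
          {x | (⟨i, a⟩ : Σ i, W i) ∈ bg bag x} :=
      { toFun := fun x => ⟨some ⟨i, x.1⟩, mem_bg.2 ⟨x.1, rfl, x.2⟩⟩
        map_rel' := by
          intro x y hxy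
          exact adj_some t _ i hxy }
    have hf : Function.Surjective f := by
      rintro ⟨x, hx⟩
      obtain ⟨y, hy, hay⟩ := mem_bg.1 hx
      exact ⟨⟨y, hay⟩, Subtype.ext hy.symm⟩
    exact (h2 i a).map f hf
  · rintro a b ⟨i, x, y, rfl, rfl, hxy⟩
    obtain ⟨z, hz1, hz2⟩ := h3 i x y hxy
    exact ⟨some ⟨i, z⟩, mem_bg.2 ⟨z, rfl, hz1⟩, mem_bg.2 ⟨z, rfl, hz2⟩⟩
  · rintro (_ | ⟨i, x⟩)
    · simp [bg]
    · exact (Set.encard_image_le _ _).trans (h4 i x)

end XDSJ

open XDSJ in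
theorem i_DSJ (hT : Pool.Agent.GridThm.PT0) : S_DSJ := by
  intro V _ G w h
  have hfin : Finite G.ConnectedComponent := by
    unfold SimpleGraph.ConnectedComponent
    infer_instance
  have h' : ∀ c : G.ConnectedComponent, Emb (G.induce {u | G.Reachable (Quot.out c) u}) w :=
    fun c => h (Quot.out c)
  unfold Emb at h'
  choose W J k φ h1 h2 h3 using h'
  obtain ⟨K, hK⟩ := (Set.finite_range k).bddAbove
  have hK' : ∀ c, k c ≤ K := fun c => hK ⟨c, rfl⟩
  have hmem : ∀ (c : G.ConnectedComponent) (u : V), G.connectedComponentMk u = c →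
      u ∈ {u | G.Reachable (Quot.out c) u} := by
    intro c u hu
    apply SimpleGraph.ConnectedComponent.exact
    rw [hu]
    exact Quot.out_eq c
  let ψ : ∀ (c : G.ConnectedComponent) (u : V), G.connectedComponentMk u = c →
      (Σ c, W c) × Fin K := fun c u hu =>
    (⟨c, (φ c ⟨u, hmem c u hu⟩).1⟩, Fin.castLE (hK' c) (φ c ⟨u, hmem c u hu⟩).2)
  have hψ : ∀ (c : G.ConnectedComponent) (u : V) (hu : G.connectedComponentMk u = c),
      ψ (G.connectedComponentMk u) u rfl = ψ c u hu := by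
    intro c u hu
    subst hu
    rfl
  refine ⟨Σ c, W c, dj J, K, fun u => ψ (G.connectedComponentMk u) u rfl, tw_dj hT J w h1,
    ?_, ?_⟩
  · intro u v huv
    have huv' : ψ (G.connectedComponentMk u) u rfl = ψ (G.connectedComponentMk v) v rfl := huv
    have hc : G.connectedComponentMk u = G.connectedComponentMk v :=
      congrArg (fun q : (Σ c, W c) × Fin K => q.1.1) huv'
    rw [hψ _ u hc] at huv'
    have e1 := congrArg Prod.fst huv'
    have e2 := congrArg Prod.snd huv'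
    simp only [ψ, Sigma.mk.injEq, heq_eq_eq, true_and] at e1
    simp only [ψ] at e2
    have e3 := Fin.castLE_injective (hK' _) e2
    have e4 := h2 _ (Prod.ext e1 e3)
    exact congrArg Subtype.val e4
  · intro u v huv
    have hc : G.connectedComponentMk u = G.connectedComponentMk v :=
      SimpleGraph.ConnectedComponent.sound huv.reachable
    obtain ⟨g1, g2⟩ := h3 (G.connectedComponentMk v) ⟨u, hmem _ u hc⟩ ⟨v, hmem _ v rfl⟩ huv
    have eu : ψ (G.connectedComponentMk u) u rfl = ψ (G.connectedComponentMk v) u hc :=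
      hψ _ u hc
    simp only [eu]
    constructor
    · rcases g1 with g1 | g1
      · left
        simp only [ψ]
        rw [g1]
      · right
        exact ⟨_, _, _, rfl, rfl, g1⟩
    · rcases g2 with g2 | g2
      · left
        simp only [ψ]
        rw [g2]
      · right
        rw [SimpleGraph.pathGraph_adj] at g2 ⊢
        simpa only [ψ, Fin.val_castLE] using g2

end Pool.Agent.IM55.PL
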