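import Pool.Agent.Work.MP_55ff09_co.PL.Base

set_option autoImplicit false

namespace Pool.Agent.IM55.PL

open SimpleGraph Pool.Agent.IM55

namespace XES

/-- a chain with `m + 1` elements which ends at `k` -/
def P (f : ℕ → ℕ) (r : ℕ → ℕ → Prop) (k m : ℕ) : Prop :=
  ∃ φ : ℕ → ℕ, φ m = k ∧ ∀ i ≤ m, ∀ i' ≤ m, i < i' → φ i < φ i' ∧ r (f (φ i)) (f (φ i'))

theorem P_zero (f : ℕ → ℕ) (r : ℕ → ℕ → Prop) (k : ℕ) : P f r k 0 :=
  ⟨fun _ => k, rfl, fun i hi i' hi' h => by omega⟩

theorem P_succ (f : ℕ → ℕ) (r : ℕ → ℕ → Prop) (hr : ∀ a b c, r a b → r b c → r a c) {i k m : ℕ}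
    (hik : i < k) (hf : r (f i) (f k)) (h : P f r i m) : P f r k (m + 1) := by
  obtain ⟨φ, h1, h2⟩ := h
  refine ⟨fun j => if j ≤ m then φ j else k, by simp, ?_⟩
  intro a ha b hb hab
  have ha' : a ≤ m := by omega
  by_cases hbm : b ≤ m
  · simp only [ha', hbm, if_true]
    exact h2 a ha' b hbm hab
  · simp only [ha', hbm, if_true, if_false]
    rcases Nat.lt_or_ge a m with h3 | h3
    · obtain ⟨h4, h5⟩ := h2 a ha' m le_rfl h3
      rw [h1] at h4 h5
      exact ⟨h4.trans hik, hr _ _ _ h5 hf⟩
    · have : a = m := le_antisymm ha' h3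
      subst this
      rw [h1]
      exact ⟨hik, hf⟩

open Classical in
theorem one (μ g : ℕ) : ∃ N : ℕ, ∀ f : ℕ → ℕ, (∀ x, {k | k < N ∧ f k = x}.ncard ≤ μ) →
    ∃ φ : ℕ → ℕ, (∀ k < g, φ k < N) ∧ (∀ k < g, ∀ k' < g, k < k' → φ k < φ k') ∧
      ((∀ k < g, ∀ k' < g, k < k' → f (φ k) < f (φ k')) ∨
        ∀ k < g, ∀ k' < g, k < k' → f (φ k') < f (φ k)) := by
  refine ⟨μ * (g * g) + 1, ?_⟩
  intro f hf
  by_contra hcon
  push Not at hcon
  have hno : ∀ k < μ * (g * g) + 1, ¬ P f (fun a b => a < b) k g ∧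
      ¬ P f (fun a b => b < a) k g := by
    intro k hk
    constructor
    · rintro ⟨φ, h1, h2⟩
      obtain ⟨⟨k1, h3, k2, h4, h5, h6⟩, -⟩ := hcon φ (fun i hi => by
        have := (h2 i hi.le g le_rfl hi).1
        omega) (fun i hi i' hi' hii => (h2 i hi.le i' hi'.le hii).1)
      have := (h2 k1 h3.le k2 h4.le h5).2
      omega
    · rintro ⟨φ, h1, h2⟩
      obtain ⟨-, ⟨k1, h3, k2, h4, h5, h6⟩⟩ := hcon φ (fun i hi => by
        have := (h2 i hi.le g le_rfl hi).1
        omega) (fun i hi i' hi' hii => (h2 i hi.le i' hi'.le hii).1)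
      have := (h2 k1 h3.le k2 h4.le h5).2
      omega
  set A : ℕ → ℕ := fun k => Nat.findGreatest (P f (fun a b => a < b) k) g with hA
  set B : ℕ → ℕ := fun k => Nat.findGreatest (P f (fun a b => b < a) k) g with hB
  have hAlt : ∀ k < μ * (g * g) + 1, A k < g := by
    intro k hk
    have h1 : A k ≤ g := Nat.findGreatest_le g
    have h2 : P f (fun a b => a < b) k (A k) := Nat.findGreatest_spec (Nat.zero_le g) (P_zero f _ k)
    rcases Nat.lt_or_ge (A k) g with h3 | h3
    · exact h3
    · have : A k = g := le_antisymm h1 h3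
      rw [this] at h2
      exact absurd h2 (hno k hk).1
  have hBlt : ∀ k < μ * (g * g) + 1, B k < g := by
    intro k hk
    have h1 : B k ≤ g := Nat.findGreatest_le g
    have h2 : P f (fun a b => b < a) k (B k) := Nat.findGreatest_spec (Nat.zero_le g) (P_zero f _ k)
    rcases Nat.lt_or_ge (B k) g with h3 | h3
    · exact h3
    · have : B k = g := le_antisymm h1 h3
      rw [this] at h2
      exact absurd h2 (hno k hk).2
  have hAstep : ∀ i k, k < μ * (g * g) + 1 → i < k → f i < f k → A i < A k := by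
    intro i k hk hik hfik
    have h2 : P f (fun a b => a < b) i (A i) := Nat.findGreatest_spec (Nat.zero_le g) (P_zero f _ i)
    have h3 := P_succ f (fun a b => a < b) (fun a b c h h' => lt_trans h h') hik hfik h2
    have h4 : A i + 1 ≤ A k := Nat.le_findGreatest (by have := hAlt i (by omega); omega) h3
    omega
  have hBstep : ∀ i k, k < μ * (g * g) + 1 → i < k → f k < f i → B i < B k := by
    intro i k hk hik hfik
    have h2 : P f (fun a b => b < a) i (B i) := Nat.findGreatest_spec (Nat.zero_le g) (P_zero f _ i)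
    have h3 := P_succ f (fun a b => b < a) (fun a b c h h' => lt_trans h' h) hik hfik h2
    have h4 : B i + 1 ≤ B k := Nat.le_findGreatest (by have := hBlt i (by omega); omega) h3
    omega
  have heq : ∀ i k, i < μ * (g * g) + 1 → k < μ * (g * g) + 1 → A i = A k → B i = B k →
      f i = f k := by
    intro i k hi hk h1 h2
    rcases lt_trichotomy i k with h3 | h3 | h3
    · rcases lt_trichotomy (f i) (f k) with h4 | h4 | h4
      · have := hAstep i k hk h3 h4; omega
      · exact h4
      · have := hBstep i k hk h3 h4; omega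
    · rw [h3]
    · rcases lt_trichotomy (f i) (f k) with h4 | h4 | h4
      · have := hBstep k i hi h3 h4; omega
      · exact h4
      · have := hAstep k i hi h3 h4; omega
  obtain ⟨y, hy, hcard⟩ := Finset.exists_lt_card_fiber_of_mul_lt_card_of_maps_to
    (s := Finset.range (μ * (g * g) + 1)) (t := Finset.range g ×ˢ Finset.range g)
    (f := fun k => (A k, B k)) (n := μ)
    (fun k hk => by
      rw [Finset.mem_range] at hk
      exact Finset.mem_product.2 ⟨Finset.mem_range.2 (hAlt k hk), Finset.mem_range.2 (hBlt k hk)⟩)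
    (by
      rw [Finset.card_product, Finset.card_range, Finset.card_range]
      have : g * g * μ = μ * (g * g) := Nat.mul_comm _ _
      omega)
  have hne : ((Finset.range (μ * (g * g) + 1)).filter fun k => (A k, B k) = y).Nonempty := by
    rw [← Finset.card_pos]
    omega
  obtain ⟨k0, hk0⟩ := hne
  rw [Finset.mem_filter, Finset.mem_range] at hk0
  have hsub : (((Finset.range (μ * (g * g) + 1)).filter fun k => (A k, B k) = y : Finset ℕ) :
      Set ℕ) ⊆ {k | k < μ * (g * g) + 1 ∧ f k = f k0} := by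
    intro k hk
    rw [Finset.mem_coe, Finset.mem_filter, Finset.mem_range] at hk
    have h1 : (A k, B k) = (A k0, B k0) := hk.2.trans hk0.2.symm
    exact ⟨hk.1, heq k k0 hk.1 hk0.1 (congrArg Prod.fst h1) (congrArg Prod.snd h1)⟩
  have h1 := Set.ncard_le_ncard hsub ((Set.finite_lt_nat (μ * (g * g) + 1)).subset fun k hk => hk.1)
  rw [Set.ncard_coe_finset] at h1
  have h2 := hf (f k0)
  omega

end XES

open XES in
theorem i_ES : S_ES := by
  intro t μ
  induction t with
  | zero =>
    intro g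
    refine ⟨g, fun τ _ => ⟨fun k => k, fun k hk => hk, fun _ _ _ _ h => h, ?_⟩⟩
    intro j hj
    exact absurd hj (Nat.not_lt_zero j)
  | succ t ih =>
    intro g
    obtain ⟨N, hN⟩ := one μ g
    obtain ⟨g', hg'⟩ := ih N
    refine ⟨g', fun τ hτ => ?_⟩
    obtain ⟨φ, h1, h2, h3⟩ := hg' τ (fun j hj => hτ j (by omega))
    obtain ⟨ψ, h4, h5, h6⟩ := hN (fun k => τ t (φ k)) (fun x => by
      refine le_trans ?_ (hτ t (by omega) x)
      refine Set.ncard_le_ncard_of_injOn φ ?_ ?_
        ((Set.finite_lt_nat g').subset fun k hk => hk.1)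
      · intro k hk
        exact ⟨h1 k hk.1, hk.2⟩
      · intro a ha b hb hab
        rcases lt_trichotomy a b with h | h | h
        · have := h2 a ha.1 b hb.1 h; omega
        · exact h
        · have := h2 b hb.1 a ha.1 h; omega)
    refine ⟨fun k => φ (ψ k), fun k hk => h1 _ (h4 k hk),
      fun k hk k' hk' h => h2 _ (h4 k hk) _ (h4 k' hk') (h5 k hk k' hk' h), ?_⟩
    intro j hj
    rcases Nat.lt_or_ge j t with hjt | hjt
    · rcases h3 j hjt with h | h
      · left
        intro k hk k' hk' hkk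
        exact h _ (h4 k hk) _ (h4 k' hk') (h5 k hk k' hk' hkk)
      · right
        intro k hk k' hk' hkk
        exact h _ (h4 k hk) _ (h4 k' hk') (h5 k hk k' hk' hkk)
    · have : j = t := by omega
      subst this
      exact h6

end Pool.Agent.IM55.PL
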