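import Pool.Agent.Work.MP_55ff09_co.PL.Base

/-!
# MP_55ff09_co, block PL: item EX1 (extension of a path into one label class)
-/

set_option autoImplicit false

namespace Pool.Agent.IM55.PL

open SimpleGraph Pool.Agent.IM55

namespace XEX1

variable {V : Type} {G : SimpleGraph V}

/-- two paths one after the other -/
def cat (w u : ℕ → V) (l : ℕ) (a : ℕ) : V := if a ≤ l then w a else u (a - (l + 1))

theorem cat_le {w u : ℕ → V} {l a : ℕ} (h : a ≤ l) : cat w u l a = w a := if_pos h

theorem cat_gt {w u : ℕ → V} {l a : ℕ} (h : l < a) : cat w u l a = u (a - (l + 1)) :=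
  if_neg (by omega)

theorem cat_add (w u : ℕ → V) (l j : ℕ) : cat w u l (l + 1 + j) = u j := by
  rw [cat_gt (by omega)]
  congr 1
  omega

/-- concatenation of induced paths -/
theorem ip_cat {w u : ℕ → V} {l s : ℕ} (hw : IP G w l) (hu : IP G u s)
    (h0 : G.Adj (w l) (u 0)) (hne : ∀ a ≤ l, ∀ j ≤ s, w a ≠ u j)
    (had : ∀ a ≤ l, ∀ j ≤ s, G.Adj (w a) (u j) → a = l ∧ j = 0) :
    IP G (cat w u l) (l + 1 + s) := by
  refine ⟨?_, ?_, ?_⟩
  · intro a ha
    rcases Nat.lt_trichotomy a l with h | h | h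
    · rw [cat_le (by omega), cat_le (by omega)]
      exact hw.adj a h
    · subst h
      rw [cat_le le_rfl, cat_gt (by omega), Nat.sub_self]
      exact h0
    · rw [cat_gt (by omega), cat_gt (by omega)]
      have e : a + 1 - (l + 1) = a - (l + 1) + 1 := by omega
      rw [e]
      exact hu.adj _ (by omega)
  · intro a ha b hb hab
    rcases Nat.lt_or_ge l a with h | h <;> rcases Nat.lt_or_ge l b with h' | h'
    · rw [cat_gt h, cat_gt h'] at hab
      have := hu.inj _ (by omega) _ (by omega) hab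
      omega
    · rw [cat_gt h, cat_le h'] at hab
      exact absurd hab.symm (hne b h' _ (by omega))
    · rw [cat_le h, cat_gt h'] at hab
      exact absurd hab (hne a h _ (by omega))
    · rw [cat_le h, cat_le h'] at hab
      exact hw.inj a h b h' hab
  · intro a ha b hb hab
    rcases Nat.lt_or_ge l a with h | h <;> rcases Nat.lt_or_ge l b with h' | h'
    · rw [cat_gt h, cat_gt h'] at hab
      have := hu.ind _ (by omega) _ (by omega) hab
      omega
    · rw [cat_gt h, cat_le h'] at hab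
      have := had b h' _ (by omega) hab.symm
      omega
    · rw [cat_le h, cat_gt h'] at hab
      have := had a h _ (by omega) hab
      omega
    · rw [cat_le h, cat_le h'] at hab
      exact hw.ind a h b h' hab

theorem rng_cat_sub {w u : ℕ → V} {l s : ℕ} : rng (cat w u l) (l + 1 + s) ⊆ rng w l ∪ rng u s := by
  rintro v ⟨a, ha, rfl⟩
  rcases Nat.lt_or_ge l a with h | h
  · rw [cat_gt h]
    exact Or.inr ⟨_, by omega, rfl⟩
  · rw [cat_le h]
    exact Or.inl ⟨a, h, rfl⟩

end XEX1

open XEX1 in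
theorem i_EX1 (hIPA : S_IPA) : S_EX1 := by
  intro V _ G c r ly lb co w l i T hLab hTip hx hT
  obtain ⟨x, hxi, hxT⟩ := hx
  obtain ⟨y, hyw, hyi⟩ := hTip.last
  rw [Set.mem_singleton_iff] at hyi
  -- vertices of the old path before the last one do not touch the label class
  have honly : ∀ a < l, ∀ z, (z = w a ∨ G.Adj (w a) z) → lb z ≠ i := by
    intro a ha z hz hzi
    refine hTip.only a ha ⟨z, ⟨w a, rfl, hz⟩, ?_⟩
    exact hzi
  obtain ⟨Dx, hDx, hxDx, hDxco, hDxc, hDxi⟩ := hLab.reach x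
  obtain ⟨Dy, hDy, hyDy, hDyco, hDyc, hDyi⟩ := hLab.reach y
  have hcore : (G.induce {z | z ∈ co ∧ lb z = i}).Connected := by
    have := hLab.conn x
    rwa [hxi] at this
  have hK : (G.induce ((Dy ∪ {z | z ∈ co ∧ lb z = i}) ∪ Dx)).Connected := by
    refine conn_union (conn_union hDy hcore ?_) hDx ?_
    · obtain ⟨z, hz, hzco⟩ := hDyco
      exact ⟨z, hz, z, ⟨hzco, by rw [hDyi z hz, hyi]⟩, Or.inl rfl⟩
    · obtain ⟨z, hz, hzco⟩ := hDxco
      exact ⟨z, Or.inr ⟨hzco, by rw [hDxi z hz, hxi]⟩, z, hz, Or.inl rfl⟩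
  have hKi : ∀ z ∈ (Dy ∪ {z | z ∈ co ∧ lb z = i}) ∪ Dx, lb z = i := by
    rintro z ((hz | hz) | hz)
    · rw [hDyi z hz, hyi]
    · exact hz.2
    · rw [hDxi z hz, hxi]
  obtain ⟨u, s, hu⟩ := hIPA G ((Dy ∪ {z | z ∈ co ∧ lb z = i}) ∪ Dx) (clN G {w l}) {v | T v}
    ((Dy ∪ {z | z ∈ co ∧ lb z = i}) ∪ Dx)
    ⟨hK, subset_refl _, ⟨y, Or.inl (Or.inl hyDy), hyw⟩, ⟨x, Or.inr hxDx, hxT⟩⟩
  have huK : ∀ j ≤ s, u j ∈ (Dy ∪ {z | z ∈ co ∧ lb z = i}) ∪ Dx := fun j hj =>
    hu.sub ⟨j, hj, rfl⟩
  have hui : ∀ j ≤ s, lb (u j) = i := fun j hj => hKi _ (huK j hj)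
  have huA : ∀ j ≤ s, (u j = w l ∨ G.Adj (w l) (u j)) → j = 0 := by
    intro j hj h
    exact (hu.hA j hj).1 ⟨w l, rfl, h⟩
  -- the first vertex of the new part is not the last one of the old path
  have hu0 : u 0 ≠ w l := by
    intro h0
    rcases Nat.eq_zero_or_pos s with hs | hs
    · subst hs
      have h1 : T (u 0) := (hu.hB 0 le_rfl).2 rfl
      rw [h0] at h1
      exact hT l le_rfl h1
    · have h1 := hu.ip.adj 0 hs
      rw [h0] at h1
      exact absurd (huA 1 hs (Or.inr h1)) one_ne_zero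
  have hadj0 : G.Adj (w l) (u 0) := by
    obtain ⟨z, hz, h⟩ := (hu.hA 0 (Nat.zero_le _)).2 rfl
    rw [Set.mem_singleton_iff] at hz
    subst hz
    exact h.resolve_left hu0
  have hne : ∀ a ≤ l, ∀ j ≤ s, w a ≠ u j := by
    intro a ha j hj h
    rcases Nat.lt_or_ge a l with hal | hal
    · exact honly a hal (u j) (Or.inl h.symm) (hui j hj)
    · have e : a = l := by omega
      subst e
      have hj0 := huA j hj (Or.inl h.symm)
      subst hj0
      exact hu0 h.symm
  have had : ∀ a ≤ l, ∀ j ≤ s, G.Adj (w a) (u j) → a = l ∧ j = 0 := by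
    intro a ha j hj h
    rcases Nat.lt_or_ge a l with hal | hal
    · exact absurd (hui j hj) (honly a hal (u j) (Or.inr h))
    · have e : a = l := by omega
      subst e
      exact ⟨rfl, huA j hj (Or.inr h)⟩
  have hlab : ∀ a, l < a → a ≤ l + 1 + s → lb (cat w u l a) = i := by
    intro a ha ha'
    rw [cat_gt ha]
    exact hui _ (by omega)
  refine ⟨cat w u l, l + 1 + s, by omega, fun a ha => cat_le ha,
    ip_cat hTip.ip hu.ip hadj0 hne had, ?_, ?_, hlab, ?_, ?_⟩
  · intro i'
    by_cases hii : i' = i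
    · subst hii
      have hsub : {z | z ∈ rng (cat w u l) (l + 1 + s) ∧ lb z = i' ∧ z ∉ co} ⊆
          {w l} ∪ (Dy ∪ Dx) := by
        rintro z ⟨hz, hzi, hzco⟩
        rcases rng_cat_sub hz with ⟨a, ha, rfl⟩ | ⟨j, hj, rfl⟩
        · rcases Nat.lt_or_ge a l with hal | hal
          · exact absurd hzi (honly a hal (w a) (Or.inl rfl))
          · have e : a = l := by omega
            subst e
            exact Or.inl rfl
        · rcases huK j hj with (h | h) | h
          · exact Or.inr (Or.inl h)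
          · exact absurd h.1 hzco
          · exact Or.inr (Or.inr h)
      calc {z | z ∈ rng (cat w u l) (l + 1 + s) ∧ lb z = i' ∧ z ∉ co}.ncard
          ≤ ({w l} ∪ (Dy ∪ Dx)).ncard := Set.ncard_le_ncard hsub (Set.toFinite _)
        _ ≤ ({w l} : Set V).ncard + (Dy ∪ Dx).ncard := Set.ncard_union_le _ _
        _ ≤ 1 + (Dy.ncard + Dx.ncard) := by
            rw [Set.ncard_singleton]
            exact Nat.add_le_add_left (Set.ncard_union_le _ _) _
        _ ≤ 2 * c + 1 := by omega
    · refine le_trans (Set.ncard_le_ncard ?_ (Set.toFinite _)) (hTip.thin i')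
      rintro z ⟨hz, hzi, hzco⟩
      rcases rng_cat_sub hz with h | ⟨j, hj, rfl⟩
      · exact ⟨h, hzi, hzco⟩
      · exact absurd (hzi.symm.trans (hui j hj)) hii
  · intro a b d hab hbd hd he
    rcases Nat.lt_or_ge l d with hld | hld
    · rw [hlab d hld hd] at he
      rcases Nat.lt_or_ge l b with hlb | hlb
      · rw [hlab b hlb (by omega), he]
      · rcases Nat.lt_or_ge a l with hal | hal
        · rw [cat_le (by omega)] at he
          exact absurd he (honly a hal (w a) (Or.inl rfl))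
        · have e : a = b := by omega
          rw [e]
    · rw [cat_le (by omega), cat_le (by omega)] at he
      rw [cat_le (by omega), cat_le (by omega)]
      exact hTip.cont a b d hab hbd hld he
  · rw [cat_add]
    exact (hu.hB s le_rfl).2 rfl
  · intro a ha hTa
    rcases Nat.lt_or_ge l a with h | h
    · rw [cat_gt h] at hTa
      have := (hu.hB (a - (l + 1)) (by omega)).1 hTa
      omega
    · rw [cat_le h] at hTa
      exact hT a h hTa

end Pool.Agent.IM55.PL
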