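import Pool.Agent.Work.MP_55ff09_co.PL.Base

/-!
# MP_55ff09_co, block PL: item EXI
-/

set_option autoImplicit false

namespace Pool.Agent.IM55.PL

open SimpleGraph Pool.Agent.IM55

theorem i_EXI (h1 : S_COC) : S_EXI := by
  classical
  intro V _ G r p X π wt top a hG hN hC hA i
  obtain ⟨c1, c2, -⟩ := h1 G r p X π wt top hG hN hC
  set S : Set V := {v | v ∈ X ∧ top v = i ∧ ∃ u, G.Adj v u ∧ top (a u) ≠ i} with hS
  rcases S.eq_empty_or_nonempty with he | ⟨v₀, hv₀⟩
  · rw [he, Set.ncard_empty]
    omega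
  -- the last vertex of the core
  have hne : ({v | v ∈ X ∧ top v = i} : Set V).Nonempty := ⟨v₀, hv₀.1, hv₀.2.1⟩
  obtain ⟨z, ⟨hzX, hzi⟩, hzmax⟩ := Set.exists_max_image {v | v ∈ X ∧ top v = i}
    (fun v => G.dist r v) (Set.toFinite _) hne
  set m := G.dist r i with hm
  set M := G.dist r z with hM
  -- the main claim
  have key : ∀ v ∈ S, m ≤ G.dist r v ∧ G.dist r v ≤ M ∧
      (G.dist r v ≤ m + 1 ∨ M ≤ G.dist r v + 1) := by
    rintro v ⟨hvX, hvi, u, huv, hu⟩
    have hvM : G.dist r v ≤ M := hzmax v ⟨hvX, hvi⟩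
    have hmv : m ≤ G.dist r v := by
      have aux : ∀ n : ℕ, ∀ y ∈ X, top y = i → G.dist r y = n → m ≤ n := by
        intro n
        induction n using Nat.strong_induction_on with
        | _ n ih =>
          intro y hy hyi hyn
          by_cases hyt : top y = y
          · rw [← hyn, hm, ← hyi, hyt]
          · obtain ⟨hyr, hpX, hpt⟩ := hC.up y hy hyt
            obtain ⟨-, hd⟩ := hN.par y hyr
            have := ih (G.dist r (p y)) (by omega) (p y) hpX (hpt.trans hyi) rfl
            omega
      exact aux _ v hvX hvi rfl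
    refine ⟨hmv, hvM, ?_⟩
    by_contra hcon
    push Not at hcon
    obtain ⟨k1, k2⟩ := hcon
    have hxX : a u ∈ X := hA.mem u
    have d1 : G.dist u (a u) ≤ 1 := by
      have := hA.near u v hvX
      rwa [SimpleGraph.dist_eq_one_iff_adj.2 huv.symm] at this
    have d2 : G.dist v (a u) ≤ 2 := by
      have h3 := hG.dist_triangle (u := v) (v := u) (w := a u)
      rw [SimpleGraph.dist_eq_one_iff_adj.2 huv] at h3
      omega
    have d3 : G.dist r (a u) ≤ G.dist r v + G.dist v (a u) := hG.dist_triangle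
    have d4 : G.dist r v ≤ G.dist r (a u) + G.dist (a u) v := hG.dist_triangle
    rw [SimpleGraph.dist_comm (u := a u) (v := v)] at d4
    obtain ⟨y, hyX, hyt, hyl⟩ := c1 z hzX (G.dist r (a u)) (by rw [hzi]; omega) (by omega)
    rw [hzi] at hyt
    have hyne : y ≠ a u := by
      rintro rfl
      exact hu hyt
    have d5 : G.dist y v ≤ 2 := by
      rcases le_total (G.dist r y) (G.dist r v) with h3 | h3
      · have := c2 y hyX v hvX (hyt.trans hvi.symm) h3
        omega
      · have := c2 v hvX y hyX (hvi.trans hyt.symm) h3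
        rw [SimpleGraph.dist_comm (u := v) (v := y)] at this
        omega
    have d6 : G.dist y (a u) ≤ G.dist y v + G.dist v (a u) := hG.dist_triangle
    have d7 := hN.sep y hyX (a u) hxX hyne hyl
    omega
  have hinj : Set.InjOn (fun v => G.dist r v) S := by
    rintro x ⟨hx, hxi, -⟩ y ⟨hy, hyi, -⟩ hxy
    exact hC.inj x hx y hy (hxi.trans hyi.symm) hxy
  have hmaps : ∀ v ∈ S, (fun v => G.dist r v) v ∈
      ((({m, m + 1, M - 1, M} : Finset ℕ)) : Set ℕ) := by
    intro v hv
    obtain ⟨k1, k2, k3⟩ := key v hv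
    simp only [Finset.coe_insert, Finset.coe_singleton, Set.mem_insert_iff,
      Set.mem_singleton_iff]
    omega
  refine (Set.ncard_le_ncard_of_injOn _ hmaps hinj (Finset.finite_toSet _)).trans ?_
  rw [Set.ncard_coe_finset]
  exact Finset.card_le_four

end Pool.Agent.IM55.PL
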