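import Pool.Agent.Work.MP_55ff09_co.PL.Base

set_option autoImplicit false

namespace Pool.Agent.IM55.PL

open SimpleGraph Pool.Agent.IM55

theorem i_EXP (hMPC : S_MPC) : S_EXP := by
  intro V _ G r M seg ps Vg R hW x₀ y₀ s hsub hesc
  have key : ∀ q : ℤ × ℤ, ∃ (E : Set V) (z e : V), q ∈ Box x₀ y₀ s →
      E ⊆ Vg q ∧ (G.induce E).Connected ∧ z ∈ E ∧ z ∈ seg q ∧ Touch G {z} (R q.2) ∧ e ∈ E ∧
      (∃ y' : ℤ, (q.1, y') ∈ Box 0 0 M ∧ (y' < y₀ ∨ y₀ + s ≤ y') ∧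
        Touch G {e} (seg (q.1, y'))) ∧
      ∀ x ∈ E, ∀ y' : ℤ, (q.1, y') ∈ Box 0 0 M → (y' < y₀ ∨ y₀ + s ≤ y') →
        Touch G {x} (seg (q.1, y')) → x = e := by
    intro q
    by_cases hq : q ∈ Box x₀ y₀ s
    · obtain ⟨z, hz1, hz2, hz3⟩ := hW.cont q (hsub hq)
      obtain ⟨y', hy1, hy2, a, ha, b, hb, hab⟩ := hesc q hq
      obtain ⟨C', hC1, hC2, u, hu, v, hv, hPu, hQv, hPu2, hQv2⟩ := hMPC G (Vg q) (fun x => x = z)
        (fun x => ∃ y' : ℤ, (q.1, y') ∈ Box 0 0 M ∧ (y' < y₀ ∨ y₀ + s ≤ y') ∧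
          Touch G {x} (seg (q.1, y'))) (hW.vconn q (hsub hq)) ⟨z, hz1, rfl⟩
        ⟨a, ha, y', hy1, hy2, a, rfl, b, hb, hab⟩
      subst hPu
      exact ⟨C', u, v, fun _ => ⟨hC1, hC2, hu, hz2, hz3, hv, hQv,
        fun x hx y'' h1 h2 h3 => hQv2 x hx ⟨y'', h1, h2, h3⟩⟩⟩
    · exact ⟨∅, r, r, fun h => absurd h hq⟩
  choose E z e h using key
  exact ⟨E, z, e, {
    sub := fun q hq => (h q hq).1
    conn := fun q hq => (h q hq).2.1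
    zE := fun q hq => (h q hq).2.2.1
    zseg := fun q hq => (h q hq).2.2.2.1
    zR := fun q hq => (h q hq).2.2.2.2.1
    eE := fun q hq => (h q hq).2.2.2.2.2.1
    out := fun q hq => (h q hq).2.2.2.2.2.2.1
    only := fun q hq => (h q hq).2.2.2.2.2.2.2 }⟩

end Pool.Agent.IM55.PL
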