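import Pool.Agent.Work.MP_55ff09_co.PL.Base

/-!
# MP_55ff09_co, block PL, item EXT: extension of a path through a bramble set
-/

set_option autoImplicit false

namespace Pool.Agent.IM55.PL

open SimpleGraph Pool.Agent.IM55

namespace XEXT

variable {V : Type} {G : SimpleGraph V}

theorem tl_mono {lb : V → V} {X B B' : Set V} (h : TL G lb X B) (hB : B ⊆ B') : TL G lb X B' := by
  obtain ⟨y, hy, hyB⟩ := h
  exact ⟨y, hy, hB hyB⟩

/-- the invariant. -/
structure Inv (G : SimpleGraph V) (lb : V → V) (co : Set V) (f : ℕ) (B' : Set V) (ι : ℕ → V)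
    (q j : ℕ) (w : ℕ → V) (l : ℕ) : Prop where
  tip : Tip G lb co f {ι j} w l
  later : ∀ j', j < j' → j' ≤ q → ∀ a ≤ l, ¬ TL G lb {w a} {ι j'}
  notB : ∀ a ≤ l, ¬ TL G lb {w a} B'

theorem step [Finite V] (h1 : S_EX1) (c : ℕ) (r : V) (ly : V → ℕ) (lb : V → V) (co : Set V)
    (B B' : Set V) (hLab : Lab G c r ly lb co) (hu : ∀ i ∈ B, ∃ v, lb v = i) (ι : ℕ → V) (q : ℕ)
    (hip : IP (qG G lb) ι q) (hιB : ∀ j ≤ q, ι j ∈ B) (hιB' : ι q ∈ B') :
    ∀ n j : ℕ, j + n = q → ∀ (w : ℕ → V) (l : ℕ), Inv G lb co (2 * c + 1) B' ι q j w l →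
      ∃ (w' : ℕ → V) (l' : ℕ), (∀ a ≤ l, w' a = w a) ∧ l ≤ l' ∧
        Tip G lb co (2 * c + 1) B' w' l' := by
  intro n
  induction n with
  | zero =>
    intro j hj w l hI
    have hj' : j = q := by omega
    subst hj'
    have hx : ∃ x, lb x = ι j ∧ TL G lb {x} B' := by
      obtain ⟨x, hx⟩ := hu (ι j) (hιB j le_rfl)
      exact ⟨x, hx, x, ⟨x, rfl, Or.inl rfl⟩, by rw [hx]; exact hιB'⟩
    obtain ⟨w', l', hl, hw, hIP, hth, hco, -, hT, hnT⟩ :=
      h1 G c r ly lb co w l (ι j) (fun v => TL G lb {v} B') hLab hI.tip hx hI.notB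
    exact ⟨w', l', hw, hl.le, ⟨hIP, hth, hco, hT, hnT⟩⟩
  | succ n ih =>
    intro j hj w l hI
    have hadj : (qG G lb).Adj (ι j) (ι (j + 1)) := hip.adj j (by omega)
    have hx : ∃ x, lb x = ι j ∧ TL G lb {x} (insert (ι (j + 1)) B') := by
      rw [qG, SimpleGraph.fromRel_adj] at hadj
      obtain ⟨-, ⟨u, v, hu1, hv1, ha⟩ | ⟨u, v, hu1, hv1, ha⟩⟩ := hadj
      · exact ⟨u, hu1, v, ⟨u, rfl, Or.inr ha⟩, by rw [hv1]; exact Set.mem_insert _ _⟩
      · exact ⟨v, hv1, u, ⟨v, rfl, Or.inr ha.symm⟩, by rw [hu1]; exact Set.mem_insert _ _⟩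
    have hins : ∀ z : V, TL G lb {z} (insert (ι (j + 1)) B') →
        TL G lb {z} {ι (j + 1)} ∨ TL G lb {z} B' := by
      rintro z ⟨y, hy, hyB | hyB⟩
      · exact Or.inl ⟨y, hy, hyB⟩
      · exact Or.inr ⟨y, hy, hyB⟩
    obtain ⟨w', l', hl, hw, hIP, hth, hco, hlab, hT, hnT⟩ :=
      h1 G c r ly lb co w l (ι j) (fun v => TL G lb {v} (insert (ι (j + 1)) B')) hLab hI.tip hx
        (fun a ha hTa => (hins _ hTa).elim (hI.later (j + 1) (Nat.lt_succ_self j) (by omega) a ha)
          (hI.notB a ha))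
    by_cases hB : TL G lb {w' l'} B'
    · exact ⟨w', l', hw, hl.le, ⟨hIP, hth, hco, hB,
        fun a ha hTa => hnT a ha (tl_mono hTa (Set.subset_insert _ _))⟩⟩
    · have hI' : Inv G lb co (2 * c + 1) B' ι q (j + 1) w' l' := by
        refine ⟨⟨hIP, hth, hco, ?_, ?_⟩, ?_, ?_⟩
        · rcases hins _ hT with h | h
          · exact h
          · exact absurd h hB
        · intro a ha hTa
          exact hnT a ha (tl_mono hTa (Set.singleton_subset_iff.2 (Set.mem_insert _ _)))
        · intro j' hj' hj'q a ha hTa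
          by_cases hal : a ≤ l
          · rw [hw a hal] at hTa
            exact hI.later j' (by omega) hj'q a hal hTa
          · have hlb := hlab a (by omega) ha
            obtain ⟨y, ⟨x, hx, hxy⟩, hy⟩ := hTa
            rw [Set.mem_singleton_iff] at hx hy
            subst hx
            have hne : ι j ≠ ι j' := by
              intro h
              have := hip.inj j (by omega) j' hj'q h
              omega
            rcases hxy with hxy | hxy
            · rw [hxy, hlb] at hy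
              exact hne hy
            · have hadj' : (qG G lb).Adj (ι j) (ι j') := by
                rw [qG, SimpleGraph.fromRel_adj]
                exact ⟨hne, Or.inl ⟨w' a, y, hlb, hy, hxy⟩⟩
              have := hip.ind j (by omega) j' hj'q hadj'
              omega
        · intro a ha hTa
          rcases Nat.lt_or_ge a l' with h | h
          · exact hnT a h (tl_mono hTa (Set.subset_insert _ _))
          · have : a = l' := le_antisymm ha h
            rw [this] at hTa
            exact hB hTa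
      obtain ⟨w'', l'', hw'', hl'', htip⟩ := ih (j + 1) (by omega) w' l' hI'
      exact ⟨w'', l'', fun a ha => by rw [hw'' a (by omega), hw a ha], by omega, htip⟩

end XEXT

open XEXT in
theorem i_EXT (h1 : S_EX1) (h2 : S_IPA) : S_EXT := by
  intro V _ G c r ly lb co w l B B' hLab hTip hconn hBB hu hnB'
  have hcr : Cr (qG G lb) B {i | TL G lb {w l} {i}} B' B := by
    refine ⟨hconn, subset_rfl, ?_, hBB⟩
    obtain ⟨y, hy, hyB⟩ := hTip.last
    exact ⟨lb y, hyB, y, hy, rfl⟩
  obtain ⟨ι, q, hPC⟩ := h2 (qG G lb) B {i | TL G lb {w l} {i}} B' B hcr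
  have hιB : ∀ j ≤ q, ι j ∈ B := fun j hj => hPC.sub ⟨j, hj, rfl⟩
  refine step h1 c r ly lb co B B' hLab hu ι q hPC.ip hιB ((hPC.hB q le_rfl).2 rfl) q 0
    (by omega) w l ⟨⟨hTip.ip, hTip.thin, hTip.cont, ?_, ?_⟩, ?_, hnB'⟩
  · exact (hPC.hA 0 (Nat.zero_le _)).2 rfl
  · intro a ha hTa
    exact hTip.only a ha (tl_mono hTa (Set.singleton_subset_iff.2 (hιB 0 (Nat.zero_le _))))
  · intro j' hj' hj'q a ha hTa
    rcases Nat.lt_or_ge a l with h | h
    · exact hTip.only a h (tl_mono hTa (Set.singleton_subset_iff.2 (hιB j' hj'q)))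
    · have hal : a = l := le_antisymm ha h
      rw [hal] at hTa
      have := (hPC.hA j' hj'q).1 hTa
      omega

end Pool.Agent.IM55.PL
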