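import Pool.Agent.Work.MP_55ff09_co.PL.Base

/-!
# MP_55ff09_co, block PL, item FAM: sparse families between `n` hubs
-/

set_option autoImplicit false

namespace Pool.Agent.IM55.PL

open SimpleGraph Pool.Agent.IM55

namespace XFAM

/-- `m` different elements of a finite set with at least `m` elements -/
theorem pick (s : Finset ℕ) (m : ℕ) (h : m ≤ s.card) :
    ∃ ψ : ℕ → ℕ, (∀ c < m, ψ c ∈ s) ∧ ∀ c < m, ∀ c' < m, c ≠ c' → ψ c ≠ ψ c' := by
  obtain ⟨t, ht, hc⟩ := Finset.exists_subset_card_eq h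
  refine ⟨fun c => if hcm : c < m then t.orderEmbOfFin hc ⟨c, hcm⟩ else 0, ?_, ?_⟩
  · intro c hcm
    simp only [hcm, dif_pos]
    exact ht (Finset.orderEmbOfFin_mem t hc _)
  · intro c hcm c' hcm' hne he
    simp only [hcm, hcm', dif_pos] at he
    have := (t.orderEmbOfFin hc).injective he
    exact hne (Fin.mk.inj_iff.1 this)

open Classical in
/-- the number of touching pairs is the sum of the numbers for the rows -/
theorem tp_sum {V : Type} (G : SimpleGraph V) (I : Finset ℕ) (m : ℕ) (R Q : ℕ → Set V) :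
    tp G I m R Q = ∑ e ∈ I, ((Finset.range m).filter fun c => Touch G (R e) (Q c)).card := by
  unfold tp
  rw [Finset.card_filter, Finset.sum_product]
  refine Finset.sum_congr rfl fun e _ => ?_
  rw [Finset.card_filter]

theorem thin_union {V : Type} [Finite V] {lb : V → V} {co : Set V} {f g : ℕ} {U U' : Set V}
    (h : Thin lb co f U) (h' : Thin lb co g U') : Thin lb co (f + g) (U ∪ U') := by
  intro i
  have e : {x | x ∈ U ∪ U' ∧ lb x = i ∧ x ∉ co} =
      {x | x ∈ U ∧ lb x = i ∧ x ∉ co} ∪ {x | x ∈ U' ∧ lb x = i ∧ x ∉ co} := by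
    ext x
    constructor
    · rintro ⟨hx | hx, h1⟩
      · exact Or.inl ⟨hx, h1⟩
      · exact Or.inr ⟨hx, h1⟩
    · rintro (⟨hx, h1⟩ | ⟨hx, h1⟩)
      · exact ⟨Or.inl hx, h1⟩
      · exact ⟨Or.inr hx, h1⟩
  rw [e]
  exact (Set.ncard_union_le _ _).trans (Nat.add_le_add (h i) (h' i))

theorem thin_mono {V : Type} [Finite V] {lb : V → V} {co : Set V} {f g : ℕ} {U U' : Set V}
    (h : Thin lb co f U) (hU : U' ⊆ U) (hf : f ≤ g) : Thin lb co g U' := by
  intro i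
  refine le_trans (Set.ncard_le_ncard ?_ (Set.toFinite _)) ((h i).trans hf)
  rintro x ⟨hx, h1⟩
  exact ⟨hU hx, h1⟩

/-- a set touches at most as many hubs as there are labels in its closed neighbourhood -/
theorem tn_hubs {V : Type} [Finite V] (G : SimpleGraph V) (r : V) (lb : V → V) (h : ℕ)
    (P : ℕ → Set V)
    (hlab : ∀ a < h, ∀ b < h, a ≠ b → ∀ x ∈ P a, ∀ y ∈ P b, lb x ≠ lb y) (I : Finset ℕ)
    (hI : ∀ a ∈ I, a < h) (X : Set V) : tn G I X P ≤ (lb '' clN G X).ncard := by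
  classical
  unfold tn
  haveI : Nonempty V := ⟨r⟩
  have hex : ∀ a ∈ I.filter (fun c => Touch G X (P c)), ∃ y, y ∈ clN G X ∧ y ∈ P a := by
    intro a ha
    have h1 := (Finset.mem_filter.1 ha).2
    rw [touch_iff_clN] at h1
    obtain ⟨y, hy1, hy2⟩ := h1
    exact ⟨y, hy1, hy2⟩
  choose! y hy1 hy2 using hex
  have hfin : (lb '' clN G X).Finite := Set.toFinite _
  rw [Set.ncard_eq_toFinset_card _ hfin]
  refine Finset.card_le_card_of_injOn (fun a => lb (y a)) ?_ ?_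
  · intro a ha
    rw [Finset.mem_coe] at ha
    simp only [Set.Finite.coe_toFinset]
    exact ⟨y a, hy1 a ha, rfl⟩
  · intro a ha b hb hab
    rw [Finset.mem_coe] at ha hb
    by_contra hne
    exact hlab a (hI a (Finset.mem_filter.1 ha).1) b (hI b (Finset.mem_filter.1 hb).1) hne
      (y a) (hy2 a ha) (y b) (hy2 b hb) hab

/-- the sparse family of one pair of hubs -/
theorem pair (hLNK : S_LNK) (hTHN : S_THN) {V : Type} [Finite V] (G : SimpleGraph V)
    (n Δ c d C : ℕ) (hC : ∀ {V : Type} [Finite V] (G : SimpleGraph V)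
      (r : V) (Lg : V → Set V) (U₀ A B : Set V) (I : Finset ℕ) (R : ℕ → Set V) (k m ℓ : ℕ),
      DegLe G Δ → ¬ HasAll G n → Legs G r Lg → Rows G I R → Un I R ⊆ U₀ →
      (∃ L, Fm G U₀ A B k L) → 1 ≤ ℓ → (∀ z, tn G I (Lg z) R ≤ ℓ) →
      (∀ z m' Q, Fm G U₀ A B m' Q → tn G (Finset.range m') (Lg z) Q ≤ ℓ) →
      C * ℓ ≤ m → C * m ≤ k → C * m ≤ I.card →
      ∃ (w : ℕ → ℕ → V) (l : ℕ → ℕ), AP G U₀ A B m w l ∧
        d * tp G I m R (fun c => rng (w c) (l c)) ≤ I.card * m)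
    (r : V) (Lg : V → Set V) (ly : V → ℕ) (lb : V → V) (co : Set V) (BB : Set (Set V))
    (K k h m ℓ : ℕ) (P : ℕ → Set V) (hG : DegLe G Δ) (hn : ¬ HasAll G n)
    (hLab : Lab G c r ly lb co) (hLg : Legs G r Lg)
    (hlg : ∀ z, (lb '' clN G (Lg z)).ncard ≤ ℓ) (hℓ : 1 ≤ ℓ) (hB : Brm (qG G lb) K BB)
    (hP : Hubs G lb co BB (2 * c + 1) k h P) (h1 : C * ((5 * c + 2) * ℓ) ≤ m)
    (h2 : C * m ≤ k) (h3 : C * m + 2 ≤ h) (a b : ℕ) (ha : a < h) (hb : b < h) (hab : a ≠ b) :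
    ∃ (U₀ : Set V) (w : ℕ → ℕ → V) (l : ℕ → ℕ), AP G U₀ (opN G (P a)) (opN G (P b)) m w l ∧
      Disjoint U₀ (P a) ∧ Disjoint U₀ (P b) ∧ Thin lb co (4 * c + 1) U₀ ∧
      d * tp G ((Finset.range h).filter fun e => e ≠ a ∧ e ≠ b) m P
        (fun c => rng (w c) (l c)) ≤ h * m := by
  classical
  set I : Finset ℕ := (Finset.range h).filter fun e => e ≠ a ∧ e ≠ b with hI
  have hIm : ∀ e ∈ I, e < h ∧ e ≠ a ∧ e ≠ b := by
    intro e he
    have := Finset.mem_filter.1 he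
    exact ⟨Finset.mem_range.1 this.1, this.2⟩
  obtain ⟨L, hL, hLt⟩ := hLNK G c r ly lb co BB K (2 * c + 1) k h P hLab hB hP a ha b hb hab
  set UL : Set V := {v | ∃ i < k, v ∈ L i} with hUL
  have hrows : Rows G I P :=
    ⟨fun e he => hP.conn e (hIm e he).1,
      fun e he e' he' hne => hP.anti e (hIm e he).1 e' (hIm e' he').1 hne⟩
  have hd1 : Disjoint (Un I P ∪ UL) (P a) := by
    rw [Set.disjoint_left]
    rintro x (⟨e, he, hx⟩ | ⟨i, hi, hx⟩) hxa
    · exact (hP.anti e (hIm e he).1 a ha (hIm e he).2.1 x hx x hxa).1 rfl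
    · exact ((hL.1 i hi).sub hx).1 hxa
  have hd2 : Disjoint (Un I P ∪ UL) (P b) := by
    rw [Set.disjoint_left]
    rintro x (⟨e, he, hx⟩ | ⟨i, hi, hx⟩) hxa
    · exact (hP.anti e (hIm e he).1 b hb (hIm e he).2.2 x hx x hxa).1 rfl
    · exact ((hL.1 i hi).sub hx).2 hxa
  have ht1 : Thin lb co (2 * c + 1) (Un I P) := by
    refine thin_mono hP.thin ?_ le_rfl
    rintro x ⟨e, he, hx⟩
    exact ⟨e, (hIm e he).1, hx⟩
  have ht : Thin lb co (4 * c + 1) (Un I P ∪ UL) :=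
    thin_mono (thin_union ht1 hLt) subset_rfl (by omega)
  have hFm : Fm G (Un I P ∪ UL) (opN G (P a)) (opN G (P b)) k L := by
    refine ⟨fun i hi => ⟨(hL.1 i hi).conn, ?_, (hL.1 i hi).hA, (hL.1 i hi).hB⟩, hL.2⟩
    intro x hx
    exact Or.inr ⟨i, hi, hx⟩
  have hcard : h ≤ I.card + 2 := by
    have e1 : Finset.range h ⊆ I ∪ {a, b} := by
      intro x hx
      by_cases hxa : x = a
      · subst hxa
        exact Finset.mem_union_right _ (by simp)
      · by_cases hxb : x = b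
        · subst hxb
          exact Finset.mem_union_right _ (by simp)
        · exact Finset.mem_union_left _ (Finset.mem_filter.2 ⟨hx, hxa, hxb⟩)
    have e2 := Finset.card_le_card e1
    rw [Finset.card_range] at e2
    have e3 := Finset.card_union_le I {a, b}
    have e4 : ({a, b} : Finset ℕ).card ≤ 2 := Finset.card_le_two
    omega
  have hcard' : I.card ≤ h := by
    have := Finset.card_filter_le (Finset.range h) (fun e => e ≠ a ∧ e ≠ b)
    rw [Finset.card_range] at this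
    exact this
  obtain ⟨w, l, hw, htp⟩ := hC G r Lg (Un I P ∪ UL) (opN G (P a)) (opN G (P b)) I P k m
    ((5 * c + 2) * ℓ) hG hn hLg hrows Set.subset_union_left ⟨L, hFm⟩
    (Nat.one_le_iff_ne_zero.2 (Nat.mul_ne_zero (by omega) (by omega)))
    (fun z => (tn_hubs G r lb h P hP.lab I (fun e he => (hIm e he).1) (Lg z)).trans
      ((hlg z).trans (Nat.le_mul_of_pos_left _ (by omega))))
    (fun z m' Q hQ => by
      have h4 := hTHN G c (4 * c + 1) r ly lb co (Un I P ∪ UL) (P a) (P b) (Lg z) hLab ht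
        (hP.lab a ha b hb hab) m' Q hQ
      refine h4.trans ?_
      calc (lb '' clN G (Lg z)).ncard * (c + (4 * c + 1)) ≤ ℓ * (c + (4 * c + 1)) :=
            Nat.mul_le_mul_right _ (hlg z)
        _ ≤ ℓ * (5 * c + 2) := Nat.mul_le_mul_left _ (by omega)
        _ = (5 * c + 2) * ℓ := Nat.mul_comm _ _)
    h1 h2 (by omega)
  exact ⟨Un I P ∪ UL, w, l, hw, hd1, hd2, ht, htp.trans (Nat.mul_le_mul_right _ hcard')⟩

end XFAM

open XFAM in
theorem i_FAM (hLNK : S_LNK) (hSPR : S_SPR) (hTHN : S_THN) (hAVH : S_AVH) : S_FAM := by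
  classical
  intro n Δ c
  obtain ⟨C, hC0, hC⟩ := hSPR n Δ (2 * (2 * n ^ 3 + 1))
  refine ⟨C * (5 * c + 2) + 2 * C + 2 * n ^ 2 + 3, by omega, ?_⟩
  intro V _ G r Lg ly lb co BB K k h m ℓ P hG hn hLab hLg hlg hℓ hB hP h1 h2 h3
  have hm : 1 ≤ m := by
    have : (C * (5 * c + 2) + 2 * C + 2 * n ^ 2 + 3) * 1 ≤
        (C * (5 * c + 2) + 2 * C + 2 * n ^ 2 + 3) * ℓ := Nat.mul_le_mul_left _ hℓ
    omega
  have e1 : C * ((5 * c + 2) * ℓ) ≤ 2 * m := by
    have : C * ((5 * c + 2) * ℓ) ≤ (C * (5 * c + 2) + 2 * C + 2 * n ^ 2 + 3) * ℓ := by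
      rw [← Nat.mul_assoc]
      exact Nat.mul_le_mul_right _ (by omega)
    omega
  have e2 : C * (2 * m) ≤ k := by
    have : C * (2 * m) ≤ (C * (5 * c + 2) + 2 * C + 2 * n ^ 2 + 3) * m := by
      rw [← Nat.mul_assoc]
      refine Nat.mul_le_mul_right _ ?_
      have : C * 2 = 2 * C := Nat.mul_comm _ _
      omega
    omega
  have e3 : C * (2 * m) + 2 ≤ h := by
    have h4 : (2 * C + 3) * m ≤ (C * (5 * c + 2) + 2 * C + 2 * n ^ 2 + 3) * m :=
      Nat.mul_le_mul_right _ (by omega)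
    have h5 : (2 * C + 3) * m = C * (2 * m) + 3 * m := by ring
    omega
  have e4 : 2 * n ^ 2 + 1 ≤ h := by
    have h4 : (2 * n ^ 2 + 3) * m ≤ (C * (5 * c + 2) + 2 * C + 2 * n ^ 2 + 3) * m :=
      Nat.mul_le_mul_right _ (by omega)
    have h5 : (2 * n ^ 2 + 3) * 1 ≤ (2 * n ^ 2 + 3) * m := Nat.mul_le_mul_left _ hm
    omega
  -- the families
  have key : ∀ a b : ℕ, ∃ (U₀ : Set V) (w : ℕ → ℕ → V) (l : ℕ → ℕ), a < h → b < h → a ≠ b →
      AP G U₀ (opN G (P a)) (opN G (P b)) (2 * m) w l ∧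
      Disjoint U₀ (P a) ∧ Disjoint U₀ (P b) ∧ Thin lb co (4 * c + 1) U₀ ∧
      2 * (2 * n ^ 3 + 1) * tp G ((Finset.range h).filter fun e => e ≠ a ∧ e ≠ b) (2 * m) P
        (fun c => rng (w c) (l c)) ≤ h * (2 * m) := by
    intro a b
    by_cases hab : a < h ∧ b < h ∧ a ≠ b
    · obtain ⟨U₀, w, l, hh⟩ := pair hLNK hTHN G n Δ c (2 * (2 * n ^ 3 + 1)) C hC r Lg ly lb co
        BB K k h (2 * m) ℓ P hG hn hLab hLg hlg hℓ hB hP e1 e2 e3 a b hab.1 hab.2.1 hab.2.2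
      exact ⟨U₀, w, l, fun _ _ _ => hh⟩
    · exact ⟨∅, fun _ _ => r, fun _ => 0, fun h5 h6 h7 => absurd ⟨h5, h6, h7⟩ hab⟩
  choose U₀ w l hk using key
  obtain ⟨f, hf1, hf2, hf3⟩ := hAVH n h (2 * (2 * n ^ 3 + 1)) (2 * m)
    (fun a b e => ((Finset.range (2 * m)).filter fun c =>
      Touch G (P e) (rng (w a b c) (l a b c))).card) e4 (by
      intro a ha b hb hab
      have h4 := (hk a b ha hb hab).2.2.2.2
      rw [tp_sum] at h4
      exact h4)
  -- the good connectors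
  have hsel : ∀ i j : ℕ, ∃ ψ : ℕ → ℕ, i < n → j < n → i ≠ j → (∀ s < m, ψ s < 2 * m ∧
      ∀ x < n, x ≠ i → x ≠ j → Anti G (rng (w (f i) (f j) (ψ s)) (l (f i) (f j) (ψ s)))
        (P (f x))) ∧ ∀ s < m, ∀ s' < m, s ≠ s' → ψ s ≠ ψ s' := by
    intro i j
    by_cases hij : i < n ∧ j < n ∧ i ≠ j
    · obtain ⟨hi, hj, hne⟩ := hij
      set good : Finset ℕ := (Finset.range (2 * m)).filter fun s => ∀ x < n, x ≠ i → x ≠ j →
        ¬ Touch G (P (f x)) (rng (w (f i) (f j) s) (l (f i) (f j) s)) with hgood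
      set bad : Finset ℕ := ((Finset.range n).filter fun x => x ≠ i ∧ x ≠ j).biUnion fun x =>
        (Finset.range (2 * m)).filter fun s =>
          Touch G (P (f x)) (rng (w (f i) (f j) s) (l (f i) (f j) s)) with hbad
      have hb1 : bad.card ≤ ∑ x ∈ (Finset.range n).filter (fun x => x ≠ i ∧ x ≠ j),
          ((Finset.range (2 * m)).filter fun s =>
            Touch G (P (f x)) (rng (w (f i) (f j) s) (l (f i) (f j) s))).card :=
        Finset.card_biUnion_le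
      have hb2 := hf3 i hi j hj hne
      have hb3 : bad.card ≤ m := by
        have h5 : 2 * (2 * n ^ 3 + 1) * bad.card ≤ (2 * n ^ 3 + 1) * (2 * m) :=
          (Nat.mul_le_mul_left _ hb1).trans hb2
        have h6 : (2 * (2 * n ^ 3 + 1)) * bad.card ≤ (2 * (2 * n ^ 3 + 1)) * m := by
          calc (2 * (2 * n ^ 3 + 1)) * bad.card ≤ (2 * n ^ 3 + 1) * (2 * m) := h5
            _ = (2 * (2 * n ^ 3 + 1)) * m := by ring
        exact Nat.le_of_mul_le_mul_left h6 (by positivity)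
      have hcov : Finset.range (2 * m) ⊆ good ∪ bad := by
        intro s hs
        by_cases hg : ∀ x < n, x ≠ i → x ≠ j →
            ¬ Touch G (P (f x)) (rng (w (f i) (f j) s) (l (f i) (f j) s))
        · exact Finset.mem_union_left _ (Finset.mem_filter.2 ⟨hs, hg⟩)
        · push Not at hg
          obtain ⟨x, hx, hxi, hxj, ht⟩ := hg
          exact Finset.mem_union_right _ (Finset.mem_biUnion.2
            ⟨x, Finset.mem_filter.2 ⟨Finset.mem_range.2 hx, hxi, hxj⟩,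
              Finset.mem_filter.2 ⟨hs, ht⟩⟩)
      have hg1 : m ≤ good.card := by
        have h5 := Finset.card_le_card hcov
        rw [Finset.card_range] at h5
        have h6 := Finset.card_union_le good bad
        omega
      obtain ⟨ψ, hψ1, hψ2⟩ := pick good m hg1
      refine ⟨ψ, fun _ _ _ => ⟨fun s hs => ?_, hψ2⟩⟩
      have h5 := Finset.mem_filter.1 (hψ1 s hs)
      refine ⟨Finset.mem_range.1 h5.1, fun x hx hxi hxj => ?_⟩
      exact (not_touch_iff.1 (h5.2 x hx hxi hxj)).symm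
    · exact ⟨id, fun h5 h6 h7 => absurd ⟨h5, h6, h7⟩ hij⟩
  choose ψ hψ using hsel
  refine ⟨f, fun i j => {v | ∃ s < m, v ∈ rng (w (f i) (f j) (ψ i j s)) (l (f i) (f j) (ψ i j s))},
    fun i j s => w (f i) (f j) (ψ i j s), fun i j s => l (f i) (f j) (ψ i j s), hf1, hf2, ?_⟩
  intro i hi j hj hij
  obtain ⟨hA, hd1, hd2, ht, -⟩ := hk (f i) (f j) (hf1 i hi) (hf1 j hj) (hf2 i hi j hj hij)
  obtain ⟨hs1, hs2⟩ := hψ i j hi hj hij
  have hsub : {v | ∃ s < m, v ∈ rng (w (f i) (f j) (ψ i j s)) (l (f i) (f j) (ψ i j s))} ⊆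
      U₀ (f i) (f j) := by
    rintro v ⟨s, hs, hv⟩
    exact (hA.1 _ (hs1 s hs).1).sub hv
  refine ⟨⟨hd1.mono_left hsub, hd2.mono_left hsub, ?_, thin_mono ht hsub le_rfl⟩, ?_, ?_⟩
  · rintro x hx hxi hxj v ⟨s, hs, hv⟩ y hy
    exact (hs1 s hs).2 x hx hxi hxj v hv y hy
  · intro s hs
    have h5 := hA.1 _ (hs1 s hs).1
    exact ⟨h5.ip, fun v hv => ⟨s, hs, hv⟩, h5.hA, h5.hB⟩
  · intro s hs s' hs' hne
    exact hA.2 _ (hs1 s hs).1 _ (hs1 s' hs').1 (hs2 s hs s' hs' hne)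

end Pool.Agent.IM55.PL
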