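import Pool.Agent.Work.MP_55ff09_co.PL.Base

/-!
# MP_55ff09_co, block PL: item FIN
-/

set_option autoImplicit false

namespace Pool.Agent.IM55.PL

open SimpleGraph Pool.Agent.IM55

namespace XFIN

theorem tw_mono {W : Type} {J : SimpleGraph W} {w w' : ℕ} (h : TreewidthLE J w) (hw : w ≤ w') :
    TreewidthLE J w' := by
  obtain ⟨T, t, bag, h1, h2, h3, h4⟩ := h
  refine ⟨T, t, bag, h1, h2, h3, fun x => (h4 x).trans ?_⟩
  exact_mod_cast Nat.succ_le_succ hw

theorem emb_mono {V : Type} {G : SimpleGraph V} {w w' : ℕ} (h : Emb G w) (hw : w ≤ w') :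
    Emb G w' := by
  obtain ⟨W, J, k, φ, h1, h2, h3⟩ := h
  exact ⟨W, J, k, φ, tw_mono h1 hw, h2, h3⟩

/-- branch sets in an induced subgraph give branch sets in the graph -/
theorem im_induce {W V : Type} {H : SimpleGraph W} {G : SimpleGraph V} {S : Set V}
    (h : IsInducedMinor H (G.induce S)) : IsInducedMinor H G := by
  obtain ⟨X, h1, h2, h3⟩ := h
  refine ⟨fun w => Subtype.val '' X w, ?_, ?_, ?_⟩
  · intro w
    have hc := h1 w
    let f : (G.induce S).induce (X w) →g G.induce (Subtype.val '' X w) :=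
      { toFun := fun x => ⟨x.1.1, x.1, x.2, rfl⟩
        map_rel' := fun {x y} hxy => hxy }
    refine hc.map f ?_
    rintro ⟨_, x, hx, rfl⟩
    exact ⟨⟨x, hx⟩, rfl⟩
  · intro w w' hw
    rw [Set.disjoint_left]
    rintro _ ⟨x, hx, rfl⟩ ⟨y, hy, hxy⟩
    have : y = x := Subtype.ext hxy
    subst this
    exact Set.disjoint_left.1 (h2 w w' hw) hx hy
  · intro w w' hw
    rw [h3 w w' hw]
    constructor
    · rintro ⟨x, hx, y, hy, hxy⟩
      exact ⟨x.1, ⟨x, hx, rfl⟩, y.1, ⟨y, hy, rfl⟩, hxy⟩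
    · rintro ⟨_, ⟨x, hx, rfl⟩, _, ⟨y, hy, rfl⟩, hxy⟩
      exact ⟨x, hx, y, hy, hxy⟩

theorem im_congr {W W' V : Type} {H : SimpleGraph W} {G : SimpleGraph V} (e : W' ≃ W)
    (h : IsInducedMinor (H.comap e) G) : IsInducedMinor H G := by
  obtain ⟨X, h1, h2, h3⟩ := h
  refine ⟨fun w => X (e.symm w), fun w => h1 _, fun w w' hw => h2 _ _ (fun h => hw ?_),
    fun w w' hw => ?_⟩
  · exact e.symm.injective h
  · rw [← h3 _ _ (fun h => hw (e.symm.injective h))]
    simp

theorem degLe_induce {V : Type} [Finite V] {G : SimpleGraph V} {Δ : ℕ} (h : DegLe G Δ)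
    (S : Set V) : DegLe (G.induce S) Δ := by
  intro v
  refine le_trans (Set.ncard_le_ncard_of_injOn (t := G.neighborSet v.1) Subtype.val ?_ ?_
    (Set.toFinite _)) (h v.1)
  · intro u hu
    exact hu
  · intro u _ u' _ h
    exact Subtype.ext h

end XFIN

theorem i_FIN (hT : S_TPC) (hD : S_DSJ) : S_FIN := by
  intro W _ H Δ
  obtain ⟨C, hC⟩ := hT (Nat.card W) Δ
  refine ⟨C, ?_⟩
  intro V _ G hG hH
  have hn : ¬ HasAll G (Nat.card W) := by
    intro h
    exact hH (XFIN.im_congr (Finite.equivFin W).symm (h _))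
  apply hD
  intro v
  have hcon : (G.induce {u | G.Reachable v u}).Connected := by
    have hv : v ∈ {u | G.Reachable v u} := SimpleGraph.Reachable.refl v
    apply induce_connected_of_patches v hv
    rintro u ⟨p⟩
    classical
    refine ⟨{x | x ∈ p.support}, ?_, p.start_mem_support, p.end_mem_support,
      p.connected_induce_support.preconnected _ _⟩
    intro x hx
    exact ⟨p.takeUntil x hx⟩
  have h1 := hC (G.induce {u | G.Reachable v u}) (XFIN.degLe_induce hG _) hcon (by
    intro h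
    exact hn fun H' => XFIN.im_induce (h H'))
  refine XFIN.emb_mono h1 ?_
  have hle : Nat.card {u | G.Reachable v u} ≤ Nat.card V :=
    Nat.card_le_card_of_injective _ Subtype.val_injective
  have hlog := Nat.log_mono_right (b := 2) hle
  exact Nat.mul_le_mul_left _ (Nat.pow_le_pow_left (Nat.succ_le_succ hlog) 2)

end Pool.Agent.IM55.PL
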