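import Pool.Agent.Work.MP_55ff09_co.PL.Base

set_option autoImplicit false

namespace Pool.Agent.IM55.PL

open SimpleGraph Pool.Agent.IM55

namespace XFRW

theorem tch_sub {V : Type} (G : SimpleGraph V) (t : ℕ) (w : ℕ → ℕ → V) (l : ℕ → ℕ) (K : Set V) :
    tch G t w l K ⊆ Finset.range t := by
  classical
  unfold tch
  exact Finset.filter_subset _ _

end XFRW

theorem i_FRW (hPAS : S_PAS) (hSTG : S_STG) (hHOM : S_HOM) (hFSL : S_FSL) (hSTR : S_STR)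
    (hWLD : S_WLD) : S_FRW := by
  intro n Δ M
  obtain ⟨T, hT⟩ := hSTG (2 * (Δ + 1)) n M
  obtain ⟨g', hg'⟩ := hHOM T (2 * (n * n) + M * (M + 1) + 1)
  refine ⟨T, g', ?_⟩
  intro V _ G r R w l α β τ Vg hdeg hF0
  obtain ⟨φ, h1, h2, h3⟩ := hg' (fun k => {e | ∃ K ⊆ R k, (G.induce K).Connected ∧
    tch G T w l K = e ∧ e.card ≤ 2 * (Δ + 1)})
  have hfr := hFSL G r T _ g' R w l α β τ Vg φ hF0 h1 h2
  have hφ0 : φ 0 < g' := h1 0 (Nat.succ_pos _)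
  have hedge : ∀ e ∈ {e | ∃ K ⊆ R (φ 0), (G.induce K).Connected ∧
      tch G T w l K = e ∧ e.card ≤ 2 * (Δ + 1)}, e ⊆ Finset.range T ∧ e.card ≤ 2 * (Δ + 1) := by
    rintro e ⟨K, -, -, rfl, h4⟩
    exact ⟨XFRW.tch_sub G T w l K, h4⟩
  have hall : ∀ e ∈ {e | ∃ K ⊆ R (φ 0), (G.induce K).Connected ∧
      tch G T w l K = e ∧ e.card ≤ 2 * (Δ + 1)}, ∀ k < 2 * (n * n) + M * (M + 1) + 1,
      ∃ K ⊆ R (φ k), (G.induce K).Connected ∧ tch G T w l K = e := by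
    intro e he k hk
    have h5 := (h3 0 (Nat.succ_pos _) k hk e (hedge e he).1).1 he
    obtain ⟨K, hK1, hK2, hK3, -⟩ := h5
    exact ⟨K, hK1, hK2, hK3⟩
  have hcross : ∀ S ⊆ Finset.range T, S.Nonempty → (Finset.range T \ S).Nonempty →
      ∃ e ∈ {e | ∃ K ⊆ R (φ 0), (G.induce K).Connected ∧
      tch G T w l K = e ∧ e.card ≤ 2 * (Δ + 1)}, (e ∩ S).Nonempty ∧ (e \ S).Nonempty := by
    intro S hS hS1 hS2
    obtain ⟨K, hK1, hK2, hK3, hK4, hK5⟩ := hPAS G Δ T w l (R (φ 0)) S hdeg hF0.col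
      (hF0.rconn _ hφ0) (fun j hj => by
        have h6 := (hF0.con j hj (φ 0) hφ0).symm
        refine h6.mono (le_refl _) ?_
        rintro v rfl
        obtain ⟨-, h7, h8⟩ := hF0.ord j hj (φ 0) hφ0
        exact ⟨τ j (φ 0), h7.trans h8, rfl⟩) hS hS1 hS2
    exact ⟨_, ⟨K, hK1, hK2, rfl, hK3⟩, hK4, hK5⟩
  rcases hT T le_rfl _ hedge hcross with ⟨c₀, y, e, hc0, he1, he2⟩ | ⟨q, e, hq1, hq2, he⟩
  · left
    have hK : ∀ k i, ∃ K : Set V, k < 2 * (n * n) + M * (M + 1) + 1 → i < n →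
        K ⊆ R (φ k) ∧ (G.induce K).Connected ∧ tch G T w l K = e i := by
      intro k i
      by_cases h : k < 2 * (n * n) + M * (M + 1) + 1 ∧ i < n
      · obtain ⟨K, hK1, hK2, hK3⟩ := hall (e i) (he1 i h.2).1 k h.1
        exact ⟨K, fun _ _ => ⟨hK1, hK2, hK3⟩⟩
      · exact ⟨∅, fun ha hb => absurd ⟨ha, hb⟩ h⟩
    choose K hK using hK
    refine hSTR G r T _ n _ w l _ _ _ _ c₀ y e K hfr (by omega) hc0
      (fun i hi => (he1 i hi).2) he2 (fun k hk i hi => hK k i hk hi)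
  · right
    have hK : ∀ k i, ∃ K : Set V, k < 2 * (n * n) + M * (M + 1) + 1 → i + 1 < M →
        K ⊆ R (φ k) ∧ (G.induce K).Connected ∧ tch G T w l K = e i := by
      intro k i
      by_cases h : k < 2 * (n * n) + M * (M + 1) + 1 ∧ i + 1 < M
      · obtain ⟨K, hK1, hK2, hK3⟩ := hall (e i) (he i h.2).1 k h.1
        exact ⟨K, fun _ _ => ⟨hK1, hK2, hK3⟩⟩
      · exact ⟨∅, fun ha hb => absurd ⟨ha, hb⟩ h⟩
    choose K hK using hK
    exact hWLD G r T _ M _ w l _ _ _ _ q e K hfr (by omega) hq1 hq2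
      (fun i hi => (he i hi).2) (fun k hk i hi => hK k i hk hi)

end Pool.Agent.IM55.PL
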