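import Pool.Agent.Work.MP_55ff09_co.PL.Defs

/-!
# MP_55ff09_co, block PL: statements with proofs (part 1: tools, zones, dense theorem)

Paper proof: note 3813 (checked by helper26, helper9). Every statement is a `Prop`
`S_XXX`; prove `theorem i_XXX (h : S_AAA) (h' : S_BBB) : S_XXX` in `PL/I_XXX.lean`; any other `S_...`
of this file (and `ClaimTrans`, `ClaimLink`, `ClaimArray`, ... of `Stmts.lean` one directory up) may
be used as a hypothesis, so nobody has to wait. `import Pool.Agent.Work.MP_55ff09_co.PL.Base` gives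
small lemmas. `Touch G X Y`: `x = y` or `xy` is an edge for some `x ∈ X`, `y ∈ Y`; `Anti` is its
negation (`not_touch_iff`). 'Connected' sets `(G.induce X).Connected` are nonempty.
-/

set_option autoImplicit false

namespace Pool.Agent.IM55.PL

open SimpleGraph Pool.Agent.IM55

/-! ## Tools -/

/-- TCH: a vertex touches at most `Δ + 1` sets of a disjoint family.
Proof: each touched set contains a vertex of `clN G {v}` (at most `Δ + 1` vertices). -/
def S_TCH : Prop := ∀ {V : Type} [Finite V] (G : SimpleGraph V) (Δ : ℕ) (I : Finset ℕ)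
  (Q : ℕ → Set V) (v : V), DegLe G Δ → (∀ i ∈ I, ∀ j ∈ I, i ≠ j → Disjoint (Q i) (Q j)) →
  tn G I {v} Q ≤ Δ + 1

/-- IPA: a connector contains an induced path connector. Proof: among all walks inside `Q` from a
vertex of `A` to a vertex of `B` take one of minimal length; `w i` its `i`-th vertex. A repeated
vertex, a chord, an `i > 0` with `w i ∈ A` or an `i < l` with `w i ∈ B` would give a shorter one. -/
def S_IPA : Prop := ∀ {V : Type} [Finite V] (G : SimpleGraph V) (U A B Q : Set V),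
  Cr G U A B Q → ∃ (w : ℕ → V) (l : ℕ), PC G Q A B w l

/-- MPC: (from IPA with `A = {x | P x}`, `B = {x | Q x}`, `C' = rng w l`). -/
def S_MPC : Prop := ∀ {V : Type} [Finite V] (G : SimpleGraph V) (C : Set V) (P Q : V → Prop),
  (G.induce C).Connected → (∃ u ∈ C, P u) → (∃ v ∈ C, Q v) →
  ∃ C' ⊆ C, (G.induce C').Connected ∧ ∃ u ∈ C', ∃ v ∈ C', P u ∧ Q v ∧
    (∀ x ∈ C', P x → x = u) ∧ ∀ x ∈ C', Q x → x = v

/-- CUT: (from MPC with `P x = Touch G {x} S`, `Q x = Touch G {x} T`). If `x ∈ C' ∩ S` then `x = u`;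
if `C'` has another vertex then `u` has a neighbour `y` in `C'`, and `y` touches `S`, so `y = u`,
impossible; if `C' = {u}` then `u = v` touches `T`, against `Anti G S T`. Same for `T`. -/
def S_CUT : Prop := ∀ {V : Type} [Finite V] (G : SimpleGraph V) (C S T : Set V),
  (G.induce C).Connected → Touch G C S → Touch G C T → Anti G S T →
  ∃ C' ⊆ C, (G.induce C').Connected ∧ Touch G C' S ∧ Touch G C' T ∧ Disjoint C' (S ∪ T)

/-- MEN: Menger's theorem for connectors. From `BiP4.menger` (file `MP_d76268_co/Menger.lean`, a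
directed version with lists, `StmtMenger` in its `Stmts.lean`) with
`E u v := u ∈ U ∧ v ∈ U ∧ G.Adj u v`, the sets `A ∩ U` and `B ∩ U`: the vertex set of an AB-list is a
connector in `U`; a connector contains an AB-list (IPA). See also `Tools/GridThm/M.lean`. -/
def S_MEN : Prop := ∀ {V : Type} [Finite V] (G : SimpleGraph V) (U A B : Set V) (m : ℕ),
  (∃ Q, Fm G U A B m Q) ∨ ∃ T ⊆ U, T.ncard < m ∧ ∀ Q, Cr G U A B Q → (Q ∩ T).Nonempty

/-- COL: greedy colouring of the square of `G`: at most `Δ + Δ (Δ - 1) = Δ ^ 2` vertices `v ≠ u` have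
`clN G {u} ∩ clN G {v} ≠ ∅` (neighbours of `u` and neighbours of neighbours), and
`Δ ^ 2 < (Δ + 1) ^ 2` (colour the vertices one after the other, e.g. induction on a finite set of
coloured vertices). -/
def S_COL : Prop := ∀ {V : Type} [Finite V] (G : SimpleGraph V) (Δ : ℕ), DegLe G Δ →
  ∃ c : V → ℕ, (∀ v, c v < (Δ + 1) ^ 2) ∧
    ∀ u v, u ≠ v → c u = c v → Disjoint (clN G {u}) (clN G {v})

/-- IMQ: contract stars. Let `C` have pairwise disjoint closed neighbourhoods. `f x = c` if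
`x ∈ clN G {c}`, `c ∈ C ∩ U`, `x ∈ U`, and `f x = x` otherwise. Graph `G'` on `V`:
`a ~ b` if `a ≠ b` and `f x = a`, `f y = b` for some adjacent `x, y ∈ U`. Apply MEN in `G'` with
`U' = f '' U`, `A' = f '' (A ∩ U)`, `B' = f '' (B ∩ U)`. If there is `T ⊆ U'`, `|T| < k`, meeting all
connectors of `G'`: `f ⁻¹ T ∩ U` has at most `|T| (Δ + 1) < k (Δ + 1)` vertices, so some `Q i` of the
given family avoids it, and `f '' Q i` is a connector of `G'` (images of connected sets are
connected) which avoids `T`: contradiction. Otherwise there are `k` disjoint connectors `Q' i` of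
`G'`; put `Q i = f ⁻¹ (Q' i) ∩ U`: it is connected because the fibres `f ⁻¹ a ∩ U` are connected
(singletons, or a vertex `c ∈ U` with some of its neighbours) and adjacent elements of `Q' i` have
fibres joined by an edge. A star `clN G {c} ∩ U`, `c ∈ C ∩ U`, is one fibre, so it meets at most one
of the disjoint sets `Q i`. -/
def S_IMQ : Prop := ∀ {V : Type} [Finite V] (G : SimpleGraph V) (Δ k : ℕ) (U A B C : Set V),
  DegLe G Δ → (∀ u ∈ C, ∀ v ∈ C, u ≠ v → Disjoint (clN G {u}) (clN G {v})) →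
  (∃ Q, Fm G U A B (k * (Δ + 1)) Q) →
  ∃ Q, Fm G U A B k Q ∧ ∀ c ∈ C, c ∈ U → ∀ i < k, ∀ j < k,
    (Q i ∩ clN G {c}).Nonempty → (Q j ∩ clN G {c}).Nonempty → i = j

/-- IM: induced Menger theorem for bounded degree (from COL, IMQ, IPA), `K = (Δ + 1) ^ ((Δ + 1) ^ 2)`.
Proof: let `s = (Δ + 1) ^ 2`, `c` the colouring of COL. By induction on `t ≤ s` there is `U' ⊆ U`
which contains `(Δ + 1) ^ (s - t) * m` disjoint connectors and such that every `v ∈ U'` of colour
`< t` is good in `U'`: it has at most 2 neighbours in `U'`, at most 1 if `v ∈ A`, at most 1 if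
`v ∈ B`, none if `v ∈ A ∩ B` (this is inherited by subsets of `U'`). Step: apply IMQ with `C` = vertices
of colour `t`, replace each connector by a path inside it (IPA) and let `U''` be the union of these
(disjoint) paths. If `v ∈ U''` has colour `t`, all its neighbours in `U''` lie in its star, hence on
the path through `v`; as this path is induced and meets `A` only in its first, `B` only in its
last vertex, `v` is good. At the end (`t = s`) take paths inside the `m` connectors (IPA). If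
vertices `x`, `y` of two different paths were adjacent: `x` has in `U'` the neighbour `y` and its
neighbours on its own path: 2 if it is an inner vertex, at least 1 if it is an end and `l > 0` (then
`x ∈ A` or `x ∈ B`), and if `l = 0`, `x ∈ A ∩ B`: in each case one more than allowed. -/
def S_IM : Prop := ∀ Δ : ℕ, ∃ K : ℕ, 0 < K ∧ ∀ {V : Type} [Finite V] [Nonempty V]
  (G : SimpleGraph V)
  (U A B : Set V) (m : ℕ), DegLe G Δ → (∃ Q, Fm G U A B (K * m) Q) →
  ∃ (w : ℕ → ℕ → V) (l : ℕ → ℕ), AP G U A B m w l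

/-- K1 (from CUT): hubs and pairwise anticomplete connectors give every graph on `n` vertices as an
induced minor. Proof: replace `C i j` by `C' i j` from CUT (`S = P i`, `T = P j`); it is disjoint from
all hubs and adjacent to `P i` and `P j`. Branch set of `i`: `P i ∪ ⋃ {C' i j | i < j, H.Adj i j}`. -/
def S_K1 : Prop := ∀ {V : Type} [Finite V] (G : SimpleGraph V) (n : ℕ) (P : ℕ → Set V)
  (C : ℕ → ℕ → Set V), (∀ i < n, (G.induce (P i)).Connected) →
  (∀ i < n, ∀ j < n, i ≠ j → Anti G (P i) (P j)) →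
  (∀ i j, i < j → j < n → (G.induce (C i j)).Connected ∧ Touch G (C i j) (P i) ∧
    Touch G (C i j) (P j) ∧ ∀ k < n, k ≠ i → k ≠ j → Anti G (C i j) (P k)) →
  (∀ i j i' j', i < j → j < n → i' < j' → j' < n → (i, j) ≠ (i', j') →
    Anti G (C i j) (C i' j')) → HasAll G n

/-! ## Zones -/

/-- UNC: minimum cuts are closed under union and intersection, with pointwise equality.
Proof: for every vertex `v`, `[v ∈ bd (X ∩ Y)] + [v ∈ bd (X ∪ Y)] ≤ [v ∈ bd X] + [v ∈ bd Y]`
(if `v ∈ bd (X ∪ Y)` then `v ∈ bd X` if `v ∈ X`, and `v ∈ bd Y` if `v ∈ Y`; if `v ∈ bd (X ∩ Y)` then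
`v ∈ X ∩ Y` and `v ∈ bd X` or `v ∈ bd Y`). Summing up, both cuts have size `M` and all pointwise
inequalities are equalities. -/
def S_UNC : Prop := ∀ {V : Type} [Finite V] (G : SimpleGraph V) (U A B : Set V) (M : ℕ),
  (∀ X, A ∩ U ⊆ X → X ⊆ U → M ≤ (bd G U B X).ncard) →
  ∀ X Y, Ct G U A B M X → Ct G U A B M Y → Ct G U A B M (X ∪ Y) ∧ Ct G U A B M (X ∩ Y) ∧
    (∀ v ∈ bd G U B Y, v ∉ X → v ∈ bd G U B (X ∪ Y)) ∧
    ∀ v ∈ bd G U B Y, v ∈ X → v ∉ bd G U B X → v ∈ bd G U B (X ∩ Y)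

/-- ZST (from UNC, and counting as in TCH): one step up in the lattice of minimum cuts.
Proof: let `a ∈ I'`, `R a ⊆ Z ∖ bd Z`. (1) At most `M` rows meet `bd X`. (2) If `R a` misses `bd X`
and meets `X` then `R a ⊆ X ∖ bd X` (`R a` connected, contained in `U`), so `a` is counted in
`nR X`. (3) Otherwise `R a ∩ X = ∅`. As `A ∩ U ⊆ X`, `R a` contains no connector, so the connector
`Q` touching `R a` is not inside `R a` and some `y ∈ U ∖ R a` is adjacent to some `x ∈ R a`. `y` is in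
no other row (`Rows.anti`), so `y ∉ Un I R`; and `y ∈ Z` since `x ∉ bd Z`. If `y ∈ X` then `y ∈ bd X`.
Suppose `y ∉ X`, `y ∉ bd Z`. By `crit` there is a minimum cut `X'` with `y ∈ bd X'`; by UNC
`y ∈ bd (X ∪ X')` and then `y ∈ bd (Z ∩ (X ∪ X'))`. `Z ∩ (X ∪ X')` is a minimum cut, contains `X`
and `y ∉ X`, so it equals `Z` by minimality, and `y ∈ bd Z`: contradiction. So every row of kind
(3) contains a neighbour of one of the `2 M` vertices of `bd X ∪ bd Z`: at most `2 M Δ` rows. -/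
def S_ZST : Prop := ∀ {V : Type} [Finite V] (G : SimpleGraph V) (Δ : ℕ) (U A B : Set V)
  (I I' : Finset ℕ) (R : ℕ → Set V) (M : ℕ), DegLe G Δ → Rows G I R →
  CutSys G U A B (Un I R) M → I' ⊆ I → (∀ a ∈ I', ∃ Q, Cr G U A B Q ∧ Touch G Q (R a)) →
  ∀ X Z, Ct G U A B M X → Ct G U A B M Z → X ⊂ Z →
  (∀ Y, Ct G U A B M Y → X ⊂ Y → Y ⊆ Z → Y = Z) →
  nR G U B I' R Z ≤ nR G U B I' R X + (2 * Δ + 3) * M

/-- ZLO (from UNC): the least minimum cut. Proof: let `X₀` be a minimum cut contained in all minimum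
cuts (finite intersection of all of them, UNC). If `a ∈ I'`, `R a ⊆ X₀ ∖ bd X₀` then `R a ∩ B = ∅`, so
`R a` contains no connector and has, as in ZST, a neighbour `y ∈ U ∖ Un I R`, `y ∈ X₀`. If
`y ∉ bd X₀`: a minimum cut `X'` with `y ∈ bd X'`, `X₀ ∩ X' = X₀` and by UNC `y ∈ bd (X₀ ∩ X')`,
contradiction. So there are at most `Δ M` such rows. -/
def S_ZLO : Prop := ∀ {V : Type} [Finite V] (G : SimpleGraph V) (Δ : ℕ) (U A B : Set V)
  (I I' : Finset ℕ) (R : ℕ → Set V) (M : ℕ), DegLe G Δ → Rows G I R →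
  CutSys G U A B (Un I R) M → I' ⊆ I → (∀ a ∈ I', ∃ Q, Cr G U A B Q ∧ Touch G Q (R a)) →
  ∃ X₀, Ct G U A B M X₀ ∧ (∀ Y, Ct G U A B M Y → X₀ ⊆ Y) ∧ nR G U B I' R X₀ ≤ (Δ + 1) * M

/-- ZHI (from UNC): the largest minimum cut. Proof: `X₁` a minimum cut containing all minimum cuts.
Let `a ∈ I'` be not counted in `nR X₁` and `R a ∩ bd X₁ = ∅` (at most `M` rows meet `bd X₁`); then
`R a ∩ X₁ = ∅` (connectedness), so `R a ∩ A = ∅`, `R a` contains no connector and has a neighbour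
`y ∈ U ∖ Un I R` as in ZST. If `y ∈ X₁` then `y ∈ bd X₁`. If `y ∉ X₁`: a minimum cut `X'` with
`y ∈ bd X' ⊆ X' ⊆ X₁`, contradiction. So at most `Δ M` such rows. -/
def S_ZHI : Prop := ∀ {V : Type} [Finite V] (G : SimpleGraph V) (Δ : ℕ) (U A B : Set V)
  (I I' : Finset ℕ) (R : ℕ → Set V) (M : ℕ), DegLe G Δ → Rows G I R →
  CutSys G U A B (Un I R) M → I' ⊆ I → (∀ a ∈ I', ∃ Q, Cr G U A B Q ∧ Touch G Q (R a)) →
  ∃ X₁, Ct G U A B M X₁ ∧ (∀ Y, Ct G U A B M Y → Y ⊆ X₁) ∧
    I'.card ≤ nR G U B I' R X₁ + (Δ + 2) * M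

/-- ZON (from ZST, ZLO, ZHI): a chain of minimum cuts with many rows of `I'` in every zone.
Proof: if `N = 0` take `W i` constant. Let `N ≥ 1`, `n(X) = nR G U B I' R X`,
`τ i = (Δ + 1) M + i (N + (2 Δ + 4) M)`. `W 0` = a maximal (for `⊆`) minimum cut with `n ≤ τ 0`
(`X₀` of ZLO is one), `W (i+1)` = a maximal one among the minimum cuts `⊇ W i` with `n ≤ τ (i+1)`.
For `i ≤ s` we have `n(X₁) ≥ |I'| - (Δ+2) M > τ i`, so `W i ≠ X₁`, `W i ⊂ X₁`, and there is a
minimal minimum cut `Z` properly above `W i`; `n(Z) > τ i` by maximality, hence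
`n(W i) > τ i - (2 Δ + 3) M` by ZST. A row counted in `n(W (i+1))` is counted in `n(W i)` or
meets `bd (W i)` (at most `M` rows) or is disjoint from `W i` (connectedness), i.e. is in `zR`. So
`|zR| ≥ n(W (i+1)) - n(W i) - M ≥ τ (i+1) - (2Δ+3) M - τ i - M = N`. -/
def S_ZON : Prop := ∀ {V : Type} [Finite V] (G : SimpleGraph V) (Δ : ℕ) (U A B : Set V)
  (I I' : Finset ℕ) (R : ℕ → Set V) (M s N : ℕ), DegLe G Δ → Rows G I R →
  CutSys G U A B (Un I R) M → I' ⊆ I → (∀ a ∈ I', ∃ Q, Cr G U A B Q ∧ Touch G Q (R a)) →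
  (s + 1) * (N + (2 * Δ + 4) * M) ≤ I'.card →
  ∃ W : ℕ → Set V, (∀ i ≤ s, Ct G U A B M (W i)) ∧ (∀ i < s, W i ⊆ W (i + 1)) ∧
    ∀ i < s, N ≤ (zR G U B I' R (W i) (W (i + 1))).card

/-- MIB: the boundary of a cut meets all connectors. Proof: each `Q i` contains a vertex of `A ∩ U ⊆ X`;
if `Q i ⊆ X` then its vertex in `B` is in `bd X`, otherwise there is an edge of `Q i` from `X` to its
complement, whose first end is in `bd X`. The `Q i` are disjoint. -/
def S_MIB : Prop := ∀ {V : Type} [Finite V] (G : SimpleGraph V) (U A B : Set V) (M : ℕ)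
  (Q : ℕ → Set V), Fm G U A B M Q → ∀ X, A ∩ U ⊆ X → X ⊆ U → M ≤ (bd G U B X).ncard

/-- CRI (from MEN, MIB): minimal `U` give critical systems. Proof: take `U` with `D ⊆ U ⊆ U₀`, minimal
(for `⊆`) with `M` disjoint connectors; suppose `U ≠ D`. `min` is MIB. Let `y ∈ U ∖ D`. `U ∖ {y}`
does not contain `M` disjoint connectors, so by MEN there is `T ⊆ U ∖ {y}`, `|T| < M`, meeting all
connectors in `U ∖ {y}`; `T' = T ∪ {y}` meets all connectors in `U` and has at most `M` vertices.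
`X` = all `v ∈ U` such that there is a walk inside `U` from a vertex of `A` to `v` all of whose
vertices other than `v` are outside `T'`. Then `A ∩ U ⊆ X ⊆ U`, and `bd X ⊆ T'`: if
`x ∈ X ∖ T'`, then `x ∉ B` (the walk would be a connector missing `T'`) and every neighbour of `x`
in `U` is in `X`. By `min`, `|bd X| ≥ M ≥ |T'|`, so `bd X = T' ∋ y` and `|bd X| = M`. This is
`crit`, and gives `ex` since `U ≠ D`. -/
def S_CRI : Prop := ∀ {V : Type} [Finite V] (G : SimpleGraph V) (U₀ A B D : Set V) (M : ℕ),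
  D ⊆ U₀ → (∃ Q, Fm G U₀ A B M Q) →
  ∃ U, D ⊆ U ∧ U ⊆ U₀ ∧ (∃ Q, Fm G U A B M Q) ∧ (U = D ∨ CutSys G U A B D M)

/-! ## Dense theorem: sampling -/

/-- AVG: averaging over `t`-tuples of columns (pure combinatorics). `P a c`: the row `a` touches the
column `c`; `Q a c c'`: the leg of the contact of `a` and `c` touches `c'`; `x i c`: load.
Proof: let `δ = d ^ t` and consider all `m ^ t` functions `F : Fin t → Fin m`. Call `a ∈ S i` good
for `F` if `F` is injective, `P a (F j)` for all `j` and not `Q a (F j) (F j')` for `j ≠ j'`.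
`P a (F j)` for all `j` holds for at least `m ^ t / δ` functions; `F` is not injective for at most
`t ^ 2 m ^ (t-1)` functions, `Q a (F j) (F j')` for some `j ≠ j'` for at most `t ^ 2 ℓ m ^ (t-1)`
functions. As `2 δ t ^ 2 (ℓ + 1) ≤ m`, each `a ∈ S i` is good for at least `m ^ t / (2 δ)`
functions. So for each `i < s` the sum over `F` of the proportion of good rows in `S i` is at
least `m ^ t / (2 δ)`, and hence for at least `m ^ t / (4 δ)` functions at least `|S i| / (4 δ)` rows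
of `S i` are good. The sum over `F` of `∑ j, x i (F j)` is `t m ^ (t-1) ∑ c, x i c ≤ t K m ^ t`, so
`∑ j, x i (F j) > 8 δ t K` for at most `m ^ t / (8 δ)` functions. So for each `i`, at least
`m ^ t / (8 δ)` functions satisfy both; by double counting some `F` satisfies both for a set `J` of at
least `s / (8 δ)` indices `i < s`. If `s = 0` take `J = ∅`, `f = id` (`t ≤ m`); if `s > 0` then `J ≠ ∅`
and a good row exists (`1 ≤ N`), so `F` is injective. -/
def S_AVG : Prop := ∀ (t d K m s N ℓ : ℕ) (S : ℕ → Finset ℕ) (P : ℕ → ℕ → Prop)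
  (Q : ℕ → ℕ → ℕ → Prop) (x : ℕ → ℕ → ℕ), 1 ≤ d → 1 ≤ N → 0 < m →
  2 * d ^ t * t ^ 2 * (ℓ + 1) ≤ m → (∀ i < s, N ≤ (S i).card) →
  (∀ i < s, ∀ a ∈ S i, m ≤ d * {c | c < m ∧ P a c}.ncard) →
  (∀ i < s, ∀ a ∈ S i, ∀ c < m, {c' | c' < m ∧ Q a c c'}.ncard ≤ ℓ) →
  (∀ i < s, ∑ c ∈ Finset.range m, x i c ≤ K * m) →
  ∃ (f : ℕ → ℕ) (J : Finset ℕ), (∀ j < t, f j < m) ∧ (∀ j < t, ∀ j' < t, j ≠ j' → f j ≠ f j') ∧
    J ⊆ Finset.range s ∧ s ≤ 16 * d ^ t * J.card ∧
    ∀ i ∈ J, ∑ j ∈ Finset.range t, x i (f j) ≤ 16 * d ^ t * (K * t + 1) ∧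
      N ≤ 16 * d ^ t * {a | a ∈ S i ∧ (∀ j < t, P a (f j)) ∧
        ∀ j < t, ∀ j' < t, j ≠ j' → ¬ Q a (f j) (f j')}.ncard

/-- SMP (from ZON, AVG, ClaimTrans): sampling, `K₀ = 16 (2d)^t (2 K t + 1)`.
Proof: let `s = 16 (2d)^t g`, `N = 16 (2d)^t (g t ℓ + 1)`, `C` large. `I'` = the rows
`a ∈ I` touching at least `m / (2d)` columns (`m ≤ 2d * ...`). As `|I| m ≤ d tp` and
`tp ≤ |I'| m + |I| m / (2d)`, `|I| ≤ 2d |I'|`. As `M ≤ K m`, `ℓ ≤ m`, `C m ≤ |I|`, ZON applies to
`s`, `N` (rows of `I'` touch a column, and columns are connectors: `m ≥ 1`). Choose for every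
`a ∈ I'` and every column `c` touching `R a` a position `τ a c ≤ l c` such that `w c (τ a c)`
touches `R a`. Apply AVG with `2d`, `2K`, `S i = zR ..`, `P a c := Touch (R a) (column c)`,
`Q a c c' := ` the leg of `w c (τ a c)` touches the column `c'`,
`x i c = |bd (W i) ∩ column c| + |bd (W (i+1)) ∩ column c|` (sum over `c` at most `2M`, the
columns are disjoint). We get columns `f j`, `j < t`, and at least `g` zones `i ∈ J`, each with more
than `g t ℓ` good rows. ClaimTrans (`W = Fin g`, `D = t ℓ`, conflict of a row `a` with a row `a'`: the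
leg of some contact `w (f j) (τ a (f j))` touches `R a'`; every leg touches at most `ℓ` rows of `I`):
one good row `a k` in the `k`-th zone `i k` of `J` (in increasing order), without conflicts.
Result: `R' k = R (a k)`, `w' j = w (f j)`, `l' j = l (f j)`, `τ' j k = τ (a k) (f j)`,
`W' k = W (i k)` for `k < g`, `W' g = W (i (g-1) + 1)`. `up`: `R (a k) ⊆ W (i k + 1) ∖ bd`, and for
cuts `X ⊆ Y`, `bd Y ∩ X ⊆ bd X`. (`d = 0` is impossible.) -/
def S_SMP : Prop := ∀ Δ d K t : ℕ, ∃ K₀ : ℕ, ∀ g : ℕ, 0 < g → ∃ C : ℕ, 0 < C ∧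
  ∀ {V : Type} [Finite V] (G : SimpleGraph V) (r : V) (Lg : V → Set V) (U A B : Set V)
  (I : Finset ℕ) (R : ℕ → Set V) (M m ℓ : ℕ) (w : ℕ → ℕ → V) (l : ℕ → ℕ),
  DegLe G Δ → Legs G r Lg → Rows G I R → CutSys G U A B (Un I R) M → AP G U A B m w l →
  M ≤ K * m → 1 ≤ ℓ → (∀ z, tn G I (Lg z) R ≤ ℓ) →
  (∀ z, tn G (Finset.range m) (Lg z) (fun c => rng (w c) (l c)) ≤ ℓ) →
  C * ℓ ≤ m → C * m ≤ I.card → I.card * m ≤ d * tp G I m R (fun c => rng (w c) (l c)) →
  ∃ (W R' : ℕ → Set V) (w' : ℕ → ℕ → V) (l' : ℕ → ℕ) (τ : ℕ → ℕ → ℕ),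
    Pre G r Lg U B t g K₀ W R' w' l' τ

/-! ## Dense theorem: order -/

/-- PSB: restriction of the rows to a subsequence. `W' k = W (φ k)` for `k < g`,
`W' g = W (φ (g-1) + 1)` (`W' 0 = W 0` if `g = 0`). `up`: `R (φ k) ⊆ W (φ k + 1) ⊆ W (φ (k+1))` and
for `X ⊆ Y`, `bd Y ∩ X ⊆ bd X`. -/
def S_PSB : Prop := ∀ {V : Type} (G : SimpleGraph V) (r : V) (Lg : V → Set V) (U B : Set V)
  (t g g' K₀ : ℕ) (W R : ℕ → Set V) (w : ℕ → ℕ → V) (l : ℕ → ℕ) (τ : ℕ → ℕ → ℕ) (φ : ℕ → ℕ),
  Pre G r Lg U B t g' K₀ W R w l τ → (∀ k < g, φ k < g') →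
  (∀ k < g, ∀ k' < g, k < k' → φ k < φ k') →
  ∃ W' : ℕ → Set V, Pre G r Lg U B t g K₀ W' (fun k => R (φ k)) w l (fun j k => τ j (φ k))

/-- ES: Erdős–Szekeres for `t` sequences in which every value occurs at most `μ` times. Induction on
`t`: for one sequence of length `μ g ^ 2` or more (e.g. `(μ + 1) (g + 1) ^ 2`): choose
greedily; among more than `μ N` terms there are more than `N` terms with different values, and
Erdős–Szekeres (or Ramsey for pairs) gives a monotone subsequence of length `g`. -/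
def S_ES : Prop := ∀ t μ g : ℕ, ∃ g' : ℕ, ∀ τ : ℕ → ℕ → ℕ,
  (∀ j < t, ∀ x, {k | k < g' ∧ τ j k = x}.ncard ≤ μ) →
  ∃ φ : ℕ → ℕ, (∀ k < g, φ k < g') ∧ (∀ k < g, ∀ k' < g, k < k' → φ k < φ k') ∧
    Mon t g (fun j k => τ j (φ k))

/-- BDG: few bad gaps. Proof: fix `j < t`, `k < g`, column `w j`, and let `v = w j i` touch
`R k`. (i) `v ∈ W (k+1)`: `R k ⊆ W (k+1) ∖ bd W (k+1)`, and `v ∈ U` is in it or adjacent to it. If
`l > k` then `u = w j (τ j l)` touches `R l`, which is disjoint from `W l ⊇ W (k+1)`, so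
`u ∉ W (k+1)` or `u ∈ bd W (k+1)`. So going along the column from `v` to `u` we find a
vertex of `bd W (k+1)` (ends included). (ii) `v ∉ W k` or `v ∈ bd W k` (as `R k ∩ W k = ∅`), and if
`l < k` then `u = w j (τ j l)` is in `W (l+1) ⊆ W k` (by (i) for `l`); so between `u` and `v`
(inclusive) there is a vertex of `bd W k`. Now let `l` be a bad gap of `k` because of the position
`i` between `τ j l` and `τ j (l+1)`: if `k < l` there is a vertex of `bd W (k+1)` between `i` and the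
larger of the two positions, so in the half-open interval (smaller, larger]; for different `l` these
intervals are disjoint (`Mon`), so there are at most `K₀` such `l` for this `j`; the same for
`l + 1 < k` with `bd W k`. In total at most `2 K₀ t ≤ 4 K₀ t`. -/
def S_BDG : Prop := ∀ {V : Type} [Finite V] (G : SimpleGraph V) (r : V) (Lg : V → Set V)
  (U B : Set V) (t g K₀ : ℕ) (W R : ℕ → Set V) (w : ℕ → ℕ → V) (l : ℕ → ℕ) (τ : ℕ → ℕ → ℕ),
  Pre G r Lg U B t g K₀ W R w l τ → Mon t g τ →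
  ∀ k < g, (bg G t g R w τ k).Finite ∧ (bg G t g R w τ k).ncard ≤ 4 * K₀ * t

/-- GAP: block lemma. Induction on `D`: split `[o, o + p ^ (D+1))` into `p` consecutive blocks of length
`p ^ D` (state it with an offset `o`). If every block contains `a` such that `f a` has no gap
`l`, `l, l + 1` both in the big interval but not both in the block, done. Otherwise there is
a block all of whose elements have such a gap; restricted to this block (gaps `l` with
`l, l + 1` in the block) they have at most `D - 1` gaps; induction. `D = 0`: blocks of length 1. -/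
def S_GAP : Prop := ∀ (p D : ℕ) (f : ℕ → Finset ℕ), 0 < p → (∀ a < p ^ (D + 1), (f a).card ≤ D) →
  ∃ s φ : ℕ → ℕ, (∀ x < p, s x ≤ φ x ∧ φ x < s (x + 1)) ∧ s p ≤ p ^ (D + 1) ∧
    ∀ x < p, ∀ l ∈ f (φ x), s 0 ≤ l → l + 1 < s p → s x ≤ l ∧ l + 1 < s (x + 1)

/-- ORD (from PSB, ES, BDG, GAP, TCH): frames. Proof: `D = 4 K₀ t`, `p = 4 g + 4`, `g₁ = p ^ (D+1)`,
`g'` from ES with `μ = Δ + 1` (a vertex `w j i` touches at most `Δ + 1` rows). After ES and PSB we
have `Pre` with `g₁` rows and `Mon`; by BDG every row has at most `D` bad gaps; GAP gives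
`s`, `φ`. Rows of the frame: `R' y = R (φ (4 y + 2))`, `y < g`. Windows: the part of the column `w j`
between the positions `τ j (s 0)` and `τ j (s p - 1)`, read backwards if `τ j` is decreasing (then
positions become increasing in `k`; the new column starts at index 0). The interval of
`R' y` on column `j` has the ends `τ j (s (4y+2) - 1)` and `τ j (s (4y+3))`.
`conf`: let `k = φ (4y+2)` touch the window at position `i`. Then
`τ j l ≤ i ≤ τ j (l+1)` (say increasing) with `s 0 ≤ l`, `l + 1 < s p`. If `i = τ j l'` for some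
`l'` then `l' = k` by `leg` (and `Legs.self`). Otherwise `i` is strictly between; if
`k < l` or `l + 1 < k` then `l` is a bad gap of `k`, so `s (4y+2) ≤ l`, `l + 1 < s (4y+3)` by GAP; if
`l = k` or `l + 1 = k` then `s (4y+2) - 1 ≤ l`, `l + 1 ≤ s (4y+3)`. `gap`:
`s (4y+6) - 1 ≥ s (4y+3) + 2`, positions are strictly increasing. `Vg j k` = the leg of the contact
vertex. All windows are subsets of the old columns, so `col`, `vcol` are inherited. -/
def S_ORD : Prop := ∀ Δ t g K₀ : ℕ, ∃ g' : ℕ, ∀ {V : Type} [Finite V] (G : SimpleGraph V) (r : V)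
  (Lg : V → Set V) (U B : Set V) (W R : ℕ → Set V) (w : ℕ → ℕ → V) (l : ℕ → ℕ)
  (τ : ℕ → ℕ → ℕ), DegLe G Δ → Legs G r Lg → Pre G r Lg U B t g' K₀ W R w l τ →
  ∃ (R' : ℕ → Set V) (w' : ℕ → ℕ → V) (l' : ℕ → ℕ) (α β τ' : ℕ → ℕ → ℕ)
    (Vg : ℕ → ℕ → Set V), Frame G r t g R' w' l' α β τ' Vg

/-! ## Dense theorem: passages -/

/-- PAS (from MPC, TCH): a passage across a bipartition of the columns. Proof: MPC in `R` with
`P x` = `x` touches a column of `S`, `Q x` = `x` touches a column of `range t ∖ S`. Only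
`u` touches columns of `S` and only `v` touches other columns; a vertex touches at most `Δ + 1`
columns. -/
def S_PAS : Prop := ∀ {V : Type} [Finite V] (G : SimpleGraph V) (Δ t : ℕ) (w : ℕ → ℕ → V)
  (l : ℕ → ℕ) (R : Set V) (S : Finset ℕ), DegLe G Δ →
  (∀ j < t, ∀ j' < t, j ≠ j' → Anti G (rng (w j) (l j)) (rng (w j') (l j'))) →
  (G.induce R).Connected → (∀ j < t, Touch G R (rng (w j) (l j))) → S ⊆ Finset.range t →
  S.Nonempty → (Finset.range t \ S).Nonempty →
  ∃ K ⊆ R, (G.induce K).Connected ∧ (tch G t w l K).card ≤ 2 * (Δ + 1) ∧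
    (tch G t w l K ∩ S).Nonempty ∧ (tch G t w l K \ S).Nonempty

/-- STG: a hypergraph with edges of size at most `c` which crosses every bipartition contains a star
or a geodesic. Proof: the graph `Γ` on `range t` (`x ~ y` if `x ≠ y` lie in a common `e ∈ F`) is
connected. If a vertex `c₀` has at least `n (2 c + 1)` neighbours `y`, choose `e y ∈ F` with
`c₀, y ∈ e y`; the digraph `y → y'` if `y' ∈ e y` has out-degree at most `c`, so (greedy: some
vertex of every finite set has total degree at most `2 c`; or ClaimTrans) it has an independent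
set of `n` vertices. Otherwise `Γ` has maximum degree `< Δ' = n (2c+1)` and, if `T` is large
(`(Δ' + 1) ^ p`), two vertices at distance `p - 1` or more; take a geodesic `q 0, ..., q (p-1)` and
`e i ∋ q i, q (i+1)`. If `q j ∈ e i` then `q j` is equal or adjacent to `q i` and to `q (i+1)`, so
`|j - i| ≤ 1`, `|j - i - 1| ≤ 1`, `j ∈ {i, i+1}`. (`p = 0, 1`: trivial.) -/
def S_STG : Prop := ∀ c n p : ℕ, ∃ T : ℕ, ∀ t, T ≤ t → ∀ F : Set (Finset ℕ),
  (∀ e ∈ F, e ⊆ Finset.range t ∧ e.card ≤ c) →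
  (∀ S ⊆ Finset.range t, S.Nonempty → (Finset.range t \ S).Nonempty →
    ∃ e ∈ F, (e ∩ S).Nonempty ∧ (e \ S).Nonempty) →
  (∃ (c₀ : ℕ) (y : ℕ → ℕ) (e : ℕ → Finset ℕ), c₀ < t ∧
    (∀ i < n, e i ∈ F ∧ c₀ ∈ e i ∧ y i ∈ e i ∧ y i ≠ c₀ ∧ y i < t) ∧
    ∀ i < n, ∀ j < n, i ≠ j → y i ≠ y j ∧ y j ∉ e i) ∨
  ∃ (q : ℕ → ℕ) (e : ℕ → Finset ℕ), (∀ i < p, q i < t) ∧
    (∀ i < p, ∀ j < p, i ≠ j → q i ≠ q j) ∧
    ∀ i, i + 1 < p → e i ∈ F ∧ ∀ j < p, q j ∈ e i ↔ j = i ∨ j = i + 1

/-- HOM: pigeonhole, `g' = g * 2 ^ (2 ^ t)` (there are `2 ^ (2 ^ t)` families of subsets of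
`range t`). -/
def S_HOM : Prop := ∀ t g : ℕ, ∃ g' : ℕ, ∀ F : ℕ → Set (Finset ℕ), ∃ φ : ℕ → ℕ,
  (∀ k < g, φ k < g') ∧ (∀ k < g, ∀ k' < g, k < k' → φ k < φ k') ∧
    ∀ k < g, ∀ k' < g, ∀ e ⊆ Finset.range t, e ∈ F (φ k) ↔ e ∈ F (φ k')

/-- FSL: restriction of a frame to a subsequence of the rows (and `α`, `β`, `τ`, `Vg`
composed with `φ`). -/
def S_FSL : Prop := ∀ {V : Type} (G : SimpleGraph V) (r : V) (t g g' : ℕ) (R : ℕ → Set V)
  (w : ℕ → ℕ → V) (l : ℕ → ℕ) (α β τ : ℕ → ℕ → ℕ) (Vg : ℕ → ℕ → Set V) (φ : ℕ → ℕ),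
  Frame G r t g' R w l α β τ Vg → (∀ k < g, φ k < g') →
  (∀ k < g, ∀ k' < g, k < k' → φ k < φ k') →
  Frame G r t g (fun k => R (φ k)) w l (fun j k => α j (φ k)) (fun j k => β j (φ k))
    (fun j k => τ j (φ k)) (fun j k => Vg j (φ k))

/-- STR (from K1): the star case. Proof: hubs `P i` = the column `y i`. For `i < i' < n` let
`k = 2 (i n + i')` and `C i i' = K k i ∪ {w c₀ a | α c₀ k ≤ a ≤ β c₀ (k+1)} ∪ K (k+1) i'`. `K k i`
touches the column `c₀`, only at positions in `[α c₀ k, β c₀ k]` (`conf`); so `C i i'` is connected. It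
touches `P i` and `P i'`; `K k i` touches no other column `y j`, and the column `c₀` is anticomplete
to the column `y j`. Different pairs use different rows (`ranti`), and by `conf`, `gap` and
`IP.ind` their parts on the column `c₀` are separated from each other and from the rows of the
other pair. -/
def S_STR : Prop := ∀ {V : Type} [Finite V] (G : SimpleGraph V) (r : V) (t g n : ℕ)
  (R : ℕ → Set V) (w : ℕ → ℕ → V) (l : ℕ → ℕ) (α β τ : ℕ → ℕ → ℕ) (Vg : ℕ → ℕ → Set V)
  (c₀ : ℕ) (y : ℕ → ℕ) (e : ℕ → Finset ℕ) (K : ℕ → ℕ → Set V),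
  Frame G r t g R w l α β τ Vg → 2 * (n * n) ≤ g → c₀ < t →
  (∀ i < n, c₀ ∈ e i ∧ y i ∈ e i ∧ y i ≠ c₀ ∧ y i < t) →
  (∀ i < n, ∀ j < n, i ≠ j → y i ≠ y j ∧ y j ∉ e i) →
  (∀ k < g, ∀ i < n, K k i ⊆ R k ∧ (G.induce (K k i)).Connected ∧ tch G t w l (K k i) = e i) →
  HasAll G n

/-- WLD (from CUT, easy parts): the geodesic case gives a world. Proof: super-zone `y` consists of
the rows `y (M+1), ..., y (M+1) + M`. For `0 ≤ x, y < M`:
`seg (x, y) = {w (q x) i | α (q x) (y (M+1)) ≤ i < α (q x) ((y+1) (M+1))}`;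
`ps (x, y)` for `x + 1 < M`: from CUT applied to `C = K k x`, `k = y (M+1) + x`,
`S` = column `q x`, `T` = column `q (x+1)`; `ps (M-1, y) = ∅`. With `k* = y (M+1) + M`:
`Vg' (x, y) = Vg (q x) k*`, `R' y = R k*`, contact vertex `z = w (q x) (τ (q x) k*)`.
Touching pairs: `K k x` touches among the columns `q j` only `q x` and `q (x+1)`, only at
positions in `[α, β]` of row `k` (`conf`), which belong to `seg (x, y)`, `seg (x+1, y)`; `ps` of
different cells lie in different rows, so are anticomplete; `seg` of different columns are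
anticomplete (`col`); consecutive `seg` of the same column are joined by a path edge, other pairs
in one column are not (`IP.ind`); `rseg`, `rlega`, `vps` by `conf`, `vrow`; `vcol` by `vcol`. -/
def S_WLD : Prop := ∀ {V : Type} [Finite V] (G : SimpleGraph V) (r : V) (t g M : ℕ)
  (R : ℕ → Set V) (w : ℕ → ℕ → V) (l : ℕ → ℕ) (α β τ : ℕ → ℕ → ℕ) (Vg : ℕ → ℕ → Set V)
  (q : ℕ → ℕ) (e : ℕ → Finset ℕ) (K : ℕ → ℕ → Set V),
  Frame G r t g R w l α β τ Vg → M * (M + 1) < g → (∀ i < M, q i < t) →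
  (∀ i < M, ∀ j < M, i ≠ j → q i ≠ q j) →
  (∀ i, i + 1 < M → ∀ j < M, q j ∈ e i ↔ j = i ∨ j = i + 1) →
  (∀ k < g, ∀ i, i + 1 < M → K k i ⊆ R k ∧ (G.induce (K k i)).Connected ∧
    tch G t w l (K k i) = e i) →
  ∃ (seg ps Vg' : ℤ × ℤ → Set V) (R' : ℤ → Set V), World G r M seg ps Vg' R'

/-- FRW (from PAS, STG, HOM, FSL, STR, WLD): a large frame gives everything or a world. Proof:
`c = 2 (Δ + 1)`, `t = T` from STG with `c`, `n`, `p = M`; `g₁ = 2 n² + M (M+1) + 1`; `g'` from HOM. For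
each row `k` let `F k` = the set of all `tch G t w l K`, `K ⊆ R k` connected, which have at most `c`
elements; by PAS it crosses every bipartition (every row touches every column, `con`). Apply
HOM, FSL, then STG to `F (φ 0)`; choose the sets `K k i` in every row, then STR or WLD. -/
def S_FRW : Prop := ∀ n Δ M : ℕ, ∃ t g : ℕ, ∀ {V : Type} [Finite V] (G : SimpleGraph V) (r : V)
  (R : ℕ → Set V) (w : ℕ → ℕ → V) (l : ℕ → ℕ) (α β τ : ℕ → ℕ → ℕ) (Vg : ℕ → ℕ → Set V),
  DegLe G Δ → Frame G r t g R w l α β τ Vg → HasAll G n ∨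
  ∃ (seg ps Vg' : ℤ × ℤ → Set V) (R' : ℤ → Set V), World G r M seg ps Vg' R'

end Pool.Agent.IM55.PL
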