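import Pool.Agent.Work.MP_55ff09_co.PL.Base
import Pool.Agent.Work.MP_55ff09_co.PL.Stmts

set_option autoImplicit false

namespace Pool.Agent.IM55.PL

open SimpleGraph Pool.Agent.IM55

theorem i_FSL : S_FSL := by
  intro V G r t g g' R w l α β τ Vg φ h hφ hm
  have hne : ∀ k < g, ∀ k' < g, k ≠ k' → φ k ≠ φ k' := by
    intro k hk k' hk' hne
    rcases lt_or_gt_of_ne hne with h1 | h1
    · exact (hm k hk k' hk' h1).ne
    · exact (hm k' hk' k hk h1).ne'
  constructor
  · exact h.ip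
  · exact h.col
  · exact fun k hk => h.rconn _ (hφ k hk)
  · exact fun k hk k' hk' hn => h.ranti _ (hφ k hk) _ (hφ k' hk') (hne k hk k' hk' hn)
  · exact fun j hj k hk => h.ord j hj _ (hφ k hk)
  · exact fun j hj k hk k' hk' hlt => h.gap j hj _ (hφ k hk) _ (hφ k' hk') (hm k hk k' hk' hlt)
  · exact fun j hj k hk => h.conf j hj _ (hφ k hk)
  · exact fun j hj k hk => h.con j hj _ (hφ k hk)
  · exact fun j hj k hk => h.vconn j hj _ (hφ k hk)
  · exact fun j hj k hk => h.vroot j hj _ (hφ k hk)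
  · exact fun j hj k hk => h.vself j hj _ (hφ k hk)
  · exact fun j hj k hk k' hk' hn => h.vrow j hj _ (hφ k hk) _ (hφ k' hk') (hne k' hk' k hk hn)
  · exact fun j hj k hk => h.vcol j hj _ (hφ k hk)

end Pool.Agent.IM55.PL
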