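import Pool.Agent.Work.MP_55ff09_co.PL.Base

/-!
# MP_55ff09_co, block PL, item GAP: the block lemma
-/

set_option autoImplicit false

namespace Pool.Agent.IM55.PL

open SimpleGraph Pool.Agent.IM55

namespace XGAP

theorem gap_aux (p : ℕ) (hp : 0 < p) (f : ℕ → Finset ℕ) : ∀ D o : ℕ,
    (∀ a, o ≤ a → a < o + p ^ (D + 1) →
      ((f a).filter (fun l => o ≤ l ∧ l + 1 < o + p ^ (D + 1))).card ≤ D) →
    ∃ s φ : ℕ → ℕ, (∀ x < p, s x ≤ φ x ∧ φ x < s (x + 1)) ∧ s p ≤ o + p ^ (D + 1) ∧
      ∀ x < p, ∀ l ∈ f (φ x), s 0 ≤ l → l + 1 < s p → s x ≤ l ∧ l + 1 < s (x + 1) := by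
  intro D
  induction D with
  | zero =>
    intro o hcard
    refine ⟨fun x => o + x, fun x => o + x, fun x _ => ⟨le_rfl, Nat.lt_succ_self _⟩, by simp, ?_⟩
    intro x hx l hl h1 h2
    exfalso
    have h3 := hcard (o + x) (by omega) (by simpa using hx)
    have h4 : l ∈ (f (o + x)).filter (fun l => o ≤ l ∧ l + 1 < o + p ^ (0 + 1)) :=
      Finset.mem_filter.2 ⟨hl, by simpa using h1, by simpa using h2⟩
    have h5 := Finset.card_pos.2 ⟨l, h4⟩
    omega
  | succ D ih =>
    intro o hcard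
    have hpow : p ^ (D + 1 + 1) = p * p ^ (D + 1) := by ring
    by_cases hgood : ∀ x < p, ∃ a, o + x * p ^ (D + 1) ≤ a ∧ a < o + (x + 1) * p ^ (D + 1) ∧
        ∀ l ∈ f a, o ≤ l → l + 1 < o + p ^ (D + 1 + 1) →
          o + x * p ^ (D + 1) ≤ l ∧ l + 1 < o + (x + 1) * p ^ (D + 1)
    · choose! φ h1 h2 h3 using hgood
      refine ⟨fun x => o + x * p ^ (D + 1), φ, fun x hx => ⟨h1 x hx, h2 x hx⟩, ?_, ?_⟩
      · show o + p * p ^ (D + 1) ≤ _
        rw [hpow]
      · intro x hx l hl h4 h5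
        refine h3 x hx l hl (by simpa using h4) ?_
        rw [hpow]
        exact h5
    · push Not at hgood
      obtain ⟨x, hx, hbad⟩ := hgood
      have hle : o + x * p ^ (D + 1) + p ^ (D + 1) ≤ o + p ^ (D + 1 + 1) := by
        rw [hpow]
        have : (x + 1) * p ^ (D + 1) ≤ p * p ^ (D + 1) := Nat.mul_le_mul_right _ hx
        have e : (x + 1) * p ^ (D + 1) = x * p ^ (D + 1) + p ^ (D + 1) := by ring
        omega
      have e : (x + 1) * p ^ (D + 1) = x * p ^ (D + 1) + p ^ (D + 1) := by ring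
      obtain ⟨s, φ, h1, h2, h3⟩ := ih (o + x * p ^ (D + 1)) (by
        intro a ha1 ha2
        obtain ⟨l, hl, hl1, hl2, hl3⟩ := hbad a ha1 (by omega)
        have hss : (f a).filter (fun l => o + x * p ^ (D + 1) ≤ l ∧
            l + 1 < o + x * p ^ (D + 1) + p ^ (D + 1)) ⊂
            (f a).filter (fun l => o ≤ l ∧ l + 1 < o + p ^ (D + 1 + 1)) := by
          rw [Finset.ssubset_iff_of_subset]
          · refine ⟨l, Finset.mem_filter.2 ⟨hl, hl1, hl2⟩, fun hmem => ?_⟩
            have h4 := (Finset.mem_filter.1 hmem).2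
            have h5 := hl3 h4.1
            omega
          · intro y hy
            have h4 := Finset.mem_filter.1 hy
            refine Finset.mem_filter.2 ⟨h4.1, ?_, ?_⟩
            · have := h4.2.1
              omega
            · have := h4.2.2
              omega
        have h4 := Finset.card_lt_card hss
        have h5 := hcard a (by omega) (by omega)
        omega)
      exact ⟨s, φ, h1, by omega, h3⟩

end XGAP

open XGAP in
theorem i_GAP : S_GAP := by
  intro p D f hp hf
  obtain ⟨s, φ, h1, h2, h3⟩ := gap_aux p hp f D 0 (fun a _ ha =>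
    (Finset.card_filter_le _ _).trans (hf a (by simpa using ha)))
  exact ⟨s, φ, h1, by simpa using h2, h3⟩

end Pool.Agent.IM55.PL
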