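import Pool.Agent.Work.MP_55ff09_co.PL.Base

/-!
# MP_55ff09_co, block PL: item GR1
-/

set_option autoImplicit false

namespace Pool.Agent.IM55.PL

open SimpleGraph Pool.Agent.IM55

theorem i_GR1 : S_GR1 := by
  intro V _ L cl load hrefl hsymm
  obtain ⟨k, hk⟩ : ∃ k, L.ncard = k := ⟨_, rfl⟩
  induction k generalizing L with
  | zero =>
    have hL : L = ∅ := (Set.ncard_eq_zero (Set.toFinite L)).1 hk
    subst hL
    exact ⟨∅, le_rfl, fun x hx => absurd hx (Set.notMem_empty x),
      fun x hx => absurd hx (Set.notMem_empty x)⟩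
  | succ k ih =>
    have hne : L.Nonempty := by
      rw [← Set.ncard_pos (Set.toFinite L)]
      omega
    obtain ⟨v, hv, hmin⟩ := Set.exists_min_image L load (Set.toFinite L) hne
    obtain ⟨X, hX1, hX2, hX3⟩ := ih (L \ {v}) (by
      have := Set.ncard_diff_singleton_add_one hv (Set.toFinite L)
      omega)
    have hvX : v ∉ X := fun h => (hX1 h).2 rfl
    by_cases hcl : ∃ x ∈ X, cl v x
    · obtain ⟨x, hx, hvx⟩ := hcl
      refine ⟨X, fun y hy => (hX1 hy).1, hX2, ?_⟩
      intro w hw
      by_cases hwv : w = v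
      · subst hwv
        exact ⟨x, hx, hvx, hmin x (hX1 hx).1, fun h => absurd h hvX⟩
      · exact hX3 w ⟨hw, hwv⟩
    · push Not at hcl
      refine ⟨insert v X, ?_, ?_, ?_⟩
      · rintro y (rfl | hy)
        · exact hv
        · exact (hX1 hy).1
      · rintro x (rfl | hx) y (rfl | hy) hxy
        · exact absurd rfl hxy
        · exact hcl y hy
        · exact fun h => hcl x hx (hsymm _ _ h)
        · exact hX2 x hx y hy hxy
      · intro w hw
        by_cases hwv : w = v
        · subst hwv
          exact ⟨w, Or.inl rfl, hrefl w, le_rfl, fun _ => rfl⟩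
        · obtain ⟨y, hy1, hy2, hy3, hy4⟩ := hX3 w ⟨hw, hwv⟩
          refine ⟨y, Or.inr hy1, hy2, hy3, ?_⟩
          rintro (h | h)
          · exact absurd h hwv
          · exact hy4 h

end Pool.Agent.IM55.PL
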