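import Pool.Agent.Work.MP_55ff09_co.PL.Base

/-!
# MP_55ff09_co, block PL, item GRD
-/

set_option autoImplicit false

namespace Pool.Agent.IM55.PL

open SimpleGraph Pool.Agent.IM55

namespace XGRD

/-- the scales -/
def sc (F : ℕ → ℕ) (L₀ : ℕ) : ℕ → ℕ
  | 0 => L₀
  | n + 1 => F (sc F L₀ n)

theorem le_sc (F : ℕ → ℕ) (L₀ : ℕ) (hF : ∀ s, s ≤ F s) (n : ℕ) : L₀ ≤ sc F L₀ n := by
  induction n with
  | zero => exact le_rfl
  | succ n ih => exact ih.trans (hF _)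

theorem box_mono {x y : ℤ} {s s' : ℕ} (h : s ≤ s') : Box x y (s : ℕ) ⊆ Box x y (s' : ℕ) := by
  intro q hq
  obtain ⟨h1, h2, h3, h4⟩ := hq
  refine ⟨h1, ?_, h3, ?_⟩ <;> push_cast at * <;> omega

theorem main (F : ℕ → ℕ) (L₀ : ℕ) (hF : ∀ s, s ≤ F s) (α : Type) [Nonempty α]
    (W : Set (ℤ × ℤ)) (Hd : ℤ → ℤ → ℕ → α → Prop) (T : α → α → Prop)
    (hT : ∀ h h', T h h' → T h' h)
    (hm : ∀ x y s x' y' s' h, Box x y (s : ℕ) ⊆ Box x' y' (s' : ℕ) → Hd x y s h → Hd x' y' s' h)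
    (h0 : ∀ x y : ℤ, Box x y L₀ ⊆ W → ∃ h, Hd x y L₀ h)
    (hs : ∀ (x y : ℤ) (s : ℕ) (h : α), L₀ ≤ s → Box x y (F s) ⊆ W →
      (∃ x₁ y₁ s₁, Box x₁ y₁ (s₁ : ℕ) ⊆ W ∧ Hd x₁ y₁ s₁ h) →
      ∃ x' y' : ℤ, Box x' y' s ⊆ Box x y (F s) ∧ ∀ h', Hd x' y' s h' → ¬ T h h') (N : ℕ) :
    ∀ x y : ℕ → ℤ, (∀ i < N, Box (x i) (y i) (sc F L₀ N) ⊆ W) →
    ∃ h : ℕ → α, (∀ i < N, Hd (x i) (y i) (sc F L₀ N) (h i)) ∧
      ∀ i < N, ∀ j < N, i ≠ j → ¬ T (h i) (h j) := by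
  induction N with
  | zero =>
    intro x y _
    exact ⟨fun _ => Classical.arbitrary α, fun i hi => absurd hi (Nat.not_lt_zero i),
      fun i hi => absurd hi (Nat.not_lt_zero i)⟩
  | succ N ih =>
    intro x y hW
    have hLs : L₀ ≤ sc F L₀ N := le_sc F L₀ hF N
    have hLs' : L₀ ≤ sc F L₀ (N + 1) := le_sc F L₀ hF (N + 1)
    obtain ⟨g, hg⟩ := h0 (x N) (y N) ((box_mono hLs').trans (hW N (Nat.lt_succ_self N)))
    have hex : ∃ x₁ y₁ s₁, Box x₁ y₁ (s₁ : ℕ) ⊆ W ∧ Hd x₁ y₁ s₁ g :=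
      ⟨x N, y N, L₀, (box_mono hLs').trans (hW N (Nat.lt_succ_self N)), hg⟩
    have hch : ∀ i : ℕ, ∃ p : ℤ × ℤ, i < N →
        Box p.1 p.2 (sc F L₀ N) ⊆ Box (x i) (y i) (sc F L₀ (N + 1)) ∧
        ∀ h', Hd p.1 p.2 (sc F L₀ N) h' → ¬ T g h' := by
      intro i
      by_cases hi : i < N
      · obtain ⟨x', y', h1, h2⟩ := hs (x i) (y i) (sc F L₀ N) g hLs (hW i (by omega)) hex
        exact ⟨(x', y'), fun _ => ⟨h1, h2⟩⟩
      · exact ⟨(0, 0), fun h => absurd h hi⟩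
    choose p hp using hch
    obtain ⟨h, hh1, hh2⟩ := ih (fun i => (p i).1) (fun i => (p i).2)
      (fun i hi => (hp i hi).1.trans (hW i (by omega)))
    refine ⟨Function.update h N g, ?_, ?_⟩
    · intro i hi
      rcases Nat.lt_succ_iff_lt_or_eq.1 hi with h1 | h1
      · rw [Function.update_of_ne (by omega)]
        exact hm _ _ _ _ _ _ _ (hp i h1).1 (hh1 i h1)
      · subst h1
        rw [Function.update_self]
        exact hm _ _ _ _ _ _ _ (box_mono hLs') hg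
    · intro i hi j hj hij
      rcases Nat.lt_succ_iff_lt_or_eq.1 hi with h1 | h1 <;>
        rcases Nat.lt_succ_iff_lt_or_eq.1 hj with h2 | h2
      · rw [Function.update_of_ne (by omega), Function.update_of_ne (by omega)]
        exact hh2 i h1 j h2 hij
      · subst h2
        rw [Function.update_of_ne (by omega), Function.update_self]
        exact fun hT' => (hp i h1).2 _ (hh1 i h1) (hT _ _ hT')
      · subst h1
        rw [Function.update_self, Function.update_of_ne (by omega)]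
        exact (hp j h2).2 _ (hh1 j h2)
      · omega

end XGRD

open XGRD in
theorem i_GRD : S_GRD := by
  intro F N L₀ hF
  refine ⟨sc F L₀ N, le_sc F L₀ hF N, ?_⟩
  intro α _ W Hd T hT hm h0 hs x y hW
  exact main F L₀ hF α W Hd T hT hm h0 hs N x y hW

end Pool.Agent.IM55.PL
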