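import Pool.Agent.Work.MP_55ff09_co.PL.Base
import Pool.Agent.Work.MP_55ff09_co.LO

/-!
# MP_55ff09_co, block PL: item GT1
-/

set_option autoImplicit false

namespace Pool.Agent.IM55.PL

open SimpleGraph Pool.Agent.IM55

namespace XGT1

theorem box_finite (a b s : ℤ) : (Box a b s).Finite := by
  apply ((Set.finite_Icc a (a + s)).prod (Set.finite_Icc b (b + s))).subset
  rintro ⟨x, y⟩ ⟨h1, h2, h3, h4⟩
  exact ⟨⟨h1, h2.le⟩, ⟨h3, h4.le⟩⟩

variable {V : Type}

/-- the cells touched by `X`, as a finite set -/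
noncomputable def cells (G : SimpleGraph V) (a b s : ℤ) (B : ℤ × ℤ → Set V) (X : Set V) :
    Finset (ℤ × ℤ) :=
  ((box_finite a b s).subset (fun _ h => h.1 :
    {q | q ∈ Box a b s ∧ Touch G X (B q)} ⊆ Box a b s)).toFinset

theorem mem_cells {G : SimpleGraph V} {a b s : ℤ} {B : ℤ × ℤ → Set V} {X : Set V} {p : ℤ × ℤ} :
    p ∈ cells G a b s B X ↔ p ∈ Box a b s ∧ Touch G X (B p) := by
  simp [cells]

theorem card_cells {G : SimpleGraph V} {a b s : ℤ} {B : ℤ × ℤ → Set V} {X : Set V} :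
    (cells G a b s B X).card = cellN G (Box a b s) B X := by
  unfold cells cellN
  exact (Set.ncard_eq_toFinset_card _ _).symm

theorem near_mono {R R' : ℤ} {p q : ℤ × ℤ} (h : Near R p q) (hR : R ≤ R') : Near R' p q :=
  ⟨h.1.trans hR, h.2.trans hR⟩

theorem near_self {R : ℤ} (hR : 0 ≤ R) (p : ℤ × ℤ) : Near R p p := by
  unfold Near
  simp [hR]

theorem touch_single {G : SimpleGraph V} {X Y : Set V} {x : V} (hx : x ∈ X)
    (h : Touch G {x} Y) : Touch G X Y :=
  h.mono (Set.singleton_subset_iff.2 hx) (le_refl _)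

end XGT1

open XGT1 in
theorem i_GT1 (h1 : S_SLT) (h2 : S_SEL) (h3 : S_RAD) : S_GT1 := by
  intro n k s N lo
  set z : ℕ := k * (n * n * N + 1) with hz
  set ρ : ℕ := k * (z + 2) with hρ
  obtain ⟨N', hN'⟩ := h2 n N k
  obtain ⟨L, hlo, hsL, hL⟩ := h1 n N' s (2 * ρ + (3 * z + 4)) lo
  refine ⟨L, hlo, hsL, ?_⟩
  intro V _ G a b B S hM hS hSk hsub
  obtain ⟨xx, yy, hblk, hbox, hsep⟩ := hL a b
  have hch := fun e : (Fin n × Fin n) × Fin N' => hsub (xx e) (yy e) (hbox e)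
  choose q' hq' D hDc hDB hDS hDk using hch
  -- zones
  set Q : (Fin n × Fin n) × Fin N' → Set (ℤ × ℤ) :=
    fun e => {p | Near ((ρ : ℤ) + z + 1) p (q' e)} with hQ
  have hQd : ∀ p e e', p ∈ Q e → p ∈ Q e' → e = e' := by
    intro p e e' he he'
    refine hsep e e' (q' e) (hq' e) (q' e') (hq' e') p (near_mono he ?_) (near_mono he' ?_)
    · push_cast
      nlinarith [Int.natCast_nonneg ρ, Int.natCast_nonneg z]
    · push_cast
      nlinarith [Int.natCast_nonneg ρ, Int.natCast_nonneg z]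
  obtain ⟨φ, hφ1, hφ2, hφ3⟩ := hN' Q (fun e => cells G a b (n * L) B (D e))
    (cells G a b (n * L) B S) hQd (fun e => by rw [card_cells]; exact hDk e)
    (by rw [card_cells]; exact hSk)
  have hrad := fun d : (Fin n × Fin n) × Fin N =>
    h3 k z (cells G a b (n * L) B (D (d.1, φ d))) (q' (d.1, φ d))
      (by rw [card_cells]; exact hDk (d.1, φ d))
  choose wd hwd1 hwd2 using hrad
  have hwdz : ∀ d, ((wd d : ℕ) : ℤ) ≤ ρ := fun d => by exact_mod_cast hwd1 d
  -- the tails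
  have htail : ∀ d : (Fin n × Fin n) × Fin N, ∃ (c : V) (τ : Set V),
      τ ⊆ D (d.1, φ d) ∪ S ∧ (G.induce τ).Connected ∧ c ∈ τ ∧ (∃ s' ∈ S, s' ∈ τ) ∧
      c ∈ D (d.1, φ d) ∧
      (∃ p ∈ Box a b (n * L), Touch G {c} (B p) ∧ Near (wd d) p (q' (d.1, φ d))) ∧
      ∀ x ∈ τ, (∃ p ∈ Box a b (n * L), Touch G {x} (B p) ∧ Near (wd d) p (q' (d.1, φ d))) →
        x = c := by
    intro d
    set T : V → Prop := fun x =>
      ∃ p ∈ Box a b (n * L), Touch G {x} (B p) ∧ Near (wd d) p (q' (d.1, φ d)) with hT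
    have hST : ∀ x ∈ S, ¬ T x := by
      rintro x hx ⟨p, hp, ht, hn⟩
      refine hφ2 d p (mem_cells.2 ⟨hp, touch_single hx ht⟩) ?_
      refine near_mono hn ?_
      have := hwdz d
      have := Int.natCast_nonneg z
      linarith
    obtain ⟨u, hu, v, hv, huv⟩ := hDB (d.1, φ d)
    have hTu : T u := ⟨q' (d.1, φ d), hbox _ (hq' _), ⟨u, rfl, v, hv, huv⟩,
      near_self (Int.natCast_nonneg _) _⟩
    obtain ⟨s', hs'⟩ : S.Nonempty := by
      obtain ⟨⟨s', hs'⟩⟩ := hS.nonempty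
      exact ⟨s', hs'⟩
    obtain ⟨c, τ, h4, h5, h6, h7, h8, h9⟩ := exists_tail (G := G) T
      (conn_union (hDc (d.1, φ d)) hS (hDS (d.1, φ d))) (Or.inl hu) (Or.inr hs') hTu (hST s' hs')
    refine ⟨c, τ, h4, h5, h6, ⟨s', hs', h7⟩, ?_, h8, h9⟩
    rcases h4 h6 with h | h
    · exact h
    · exact absurd h8 (hST c h)
  choose c τ hτD hτc hcτ hSτ hcD hTc hcl using htail
  set W : Set V := S ∪ ⋃ d, τ d with hW
  have hWc : (G.induce W).Connected := by
    apply conn_iUnion τ hS hτc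
    intro d
    obtain ⟨s', hs1, hs2⟩ := hSτ d
    exact ⟨s', hs1, s', hs2, Or.inl rfl⟩
  have hmemQ : ∀ (d : (Fin n × Fin n) × Fin N) (p : ℤ × ℤ) (R : ℤ), R ≤ ρ + z + 1 →
      Near R p (q' (d.1, φ d)) → p ∈ Q (d.1, φ d) := fun d p R hR h => near_mono h hR
  -- the key fact
  have hkey : ∀ (d : (Fin n × Fin n) × Fin N), ∀ x ∈ W, ∀ p ∈ Box a b (n * L),
      Touch G {x} (B p) → p ∈ Q (d.1, φ d) → x ∈ τ d ∧ x ∈ D (d.1, φ d) := by
    intro d x hx p hp ht hpQ
    have hxS : x ∉ S := fun hxS => hφ2 d p (mem_cells.2 ⟨hp, touch_single hxS ht⟩) hpQ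
    rcases hx with hx | hx
    · exact absurd hx hxS
    obtain ⟨d', hd'⟩ := Set.mem_iUnion.1 hx
    have hxD : x ∈ D (d'.1, φ d') := (hτD d' hd').resolve_right hxS
    by_cases hdd : d' = d
    · subst hdd
      exact ⟨hd', hxD⟩
    · exact absurd hpQ (hφ3 d' d hdd p (mem_cells.2 ⟨hp, touch_single hxD ht⟩))
  refine ⟨W, fun d => q' (d.1, φ d), wd, c, ?_⟩
  refine
    { model := hM
      conn := hWc
      mem := fun d => Or.inr (Set.mem_iUnion.2 ⟨d, hcτ d⟩)
      inj := ?_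
      le := fun d => hwd1 d
      cells := ?_
      near := hTc
      only := ?_
      blk := ?_
      far := ?_ }
  · intro d d' hdd
    by_contra hne
    obtain ⟨p, hp, ht, hn⟩ := hTc d
    have hpQ : p ∈ Q (d.1, φ d) := hmemQ d p _ (by
      have := hwdz d
      have := Int.natCast_nonneg z
      linarith) hn
    refine hφ3 d' d (fun e => hne e.symm) p (mem_cells.2 ⟨hp, touch_single (hcD d') ?_⟩) hpQ
    rw [← hdd]
    exact ht
  · have hsubW : {p | p ∈ Box a b (n * L) ∧ Touch G W (B p)} ⊆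
        ((cells G a b (n * L) B S ∪ Finset.univ.biUnion
          (fun d : (Fin n × Fin n) × Fin N => cells G a b (n * L) B (D (d.1, φ d))) :
            Finset (ℤ × ℤ)) : Set (ℤ × ℤ)) := by
      rintro p ⟨hp, x, hx, y, hy, hxy⟩
      rw [Finset.coe_union, Set.mem_union, Finset.mem_coe, Finset.mem_coe, Finset.mem_biUnion]
      rcases hx with hx | hx
      · exact Or.inl (mem_cells.2 ⟨hp, x, hx, y, hy, hxy⟩)
      · obtain ⟨d, hd⟩ := Set.mem_iUnion.1 hx
        rcases hτD d hd with h | h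
        · exact Or.inr ⟨d, Finset.mem_univ _, mem_cells.2 ⟨hp, x, h, y, hy, hxy⟩⟩
        · exact Or.inl (mem_cells.2 ⟨hp, x, h, y, hy, hxy⟩)
    unfold cellN
    refine (Set.ncard_le_ncard hsubW (Finset.finite_toSet _)).trans ?_
    rw [Set.ncard_coe_finset]
    refine (Finset.card_union_le _ _).trans ?_
    have e1 : (Finset.univ.biUnion
        (fun d : (Fin n × Fin n) × Fin N => cells G a b (n * L) B (D (d.1, φ d)))).card ≤
          (Finset.univ : Finset ((Fin n × Fin n) × Fin N)).card * k :=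
      Finset.card_biUnion_le_card_mul _ _ _ (fun d _ => by rw [card_cells]; exact hDk _)
    have e2 : (Finset.univ : Finset ((Fin n × Fin n) × Fin N)).card = n * n * N := by
      simp
    rw [e2] at e1
    have e3 : (cells G a b (n * L) B S).card ≤ k := by rw [card_cells]; exact hSk
    rw [hz]
    nlinarith
  · intro d x hx p hp ht hn
    have hpQ : p ∈ Q (d.1, φ d) := hmemQ d p _ (by
      have := hwdz d
      push_cast
      linarith) hn
    obtain ⟨hxτ, hxD⟩ := hkey d x hx p hp ht hpQ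
    have hn' := hwd2 d p (mem_cells.2 ⟨hp, touch_single hxD ht⟩) (by
      push_cast at hn ⊢
      exact hn)
    exact hcl d x hxτ ⟨p, hp, ht, hn'⟩
  · intro d
    obtain ⟨g1, g2, g3, g4⟩ := hblk (d.1, φ d) _ (hq' (d.1, φ d))
    have hz0 := Int.natCast_nonneg z
    have hρ0 := Int.natCast_nonneg ρ
    push_cast at g1 g2 g3 g4
    refine ⟨?_, ?_, ?_, ?_⟩ <;> push_cast <;> linarith
  · intro d d' hdd hn
    have he := hsep (d.1, φ d) (d'.1, φ d') _ (hq' (d.1, φ d)) _ (hq' (d'.1, φ d'))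
      (q' (d.1, φ d)) (near_self (Int.natCast_nonneg _) _) (near_mono hn (by push_cast; linarith))
    have e1 : d.1 = d'.1 := (Prod.ext_iff.1 he).1
    have e2 : φ d = φ d' := (Prod.ext_iff.1 he).2
    apply hdd
    obtain ⟨u, t⟩ := d
    obtain ⟨u', t'⟩ := d'
    simp only at e1
    subst e1
    rw [hφ1 u t t' e2]

end Pool.Agent.IM55.PL
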