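import Pool.Agent.Work.MP_55ff09_co.PL.Base

/-!
# MP_55ff09_co, block PL, item GT2: tails give everything
-/

set_option autoImplicit false

namespace Pool.Agent.IM55.PL

open SimpleGraph Pool.Agent.IM55

namespace XGT2

theorem box_finite (a b s : ℤ) : (Box a b s).Finite := by
  refine Set.Finite.subset ((Set.finite_Ico a (a + s)).prod (Set.finite_Ico b (b + s))) ?_
  rintro ⟨x, y⟩ ⟨h1, h2, h3, h4⟩
  exact ⟨⟨h1, h2⟩, h3, h4⟩

end XGT2

open XGT2 in
theorem i_GT2 (hAR : ClaimArray) : S_GT2 := by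
  intro n Δ N z L ρ hLS hL V hV G a b B W q wd y hdeg hT H
  -- classes
  set Y : ℕ → Set V := fun k => {v | ∃ ij : Fin n × Fin n, (finProdFinEquiv ij : ℕ) = k ∧
    ∃ t : Fin N, v = y (ij, t)} with hY
  have hYk : ∀ ij : Fin n × Fin n, Y (finProdFinEquiv ij : ℕ) = Set.range (fun t => y (ij, t)) := by
    intro ij
    ext v
    constructor
    · rintro ⟨ij', h, t, rfl⟩
      have : ij' = ij := finProdFinEquiv.injective (Fin.ext h)
      subst this
      exact ⟨t, rfl⟩
    · rintro ⟨t, rfl⟩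
      exact ⟨ij, rfl, t, rfl⟩
  obtain ⟨J, hJ1, hJ2⟩ := hLS V hV G hdeg W hT.conn (Finset.range (n * n)) Y (by simp) (by
    intro k hk
    obtain ⟨ij, hij⟩ : ∃ ij : Fin n × Fin n, (finProdFinEquiv ij : ℕ) = k := by
      refine ⟨finProdFinEquiv.symm ⟨k, Finset.mem_range.1 hk⟩, ?_⟩
      rw [Equiv.apply_symm_apply]
    subst hij
    rw [hYk]
    constructor
    · rintro v ⟨t, rfl⟩
      exact hT.mem _
    · rw [Set.ncard_range_of_injective]
      · simp
      · intro t t' h
        have := hT.inj _ _ h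
        simpa using this)
  have hmem : ∀ ij : Fin n × Fin n, (finProdFinEquiv ij : ℕ) ∈ Finset.range (n * n) := by
    intro ij
    exact Finset.mem_range.2 (finProdFinEquiv ij).2
  have hJc : ∀ ij : Fin n × Fin n, ∃ t t' : Fin N, t ≠ t' ∧
      y (ij, t) ∈ J (finProdFinEquiv ij : ℕ) ∧ y (ij, t') ∈ J (finProdFinEquiv ij : ℕ) := by
    intro ij
    obtain ⟨-, -, v, hv, v', hv', hyJ, hyJ', hne⟩ := hJ1 _ (hmem ij)
    rw [hYk] at hv hv'
    obtain ⟨t, rfl⟩ := hv
    obtain ⟨t', rfl⟩ := hv'
    exact ⟨t, t', fun h => hne (by rw [h]), hyJ, hyJ'⟩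
  choose t t' htt ht ht' using hJc
  choose cell hcell hcellT hcellnear using hT.near
  have hne : ∀ ij ij' : Fin n × Fin n, ij ≠ ij' →
      (finProdFinEquiv ij : ℕ) ≠ (finProdFinEquiv ij' : ℕ) := by
    intro ij ij' h h'
    exact h (finProdFinEquiv.injective (Fin.ext h'))
  have hexcl : ∀ ij ij' : Fin n × Fin n, ij ≠ ij' → ∀ s : Fin N,
      y (ij, s) ∈ J (finProdFinEquiv ij : ℕ) → ∀ p ∈ Box a b (n * L),
      Touch G (J (finProdFinEquiv ij' : ℕ)) (B p) → ¬ Near (z + 1) p (cell (ij, s)) := by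
    intro ij ij' hij s hs p hp hJp hnr
    obtain ⟨x, hx, u, hu, h⟩ := hJp
    have hxW : x ∈ W := (hJ1 _ (hmem ij')).1 hx
    have hxT : Touch G {x} (B p) := ⟨x, rfl, u, hu, h⟩
    have hxe : x = y (ij, s) := by
      refine hT.only (ij, s) x hxW p hp hxT ?_
      have n2 := hcellnear (ij, s)
      unfold Near at n2 hnr ⊢
      simp only [abs_le] at *
      omega
    subst hxe
    exact (hJ2 _ (hmem ij) _ (hmem ij') (hne _ _ hij) _ hs _ hx).1 rfl
  have hfin : {p | p ∈ Box a b (n * L) ∧ Touch G W (B p)}.Finite :=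
    (box_finite a b (n * L)).subset fun p hp => hp.1
  refine hAR V hV G n a b L z B (fun i j => J (finProdFinEquiv (i, j) : ℕ))
    (fun i j => cell ((i, j), t (i, j))) (fun i j => cell ((i, j), t' (i, j)))
    hfin.toFinset ?_ H
  have hposgen : ∀ (i j : Fin n) (s : Fin N),
      In1 (a + (j : ℕ) * L) L z (cell ((i, j), s)).1 ∧
        In1 (b + (i : ℕ) * L) L z (cell ((i, j), s)).2 := by
    intro i j s
    have n1 := hcellnear ((i, j), s)
    have n2 := hT.le ((i, j), s)
    have n3 := hT.blk ((i, j), s)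
    unfold Near at n1
    unfold InBlk at n3
    unfold In1
    simp only [abs_le] at n1
    push_cast at n3
    generalize ((j : ℕ) : ℤ) * (L : ℤ) = jL at *
    generalize ((i : ℕ) : ℤ) * (L : ℤ) = iL at *
    omega
  refine
    { hz := by positivity
      hL := by exact_mod_cast hL
      model := hT.model
      cardZ := ?_
      conn := fun i j => (hJ1 _ (hmem (i, j))).2.1
      anti := fun i j i' j' h => hJ2 _ (hmem _) _ (hmem _) (hne _ _ h)
      inZ := ?_
      pos := fun i j => hposgen i j _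
      pos' := fun i j => hposgen i j _
      touch := fun i j => (hcellT _).mono (by simpa using ht (i, j)) (le_refl _)
      touch' := fun i j => (hcellT _).mono (by simpa using ht' (i, j)) (le_refl _)
      sep := ?_
      excl := ?_ }
  · have := hT.cells
    unfold cellN at this
    rw [← Set.ncard_eq_toFinset_card _ hfin]
    exact_mod_cast this
  · intro i j p hp hJp
    rw [Set.Finite.mem_toFinset]
    exact ⟨hp, hJp.mono (hJ1 _ (hmem (i, j))).1 (le_refl _)⟩
  · intro i j
    have n1 := hcellnear ((i, j), t (i, j))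
    have n2 := hcellnear ((i, j), t' (i, j))
    have l1 := hT.le ((i, j), t (i, j))
    have l2 := hT.le ((i, j), t' (i, j))
    have hf := hT.far ((i, j), t (i, j)) ((i, j), t' (i, j)) (by
      intro h
      exact htt (i, j) (Prod.mk.inj h).2)
    unfold Near at n1 n2 hf
    simp only [abs_le, le_abs] at *
    omega
  · intro i j i' j' hij p hp hJp
    exact ⟨hexcl (i, j) (i', j') hij _ (ht (i, j)) p hp hJp,
      hexcl (i, j) (i', j') hij _ (ht' (i, j)) p hp hJp⟩

end Pool.Agent.IM55.PL
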