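import Pool.Agent.Work.MP_55ff09_co.PL.Base

/-!
# MP_55ff09_co, block PL: item GTK
-/

set_option autoImplicit false

namespace Pool.Agent.IM55.PL

open SimpleGraph Pool.Agent.IM55

theorem i_GTK (h1 : S_GT1) (h2 : S_GT2) (h3 : ClaimLink) : S_GTK := by
  intro n Δ k s
  obtain ⟨N, hN⟩ := h3 Δ (n * n)
  obtain ⟨L, hL1, hL2, hL3⟩ := h1 n k s N (7 * (k * (n * n * N + 1)) + 20)
  refine ⟨L, hL2, ?_⟩
  intro V _ G a b B S hG hM hS hc hsub
  obtain ⟨W, q, wd, y, hT⟩ := hL3 G a b B S hM hS hc hsub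
  exact h2 n Δ N _ L _ hN hL1 G a b B W q wd y hG hT

end Pool.Agent.IM55.PL
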