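import Pool.Agent.Work.MP_55ff09_co.PL.Base

/-!
# MP_55ff09_co, block PL: item HDL
-/

set_option autoImplicit false

namespace Pool.Agent.IM55.PL

open SimpleGraph Pool.Agent.IM55

namespace XHDL

variable {V : Type} {G : SimpleGraph V}

theorem hdl_mono {M : ℕ} {B : ℤ × ℤ → Set V} {σ σ' : ℤ} {k : ℕ} {x y x' y' : ℤ} {s s' : ℕ}
    {X : Set V} (h : Hdl G M B σ k x y s X) (hσ : σ' ≤ σ) (hb : Box x y s ⊆ Box x' y' s') :
    Hdl G M B σ' k x' y' s' X := by
  obtain ⟨h1, h2, q, hq, q', hq', h3, h4⟩ := h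
  exact ⟨h1, h2, q, hb hq, q', hb hq', hσ.trans h3, h4⟩

/-- a part of a column -/
def cp (seg : ℤ × ℤ → Set V) (x y₁ y₂ : ℤ) : Set V :=
  {v | ∃ y : ℤ, y₁ ≤ y ∧ y ≤ y₂ ∧ v ∈ seg (x, y)}

variable {r : V} {M : ℕ} {seg ps Vg : ℤ × ℤ → Set V} {R : ℤ → Set V}

/-- parts of different columns -/
theorem cp_cp (hw : World G r M seg ps Vg R) {x x' y₁ y₂ : ℤ} (hx : 0 ≤ x) (hx' : x < M)
    (hz : 0 ≤ x') (hz' : x' < M) (h1 : 0 ≤ y₁) (h2 : y₂ < M) (hne : x ≠ x') :
    Anti G (cp seg x y₁ y₂) (cp seg x' y₁ y₂) := by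
  rintro u ⟨y, hy1, hy2, hu⟩ v ⟨y', hy1', hy2', hv⟩
  exact hw.santi (x, y) ⟨hx, by simpa using hx', by simp; omega, by simp; omega⟩ (x', y')
    ⟨hz, by simpa using hz', by simp; omega, by simp; omega⟩ hne u hu v hv

/-- a row and a part of a column outside the row -/
theorem cp_row (hw : World G r M seg ps Vg R) {x y₁ y₂ b : ℤ} (hx : 0 ≤ x) (hx' : x < M)
    (h1 : 0 ≤ y₁) (h2 : y₂ < M) (hb : 0 ≤ b) (hb' : b < M) (hne : b < y₁ ∨ y₂ < b) :
    Anti G (cp seg x y₁ y₂) (R b) := by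
  rintro u ⟨y, hy1, hy2, hu⟩ v hv
  refine (hw.rseg (x, y) ⟨hx, by simpa using hx', by simp; omega, by simp; omega⟩ b hb hb'
    (by simp; omega)).symm u hu v hv

end XHDL

open XHDL in
theorem i_HDL (hL : S_LOC) (hE : S_EXP) (hS : S_SID) (hK : S_K1A) (hC : S_COM) (hP : S_CLP) :
    S_HDL := by
  intro n Δ σ
  obtain ⟨s, hs⟩ := hS n (σ + 1)
  obtain ⟨L, hL1, hL2⟩ := hL n Δ s
  refine ⟨n * L, ?_⟩
  intro V _ G r M seg ps Vg R hG hw x y hb
  by_cases hall : HasAll G n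
  · exact Or.inl hall
  right
  have hbx : ((n * L : ℕ) : ℤ) = (n : ℤ) * (L : ℤ) := by push_cast; ring
  rw [hbx] at hb
  rcases hL2 G r M seg ps Vg R hG hw x y hb with h | ⟨x₀, y₀, hsub, hout⟩
  · exact absurd h hall
  have hsub' := hsub.trans hb
  obtain ⟨E, z, e, hEsc⟩ := hE G r M seg ps Vg R hw x₀ y₀ s hsub' hout
  set Up : ℤ × ℤ → Prop := fun q => ∃ y' : ℤ, (q.1, y') ∈ Box 0 0 M ∧ y₀ + s ≤ y' ∧
    Touch G {e q} (seg (q.1, y')) with hUp
  obtain ⟨X, Y, hX, hY, hXX, hYY, hcase⟩ := hs Up x₀ y₀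
  have hmem : ∀ i < n * n, ∀ a < n, (X i, Y a) ∈ Box x₀ y₀ s := by
    intro i hi a ha
    have h1 := hX i hi
    have h2 := hY a ha
    exact ⟨h1.1, h1.2, h2.1, h2.2⟩
  have hXne : ∀ i < n * n, ∀ i' < n * n, i ≠ i' → X i ≠ X i' := by
    intro i hi i' hi' hne he
    have := hXX i hi i' hi' hne
    rw [he, sub_self, abs_zero] at this
    push_cast at this
    omega
  by_cases htouch : ∃ i, i < n * n ∧ ∃ i', i' < n * n ∧ i ≠ i' ∧ ∃ a, a < n ∧ ∃ b, b < n ∧
      Touch G (E (X i, Y a)) (E (X i', Y b))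
  · obtain ⟨i, hi, i', hi', hne, a, ha, b, hb', hT⟩ := htouch
    obtain ⟨X₀, hX₀⟩ := hC G r Δ M seg ps Vg R hG hw x₀ y₀ s E z e hsub' hEsc _ (hmem i hi a ha) _
      (hmem i' hi' b hb') (hXne i hi i' hi' hne) hT
    refine ⟨X₀, hdl_mono hX₀ ?_ ?_⟩
    · have := hXX i hi i' hi' hne
      push_cast at this
      simp only
      omega
    · rw [hbx]
      exact hsub
  · exfalso
    push Not at htouch
    apply hall
    rcases Nat.eq_zero_or_pos n with hn0 | hn0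
    · subst hn0
      intro H
      exact ⟨fun i => i.elim0, fun i => i.elim0, fun i => i.elim0, fun i => i.elim0⟩
    -- coordinates in the world
    have hW : ∀ i < n * n, ∀ a < n, 0 ≤ X i ∧ X i < M ∧ 0 ≤ Y a ∧ Y a < M := by
      intro i hi a ha
      have := hsub' (hmem i hi a ha)
      obtain ⟨h1, h2, h3, h4⟩ := this
      simp only [zero_add] at h1 h2 h3 h4
      exact ⟨h1, h2, h3, h4⟩
    have hn2 : 0 < n * n := Nat.mul_pos hn0 hn0
    have hy0 : 0 ≤ y₀ ∧ y₀ + s ≤ M := by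
      have h1 := hX 0 hn2
      have h2 := hY 0 hn0
      have e1 := hsub' (show (X 0, y₀) ∈ Box x₀ y₀ s from ⟨h1.1, h1.2, le_rfl, by simp; omega⟩)
      have e2 := hsub' (show (X 0, y₀ + s - 1) ∈ Box x₀ y₀ s from
        ⟨h1.1, h1.2, by simp; omega, by simp⟩)
      obtain ⟨-, -, g3, -⟩ := e1
      obtain ⟨-, -, -, g4⟩ := e2
      simp only [zero_add] at g3 g4
      omega
    -- general argument for a range `[y₁, y₂]` of segments outside the box
    have key : ∀ y₁ y₂ : ℤ, 0 ≤ y₁ → y₂ < M → (y₂ < y₀ ∨ y₀ + s ≤ y₁) →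
        (∀ i < n * n, ∀ a < n, ∃ y' : ℤ, y₁ ≤ y' ∧ y' ≤ y₂ ∧
          Touch G {e (X i, Y a)} (seg (X i, y'))) → HasAll G n := by
      intro y₁ y₂ h1 h2 h3 h4
      have h12 : y₁ ≤ y₂ := by
        obtain ⟨y', g1, g2, -⟩ := h4 0 hn2 0 hn0
        omega
      refine hK G n (fun a => R (Y a)) (fun i a => E (X i, Y a)) (fun i => cp seg (X i) y₁ y₂)
        ?_ ?_ ?_ ?_ ?_
      · intro a ha
        obtain ⟨-, -, g1, g2⟩ := hW 0 hn2 a ha
        exact hw.rconn _ g1 g2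
      · intro a ha b hb hab
        obtain ⟨-, -, g1, g2⟩ := hW 0 hn2 a ha
        obtain ⟨-, -, g3, g4⟩ := hW 0 hn2 b hb
        exact hw.ranti _ _ g1 g2 g3 g4 (hYY a ha b hb hab)
      · intro i hi
        obtain ⟨g1, g2, -, -⟩ := hW i hi 0 hn0
        refine ⟨hP G r M seg ps Vg R hw (X i) y₁ y₂ g1 g2 h1 h12 h2, ?_⟩
        intro a ha
        obtain ⟨-, -, g3, g4⟩ := hW i hi a ha
        have g5 := hY a ha
        exact cp_row hw g1 g2 h1 h2 g3 g4 (by omega)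
      · intro i hi a ha
        have hq := hmem i hi a ha
        refine ⟨hEsc.conn _ hq, ?_, ?_, ?_⟩
        · exact (hEsc.zR _ hq).mono (by simpa using hEsc.zE _ hq) le_rfl
        · obtain ⟨y', g1, g2, g3⟩ := h4 i hi a ha
          exact g3.mono (by simpa using hEsc.eE _ hq) (fun v hv => ⟨y', g1, g2, hv⟩)
        · intro b hb hba
          obtain ⟨-, -, g3, g4⟩ := hW i hi b hb
          exact ((hw.rlega _ (hsub' hq) (Y b) g3 g4 (hYY b hb a ha hba)).symm).mono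
            (hEsc.sub _ hq) le_rfl
      · intro i hi i' hi' hne
        obtain ⟨g1, g2, -, -⟩ := hW i hi 0 hn0
        obtain ⟨g1', g2', -, -⟩ := hW i' hi' 0 hn0
        refine ⟨cp_cp hw g1 g2 g1' g2' h1 h2 (hXne i hi i' hi' hne), ?_⟩
        intro a ha
        have hq := hmem i hi a ha
        refine ⟨?_, ?_⟩
        · rintro u hu v ⟨y', hy1, hy2, hv⟩
          exact hw.vcol _ (hsub' hq) (X i', y') ⟨g1', by simpa using g2', by simp; omega,
            by simp; omega⟩ (hXne i hi i' hi' hne) u (hEsc.sub _ hq hu) v hv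
        · intro b hb
          rw [← not_touch_iff]
          exact htouch i hi i' hi' hne a ha b hb
    rcases hcase with hup | hdn
    · refine key (y₀ + s) (M - 1) (by omega) (by omega) (Or.inr le_rfl) ?_
      intro i hi a ha
      obtain ⟨y', g1, g2, g3⟩ := hup i hi a ha
      refine ⟨y', g2, ?_, g3⟩
      obtain ⟨-, -, -, g4⟩ := g1
      simp only [zero_add] at g4
      omega
    · refine key 0 (y₀ - 1) le_rfl (by omega) (Or.inl (by omega)) ?_
      intro i hi a ha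
      obtain ⟨y', g1, g2, g3⟩ := hEsc.out _ (hmem i hi a ha)
      rcases g2 with g2 | g2
      · refine ⟨y', ?_, by omega, g3⟩
        obtain ⟨-, -, g4, -⟩ := g1
        exact g4
      · exact absurd ⟨y', g1, g2, g3⟩ (hdn i hi a ha)

end Pool.Agent.IM55.PL
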