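import Pool.Agent.Work.MP_55ff09_co.PL.Base

/-!
# MP_55ff09_co, block PL, item HND
-/

set_option autoImplicit false

namespace Pool.Agent.IM55.PL

open SimpleGraph Pool.Agent.IM55

namespace XHND

theorem box_finite (a b s : ℤ) : (Box a b s).Finite := by
  refine Set.Finite.subset (Set.Finite.prod (Set.finite_Ico a (a + s)) (Set.finite_Ico b (b + s)))
    ?_
  rintro ⟨p, q⟩ ⟨h1, h2, h3, h4⟩
  exact ⟨⟨h1, h2⟩, ⟨h3, h4⟩⟩

end XHND

/-- HND: anticomplete handles in all slots give everything -/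
theorem i_HND (h1 : S_SLT) (h2 : S_SEL) (h3 : ClaimArray) : S_HND := by
  classical
  intro n k
  obtain ⟨N', hN'⟩ := h2 n 1 k
  refine ⟨N', fun s => ?_⟩
  set z : ℕ := n * n * k with hz
  obtain ⟨L, hlo, _, hL⟩ := h1 n N' s (2 * z + 4) (7 * z + 20)
  obtain ⟨x, y, hblk, hbox, hsep⟩ := hL 0 0
  refine ⟨L, x, y, hbox, ?_⟩
  intro V _ G B X hmod hH hA H
  have hcast : ((n * L : ℕ) : ℤ) = (n : ℤ) * (L : ℤ) := by push_cast; ring
  choose hconn hcell q hq q' hq' hσ hT hT' using hH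
  have hfin : ∀ d, {p | p ∈ Box 0 0 (n * L) ∧ Touch G (X d) (B p)}.Finite := fun d =>
    (XHND.box_finite 0 0 (n * L)).subset fun p hp => hp.1
  have hcard : ∀ d, (hfin d).toFinset.card ≤ k := by
    intro d
    rw [← Set.ncard_eq_toFinset_card _ (hfin d)]
    have := hcell d
    unfold cellN at this
    rw [hcast] at this
    exact this
  have hρ : ∀ p r : ℤ × ℤ, Near ((z : ℤ) + 1) p r → Near ((2 * z + 4 : ℕ) : ℤ) p r := by
    intro p r h
    refine ⟨h.1.trans ?_, h.2.trans ?_⟩ <;> push_cast <;> linarith [Int.natCast_nonneg z]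
  obtain ⟨φ, -, -, hφ⟩ := hN' (fun d => {p | ∃ r ∈ Box (x d) (y d) s, Near ((z : ℤ) + 1) p r})
    (fun d => (hfin d).toFinset) ∅ (by
      rintro p d d' ⟨r, hr, hn⟩ ⟨r', hr', hn'⟩
      exact hsep d d' r hr r' hr' p (hρ _ _ hn) (hρ _ _ hn')) hcard (by simp)
  -- the chosen slots
  set e : Fin n → Fin n → (Fin n × Fin n) × Fin N' := fun i j => ((i, j), φ ((i, j), 0)) with he
  have hne : ∀ i j i' j', (i, j) ≠ (i', j') → e i j ≠ e i' j' := by
    intro i j i' j' h h'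
    exact h (congrArg Prod.fst h')
  let Z : Finset (ℤ × ℤ) := (Finset.univ : Finset (Fin n × Fin n)).biUnion fun w =>
    (hfin (e w.1 w.2)).toFinset
  have hZcard : Z.card ≤ z := by
    refine (Finset.card_biUnion_le_card_mul _ _ k fun w _ => hcard _).trans ?_
    rw [Finset.card_univ, Fintype.card_prod, Fintype.card_fin, hz]
  refine h3 V ‹_› G n 0 0 L z B (fun i j => X (e i j)) (fun i j => q (e i j))
    (fun i j => q' (e i j)) Z ?_ H
  have hρ' : ∀ c x : ℤ, c + ((2 * z + 4 : ℕ) : ℤ) ≤ x → x < c + L - ((2 * z + 4 : ℕ) : ℤ) →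
      In1 c L z x := by
    intro c x h1 h2
    push_cast at h1 h2
    exact ⟨h1, h2⟩
  have hpos : ∀ (i j : Fin n) (r : ℤ × ℤ), r ∈ Box (x (e i j)) (y (e i j)) s →
      In1 (0 + (j : ℕ) * L) L z r.1 ∧ In1 (0 + (i : ℕ) * L) L z r.2 := by
    intro i j r hr
    obtain ⟨a1, a2, a3, a4⟩ := hblk (e i j) r hr
    exact ⟨hρ' _ _ a1 a2, hρ' _ _ a3 a4⟩
  refine ⟨by positivity, by exact_mod_cast hlo, hmod, by exact_mod_cast hZcard,
    fun i j => hconn _, fun i j i' j' h => hA _ _ (hne i j i' j' h), ?_,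
    fun i j => hpos i j _ (hq _), fun i j => hpos i j _ (hq' _), fun i j => hT _,
    fun i j => hT' _, ?_, ?_⟩
  · intro i j p hp hT
    refine Finset.mem_biUnion.2 ⟨(i, j), Finset.mem_univ _, ?_⟩
    rw [Set.Finite.mem_toFinset]
    exact ⟨hp, hT⟩
  · intro i j
    refine Or.inl ?_
    have h4 := hσ (e i j)
    have h5 : (z : ℤ) = (n : ℤ) * n * k := by rw [hz]; push_cast; ring
    rw [h5]
    exact h4
  · intro i j i' j' hij p hp hT
    have h5 := hφ ((i', j'), 0) ((i, j), 0)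
      (fun h => hij (congrArg Prod.fst h).symm) p (by
        rw [Set.Finite.mem_toFinset]
        exact ⟨hp, hT⟩)
    exact ⟨fun h6 => h5 ⟨_, hq (e i j), h6⟩, fun h6 => h5 ⟨_, hq' (e i j), h6⟩⟩

end Pool.Agent.IM55.PL
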