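import Pool.Agent.Work.MP_55ff09_co.PL.Base

/-! Item [55ff09 PL HOM]. -/

set_option autoImplicit false

namespace Pool.Agent.IM55.PL

theorem i_HOM : S_HOM := by
  classical
  intro t g
  refine ⟨(Finset.range t).powerset.powerset.card * g, fun F => ?_⟩
  let key : ℕ → Finset (Finset ℕ) := fun k => (Finset.range t).powerset.filter fun e => e ∈ F k
  obtain ⟨y, -, hy⟩ := Finset.exists_le_card_fiber_of_mul_le_card_of_maps_to
    (s := Finset.range ((Finset.range t).powerset.powerset.card * g))
    (t := (Finset.range t).powerset.powerset) (f := key) (n := g)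
    (fun a _ => by
      rw [Finset.mem_powerset]
      exact Finset.filter_subset _ _)
    ⟨∅, by simp⟩ (by rw [Finset.card_range])
  obtain ⟨s, hs, hcard⟩ := Finset.exists_subset_card_eq hy
  have hmem : ∀ i : Fin g, s.orderEmbOfFin hcard i ∈
      (Finset.range ((Finset.range t).powerset.powerset.card * g)).filter (fun a => key a = y) :=
    fun i => hs (Finset.orderEmbOfFin_mem s hcard i)
  refine ⟨fun k => if h : k < g then s.orderEmbOfFin hcard ⟨k, h⟩ else 0, ?_, ?_, ?_⟩
  · intro k hk
    beta_reduce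
    rw [dif_pos hk]
    exact Finset.mem_range.1 (Finset.mem_filter.1 (hmem ⟨k, hk⟩)).1
  · intro k hk k' hk' hkk'
    beta_reduce
    rw [dif_pos hk, dif_pos hk']
    exact (s.orderEmbOfFin hcard).strictMono hkk'
  · intro k hk k' hk' e he
    beta_reduce
    rw [dif_pos hk, dif_pos hk']
    have h1 := (Finset.mem_filter.1 (hmem ⟨k, hk⟩)).2
    have h2 := (Finset.mem_filter.1 (hmem ⟨k', hk'⟩)).2
    have h3 : key (s.orderEmbOfFin hcard ⟨k, hk⟩) = key (s.orderEmbOfFin hcard ⟨k', hk'⟩) :=
      h1.trans h2.symm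
    have h4 : ∀ a, e ∈ key a ↔ e ∈ F a := by
      intro a
      change e ∈ (Finset.range t).powerset.filter (fun e => e ∈ F a) ↔ _
      rw [Finset.mem_filter, Finset.mem_powerset]
      exact ⟨fun h => h.2, fun h => ⟨he, h⟩⟩
    rw [← h4, ← h4, h3]

end Pool.Agent.IM55.PL
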