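import Pool.Agent.Work.MP_55ff09_co.PL.Base

/-!
# MP_55ff09_co, block PL, item HUB: hubs
-/

set_option autoImplicit false

namespace Pool.Agent.IM55.PL

open SimpleGraph Pool.Agent.IM55

namespace XHUB

variable {V : Type} {G : SimpleGraph V} {lb : V → V} {BB : Set (Set V)}

/-- at most `m` labels meet all bramble sets which touch `X` -/
def Cov (G : SimpleGraph V) (lb : V → V) (BB : Set (Set V)) (X : Set V) (m : ℕ) : Prop :=
  ∃ S : Set V, S.ncard ≤ m ∧ ∀ B ∈ BB, TL G lb X B → ¬ Disjoint B S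

theorem cov_mono {X : Set V} {m m' : ℕ} (h : Cov G lb BB X m) (hm : m ≤ m') :
    Cov G lb BB X m' := by
  obtain ⟨S, h1, h2⟩ := h
  exact ⟨S, h1.trans hm, h2⟩

theorem cov_sub {X Y : Set V} {m : ℕ} (hXY : X ⊆ Y) (h : Cov G lb BB Y m) : Cov G lb BB X m := by
  obtain ⟨S, h1, h2⟩ := h
  refine ⟨S, h1, fun B hB ⟨y, hy, hyB⟩ => h2 B hB ⟨y, clN_mono hXY hy, hyB⟩⟩

theorem cov_union [Finite V] {X Y : Set V} {a b : ℕ} (h1 : Cov G lb BB X a)
    (h2 : Cov G lb BB Y b) : Cov G lb BB (X ∪ Y) (a + b) := by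
  obtain ⟨S, s1, s2⟩ := h1
  obtain ⟨T, t1, t2⟩ := h2
  refine ⟨S ∪ T, (Set.ncard_union_le S T).trans (Nat.add_le_add s1 t1), ?_⟩
  rintro B hB ⟨y, ⟨x, hx, hxy⟩, hyB⟩ hd
  rw [Set.disjoint_union_right] at hd
  rcases hx with hx | hx
  · exact s2 B hB ⟨y, ⟨x, hx, hxy⟩, hyB⟩ hd.1
  · exact t2 B hB ⟨y, ⟨x, hx, hxy⟩, hyB⟩ hd.2

theorem cov_empty : Cov G lb BB ∅ 0 := by
  refine ⟨∅, by simp, ?_⟩
  rintro B _ ⟨y, ⟨x, hx, -⟩, -⟩
  exact absurd hx (Set.notMem_empty x)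

theorem cov_labels [Finite V] (X : Set V) {m : ℕ} (h : (lb '' clN G X).ncard ≤ m) :
    Cov G lb BB X m := by
  refine ⟨_, h, ?_⟩
  rintro B _ ⟨y, hy, hyB⟩ hd
  exact Set.disjoint_left.1 hd hyB ⟨y, hy, rfl⟩

theorem cov_single [Finite V] {Δ : ℕ} (hG : DegLe G Δ) (v : V) : Cov G lb BB {v} (Δ + 1) :=
  cov_labels {v} ((Set.ncard_image_le (Set.toFinite _)).trans (clN_ncard hG v))

/-- a thin set inside one label class -/
theorem cov_class [Finite V] {Δ c : ℕ} {r : V} {ly : V → ℕ} {co : Set V} (hG : DegLe G Δ)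
    (hL : Lab G c r ly lb co) {U X : Set V} (hT : Thin lb co (2 * c + 1) U) (hX : X ⊆ U) (i : V)
    (hi : ∀ x ∈ X, lb x = i) : Cov G lb BB X ((3 * c + 1) * (Δ + 1) + 1) := by
  apply cov_labels
  let E : Set V := {x | x ∈ X ∧ ∃ u, G.Adj x u ∧ lb u ≠ i}
  have hE : E.ncard ≤ 3 * c + 1 := by
    have h1 : E ⊆ {v | v ∈ co ∧ lb v = i ∧ ∃ u, G.Adj v u ∧ lb u ≠ i} ∪
        {x | x ∈ U ∧ lb x = i ∧ x ∉ co} := by
      rintro x ⟨hx, hu⟩
      by_cases hc : x ∈ co
      · exact Or.inl ⟨hc, hi x hx, hu⟩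
      · exact Or.inr ⟨hX hx, hi x hx, hc⟩
    have h2 := Set.ncard_le_ncard h1 (Set.toFinite _)
    have h3 := Set.ncard_union_le {v | v ∈ co ∧ lb v = i ∧ ∃ u, G.Adj v u ∧ lb u ≠ i}
      {x | x ∈ U ∧ lb x = i ∧ x ∉ co}
    have h4 := hL.exits i
    have h5 := hT i
    omega
  have h1 : lb '' clN G X ⊆ insert i (lb '' clN G E) := by
    rintro _ ⟨y, ⟨x, hx, hxy⟩, rfl⟩
    by_cases hy : lb y = i
    · exact Or.inl hy
    · right
      rcases hxy with rfl | hxy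
      · exact absurd (hi _ hx) hy
      · exact ⟨y, ⟨x, ⟨hx, y, hxy, hy⟩, Or.inr hxy⟩, rfl⟩
  calc (lb '' clN G X).ncard ≤ (insert i (lb '' clN G E)).ncard :=
        Set.ncard_le_ncard h1 (Set.toFinite _)
    _ ≤ (lb '' clN G E).ncard + 1 := Set.ncard_insert_le _ _
    _ ≤ (clN G E).ncard + 1 := Nat.add_le_add_right (Set.ncard_image_le (Set.toFinite _)) 1
    _ ≤ E.ncard * (Δ + 1) + 1 := Nat.add_le_add_right (clN_ncard_set hG E) 1
    _ ≤ (3 * c + 1) * (Δ + 1) + 1 := Nat.add_le_add_right (Nat.mul_le_mul_right _ hE) 1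

/-- the vertices `w i`, `a ≤ i < b` -/
def sg (w : ℕ → V) (a b : ℕ) : Set V := {v | ∃ i, a ≤ i ∧ i < b ∧ w i = v}

theorem step [Finite V] {Δ : ℕ} (hG : DegLe G Δ) (w : ℕ → V) (l a κ m : ℕ)
    (h : ¬ Cov G lb BB (sg w a (l + 1)) (m + (κ + 2 * Δ + 2))) :
    ∃ e, a < e ∧ e ≤ l + 1 ∧ ¬ Cov G lb BB (sg w a e) κ ∧
      ¬ Cov G lb BB (sg w (e + 1) (l + 1)) m := by
  classical
  have hex : ∃ e, ¬ Cov G lb BB (sg w a e) κ :=
    ⟨l + 1, fun h' => h (cov_mono h' (by omega))⟩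
  have hf := Nat.find_spec hex
  have hfm : ∀ e' < Nat.find hex, Cov G lb BB (sg w a e') κ := fun e' he' => by
    have := Nat.find_min hex he'
    exact not_not.1 this
  have hfl : Nat.find hex ≤ l + 1 := Nat.find_min' hex (fun h' => h (cov_mono h' (by omega)))
  generalize Nat.find hex = e at hf hfm hfl
  have hae : a < e := by
    by_contra hcon
    have h1 : sg w a e = ∅ := by
      ext v
      simp only [sg, Set.mem_ofPred_eq, Set.mem_empty_iff_false, iff_false]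
      rintro ⟨i, h1, h2, -⟩
      omega
    rw [h1] at hf
    exact hf (cov_mono cov_empty (Nat.zero_le κ))
  refine ⟨e, hae, hfl, hf, fun hc => h ?_⟩
  have h1 := hfm (e - 1) (by omega)
  have h2 := cov_union (cov_union (cov_union h1 (cov_single (lb := lb) (BB := BB) hG (w (e - 1))))
    (cov_single (lb := lb) (BB := BB) hG (w e))) hc
  refine cov_mono (cov_sub ?_ h2) (by omega)
  rintro v ⟨i, h3, h4, rfl⟩
  rcases Nat.lt_or_ge i (e - 1) with h5 | h5
  · exact Or.inl (Or.inl (Or.inl ⟨i, h3, h5, rfl⟩))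
  · rcases Nat.lt_or_ge e i with h6 | h6
    · exact Or.inr ⟨i, by omega, h4, rfl⟩
    · have h7 : i = e - 1 ∨ i = e := by omega
      rcases h7 with h7 | h7
      · subst h7
        exact Or.inl (Or.inl (Or.inr rfl))
      · subst h7
        exact Or.inl (Or.inr rfl)

theorem greedy [Finite V] {Δ : ℕ} (hG : DegLe G Δ) (w : ℕ → V) (l κ : ℕ) :
    ∀ n a : ℕ, ¬ Cov G lb BB (sg w a (l + 1)) (κ + n * (κ + 2 * Δ + 2)) →
      ∃ s e : ℕ → ℕ, a ≤ s 0 ∧
        (∀ j ≤ n, s j < e j ∧ e j ≤ l + 1 ∧ ¬ Cov G lb BB (sg w (s j) (e j)) κ) ∧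
        ∀ j < n, e j + 1 ≤ s (j + 1) := by
  intro n
  induction n with
  | zero =>
    intro a h
    have h' : ¬ Cov G lb BB (sg w a (l + 1)) κ := by simpa using h
    have hal : a < l + 1 := by
      by_contra hcon
      have h1 : sg w a (l + 1) = ∅ := by
        ext v
        simp only [sg, Set.mem_ofPred_eq, Set.mem_empty_iff_false, iff_false]
        rintro ⟨i, h1, h2, -⟩
        omega
      rw [h1] at h'
      exact h' (cov_mono cov_empty (Nat.zero_le κ))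
    exact ⟨fun _ => a, fun _ => l + 1, le_rfl, fun j _ => ⟨hal, le_rfl, h'⟩,
      fun j hj => absurd hj (Nat.not_lt_zero j)⟩
  | succ n ih =>
    intro a h
    have h' : ¬ Cov G lb BB (sg w a (l + 1)) ((κ + n * (κ + 2 * Δ + 2)) + (κ + 2 * Δ + 2)) := by
      have e1 : κ + (n + 1) * (κ + 2 * Δ + 2) =
        (κ + n * (κ + 2 * Δ + 2)) + (κ + 2 * Δ + 2) := by ring
      rw [← e1]
      exact h
    obtain ⟨b, h1, h2, h3, h4⟩ := step hG w l a κ _ h'
    obtain ⟨s, e, g1, g2, g3⟩ := ih (b + 1) h4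
    refine ⟨fun j => match j with | 0 => a | j + 1 => s j,
      fun j => match j with | 0 => b | j + 1 => e j, le_rfl, ?_, ?_⟩
    · intro j hj
      match j with
      | 0 => exact ⟨h1, h2, h3⟩
      | j + 1 => exact g2 j (by omega)
    · intro j hj
      match j with
      | 0 => exact g1
      | j + 1 => exact g3 j (by omega)

end XHUB

open XHUB

theorem i_HUB (h1 : S_PTH) : S_HUB := by
  intro Δ c
  refine ⟨(3 * c + 1) * (Δ + 1) + 3, ?_⟩
  intro h k V _ G r ly lb co BB hG hL hk hB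
  obtain ⟨κ, rfl⟩ : ∃ κ, k = κ + 1 := ⟨k - 1, by omega⟩
  rcases Nat.eq_zero_or_pos h with rfl | hpos
  · refine ⟨fun _ => ∅, ?_, ?_, ?_, ?_, ?_⟩
    · intro a ha
      exact absurd ha (Nat.not_lt_zero a)
    · intro a ha
      exact absurd ha (Nat.not_lt_zero a)
    · intro a ha
      exact absurd ha (Nat.not_lt_zero a)
    · intro i
      have e : {x | x ∈ {v : V | ∃ a < 0, v ∈ (∅ : Set V)} ∧ lb x = i ∧ x ∉ co} = ∅ := by
        ext x
        simp
      rw [e]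
      simp
    · intro a ha
      exact absurd ha (Nat.not_lt_zero a)
  have hq : 2 ≤ 2 * h * (κ + 1 + 2 * Δ + 2) := by
    have : 1 ≤ h * (κ + 1 + 2 * Δ + 2) := Nat.mul_pos hpos (by omega)
    calc 2 = 2 * 1 := rfl
      _ ≤ 2 * (h * (κ + 1 + 2 * Δ + 2)) := Nat.mul_le_mul_left 2 this
      _ = _ := by ring
  obtain ⟨w, l, hip, hthin, hint, htl⟩ := h1 G c r ly lb co _ BB hL hq hB
  obtain ⟨n, hn⟩ : ∃ n, 2 * h = n + 1 := ⟨2 * h - 1, by omega⟩
  have hsg : sg w 0 (l + 1) = rng w l := by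
    ext v
    constructor
    · rintro ⟨i, -, h3, rfl⟩
      exact ⟨i, by omega, rfl⟩
    · rintro ⟨i, h3, rfl⟩
      exact ⟨i, Nat.zero_le _, by omega, rfl⟩
  have hnc : ¬ Cov G lb BB (sg w 0 (l + 1)) (κ + n * (κ + 2 * Δ + 2)) := by
    rintro ⟨S, s1, s2⟩
    rw [hsg] at s2
    have hlt : S.ncard < 2 * h * (κ + 1 + 2 * Δ + 2) := by
      rw [hn]
      have e1 : (n + 1) * (κ + 1 + 2 * Δ + 2) =
        (κ + n * (κ + 2 * Δ + 2)) + (n + 2 * Δ + 3) := by ring
      rw [e1]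
      omega
    obtain ⟨B, hBB, hd⟩ := hB.ord S hlt
    exact s2 B hBB (htl B hBB) hd
  obtain ⟨s, e, -, g2, g3⟩ := greedy hG w l κ n 0 hnc
  -- order of the intervals
  have hord : ∀ j : ℕ, ∀ i, i < j → j ≤ n → e i + 1 ≤ s j := by
    intro j
    induction j with
    | zero =>
      intro i hi
      exact absurd hi (Nat.not_lt_zero i)
    | succ j ih =>
      intro i hi hj
      rcases Nat.lt_or_ge i j with h3 | h3
      · have h4 := ih i h3 (by omega)
        have h5 := (g2 j (by omega)).1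
        have h6 := g3 j (by omega)
        omega
      · have h4 : i = j := by omega
        subst h4
        exact g3 i (by omega)
  -- no interval is inside one label class
  have hcl : ∀ j ≤ n, ∀ i : V, ¬ ∀ x ∈ sg w (s j) (e j), lb x = i := by
    intro j hj i hi
    obtain ⟨-, h4, h5⟩ := g2 j hj
    refine h5 (cov_mono (cov_class hG hL hthin ?_ i hi) (by omega))
    rintro v ⟨i', -, h7, rfl⟩
    exact ⟨i', by omega, rfl⟩
  let P : ℕ → Set V := fun a => sg w (s (2 * a)) (e (2 * a))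
  have hlab : ∀ a b : ℕ, a < b → b < h → ∀ x ∈ P a, ∀ y ∈ P b, lb x ≠ lb y := by
    rintro a b hab hb x ⟨i, i1, i2, rfl⟩ y ⟨j, j1, j2, rfl⟩ hxy
    have o1 := hord (2 * a + 1) (2 * a) (by omega) (by omega)
    have o2 := hord (2 * b) (2 * a + 1) (by omega) (by omega)
    have o3 := (g2 (2 * b) (by omega)).2.1
    refine hcl (2 * a + 1) (by omega) (lb (w i)) ?_
    rintro v ⟨t, t1, t2, rfl⟩
    exact hint i t j (by omega) (by omega) (by omega) hxy
  have hanti : ∀ a b : ℕ, a < b → b < h → Anti G (P a) (P b) := by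
    rintro a b hab hb x ⟨i, i1, i2, rfl⟩ y ⟨j, j1, j2, rfl⟩
    have o1 := hord (2 * b) (2 * a) (by omega) (by omega)
    have o3 := (g2 (2 * b) (by omega)).2.1
    refine ⟨fun he => ?_, fun ha => ?_⟩
    · have := hip.inj i (by omega) j (by omega) he
      omega
    · have := hip.ind i (by omega) j (by omega) ha
      omega
  refine ⟨P, ?_, ?_, ?_, ?_, ?_⟩
  · intro a ha
    obtain ⟨h3, h4, -⟩ := g2 (2 * a) (by omega)
    have e1 : P a = {v | ∃ i, s (2 * a) ≤ i ∧ i ≤ e (2 * a) - 1 ∧ w i = v} := by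
      ext v
      constructor
      · rintro ⟨i, i1, i2, i3⟩
        exact ⟨i, i1, by omega, i3⟩
      · rintro ⟨i, i1, i2, i3⟩
        exact ⟨i, i1, by omega, i3⟩
    rw [e1]
    exact ip_seg_conn hip (by omega) (by omega)
  · intro a ha b hb hab
    rcases Nat.lt_or_gt_of_ne hab with h3 | h3
    · exact hanti a b h3 hb
    · exact (hanti b a h3 ha).symm
  · intro a ha b hb hab x hx y hy
    rcases Nat.lt_or_gt_of_ne hab with h3 | h3
    · exact hlab a b h3 hb x hx y hy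
    · exact (hlab b a h3 ha y hy x hx).symm
  · intro i
    refine (Set.ncard_le_ncard ?_ (Set.toFinite _)).trans (hthin i)
    rintro x ⟨⟨a, ha, ⟨j, j1, j2, rfl⟩⟩, hx2, hx3⟩
    have h4 := (g2 (2 * a) (by omega)).2.1
    exact ⟨⟨j, by omega, rfl⟩, hx2, hx3⟩
  · intro a ha S hS
    have h4 := (g2 (2 * a) (by omega)).2.2
    by_contra hcon
    refine h4 ⟨S, by omega, fun B hBB ht hd => hcon ⟨B, hBB, hd, ht⟩⟩

end Pool.Agent.IM55.PL
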