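import Pool.Agent.Work.MP_55ff09_co.PL.Base

/-!
# MP_55ff09_co, block PL, item IM: induced Menger theorem for bounded degree
-/

set_option autoImplicit false

namespace Pool.Agent.IM55.PL

open SimpleGraph Pool.Agent.IM55

namespace XIM

variable {V : Type}

/-- `v` is good in `U` -/
structure Good (G : SimpleGraph V) (A B U : Set V) (v : V) : Prop where
  three : ∀ x ∈ U, ∀ y ∈ U, ∀ z ∈ U, G.Adj v x → G.Adj v y → G.Adj v z → x = y ∨ y = z ∨ x = z
  two : (v ∈ A ∨ v ∈ B) → ∀ x ∈ U, ∀ y ∈ U, G.Adj v x → G.Adj v y → x = y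
  one : v ∈ A → v ∈ B → ∀ x ∈ U, ¬ G.Adj v x

theorem Good.mono {G : SimpleGraph V} {A B U U' : Set V} {v : V} (h : Good G A B U v)
    (hU : U' ⊆ U) : Good G A B U' v :=
  ⟨fun x hx y hy z hz => h.three x (hU hx) y (hU hy) z (hU hz),
    fun h' x hx y hy => h.two h' x (hU hx) y (hU hy), fun h1 h2 x hx => h.one h1 h2 x (hU hx)⟩

/-- a vertex of an induced path connector all of whose neighbours in `U` are on the path is good -/
theorem good_of_path {G : SimpleGraph V} {A B Q U : Set V} {w : ℕ → V} {l : ℕ}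
    (h : PC G Q A B w l) {v : V} (hv : v ∈ rng w l)
    (hU : ∀ x ∈ U, G.Adj v x → x ∈ rng w l) : Good G A B U v := by
  obtain ⟨a, ha, rfl⟩ := hv
  have key : ∀ x ∈ U, G.Adj (w a) x → ∃ b ≤ l, w b = x ∧ (a = b + 1 ∨ b = a + 1) := by
    intro x hx hadj
    obtain ⟨b, hb, rfl⟩ := hU x hx hadj
    exact ⟨b, hb, rfl, h.ip.ind a ha b hb hadj⟩
  refine ⟨?_, ?_, ?_⟩
  · intro x hx y hy z hz h1 h2 h3
    obtain ⟨b1, hb1, rfl, e1⟩ := key x hx h1
    obtain ⟨b2, hb2, rfl, e2⟩ := key y hy h2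
    obtain ⟨b3, hb3, rfl, e3⟩ := key z hz h3
    by_cases h12 : b1 = b2
    · exact Or.inl (by rw [h12])
    · by_cases h23 : b2 = b3
      · exact Or.inr (Or.inl (by rw [h23]))
      · have : b1 = b3 := by omega
        exact Or.inr (Or.inr (by rw [this]))
  · rintro hAB x hx y hy h1 h2
    obtain ⟨b1, hb1, rfl, e1⟩ := key x hx h1
    obtain ⟨b2, hb2, rfl, e2⟩ := key y hy h2
    have : b1 = b2 := by
      rcases hAB with hA | hB
      · have := (h.hA a ha).1 hA
        omega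
      · have := (h.hB a ha).1 hB
        omega
    rw [this]
  · intro hA hB x hx h1
    obtain ⟨b1, hb1, rfl, e1⟩ := key x hx h1
    have h2 := (h.hA a ha).1 hA
    have h3 := (h.hB a ha).1 hB
    omega

/-- two vertices of different paths in `U` are not adjacent if the first one is good in `U` -/
theorem not_adj {G : SimpleGraph V} {A B Q U : Set V} {w : ℕ → V} {l : ℕ}
    (h : PC G Q A B w l) (hQ : Q ⊆ U) {v y : V} (hv : v ∈ rng w l) (hg : Good G A B U v)
    (hy : y ∈ U) (hyw : y ∉ rng w l) : ¬ G.Adj v y := by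
  intro hadj
  obtain ⟨a, ha, rfl⟩ := hv
  have hin : ∀ b ≤ l, w b ∈ U := fun b hb => hQ (h.sub ⟨b, hb, rfl⟩)
  have hne : ∀ b ≤ l, w b ≠ y := fun b hb e => hyw ⟨b, hb, e⟩
  by_cases h0 : a = 0
  · subst h0
    have hA : w 0 ∈ A := (h.hA 0 ha).2 rfl
    by_cases hl : l = 0
    · subst hl
      exact hg.one hA ((h.hB 0 ha).2 rfl) y hy hadj
    · have h1 : G.Adj (w 0) (w (0 + 1)) := h.ip.adj 0 (by omega)
      exact hne 1 (by omega) (hg.two (Or.inl hA) _ (hin 1 (by omega)) y hy h1 hadj)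
  · have h1 : G.Adj (w a) (w (a - 1)) := by
      have := h.ip.adj (a - 1) (by omega)
      rw [show a - 1 + 1 = a by omega] at this
      exact this.symm
    by_cases hl : a = l
    · have hB : w a ∈ B := (h.hB a ha).2 hl
      exact hne (a - 1) (by omega) (hg.two (Or.inr hB) _ (hin (a - 1) (by omega)) y hy h1 hadj)
    · have h2 : G.Adj (w a) (w (a + 1)) := h.ip.adj a (by omega)
      rcases hg.three _ (hin (a - 1) (by omega)) _ (hin (a + 1) (by omega)) y hy h1 h2 hadj with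
        h3 | h3 | h3
      · have := h.ip.inj (a - 1) (by omega) (a + 1) (by omega) h3
        omega
      · exact hne (a + 1) (by omega) h3
      · exact hne (a - 1) (by omega) h3

end XIM

open XIM in
theorem i_IM (hcol : S_COL) (himq : S_IMQ) (hipa : S_IPA) : S_IM := by
  intro Δ
  refine ⟨(Δ + 1) ^ ((Δ + 1) ^ 2), by positivity, ?_⟩
  intro V _ _ G U A B m hG hQ
  obtain ⟨c, hc, hd⟩ := hcol G Δ hG
  -- choose paths
  have hpath : ∀ (U' : Set V) (k : ℕ) (Q : ℕ → Set V), Fm G U' A B k Q →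
      ∃ (w : ℕ → ℕ → V) (l : ℕ → ℕ), ∀ i < k, PC G (Q i) A B (w i) (l i) := by
    intro U' k Q hF
    have : ∀ i, ∃ (w : ℕ → V) (l : ℕ), i < k → PC G (Q i) A B w l := by
      intro i
      by_cases hi : i < k
      · obtain ⟨w, l, h⟩ := hipa G U' A B (Q i) (hF.1 i hi)
        exact ⟨w, l, fun _ => h⟩
      · exact ⟨fun _ => Classical.arbitrary V, 0, fun h => absurd h hi⟩
    choose w l h using this
    exact ⟨w, l, h⟩
  have key : ∀ t ≤ (Δ + 1) ^ 2, ∃ U' ⊆ U,
      (∃ Q, Fm G U' A B ((Δ + 1) ^ ((Δ + 1) ^ 2 - t) * m) Q) ∧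
        ∀ v ∈ U', c v < t → Good G A B U' v := by
    intro t
    induction t with
    | zero => exact fun _ => ⟨U, Set.Subset.refl _, hQ, fun v _ h => absurd h (Nat.not_lt_zero _)⟩
    | succ t ih =>
      intro ht
      obtain ⟨U', hU', ⟨Q, hF⟩, hgood⟩ := ih (by omega)
      have e : (Δ + 1) ^ ((Δ + 1) ^ 2 - t) * m =
          ((Δ + 1) ^ ((Δ + 1) ^ 2 - (t + 1)) * m) * (Δ + 1) := by
        rw [show (Δ + 1) ^ 2 - t = ((Δ + 1) ^ 2 - (t + 1)) + 1 by omega, pow_succ]
        ring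
      rw [e] at hF
      obtain ⟨Q', hF', hstar⟩ := himq G Δ ((Δ + 1) ^ ((Δ + 1) ^ 2 - (t + 1)) * m) U' A B
        {v | c v = t} hG (fun u hu v hv huv => hd u v huv (hu.trans hv.symm)) ⟨Q, hF⟩
      set k := (Δ + 1) ^ ((Δ + 1) ^ 2 - (t + 1)) * m with hk
      obtain ⟨w, l, hw⟩ := hpath U' k Q' hF'
      refine ⟨{v | ∃ i < k, v ∈ rng (w i) (l i)}, ?_, ⟨fun i => rng (w i) (l i), ?_, ?_⟩, ?_⟩
      · rintro v ⟨i, hi, hv⟩
        exact hU' ((hF'.1 i hi).sub ((hw i hi).sub hv))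
      · intro i hi
        have h1 := pc_cr (hw i hi)
        exact ⟨h1.conn, fun v hv => ⟨i, hi, hv⟩, h1.hA, h1.hB⟩
      · intro i hi j hj hij
        exact (hF'.2 i hi j hj hij).mono (hw i hi).sub (hw j hj).sub
      · intro v hv hcv
        obtain ⟨i, hi, hvi⟩ := hv
        have hvU : v ∈ U' := (hF'.1 i hi).sub ((hw i hi).sub hvi)
        rcases Nat.lt_or_ge (c v) t with h1 | h1
        · refine (hgood v hvU h1).mono ?_
          rintro x ⟨j, hj, hx⟩
          exact (hF'.1 j hj).sub ((hw j hj).sub hx)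
        · have hct : c v = t := by omega
          refine good_of_path (hw i hi) hvi ?_
          rintro x ⟨j, hj, hx⟩ hadj
          have hij : i = j := by
            refine hstar v hct hvU i hi j hj ?_ ?_
            · exact ⟨v, (hw i hi).sub hvi, v, rfl, Or.inl rfl⟩
            · exact ⟨x, (hw j hj).sub hx, v, rfl, Or.inr hadj⟩
          subst hij
          exact hx
  obtain ⟨U', hU', ⟨Q, hF⟩, hgood⟩ := key _ le_rfl
  rw [Nat.sub_self, pow_zero, one_mul] at hF
  obtain ⟨w, l, hw⟩ := hpath U' m Q hF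
  refine ⟨w, l, ?_, ?_⟩
  · intro i hi
    exact ⟨(hw i hi).ip, (hw i hi).sub.trans ((hF.1 i hi).sub.trans hU'), (hw i hi).hA,
      (hw i hi).hB⟩
  · intro i hi j hj hij x hx y hy
    have hdis : Disjoint (rng (w i) (l i)) (rng (w j) (l j)) :=
      (hF.2 i hi j hj hij).mono (hw i hi).sub (hw j hj).sub
    refine ⟨fun e => Set.disjoint_left.1 hdis hx (e ▸ hy), ?_⟩
    refine not_adj (hw i hi) (hF.1 i hi).sub hx
      (hgood x ((hF.1 i hi).sub ((hw i hi).sub hx)) (hc x)) ((hF.1 j hj).sub ((hw j hj).sub hy)) ?_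
    exact fun h => Set.disjoint_left.1 hdis h hy

end Pool.Agent.IM55.PL
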