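import Pool.Agent.Work.MP_55ff09_co.PL.Base

/-!
# MP_55ff09_co, block PL, item IMQ: contracting stars in Menger's theorem
-/

set_option autoImplicit false

namespace Pool.Agent.IM55.PL

open SimpleGraph Pool.Agent.IM55

namespace XIMQ

variable {V : Type} (G : SimpleGraph V) (U C : Set V)

open Classical in
/-- contract the stars with centre in `C ∩ U` -/
noncomputable def f (x : V) : V :=
  if h : ∃ c, c ∈ C ∧ c ∈ U ∧ x ∈ U ∧ x ∈ clN G {c} then h.choose else x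

variable {G U C}

theorem f_star (hC : ∀ u ∈ C, ∀ v ∈ C, u ≠ v → Disjoint (clN G {u}) (clN G {v})) {x c : V}
    (hc : c ∈ C) (hcU : c ∈ U) (hx : x ∈ U) (hxc : x ∈ clN G {c}) : f G U C x = c := by
  have h : ∃ c, c ∈ C ∧ c ∈ U ∧ x ∈ U ∧ x ∈ clN G {c} := ⟨c, hc, hcU, hx, hxc⟩
  unfold f
  rw [dif_pos h]
  obtain ⟨h1, -, -, h4⟩ := h.choose_spec
  by_contra hne
  exact Set.disjoint_left.1 (hC _ h1 _ hc hne) h4 hxc

theorem f_cases (x : V) : f G U C x = x ∨
    (f G U C x ∈ C ∧ f G U C x ∈ U ∧ x ∈ U ∧ x ∈ clN G {f G U C x}) := by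
  by_cases h : ∃ c, c ∈ C ∧ c ∈ U ∧ x ∈ U ∧ x ∈ clN G {c}
  · right
    have e : f G U C x = h.choose := by
      unfold f
      rw [dif_pos h]
    rw [e]
    exact h.choose_spec
  · left
    unfold f
    rw [dif_neg h]

variable (G U C)

/-- the contracted graph -/
def G' : SimpleGraph V where
  Adj a b := a ≠ b ∧ ∃ x ∈ U, ∃ y ∈ U, f G U C x = a ∧ f G U C y = b ∧ G.Adj x y
  symm := ⟨by
    rintro a b ⟨h1, x, hx, y, hy, h2, h3, h4⟩
    exact ⟨h1.symm, y, hy, x, hx, h3, h2, h4.symm⟩⟩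
  loopless := ⟨by
    rintro a ⟨h1, -⟩
    exact h1 rfl⟩

variable {G U C}

theorem image_conn {Q : Set V} (hQ : (G.induce Q).Connected) (hU : Q ⊆ U) :
    ((G' G U C).induce (f G U C '' Q)).Connected := by
  have key : ∀ (x y : Q) (p : (G.induce Q).Walk x y),
      ((G' G U C).induce (f G U C '' Q)).Reachable ⟨f G U C x, x, x.2, rfl⟩
        ⟨f G U C y, y, y.2, rfl⟩ := by
    intro x y p
    induction p with
    | nil => exact Reachable.refl _
    | @cons a b c h p ih =>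
      refine Reachable.trans ?_ ih
      by_cases e : f G U C a = f G U C b
      · have : (⟨f G U C a, a, a.2, rfl⟩ : f G U C '' Q) = ⟨f G U C b, b, b.2, rfl⟩ :=
          Subtype.ext e
        rw [this]
      · apply Adj.reachable
        exact ⟨e, a, hU a.2, b, hU b.2, rfl, rfl, h⟩
  obtain ⟨x0⟩ := hQ.nonempty
  have : Nonempty (f G U C '' Q) := ⟨⟨f G U C x0, x0, x0.2, rfl⟩⟩
  refine ⟨?_⟩
  rintro ⟨a, x, hx, rfl⟩ ⟨b, y, hy, rfl⟩
  obtain ⟨p⟩ := hQ.preconnected ⟨x, hx⟩ ⟨y, hy⟩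
  exact key _ _ p

/-- two elements of a fibre are connected inside the preimage -/
theorem fib (hC : ∀ u ∈ C, ∀ v ∈ C, u ≠ v → Disjoint (clN G {u}) (clN G {v})) {Q : Set V}
    {x y : V} (hx : x ∈ U) (hy : y ∈ U) (hxQ : f G U C x ∈ Q) (hyQ : f G U C y ∈ Q)
    (e : f G U C x = f G U C y) :
    (G.induce {z | f G U C z ∈ Q ∧ z ∈ U}).Reachable ⟨x, hxQ, hx⟩ ⟨y, hyQ, hy⟩ := by
  -- every element of the fibre is connected to the point `f x`, or it is the only one
  by_cases hc : f G U C x ∈ C ∧ f G U C x ∈ U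
  · have hfc : f G U C (f G U C x) = f G U C x :=
      f_star hC hc.1 hc.2 hc.2 (subset_clN _ rfl)
    have hcQ : f G U C (f G U C x) ∈ Q := by rw [hfc]; exact hxQ
    have step : ∀ (z : V) (hz : z ∈ U) (hzQ : f G U C z ∈ Q), f G U C z = f G U C x →
        (G.induce {z | f G U C z ∈ Q ∧ z ∈ U}).Reachable ⟨z, hzQ, hz⟩
          ⟨f G U C x, hcQ, hc.2⟩ := by
      intro z hz hzQ ez
      have hzc : z = f G U C x ∨ G.Adj (f G U C x) z := by
        rcases f_cases (G := G) (U := U) (C := C) z with h | ⟨-, -, -, h⟩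
        · left
          rw [← h, ez]
        · rw [ez] at h
          obtain ⟨w, hw, h⟩ := h
          rw [Set.mem_singleton_iff] at hw
          subst hw
          exact h
      rcases hzc with h | h
      · have : (⟨z, hzQ, hz⟩ : {z | f G U C z ∈ Q ∧ z ∈ U}) = ⟨f G U C x, hcQ, hc.2⟩ :=
          Subtype.ext h
        rw [this]
      · apply Adj.reachable
        exact h.symm
    exact (step x hx hxQ rfl).trans (step y hy hyQ e.symm).symm
  · have h1 : f G U C x = x := by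
      rcases f_cases (G := G) (U := U) (C := C) x with h | ⟨h1, h2, -, -⟩
      · exact h
      · exact absurd ⟨h1, h2⟩ hc
    have h2 : f G U C y = y := by
      rcases f_cases (G := G) (U := U) (C := C) y with h | ⟨h1, h2, -, -⟩
      · exact h
      · rw [← e] at h1 h2
        exact absurd ⟨h1, h2⟩ hc
    have : (⟨x, hxQ, hx⟩ : {z | f G U C z ∈ Q ∧ z ∈ U}) = ⟨y, hyQ, hy⟩ :=
      Subtype.ext (h1.symm.trans (e.trans h2))
    rw [this]

theorem preimage_conn (hC : ∀ u ∈ C, ∀ v ∈ C, u ≠ v → Disjoint (clN G {u}) (clN G {v}))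
    {Q : Set V} (hQ : ((G' G U C).induce Q).Connected) (hU : Q ⊆ f G U C '' U) :
    (G.induce {z | f G U C z ∈ Q ∧ z ∈ U}).Connected := by
  have key : ∀ (a b : Q) (p : ((G' G U C).induce Q).Walk a b) (x y : V) (hx : x ∈ U)
      (hy : y ∈ U) (hxa : f G U C x = a) (hyb : f G U C y = b),
      (G.induce {z | f G U C z ∈ Q ∧ z ∈ U}).Reachable ⟨x, by rw [hxa]; exact a.2, hx⟩
        ⟨y, by rw [hyb]; exact b.2, hy⟩ := by
    intro a b p
    induction p with
    | @nil u =>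
      intro x y hx hy hxa hyb
      exact fib hC hx hy (by rw [hxa]; exact u.2) (by rw [hyb]; exact u.2) (by rw [hxa, hyb])
    | @cons a c b h p ih =>
      intro x y hx hy hxa hyb
      obtain ⟨-, x', hx', y', hy', e1, e2, hadj⟩ := h
      have r1 := fib hC (Q := Q) hx hx' (by rw [hxa]; exact a.2) (by rw [e1]; exact a.2)
        (by rw [hxa]; exact e1.symm)
      have r2 : (G.induce {z | f G U C z ∈ Q ∧ z ∈ U}).Reachable
          ⟨x', by rw [e1]; exact a.2, hx'⟩ ⟨y', by rw [e2]; exact c.2, hy'⟩ :=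
        Adj.reachable hadj
      exact (r1.trans r2).trans (ih y' y hy' hy e2 hyb)
  obtain ⟨a0⟩ := hQ.nonempty
  obtain ⟨x0, hx0, e0⟩ := hU a0.2
  have : Nonempty {z | f G U C z ∈ Q ∧ z ∈ U} := ⟨⟨x0, by rw [e0]; exact a0.2, hx0⟩⟩
  refine ⟨?_⟩
  rintro ⟨x, hxQ, hx⟩ ⟨y, hyQ, hy⟩
  obtain ⟨p⟩ := hQ.preconnected ⟨_, hxQ⟩ ⟨_, hyQ⟩
  exact key _ _ p x y hx hy rfl rfl

end XIMQ

open XIMQ

theorem i_IMQ (hMEN : S_MEN) : S_IMQ := by
  intro V _ G Δ k U A B C hdeg hC hQ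
  obtain ⟨Q, hQ1, hQ2⟩ := hQ
  rcases hMEN (G' G U C) (f G U C '' U) (f G U C '' (A ∩ U)) (f G U C '' (B ∩ U)) k with
    ⟨Q', h1, h2⟩ | ⟨T, hT, hTc, hT2⟩
  · refine ⟨fun i => {z | f G U C z ∈ Q' i ∧ z ∈ U}, ⟨?_, ?_⟩, ?_⟩
    · intro i hi
      have h := h1 i hi
      refine ⟨preimage_conn hC h.conn h.sub, fun z hz => hz.2, ?_, ?_⟩
      · obtain ⟨a, ha, x, ⟨hxA, hxU⟩, rfl⟩ := h.hA
        exact ⟨x, ⟨ha, hxU⟩, hxA⟩
      · obtain ⟨a, ha, x, ⟨hxA, hxU⟩, rfl⟩ := h.hB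
        exact ⟨x, ⟨ha, hxU⟩, hxA⟩
    · intro i hi j hj hij
      rw [Set.disjoint_left]
      rintro z ⟨hz1, -⟩ ⟨hz2, -⟩
      exact Set.disjoint_left.1 (h2 i hi j hj hij) hz1 hz2
    · intro c hc hcU i hi j hj hi' hj'
      obtain ⟨x, ⟨hx1, hx2⟩, hx3⟩ := hi'
      obtain ⟨y, ⟨hy1, hy2⟩, hy3⟩ := hj'
      rw [f_star hC hc hcU hx2 hx3] at hx1
      rw [f_star hC hc hcU hy2 hy3] at hy1
      by_contra hij
      exact Set.disjoint_left.1 (h2 i hi j hj hij) hx1 hy1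
  · exfalso
    set S : Set V := {x | x ∈ U ∧ f G U C x ∈ T} with hS
    have hSc : S.ncard < k * (Δ + 1) := by
      have hsub : S ⊆ clN G T := by
        rintro x ⟨hxU, hxT⟩
        rcases f_cases (G := G) (U := U) (C := C) x with h | ⟨-, -, -, h⟩
        · rw [h] at hxT
          exact subset_clN _ hxT
        · obtain ⟨w, hw, h⟩ := h
          rw [Set.mem_singleton_iff] at hw
          subst hw
          exact ⟨_, hxT, h⟩
      calc S.ncard ≤ (clN G T).ncard := Set.ncard_le_ncard hsub (Set.toFinite _)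
        _ ≤ T.ncard * (Δ + 1) := clN_ncard_set hdeg T
        _ < k * (Δ + 1) := Nat.mul_lt_mul_of_pos_right hTc (Nat.succ_pos _)
    have hex : ∃ i < k * (Δ + 1), Disjoint (Q i) S := by
      by_contra hcon
      push Not at hcon
      have hch : ∀ i : Fin (k * (Δ + 1)), ∃ x, x ∈ Q i ∧ x ∈ S := by
        intro i
        exact Set.not_disjoint_iff.1 (hcon i i.2)
      choose g hg1 hg2 using hch
      have hinj : Function.Injective g := by
        intro i j hij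
        by_contra hne
        have hne' : (i : ℕ) ≠ j := fun h => hne (Fin.ext h)
        have := hQ2 i i.2 j j.2 hne'
        exact Set.disjoint_left.1 this (hg1 i) (hij ▸ hg1 j)
      have h3 : (Set.range g).ncard = k * (Δ + 1) := by
        rw [← Set.image_univ, Set.ncard_image_of_injective _ hinj, Set.ncard_univ, Nat.card_fin]
      have h4 : (Set.range g).ncard ≤ S.ncard :=
        Set.ncard_le_ncard (by rintro _ ⟨i, rfl⟩; exact hg2 i) (Set.toFinite _)
      omega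
    obtain ⟨i, hi, hdis⟩ := hex
    have h := hQ1 i hi
    have hcr : Cr (G' G U C) (f G U C '' U) (f G U C '' (A ∩ U)) (f G U C '' (B ∩ U))
        (f G U C '' Q i) := by
      refine ⟨image_conn h.conn h.sub, Set.image_mono h.sub, ?_, ?_⟩
      · obtain ⟨x, hx, hxA⟩ := h.hA
        exact ⟨f G U C x, ⟨x, hx, rfl⟩, x, ⟨hxA, h.sub hx⟩, rfl⟩
      · obtain ⟨x, hx, hxA⟩ := h.hB
        exact ⟨f G U C x, ⟨x, hx, rfl⟩, x, ⟨hxA, h.sub hx⟩, rfl⟩
    obtain ⟨a, ⟨x, hx, rfl⟩, haT⟩ := hT2 _ hcr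
    exact Set.disjoint_left.1 hdis hx ⟨h.sub hx, haT⟩

end Pool.Agent.IM55.PL
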