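import Pool.Agent.Work.MP_55ff09_co.PL.Base

/-!
# MP_55ff09_co, block PL: item IPA
-/

set_option autoImplicit false

namespace Pool.Agent.IM55.PL

open SimpleGraph Pool.Agent.IM55

namespace XIPA

variable {V : Type}

/-- `w 0, ..., w l` is a walk in `Q` from `A` to `B` -/
structure Wk (G : SimpleGraph V) (A B Q : Set V) (w : ℕ → V) (l : ℕ) : Prop where
  adj : ∀ i < l, G.Adj (w i) (w (i + 1))
  sub : ∀ i ≤ l, w i ∈ Q
  hA : w 0 ∈ A
  hB : w l ∈ B

theorem exists_wk {G : SimpleGraph V} {U A B Q : Set V} (h : Cr G U A B Q) :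
    ∃ l w, Wk G A B Q w l := by
  obtain ⟨a, haQ, haA⟩ := h.hA
  obtain ⟨b, hbQ, hbB⟩ := h.hB
  obtain ⟨p⟩ := h.conn.preconnected ⟨a, haQ⟩ ⟨b, hbQ⟩
  refine ⟨p.length, fun i => (p.getVert i : V), ?_, ?_, ?_, ?_⟩
  · intro i hi
    exact p.adj_getVert_succ hi
  · intro i _
    exact (p.getVert i).2
  · simpa using haA
  · simpa using hbB

variable {G : SimpleGraph V} {A B Q : Set V} {w : ℕ → V} {l : ℕ}

/-- cut out a part of a walk -/
theorem Wk.shortcut (h : Wk G A B Q w l) {i d : ℕ} (hi : i + 1 + d ≤ l)
    (ha : G.Adj (w i) (w (i + 1 + d))) :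
    Wk G A B Q (fun k => if k ≤ i then w k else w (k + d)) (l - d) := by
  constructor
  · intro k hk
    rcases lt_trichotomy k i with h1 | h1 | h1
    · simp only [h1.le, if_true, show k + 1 ≤ i from h1]
      exact h.adj k (by omega)
    · subst h1
      simp only [le_refl, if_true, show ¬ (k + 1 ≤ k) from by omega, if_false]
      exact ha
    · simp only [show ¬ (k ≤ i) from by omega, show ¬ (k + 1 ≤ i) from by omega, if_false]
      have := h.adj (k + d) (by omega)
      rwa [show k + 1 + d = k + d + 1 by omega]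
  · intro k hk
    by_cases h1 : k ≤ i
    · simp only [h1, if_true]
      exact h.sub k (by omega)
    · simp only [h1, if_false]
      exact h.sub (k + d) (by omega)
  · simp only [Nat.zero_le, if_true]
    exact h.hA
  · simp only [show ¬ (l - d ≤ i) from by omega, if_false]
    rw [show l - d + d = l by omega]
    exact h.hB

end XIPA

open XIPA in
theorem i_IPA : S_IPA := by
  classical
  intro V _ G U A B Q hQ
  have hex := exists_wk hQ
  obtain ⟨w, hw⟩ := Nat.find_spec hex
  have hmin : ∀ l', l' < Nat.find hex → ∀ w', ¬ Wk G A B Q w' l' := by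
    intro l' hl' w' hw'
    exact Nat.find_min hex hl' ⟨w', hw'⟩
  set l := Nat.find hex with hl
  have hA : ∀ i ≤ l, w i ∈ A → i = 0 := by
    intro i hi hiA
    by_contra h0
    refine hmin (l - i) (by omega) (fun k => w (k + i)) ⟨?_, ?_, ?_, ?_⟩
    · intro k hk
      have := hw.adj (k + i) (by omega)
      rwa [show k + 1 + i = k + i + 1 by omega]
    · intro k hk
      exact hw.sub (k + i) (by omega)
    · simpa using hiA
    · show w (l - i + i) ∈ B
      rw [show l - i + i = l by omega]
      exact hw.hB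
  have hB : ∀ i ≤ l, w i ∈ B → i = l := by
    intro i hi hiB
    by_contra h0
    exact hmin i (by omega) w ⟨fun k hk => hw.adj k (by omega), fun k hk => hw.sub k (by omega),
      hw.hA, hiB⟩
  have hsc : ∀ i d, i + 1 + d ≤ l → G.Adj (w i) (w (i + 1 + d)) → d = 0 := by
    intro i d hi ha
    by_contra h0
    exact hmin (l - d) (by omega) _ (hw.shortcut hi ha)
  have hinj : ∀ i j, i < j → j ≤ l → w i ≠ w j := by
    intro i j hij hj he
    rcases Nat.lt_or_ge j l with h1 | h1
    · have h2 := hw.adj j h1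
      rw [← he] at h2
      have h3 := hsc i (j - i) (by omega) (by
        rwa [show i + 1 + (j - i) = j + 1 by omega])
      omega
    · have h2 : j = l := le_antisymm hj h1
      have h3 : w i ∈ B := by
        rw [he, h2]
        exact hw.hB
      have := hB i (by omega) h3
      omega
  have hind : ∀ i j, i < j → j ≤ l → G.Adj (w i) (w j) → j = i + 1 := by
    intro i j hij hj ha
    have h3 := hsc i (j - i - 1) (by omega) (by
      rwa [show i + 1 + (j - i - 1) = j by omega])
    omega
  refine ⟨w, l, ⟨⟨hw.adj, ?_, ?_⟩, ?_, ?_, ?_⟩⟩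
  · intro i hi j hj he
    rcases lt_trichotomy i j with h1 | h1 | h1
    · exact absurd he (hinj i j h1 hj)
    · exact h1
    · exact absurd he.symm (hinj j i h1 hi)
  · intro i hi j hj ha
    rcases lt_trichotomy i j with h1 | h1 | h1
    · exact Or.inr (hind i j h1 hj ha)
    · subst h1
      exact absurd ha (G.irrefl)
    · exact Or.inl (hind j i h1 hi ha.symm)
  · rintro v ⟨i, hi, rfl⟩
    exact hw.sub i hi
  · intro i hi
    exact ⟨hA i hi, fun h => by rw [h]; exact hw.hA⟩
  · intro i hi
    exact ⟨hB i hi, fun h => by rw [h]; exact hw.hB⟩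

end Pool.Agent.IM55.PL
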