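import Pool.Agent.Work.MP_55ff09_co.PL.Base

set_option autoImplicit false

namespace Pool.Agent.IM55.PL

open SimpleGraph Pool.Agent.IM55

theorem i_K1 (hCUT : S_CUT) : S_K1 := by
  intro V _ G n P C hP hPP hC hCC H
  classical
  have hC' : ∀ i j, ∃ C' : Set V, i < j → j < n → C' ⊆ C i j ∧ (G.induce C').Connected ∧
      Touch G C' (P i) ∧ Touch G C' (P j) ∧ Disjoint C' (P i ∪ P j) := by
    intro i j
    by_cases h : i < j ∧ j < n
    · obtain ⟨C', h1, h2, h3, h4, h5⟩ := hCUT G (C i j) (P i) (P j) (hC i j h.1 h.2).1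
        (hC i j h.1 h.2).2.1 (hC i j h.1 h.2).2.2.1
        (hPP i (by omega) j h.2 (by omega))
      exact ⟨C', fun _ _ => ⟨h1, h2, h3, h4, h5⟩⟩
    · exact ⟨∅, fun h1 h2 => absurd ⟨h1, h2⟩ h⟩
  choose C' hC' using hC'
  -- connectors and other hubs
  have hK : ∀ i j k, i < j → j < n → k < n → k ≠ i → k ≠ j → Anti G (C' i j) (P k) :=
    fun i j k h1 h2 h3 h4 h5 =>
      ((hC i j h1 h2).2.2.2 k h3 h4 h5).mono (hC' i j h1 h2).1 (subset_refl _)
  have hKK : ∀ i j i' j', i < j → j < n → i' < j' → j' < n → i ≠ i' →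
      Anti G (C' i j) (C' i' j') := fun i j i' j' h1 h2 h3 h4 h5 =>
    (hCC i j i' j' h1 h2 h3 h4 (fun h => h5 (by simpa using congrArg Prod.fst h))).mono
      (hC' i j h1 h2).1 (hC' i' j' h3 h4).1
  have hdP : ∀ i j k, i < j → j < n → k < n → Disjoint (C' i j) (P k) := by
    intro i j k h1 h2 h3
    by_cases h4 : k = i
    · subst h4
      exact (hC' k j h1 h2).2.2.2.2.mono_right Set.subset_union_left
    · by_cases h5 : k = j
      · subst h5
        exact (hC' i k h1 h2).2.2.2.2.mono_right Set.subset_union_right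
      · exact anti_disjoint (hK i j k h1 h2 h3 h4 h5)
  -- branch sets
  let X : Fin n → Set V := fun a =>
    P a ∪ ⋃ j : {j : Fin n // a < j ∧ H.Adj a j}, C' a j.1
  have hX : ∀ (a : Fin n) (x : V), x ∈ X a ↔
      x ∈ P a ∨ ∃ j : Fin n, a < j ∧ H.Adj a j ∧ x ∈ C' a j := by
    intro a x
    simp only [X, Set.mem_union, Set.mem_iUnion]
    constructor
    · rintro (h | ⟨⟨j, hj⟩, h⟩)
      · exact Or.inl h
      · exact Or.inr ⟨j, hj.1, hj.2, h⟩
    · rintro (h | ⟨j, hj1, hj2, h⟩)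
      · exact Or.inl h
      · exact Or.inr ⟨⟨j, hj1, hj2⟩, h⟩
  refine ⟨X, ?_, ?_, ?_⟩
  · intro a
    refine conn_iUnion _ (hP a a.2) (fun j => ?_) (fun j => ?_)
    · exact (hC' a j.1 j.2.1 j.1.2).2.1
    · exact (hC' a j.1 j.2.1 j.1.2).2.2.1.symm
  · intro a b hab
    have hab' : (a : ℕ) ≠ b := fun h => hab (Fin.ext h)
    rw [Set.disjoint_left]
    intro x hx hx'
    rw [hX] at hx hx'
    rcases hx with hx | ⟨j, hj1, hj2, hx⟩ <;> rcases hx' with hx' | ⟨j', hj1', hj2', hx'⟩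
    · exact Set.disjoint_left.1 (anti_disjoint (hPP a a.2 b b.2 hab')) hx hx'
    · exact Set.disjoint_left.1 (hdP b j' a hj1' j'.2 a.2) hx' hx
    · exact Set.disjoint_left.1 (hdP a j b hj1 j.2 b.2) hx hx'
    · exact Set.disjoint_left.1 (anti_disjoint (hKK a j b j' hj1 j.2 hj1' j'.2 hab')) hx hx'
  · intro a b hab
    have hab' : (a : ℕ) ≠ b := fun h => hab (Fin.ext h)
    constructor
    · intro h
      rcases lt_or_gt_of_ne hab with hlt | hlt
      · obtain ⟨x, hx, y, hy, h1⟩ := (hC' a b hlt b.2).2.2.2.1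
        have hne : x ≠ y := by
          rintro rfl
          exact Set.disjoint_left.1 (hdP a b b hlt b.2 b.2) hx hy
        exact ⟨x, (hX a x).2 (Or.inr ⟨b, hlt, h, hx⟩), y, (hX b y).2 (Or.inl hy),
          h1.resolve_left hne⟩
      · obtain ⟨x, hx, y, hy, h1⟩ := (hC' b a hlt a.2).2.2.2.1
        have hne : x ≠ y := by
          rintro rfl
          exact Set.disjoint_left.1 (hdP b a a hlt a.2 a.2) hx hy
        exact ⟨y, (hX a y).2 (Or.inl hy), x, (hX b x).2 (Or.inr ⟨a, hlt, h.symm, hx⟩),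
          (h1.resolve_left hne).symm⟩
    · rintro ⟨x, hx, y, hy, h⟩
      rw [hX] at hx hy
      rcases hx with hx | ⟨j, hj1, hj2, hx⟩ <;> rcases hy with hy | ⟨j', hj1', hj2', hy⟩
      · exact absurd h (hPP a a.2 b b.2 hab' x hx y hy).2
      · by_cases hja : j' = a
        · subst hja
          exact hj2'.symm
        · have hja' : (a : ℕ) ≠ j' := fun h => hja (Fin.ext h.symm)
          exact absurd h.symm (hK b j' a hj1' j'.2 a.2 hab' hja' y hy x hx).2
      · by_cases hjb : j = b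
        · subst hjb
          exact hj2
        · have hjb' : (b : ℕ) ≠ j := fun h => hjb (Fin.ext h.symm)
          exact absurd h (hK a j b hj1 j.2 b.2 hab'.symm hjb' x hx y hy).2
      · exact absurd h (hKK a j b j' hj1 j.2 hj1' j'.2 hab' x hx y hy).2

end Pool.Agent.IM55.PL
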