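import Pool.Agent.Work.MP_55ff09_co.PL.Base

/-! Item [55ff09 PL K1A]. -/

set_option autoImplicit false

namespace Pool.Agent.IM55.PL

open SimpleGraph Pool.Agent.IM55

namespace XK1A

theorem idx_lt {n i j : ℕ} (hi : i < n) (hj : j < n) : i * n + j < n * n := by
  have h1 : (i + 1) * n ≤ n * n := Nat.mul_le_mul_right n hi
  have h2 : (i + 1) * n = i * n + n := by ring
  omega

theorem idx_inj {n i j i' j' : ℕ} (hj : j < n) (hj' : j' < n)
    (h : i * n + j = i' * n + j') : i = i' ∧ j = j' := by
  have hn : 0 < n := by omega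
  have h1 : (i * n + j) / n = i := by
    rw [mul_comm, Nat.mul_add_div hn, Nat.div_eq_of_lt hj, add_zero]
  have h2 : (i' * n + j') / n = i' := by
    rw [mul_comm, Nat.mul_add_div hn, Nat.div_eq_of_lt hj', add_zero]
  have h3 : i = i' := by rw [← h1, ← h2, h]
  subst h3
  exact ⟨rfl, by omega⟩

theorem anti_union_left {V : Type} {G : SimpleGraph V} {X Y Z : Set V} (h1 : Anti G X Z)
    (h2 : Anti G Y Z) : Anti G (X ∪ Y) Z := by
  rintro x (hx | hx) z hz
  · exact h1 x hx z hz
  · exact h2 x hx z hz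

theorem anti_symm {V : Type} {G : SimpleGraph V} {X Y : Set V} (h : Anti G X Y) : Anti G Y X :=
  fun y hy x hx => ⟨fun e => (h x hx y hy).1 e.symm, fun e => (h x hx y hy).2 e.symm⟩

theorem touch_mono {V : Type} {G : SimpleGraph V} {X Y X' : Set V} (h : Touch G X Y)
    (hX : X ⊆ X') : Touch G X' Y := by
  obtain ⟨x, hx, y, hy, h⟩ := h
  exact ⟨x, hX hx, y, hy, h⟩

end XK1A

open XK1A in
theorem i_K1A (h1 : S_K1) : S_K1A := by
  intro V _ G n H E Cp hH hHa hC hE hCE
  refine h1 G n H (fun i j => E (i * n + j) i ∪ Cp (i * n + j) ∪ E (i * n + j) j) hH hHa ?_ ?_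
  · intro i j hij hj
    have hi : i < n := by omega
    have hidx : i * n + j < n * n := idx_lt hi hj
    obtain ⟨hc, hca⟩ := hC _ hidx
    obtain ⟨hi1, hi2, hi3, hi4⟩ := hE _ hidx i hi
    obtain ⟨hj1, hj2, hj3, hj4⟩ := hE _ hidx j hj
    refine ⟨?_, ?_, ?_, ?_⟩
    · exact conn_union (conn_union hi1 hc hi3) hj1
        ((touch_mono hj3.symm Set.subset_union_right))
    · exact touch_mono hi2 (fun x hx => Or.inl (Or.inl hx))
    · exact touch_mono hj2 (fun x hx => Or.inr hx)
    · intro k hk hki hkj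
      exact anti_union_left (anti_union_left (hi4 k hk hki) (hca k hk)) (hj4 k hk hkj)
  · intro i j i' j' hij hj hij' hj' hne
    have hidx : i * n + j < n * n := idx_lt (by omega) hj
    have hidx' : i' * n + j' < n * n := idx_lt (by omega) hj'
    have hne' : i * n + j ≠ i' * n + j' := by
      intro h
      obtain ⟨h2, h3⟩ := idx_inj hj hj' h
      exact hne (by rw [h2, h3])
    obtain ⟨ha, hb⟩ := hCE _ hidx _ hidx' hne'
    obtain ⟨-, hb'⟩ := hCE _ hidx' _ hidx hne'.symm
    have hEE : ∀ a < n, Anti G (E (i * n + j) a)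
        (E (i' * n + j') i' ∪ Cp (i' * n + j') ∪ E (i' * n + j') j') := by
      intro a han
      refine anti_symm (anti_union_left (anti_union_left ?_ ?_) ?_)
      · exact anti_symm ((hb a han).2 i' (by omega))
      · exact anti_symm (hb a han).1
      · exact anti_symm ((hb a han).2 j' hj')
    refine anti_union_left (anti_union_left (hEE i (by omega)) ?_) (hEE j hj)
    refine anti_symm (anti_union_left (anti_union_left ?_ ?_) ?_)
    · exact (hb' i' (by omega)).1
    · exact anti_symm ha
    · exact (hb' j' hj').1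

end Pool.Agent.IM55.PL
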