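import Pool.Agent.Work.MP_55ff09_co.PL.Base

/-!
# MP_55ff09_co, block PL: item LAB
-/

set_option autoImplicit false

namespace Pool.Agent.IM55.PL

open SimpleGraph Pool.Agent.IM55

theorem i_LAB (hN : S_NET) (hCo : S_COR) (hCC : S_COC) (hNe : S_NEA) (hE : S_EXI) (hW : S_WID)
    (hL : S_LEG) : S_LAB := by
  intro Δ
  obtain ⟨c₁, hc₁⟩ := hW Δ
  obtain ⟨c₂, hc₂⟩ := hL Δ
  refine ⟨c₁ + c₂ + 5, ?_⟩
  intro V _ G hG hcon
  obtain ⟨r⟩ := hcon.nonempty
  obtain ⟨p, X, π, wt, hnet⟩ := hN G r hcon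
  obtain ⟨top, hcore⟩ := hCo G r p X π wt hnet
  have hcov : ∀ v, ∃ x ∈ X, G.dist v x ≤ 4 := fun v => by
    obtain ⟨x, hx, -, h⟩ := hnet.cov v
    exact ⟨x, hx, h⟩
  obtain ⟨a, ha⟩ := hNe G X hcon hcov
  obtain ⟨-, -, hcc⟩ := hCC G r p X π wt top hcon hnet hcore
  have htop : ∀ x ∈ X, top (a x) = top x := fun x hx => by rw [ha.fix x hx]
  have hex := hE G r p X π wt top a hcon hnet hcore ha
  have hex' : ∀ i, {v | v ∈ X ∧ top (a v) = i ∧ ∃ u, G.Adj v u ∧ top (a u) ≠ i}.ncard ≤ 4 := by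
    intro i
    have e : {v | v ∈ X ∧ top (a v) = i ∧ ∃ u, G.Adj v u ∧ top (a u) ≠ i} =
        {v | v ∈ X ∧ top v = i ∧ ∃ u, G.Adj v u ∧ top (a u) ≠ i} := by
      ext v
      constructor
      · rintro ⟨h1, h2, h3⟩
        exact ⟨h1, by rw [← htop v h1]; exact h2, h3⟩
      · rintro ⟨h1, h2, h3⟩
        exact ⟨h1, by rw [htop v h1]; exact h2, h3⟩
    rw [e]
    exact hex i
  refine ⟨r, G.dist r, fun v => top (a v), X, ?_⟩
  refine ⟨?_, ?_, ?_, ?_, ?_, ?_⟩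
  · intro u v huv
    have h1 := hcon.dist_triangle (u := r) (v := v) (w := u)
    have h2 : G.dist v u = 1 := (SimpleGraph.dist_eq_one_iff_adj).2 huv.symm
    omega
  · intro v
    have e : {x | x ∈ X ∧ top (a x) = top (a v)} = {y | y ∈ X ∧ top y = top (a v)} := by
      ext x
      constructor
      · rintro ⟨h1, h2⟩
        exact ⟨h1, by rw [← htop x h1]; exact h2⟩
      · rintro ⟨h1, h2⟩
        exact ⟨h1, by rw [htop x h1]; exact h2⟩
    show (G.induce {x | x ∈ X ∧ top (a x) = top (a v)}).Connected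
    rw [e]
    exact hcc (a v) (ha.mem v)
  · intro v
    obtain ⟨D, h1, h2, h3, h4, h5⟩ := ha.conn v
    exact ⟨D, h1, h2, ⟨a v, h3, ha.mem v⟩, by omega, fun x hx => by
      show top (a x) = top (a v)
      rw [h5 x hx]⟩
  · intro i j
    exact (hc₁ G r p X π wt top a hG hcon hnet hcore ha i j).trans (by omega)
  · intro i
    exact (hex' i).trans (by omega)
  · intro z
    obtain ⟨L, h1, h2, h3, h4⟩ := hc₂ G r p X π wt top (fun v => top (a v)) hG hcon hnet hcore htop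
      hex' z
    exact ⟨L, h1, h2, h3, h4.trans (Nat.mul_le_mul_right _ (by omega))⟩

end Pool.Agent.IM55.PL
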