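import Pool.Agent.Work.MP_55ff09_co.PL.Base

/-! Item [55ff09 PL LEG]: legs with few labels in their closed neighbourhood. -/

set_option autoImplicit false

namespace Pool.Agent.IM55.PL

open SimpleGraph Pool.Agent.IM55

namespace XLEG

theorem clN_union {V : Type} {G : SimpleGraph V} (A B : Set V) :
    clN G (A ∪ B) = clN G A ∪ clN G B := by
  ext y
  constructor
  · rintro ⟨x, hx | hx, h⟩
    · exact Or.inl ⟨x, hx, h⟩
    · exact Or.inr ⟨x, hx, h⟩
  · rintro (⟨x, hx, h⟩ | ⟨x, hx, h⟩)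
    · exact ⟨x, Or.inl hx, h⟩
    · exact ⟨x, Or.inr hx, h⟩

theorem f_union {V : Type} [Finite V] (G : SimpleGraph V) (lb : V → V) (A B : Set V) :
    (lb '' clN G (A ∪ B)).ncard ≤ (lb '' clN G A).ncard + (lb '' clN G B).ncard := by
  rw [clN_union, Set.image_union]
  exact Set.ncard_union_le _ _

theorem f_le {V : Type} [Finite V] {G : SimpleGraph V} {Δ : ℕ} (hG : DegLe G Δ) (lb : V → V)
    (A : Set V) (n : ℕ) (hA : A.ncard ≤ n) : (lb '' clN G A).ncard ≤ n * (Δ + 1) :=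
  (Set.ncard_image_le (Set.toFinite _)).trans
    ((clN_ncard_set hG A).trans (Nat.mul_le_mul_right _ hA))

/-- a short path -/
theorem path {V : Type} [Finite V] {G : SimpleGraph V} (hc : G.Connected) (u v : V)
    (h : G.dist u v ≤ 4) :
    ∃ S : Set V, (G.induce S).Connected ∧ u ∈ S ∧ v ∈ S ∧ S.ncard ≤ 5 := by
  classical
  obtain ⟨q, hq⟩ := hc.exists_walk_length_eq_dist u v
  refine ⟨{x | x ∈ q.support}, q.connected_induce_support, q.start_mem_support,
    q.end_mem_support, ?_⟩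
  have h1 : {x | x ∈ q.support} = (q.support.toFinset : Set V) := by
    ext x
    simp
  rw [h1, Set.ncard_coe_finset]
  have h2 := q.support.toFinset_card_le
  rw [q.length_support] at h2
  omega

section

variable {V : Type} [Finite V] {G : SimpleGraph V} {r : V} {p : V → V} {X : Set V}
  {π : V → V} {wt : V → ℕ} {top lb : V → V}

omit [Finite V] in
/-- the part of the core above `x` -/
theorem coreUp (hN : Net G r p X π wt) (hC : Core G r p X π wt top) (n : ℕ) :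
    ∀ x ∈ X, G.dist r x = n → ∃ K : Set V, (G.induce K).Connected ∧ x ∈ K ∧ top x ∈ K ∧
      (∀ y ∈ K, y ∈ X ∧ top y = top x) ∧ wt x ≤ wt (top x) ∧ G.dist r (top x) ≤ n := by
  induction n with
  | zero =>
    intro x hx h0
    by_cases ht : top x = x
    · refine ⟨{x}, conn_singleton x, rfl, by rw [ht]; rfl, ?_, by rw [ht], by rw [ht, h0]⟩
      rintro y rfl
      exact ⟨hx, rfl⟩
    · have h1 := hC.up x hx ht
      have h2 := (hN.par x h1.1).2
      omega
  | succ n ih =>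
    intro x hx h0
    by_cases ht : top x = x
    · refine ⟨{x}, conn_singleton x, rfl, by rw [ht]; rfl, ?_, by rw [ht], by rw [ht, h0]⟩
      rintro y rfl
      exact ⟨hx, rfl⟩
    · obtain ⟨hxr, hpx, htp⟩ := hC.up x hx ht
      obtain ⟨hadj, hd⟩ := hN.par x hxr
      obtain ⟨K, hK, h1, h2, h3, h4, h5⟩ := ih (p x) hpx (by omega)
      refine ⟨{x} ∪ K, conn_union (conn_singleton x) hK ⟨x, rfl, p x, h1, Or.inr hadj⟩,
        Or.inl rfl, Or.inr (by rw [← htp]; exact h2), ?_, ?_, ?_⟩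
      · rintro y (hy | hy)
        · rw [Set.mem_singleton_iff] at hy
          subst hy
          exact ⟨hx, rfl⟩
        · exact ⟨(h3 y hy).1, (h3 y hy).2.trans htp⟩
      · have h6 := hN.one x hx hxr
        rw [hN.pip x hx hxr hpx] at h6
        rw [htp] at h4
        omega
      · rw [htp] at h5
        omega

/-- labels in the neighbourhood of a part of a core -/
theorem coreN {Δ : ℕ} (hG : DegLe G Δ) (hlb : ∀ x ∈ X, lb x = top x)
    (hE : ∀ i, {v | v ∈ X ∧ lb v = i ∧ ∃ u, G.Adj v u ∧ lb u ≠ i}.ncard ≤ 4) (i : V) (K : Set V)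
    (hK : ∀ y ∈ K, y ∈ X ∧ top y = i) : (lb '' clN G K).ncard ≤ 5 + 4 * Δ := by
  have hsub : lb '' clN G K ⊆
      {i} ∪ lb '' clN G {v | v ∈ X ∧ lb v = i ∧ ∃ u, G.Adj v u ∧ lb u ≠ i} := by
    rintro _ ⟨u, ⟨v, hv, h⟩, rfl⟩
    by_cases hui : lb u = i
    · exact Or.inl hui
    · right
      obtain ⟨hvX, hvt⟩ := hK v hv
      have hlv : lb v = i := (hlb v hvX).trans hvt
      rcases h with h | h
      · rw [h] at hui
        exact absurd hlv hui
      · exact ⟨u, ⟨v, ⟨hvX, hlv, u, h, hui⟩, Or.inr h⟩, rfl⟩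
  have h1 := Set.ncard_le_ncard hsub (Set.toFinite _)
  have h2 := Set.ncard_union_le ({i} : Set V)
    (lb '' clN G {v | v ∈ X ∧ lb v = i ∧ ∃ u, G.Adj v u ∧ lb u ≠ i})
  have h3 := f_le hG lb _ 4 (hE i)
  rw [Set.ncard_singleton] at h2
  omega

theorem legTop {Δ : ℕ} (hG : DegLe G Δ) (hc : G.Connected) (hN : Net G r p X π wt)
    (hC : Core G r p X π wt top) (hlb : ∀ x ∈ X, lb x = top x)
    (hE : ∀ i, {v | v ∈ X ∧ lb v = i ∧ ∃ u, G.Adj v u ∧ lb u ≠ i}.ncard ≤ 4) (n : ℕ) :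
    ∀ x ∈ X, top x = x → G.dist r x ≤ n → ∃ L : Set V, (G.induce L).Connected ∧ x ∈ L ∧ r ∈ L ∧
      (lb '' clN G L).ncard + (11 + 10 * Δ) * Nat.log 2 (wt x) ≤
        (11 + 10 * Δ) * (Nat.log 2 (wt r) + 1) := by
  have base : ∃ L : Set V, (G.induce L).Connected ∧ r ∈ L ∧ r ∈ L ∧
      (lb '' clN G L).ncard + (11 + 10 * Δ) * Nat.log 2 (wt r) ≤
        (11 + 10 * Δ) * (Nat.log 2 (wt r) + 1) := by
    refine ⟨{r}, conn_singleton r, rfl, rfl, ?_⟩
    have h1 := f_le hG lb {r} 1 (by rw [Set.ncard_singleton])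
    rw [Nat.mul_add, Nat.mul_one]
    omega
  induction n with
  | zero =>
    intro x _ _ h0
    have h1 : r = x := by
      have h2 : G.dist r x = 0 := by omega
      exact (hc.dist_eq_zero_iff).1 h2
    subst h1
    exact base
  | succ n ih =>
    intro x hx ht h0
    by_cases hxr : x = r
    · subst hxr
      exact base
    · obtain ⟨hy, hdy, hpy⟩ := hN.pi x hx hxr
      obtain ⟨hadj, -⟩ := hN.par x hxr
      obtain ⟨S, hS, hS1, hS2, hS3⟩ := path hc (p x) (π x) hpy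
      obtain ⟨K, hK, hK1, hK2, hK3, hK4, hK5⟩ := coreUp hN hC _ (π x) hy rfl
      have htX := hC.mem (π x) hy
      have htt := hC.idem (π x) hy
      obtain ⟨L, hL, hL1, hL2, hL3⟩ := ih (top (π x)) htX htt (by omega)
      have hdbl := hC.dbl x hx hxr ht
      have hlog : Nat.log 2 (wt x) + 1 ≤ Nat.log 2 (wt (top (π x))) := by
        have hpos : wt x ≠ 0 := by
          have := hN.pos x hx
          omega
        rw [← Nat.log_mul_base (by norm_num) hpos]
        exact Nat.log_mono_right (by omega)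
      have c1 : (G.induce ({x} ∪ S)).Connected :=
        conn_union (conn_singleton x) hS ⟨x, rfl, p x, hS1, Or.inr hadj⟩
      have c2 : (G.induce (({x} ∪ S) ∪ K)).Connected :=
        conn_union c1 hK ⟨π x, Or.inr hS2, π x, hK1, Or.inl rfl⟩
      have c3 : (G.induce ((({x} ∪ S) ∪ K) ∪ L)).Connected :=
        conn_union c2 hL ⟨top (π x), Or.inr hK2, top (π x), hL1, Or.inl rfl⟩
      refine ⟨(({x} ∪ S) ∪ K) ∪ L, c3, Or.inl (Or.inl (Or.inl rfl)), Or.inr hL2, ?_⟩
      have e1 := f_union G lb (({x} ∪ S) ∪ K) L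
      have e2 := f_union G lb ({x} ∪ S) K
      have e3 := f_union G lb {x} S
      have e4 := f_le hG lb {x} 1 (by rw [Set.ncard_singleton])
      have e5 := f_le hG lb S 5 hS3
      have e6 := coreN hG hlb hE (top (π x)) K hK3
      have e7 : (11 + 10 * Δ) * (Nat.log 2 (wt x) + 1) ≤
          (11 + 10 * Δ) * Nat.log 2 (wt (top (π x))) := Nat.mul_le_mul_left _ hlog
      have e8 : (11 + 10 * Δ) * (Nat.log 2 (wt x) + 1) =
          (11 + 10 * Δ) * Nat.log 2 (wt x) + (11 + 10 * Δ) := by ring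
      omega

end

end XLEG

open XLEG in
theorem i_LEG : S_LEG := by
  intro Δ
  refine ⟨22 + 20 * Δ, ?_⟩
  intro V _ G r p X π wt top lb hG hc hN hC hlb hE z
  obtain ⟨x, hx, -, hd⟩ := hN.cov z
  obtain ⟨S, hS, hS1, hS2, hS3⟩ := path hc z x hd
  obtain ⟨K, hK, hK1, hK2, hK3, hK4, hK5⟩ := coreUp hN hC _ x hx rfl
  obtain ⟨L, hL, hL1, hL2, hL3⟩ := legTop hG hc hN hC hlb hE (G.dist r (top x)) (top x)
    (hC.mem x hx) (hC.idem x hx) le_rfl
  have c1 : (G.induce (S ∪ K)).Connected :=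
    conn_union hS hK ⟨x, hS2, x, hK1, Or.inl rfl⟩
  have c2 : (G.induce ((S ∪ K) ∪ L)).Connected :=
    conn_union c1 hL ⟨top x, Or.inr hK2, top x, hL1, Or.inl rfl⟩
  refine ⟨(S ∪ K) ∪ L, c2, Or.inl (Or.inl hS1), Or.inr hL2, ?_⟩
  have e1 := f_union G lb (S ∪ K) L
  have e2 := f_union G lb S K
  have e5 := f_le hG lb S 5 hS3
  have e6 := coreN hG hlb hE (top x) K hK3
  have e7 : Nat.log 2 (wt r) + 1 ≤ Nat.log 2 (Nat.card V) + 1 :=
    Nat.succ_le_succ (Nat.log_mono_right hN.top)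
  have e8 : (11 + 10 * Δ) * (Nat.log 2 (wt r) + 1) ≤
      (11 + 10 * Δ) * (Nat.log 2 (Nat.card V) + 1) := Nat.mul_le_mul_left _ e7
  have e9 : (22 + 20 * Δ) * (Nat.log 2 (Nat.card V) + 1) =
      (11 + 10 * Δ) * (Nat.log 2 (Nat.card V) + 1) +
        ((11 + 10 * Δ) * Nat.log 2 (Nat.card V) + (11 + 10 * Δ)) := by ring
  omega

end Pool.Agent.IM55.PL
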