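import Pool.Agent.Work.MP_55ff09_co.PL.Base

/-!
# MP_55ff09_co, block PL: item LNK (connectors between two hubs)
-/

set_option autoImplicit false

namespace Pool.Agent.IM55.PL

open SimpleGraph Pool.Agent.IM55

namespace XLNK

variable {V : Type} {G : SimpleGraph V}

theorem mem_opN {X : Set V} {v : V} (h : v ∈ clN G X) (h' : v ∉ X) : v ∈ opN G X := by
  rw [clN_eq_union] at h
  exact h.resolve_left h'

/-- a path between the closed neighbourhoods of two anticomplete sets avoids these sets -/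
theorem path_out {U X Y : Set V} {w : ℕ → V} {l : ℕ} (hp : PC G U (clN G X) (clN G Y) w l)
    (ha : Anti G X Y) : (∀ v ∈ rng w l, v ∉ X ∧ v ∉ Y) := by
  rintro v ⟨j, hj, rfl⟩
  constructor
  · intro hX
    have h0 : j = 0 := (hp.hA j hj).1 (subset_clN _ hX)
    subst h0
    rcases Nat.eq_zero_or_pos l with hl | hl
    · obtain ⟨z, hz, hz2⟩ := (hp.hB 0 hj).2 hl.symm
      rcases hz2 with hz2 | hz2
      · exact (ha _ hX _ hz).1 hz2
      · exact (ha _ hX _ hz).2 hz2.symm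
    · have h1 := (hp.hA 1 hl).1 ⟨w 0, hX, Or.inr (hp.ip.adj 0 hl)⟩
      exact absurd h1 one_ne_zero
  · intro hY
    have h0 : j = l := (hp.hB j hj).1 (subset_clN _ hY)
    subst h0
    rcases Nat.eq_zero_or_pos j with hl | hl
    · obtain ⟨z, hz, hz2⟩ := (hp.hA j hj).2 hl
      rcases hz2 with hz2 | hz2
      · exact (ha _ hz _ hY).1 hz2.symm
      · exact (ha _ hz _ hY).2 hz2
    · have h2 := hp.ip.adj (j - 1) (by omega)
      rw [show j - 1 + 1 = j by omega] at h2
      have h1 := (hp.hB (j - 1) (by omega)).1 ⟨w j, hY, Or.inr h2.symm⟩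
      omega

end XLNK

open XLNK

theorem i_LNK (h1 : S_MEN) (h2 : S_RLZ) (h3 : S_IPA) : S_LNK := by
  classical
  intro V _ G c r ly lb co BB K f k h P hlab hbrm hhub a ha b hb hab
  rcases h1 (qG G lb) Set.univ (lb '' clN G (P a)) (lb '' clN G (P b)) k with ⟨Q, hQ⟩ | h4
  · -- connectors
    have key : ∀ i < k, ∃ (C : Set V) (w : ℕ → V) (l : ℕ), (∀ v ∈ C, lb v ∈ Q i) ∧
        Thin lb co (2 * c) C ∧ PC G C (clN G (P a)) (clN G (P b)) w l := by
      intro i hi
      obtain ⟨t, ht, x, hx, hxt⟩ := (hQ.1 i hi).hA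
      obtain ⟨s, hs, y, hy, hys⟩ := (hQ.1 i hi).hB
      obtain ⟨C, hC, hxC, hyC, hCQ, hthin⟩ := h2 G c r ly lb co hlab (Q i) x y (hQ.1 i hi).conn
        (by rw [hxt]; exact ht) (by rw [hys]; exact hs)
      obtain ⟨w, l, hw⟩ := h3 G C (clN G (P a)) (clN G (P b)) C
        ⟨hC, le_rfl, ⟨x, hxC, hx⟩, ⟨y, hyC, hy⟩⟩
      exact ⟨C, w, l, hCQ, hthin, hw⟩
    have hne : Nonempty V := ⟨r⟩
    choose! C w l hCQ hthin hpc using key
    refine ⟨fun i => rng (w i) (l i), ⟨?_, ?_⟩, ?_⟩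
    · intro i hi
      have hout := path_out (hpc i hi) (hhub.anti a ha b hb hab)
      refine ⟨rng_conn (hpc i hi).ip, hout, ?_, ?_⟩
      · have hm : w i 0 ∈ rng (w i) (l i) := ⟨0, Nat.zero_le _, rfl⟩
        exact ⟨w i 0, hm, mem_opN (((hpc i hi).hA 0 (Nat.zero_le _)).2 rfl) (hout _ hm).1⟩
      · have hm : w i (l i) ∈ rng (w i) (l i) := ⟨l i, le_rfl, rfl⟩
        exact ⟨w i (l i), hm, mem_opN (((hpc i hi).hB (l i) le_rfl).2 rfl) (hout _ hm).2⟩
    · intro i hi j hj hij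
      rw [Set.disjoint_left]
      intro v hv hv'
      exact Set.disjoint_left.1 (hQ.2 i hi j hj hij) (hCQ i hi v ((hpc i hi).sub hv))
        (hCQ j hj v ((hpc j hj).sub hv'))
    · intro t
      by_cases hex : ∃ i < k, t ∈ Q i
      · obtain ⟨i, hi, hti⟩ := hex
        refine (Set.ncard_le_ncard ?_ (Set.toFinite _)).trans (hthin i hi t)
        rintro x ⟨⟨j, hj, hxj⟩, hxt, hxc⟩
        have hxC : x ∈ C j := (hpc j hj).sub hxj
        have htj : t ∈ Q j := by
          rw [← hxt]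
          exact hCQ j hj x hxC
        have hij : i = j := by
          by_contra hne
          exact Set.disjoint_left.1 (hQ.2 i hi j hj hne) hti htj
        subst hij
        exact ⟨hxC, hxt, hxc⟩
      · have he : {x | x ∈ {v | ∃ i < k, v ∈ rng (w i) (l i)} ∧ lb x = t ∧ x ∉ co} = ∅ := by
          rw [Set.eq_empty_iff_forall_notMem]
          rintro x ⟨⟨j, hj, hxj⟩, hxt, -⟩
          apply hex
          refine ⟨j, hj, ?_⟩
          rw [← hxt]
          exact hCQ j hj x ((hpc j hj).sub hxj)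
        show Set.ncard {x | x ∈ {v | ∃ i < k, v ∈ rng (w i) (l i)} ∧ lb x = t ∧ x ∉ co} ≤ 2 * c
        rw [he, Set.ncard_empty]
        exact Nat.zero_le _
  · -- a small set of labels meeting all connectors
    exfalso
    obtain ⟨T, -, hT, hall⟩ := h4
    obtain ⟨B, hB, hBT, y, hy, hyB⟩ := hhub.ord a ha T hT
    obtain ⟨B', hB', hBT', y', hy', hyB'⟩ := hhub.ord b hb T hT
    have hconn : ((qG G lb).induce (B ∪ B')).Connected := by
      apply conn_union (hbrm.conn B hB) (hbrm.conn B' hB')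
      obtain ⟨z, hz, hz'⟩ := hbrm.int B hB B' hB'
      exact ⟨z, hz, z, hz', Or.inl rfl⟩
    obtain ⟨z, hz, hzT⟩ := hall (B ∪ B') ⟨hconn, Set.subset_univ _,
      ⟨lb y, Or.inl hyB, y, hy, rfl⟩, ⟨lb y', Or.inr hyB', y', hy', rfl⟩⟩
    rcases hz with hz | hz
    · exact Set.disjoint_left.1 hBT hz hzT
    · exact Set.disjoint_left.1 hBT' hz hzT

end Pool.Agent.IM55.PL
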