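import Pool.Agent.Work.MP_55ff09_co.PL.Base

/-!
# MP_55ff09_co, block PL: item LOC
-/

set_option autoImplicit false

namespace Pool.Agent.IM55.PL

open SimpleGraph Pool.Agent.IM55

namespace XLOC

theorem touch_union {V : Type} {G : SimpleGraph V} {X Y Z : Set V} (h : Touch G X (Y ∪ Z)) :
    Touch G X Y ∨ Touch G X Z := by
  obtain ⟨x, hx, y, hy | hy, h⟩ := h
  · exact Or.inl ⟨x, hx, y, hy, h⟩
  · exact Or.inr ⟨x, hx, y, hy, h⟩

theorem col_ncard (a b : ℤ) (s : ℕ) (Q : Set (ℤ × ℤ))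
    (hQ : ∀ p ∈ Q, p.1 = a ∧ b ≤ p.2 ∧ p.2 < b + s) : Q.ncard ≤ s := by
  have hsub : Q ⊆ ((Finset.Ico b (b + s)).image (fun t => (a, t)) : Finset (ℤ × ℤ)) := by
    intro p hp
    obtain ⟨h1, h2, h3⟩ := hQ p hp
    simp only [Finset.coe_image, Finset.coe_Ico, Set.mem_image, Set.mem_Ico]
    exact ⟨p.2, ⟨h2, h3⟩, by rw [← h1]⟩
  calc Q.ncard ≤ ((((Finset.Ico b (b + s)).image (fun t => (a, t)) : Finset (ℤ × ℤ))) :
        Set (ℤ × ℤ)).ncard := Set.ncard_le_ncard hsub (Finset.finite_toSet _)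
    _ = ((Finset.Ico b (b + s)).image (fun t => (a, t))).card := Set.ncard_coe_finset _
    _ ≤ (Finset.Ico b (b + s)).card := Finset.card_image_le
    _ = s := by simp

theorem model_mono {V : Type} {G : SimpleGraph V} {Q Q' : Set (ℤ × ℤ)} {B : ℤ × ℤ → Set V}
    (h : Model G Q B) (hQ : Q' ⊆ Q) : Model G Q' B where
  conn := fun q hq => h.conn q (hQ hq)
  disj := fun q hq q' hq' => h.disj q (hQ hq) q' (hQ hq')
  adj := fun q hq q' hq' => h.adj q (hQ hq) q' (hQ hq')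

end XLOC

open XLOC in
theorem i_LOC (h1 : S_GTK) (h2 : ClaimTouchCard) : S_LOC := by
  intro n Δ s
  obtain ⟨L, hsL, hL⟩ := h1 n Δ (s + Δ + 1) s
  refine ⟨L, hsL, ?_⟩
  intro V _ G r M seg ps Vg R hG hW x y hbox
  by_cases hcon : ∃ x₀ y₀ : ℤ, Box x₀ y₀ s ⊆ Box x y (n * L) ∧ ∀ q ∈ Box x₀ y₀ s, ∃ y' : ℤ,
    (q.1, y') ∈ Box 0 0 M ∧ (y' < y₀ ∨ y₀ + s ≤ y') ∧ Touch G (Vg q) (seg (q.1, y'))
  · exact Or.inr hcon
  left
  push Not at hcon
  have hM : Model G (Box x y (n * L)) (fun q => seg q ∪ ps q) := model_mono hW.model hbox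
  refine hL G x y (fun q => seg q ∪ ps q) {r} hG hM (conn_singleton r) ?_ ?_
  · have := (h2 V inferInstance G Δ (Box x y (n * L)) (fun q => seg q ∪ ps q) hG hM.disj {r}).2
    rw [Set.ncard_singleton] at this
    refine this.trans ?_
    omega
  · intro x₀ y₀ hb
    obtain ⟨q, hq, hfail⟩ := hcon x₀ y₀ hb
    have hqM : q ∈ Box 0 0 (M : ℤ) := hbox (hb hq)
    refine ⟨q, hq, Vg q, hW.vconn q hqM, ?_, ?_, ?_⟩
    · obtain ⟨z, hz, hzs, -⟩ := hW.cont q hqM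
      exact ⟨z, hz, z, Or.inl hzs, Or.inl rfl⟩
    · exact ⟨r, hW.vroot q hqM, r, rfl, Or.inl rfl⟩
    · refine (col_ncard q.1 y₀ s _ ?_).trans (by omega)
      rintro p ⟨hp, ht⟩
      have hpM : p ∈ Box 0 0 (M : ℤ) := hbox hp
      rcases touch_union ht with ht | ht
      · by_cases hc : q.1 = p.1
        · refine ⟨hc.symm, ?_⟩
          by_contra hn
          rw [not_and_or, not_le, not_lt] at hn
          have hpe : p = (q.1, p.2) := by rw [hc]
          have hpM' : (q.1, p.2) ∈ Box 0 0 (M : ℤ) := hpe ▸ hpM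
          exact hfail p.2 hpM' hn (hpe ▸ ht)
        · exact absurd ht (not_touch_iff.2 (hW.vcol q hqM p hpM hc))
      · exact absurd ht (not_touch_iff.2 (hW.vps q hqM p hpM))

end Pool.Agent.IM55.PL
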