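import Pool.Agent.Work.MP_55ff09_co.PL.Base

/-! MP_55ff09_co, block PL, item MIB (the boundary of a cut meets all connectors). -/

set_option autoImplicit false

namespace Pool.Agent.IM55.PL

open SimpleGraph Pool.Agent.IM55

namespace XMIB

variable {V : Type}

theorem meet {G : SimpleGraph V} {U A B Q X : Set V} (h : Cr G U A B Q) (hA : A ∩ U ⊆ X) :
    ∃ v ∈ Q, v ∈ bd G U B X := by
  obtain ⟨a, haQ, haA⟩ := h.hA
  have haX : a ∈ X := hA ⟨haA, h.sub haQ⟩
  obtain ⟨b, hbQ, hbB⟩ := h.hB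
  by_cases hbX : b ∈ X
  · exact ⟨b, hbQ, hbX, Or.inl hbB⟩
  · obtain ⟨u, hu, v, hv, h1, h2, h3⟩ := exit_edge h.conn (fun z => z ∈ X) haQ haX hbQ hbX
    exact ⟨u, hu, h1, Or.inr ⟨v, h.sub hv, h2, h3⟩⟩

end XMIB

theorem i_MIB : S_MIB := by
  intro V _ G U A B M Q hQ X hA _
  have h1 : ∀ i : Fin M, ∃ v ∈ Q i, v ∈ bd G U B X := fun i => XMIB.meet (hQ.1 i i.2) hA
  choose v hvQ hvb using h1
  have hinj : Function.Injective v := by
    intro i j hij
    by_contra hne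
    have h2 := hQ.2 i i.2 j j.2 (fun h => hne (Fin.ext h))
    exact Set.disjoint_left.1 h2 (hvQ i) (hij ▸ hvQ j)
  calc M = (Set.range v).ncard := by
        rw [← Set.image_univ, Set.ncard_image_of_injective _ hinj, Set.ncard_univ, Nat.card_fin]
    _ ≤ (bd G U B X).ncard := Set.ncard_le_ncard (by rintro _ ⟨i, rfl⟩; exact hvb i)
        (Set.toFinite _)

end Pool.Agent.IM55.PL
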