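import Pool.Agent.Work.MP_55ff09_co.PL.Base

/-!
# MP_55ff09_co, block PL: item NEA
-/

set_option autoImplicit false

namespace Pool.Agent.IM55.PL

open SimpleGraph Pool.Agent.IM55

namespace XNEA

theorem first_step {V : Type} {G : SimpleGraph V} {v w : V} (q : G.Walk v w)
    (hq : q.length ≠ 0) : ∃ u, G.Adj v u ∧ G.dist u w + 1 ≤ q.length := by
  cases q with
  | nil => exact absurd rfl hq
  | cons hadj q' =>
    refine ⟨_, hadj, ?_⟩
    have := SimpleGraph.dist_le q'
    rw [Walk.length_cons]
    omega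

end XNEA

theorem i_NEA : S_NEA := by
  classical
  intro V _ G X hG hX
  have hmin : ∀ v : V, ∃ x ∈ X, ∀ y ∈ X, G.dist v x ≤ G.dist v y := by
    intro v
    obtain ⟨x, hx, -⟩ := hX v
    obtain ⟨z, hz, hzm⟩ := Set.exists_min_image X (fun y => G.dist v y) (Set.toFinite _) ⟨x, hx⟩
    exact ⟨z, hz, hzm⟩
  choose b hbX hbm using hmin
  set d : V → ℕ := fun v => G.dist v (b v) with hd
  have hd0 : ∀ v, d v = 0 ↔ v ∈ X := by
    intro v
    constructor
    · intro h
      have : v = b v := (hG.dist_eq_zero_iff).1 h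
      rw [this]
      exact hbX v
    · intro h
      have := hbm v v h
      rw [SimpleGraph.dist_self] at this
      exact Nat.le_zero.1 this
  have hd4 : ∀ v, d v ≤ 4 := by
    intro v
    obtain ⟨x, hx, h4⟩ := hX v
    exact (hbm v x hx).trans h4
  -- the chosen neighbour
  have hstep : ∀ v : V, ∃ u, (d v = 0 → u = v) ∧ (d v ≠ 0 → G.Adj v u ∧ d u + 1 = d v) := by
    intro v
    by_cases h : d v = 0
    · exact ⟨v, fun _ => rfl, fun h' => absurd h h'⟩
    · obtain ⟨q, hq⟩ := hG.exists_walk_length_eq_dist v (b v)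
      have hq' : q.length ≠ 0 := by
        rw [hq]
        exact h
      obtain ⟨u, huv, hu⟩ := XNEA.first_step q hq'
      rw [hq] at hu
      change G.dist u (b v) + 1 ≤ d v at hu
      refine ⟨u, fun h' => absurd h' h, fun _ => ⟨huv, ?_⟩⟩
      have h1 : d u ≤ G.dist u (b v) := hbm u (b v) (hbX v)
      have h2 : d v ≤ G.dist v (b u) := hbm v (b u) (hbX u)
      have h3 : G.dist v (b u) ≤ G.dist v u + G.dist u (b u) := hG.dist_triangle
      rw [SimpleGraph.dist_eq_one_iff_adj.2 huv] at h3
      have h4 : G.dist u (b u) = d u := rfl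
      omega
  choose s hs0 hs1 using hstep
  -- iterates
  have hdk : ∀ v k, k ≤ d v → d (s^[k] v) + k = d v := by
    intro v k
    induction k with
    | zero => intro _; rfl
    | succ k ih =>
      intro hk
      have h1 := ih (by omega)
      have h2 := (hs1 (s^[k] v) (by omega)).2
      rw [Function.iterate_succ_apply']
      omega
  have hadj : ∀ v k, k < d v → G.Adj (s^[k] v) (s^[k + 1] v) := by
    intro v k hk
    have h1 := hdk v k hk.le
    rw [Function.iterate_succ_apply']
    exact (hs1 (s^[k] v) (by omega)).1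
  have hfix : ∀ x ∈ X, ∀ k, s^[k] x = x := by
    intro x hx k
    induction k with
    | zero => rfl
    | succ k ih =>
      rw [Function.iterate_succ_apply', ih]
      exact hs0 x ((hd0 x).2 hx)
  have hmem : ∀ v, s^[d v] v ∈ X := by
    intro v
    have := hdk v (d v) le_rfl
    exact (hd0 _).1 (by omega)
  have hconst : ∀ v k, d v ≤ k → s^[k] v = s^[d v] v := by
    intro v k hk
    obtain ⟨j, rfl⟩ := Nat.exists_eq_add_of_le hk
    rw [add_comm, Function.iterate_add_apply]
    exact hfix _ (hmem v) j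
  have hdist : ∀ v k, k ≤ d v → G.dist v (s^[k] v) ≤ k := by
    intro v k
    induction k with
    | zero =>
      intro _
      show G.dist v v ≤ 0
      rw [SimpleGraph.dist_self]
    | succ k ih =>
      intro hk
      have h1 := ih (by omega)
      have h2 : G.dist v (s^[k + 1] v) ≤ G.dist v (s^[k] v) + G.dist (s^[k] v) (s^[k + 1] v) :=
        hG.dist_triangle
      rw [SimpleGraph.dist_eq_one_iff_adj.2 (hadj v k (by omega))] at h2
      omega
  refine ⟨fun v => s^[d v] v, hmem, ?_, ?_, ?_⟩
  · intro x hx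
    exact hfix x hx _
  · intro v x hx
    exact (hdist v (d v) le_rfl).trans (hbm v x hx)
  · intro v
    refine ⟨{u | ∃ i, 0 ≤ i ∧ i ≤ d v ∧ s^[i] v = u}, ?_, ⟨0, le_rfl, Nat.zero_le _, rfl⟩,
      ⟨d v, Nat.zero_le _, le_rfl, rfl⟩, ?_, ?_⟩
    · exact seg_conn (fun i => s^[i] v) 0 (d v) (Nat.zero_le _) (fun i _ hi => hadj v i hi)
    · have e : {u | ∃ i, 0 ≤ i ∧ i ≤ d v ∧ s^[i] v = u} =
          (((Finset.range (d v + 1)).image fun i => s^[i] v : Finset V) : Set V) := by
        ext u
        simp only [Finset.coe_image, Set.mem_image, Finset.coe_range, Set.mem_Iio]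
        constructor
        · rintro ⟨i, -, hi, h⟩
          exact ⟨i, by omega, h⟩
        · rintro ⟨i, hi, h⟩
          exact ⟨i, Nat.zero_le _, by omega, h⟩
      rw [e, Set.ncard_coe_finset]
      have h1 := Finset.card_image_le (s := Finset.range (d v + 1)) (f := fun i => s^[i] v)
      rw [Finset.card_range] at h1
      have := hd4 v
      omega
    · rintro x ⟨i, -, hi, rfl⟩
      show s^[d (s^[i] v)] (s^[i] v) = s^[d v] v
      rw [← Function.iterate_add_apply, hdk v i hi]

end Pool.Agent.IM55.PL
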