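import Pool.Agent.Work.MP_55ff09_co.PL.Base

/-!
# MP_55ff09_co, block PL, item NET
-/

set_option autoImplicit false

namespace Pool.Agent.IM55.PL

open SimpleGraph Pool.Agent.IM55

namespace XNET

variable {V : Type}

theorem exists_par (G : SimpleGraph V) (r : V) (hG : G.Connected) (v : V) (hv : v ≠ r) :
    ∃ u, G.Adj v u ∧ G.dist r u + 1 = G.dist r v := by
  obtain ⟨w, hw⟩ := hG.exists_walk_length_eq_dist v r
  cases w with
  | nil => exact absurd rfl hv
  | @cons _ u _ h q =>
    refine ⟨u, h, ?_⟩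
    rw [Walk.length_cons] at hw
    have h1 : G.dist u r ≤ q.length := dist_le q
    have h2 : G.dist v r ≤ G.dist v u + G.dist u r := hG.dist_triangle
    have h3 : G.dist v u = 1 := dist_eq_one_iff_adj.2 h
    rw [G.dist_comm (u := r) (v := u), G.dist_comm (u := r) (v := v)]
    omega

open Classical in
/-- the set of the elements of `X` in layer `j` -/
noncomputable def lay [Fintype V] (d : V → ℕ) (X : Set V) (j : ℕ) : Finset V :=
  Finset.univ.filter fun x => x ∈ X ∧ d x = j

theorem mem_lay [Fintype V] (d : V → ℕ) (X : Set V) (j : ℕ) (x : V) :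
    x ∈ lay d X j ↔ x ∈ X ∧ d x = j := by
  classical
  unfold lay
  rw [Finset.mem_filter]
  exact ⟨fun h => h.2, fun h => ⟨Finset.mem_univ _, h⟩⟩

/-- the state of the construction at layer `j` -/
structure St [Fintype V] (G : SimpleGraph V) (d : V → ℕ) (p : V → V) (j : ℕ) (X : Set V)
    (π : V → V) (wt : V → ℕ) : Prop where
  sub : ∀ x ∈ X, j ≤ d x
  sep : ∀ x ∈ X, ∀ y ∈ X, x ≠ y → d x = d y → 4 < G.dist x y
  cov : ∀ v, j ≤ d v → ∃ x ∈ X, d x = d v ∧ G.dist v x ≤ 4
  pi : ∀ x ∈ X, j < d x → π x ∈ X ∧ d (π x) + 1 = d x ∧ G.dist (p x) (π x) ≤ 4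
  pip : ∀ x ∈ X, j < d x → p x ∈ X → π x = p x
  pos : ∀ x ∈ X, 1 ≤ wt x
  two : ∀ x ∈ X, ∀ x' ∈ X, j < d x → j < d x' → x ≠ x' → π x = π x' →
    wt x + wt x' < wt (π x)
  one : ∀ x ∈ X, j < d x → wt x < wt (π x)
  heavy : ∀ x ∈ X, j < d x → ∃ x' ∈ X, j < d x' ∧ p x' = π x ∧ wt x ≤ wt x'
  sum : ∑ x ∈ lay d X j, wt x ≤ X.ncard

theorem base [Fintype V] (G : SimpleGraph V) (d : V → ℕ) (p : V → V) (j : ℕ)
    (hj : ∀ v, d v < j) : St G d p j ∅ p (fun _ => 0) where
  sub := fun x hx => absurd hx (Set.notMem_empty _)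
  sep := fun x hx => absurd hx (Set.notMem_empty _)
  cov := fun v hv => absurd (hj v) (by omega)
  pi := fun x hx => absurd hx (Set.notMem_empty _)
  pip := fun x hx => absurd hx (Set.notMem_empty _)
  pos := fun x hx => absurd hx (Set.notMem_empty _)
  two := fun x hx => absurd hx (Set.notMem_empty _)
  one := fun x hx => absurd hx (Set.notMem_empty _)
  heavy := fun x hx => absurd hx (Set.notMem_empty _)
  sum := by
    rw [Finset.sum_const_zero]
    exact Nat.zero_le _

theorem step (h1 : S_GR1) [Fintype V] (G : SimpleGraph V) (d : V → ℕ) (p : V → V) (j : ℕ)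
    (hp : ∀ v, j < d v → d (p v) + 1 = d v) (X : Set V) (π : V → V) (wt : V → ℕ)
    (h : St G d p (j + 1) X π wt) : ∃ X' π' wt', St G d p j X' π' wt' := by
  classical
  -- the load
  let ch : V → Finset V := fun v => (lay d X (j + 1)).filter fun x => p x = v
  let load : V → ℕ := fun v => (ch v).sup wt
  have hch : ∀ v x, x ∈ ch v ↔ (x ∈ X ∧ d x = j + 1) ∧ p x = v := by
    intro v x
    show x ∈ (lay d X (j + 1)).filter (fun x => p x = v) ↔ _
    rw [Finset.mem_filter, mem_lay]
  obtain ⟨Y, hYL, hYs, hYc⟩ := h1 {v | d v = j} (fun u v => G.dist u v ≤ 4) load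
    (fun v => by simp) (fun u v huv => by rw [G.dist_comm]; exact huv)
  have hYd : ∀ y ∈ Y, d y = j := fun y hy => hYL hy
  have hXd : ∀ x ∈ X, j + 1 ≤ d x := h.sub
  have hg : ∀ v, ∃ y, d v = j → y ∈ Y ∧ G.dist v y ≤ 4 ∧ load v ≤ load y ∧ (v ∈ Y → y = v) := by
    intro v
    by_cases hv : d v = j
    · obtain ⟨y, hy, h2, h3, h4⟩ := hYc v hv
      exact ⟨y, fun _ => ⟨hy, h2, h3, h4⟩⟩
    · exact ⟨v, fun h' => absurd h' hv⟩
  choose g hg using hg
  let kd : V → Finset V := fun y => (lay d X (j + 1)).filter fun x => g (p x) = y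
  have hkd : ∀ y x, x ∈ kd y ↔ (x ∈ X ∧ d x = j + 1) ∧ g (p x) = y := by
    intro y x
    show x ∈ (lay d X (j + 1)).filter (fun x => g (p x) = y) ↔ _
    rw [Finset.mem_filter, mem_lay]
  let π' : V → V := fun x => if d x = j + 1 then g (p x) else π x
  let wt' : V → ℕ := fun y => if d y = j then 1 + ∑ x ∈ kd y, wt x else wt y
  have hπ1 : ∀ x, d x = j + 1 → π' x = g (p x) := fun x hx => if_pos hx
  have hπ2 : ∀ x, d x ≠ j + 1 → π' x = π x := fun x hx => if_neg hx
  have hw1 : ∀ y, d y = j → wt' y = 1 + ∑ x ∈ kd y, wt x := fun y hy => if_pos hy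
  have hw2 : ∀ y, d y ≠ j → wt' y = wt y := fun y hy => if_neg hy
  have hup : ∀ x, j < d x → (x ∈ X ∪ Y ↔ x ∈ X) := by
    intro x hx
    constructor
    · rintro (h' | h')
      · exact h'
      · exact absurd (hYd x h') (by omega)
    · exact fun h' => Or.inl h'
  -- parents of the elements of layer `j + 1`
  have hgp : ∀ x, d x = j + 1 → g (p x) ∈ Y ∧ G.dist (p x) (g (p x)) ≤ 4 ∧
      load (p x) ≤ load (g (p x)) ∧ (p x ∈ Y → g (p x) = p x) := by
    intro x hx
    have h2 := hp x (by omega)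
    exact hg (p x) (by omega)
  have hpi : ∀ x ∈ X, π' x ∈ X ∪ Y ∧ d (π' x) + 1 = d x ∧ G.dist (p x) (π' x) ≤ 4 := by
    intro x hx
    by_cases hd : d x = j + 1
    · rw [hπ1 x hd]
      obtain ⟨h2, h3, -, -⟩ := hgp x hd
      refine ⟨Or.inr h2, ?_, h3⟩
      rw [hYd _ h2, hd]
    · rw [hπ2 x hd]
      obtain ⟨h2, h3, h4⟩ := h.pi x hx (by have := hXd x hx; omega)
      exact ⟨Or.inl h2, h3, h4⟩
  refine ⟨X ∪ Y, π', wt', ?_⟩
  constructor
  · -- sub
    rintro x (hx | hx)
    · have := hXd x hx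
      omega
    · exact (hYd x hx).ge
  · -- sep
    rintro x (hx | hx) y (hy | hy) hxy hd
    · exact h.sep x hx y hy hxy hd
    · have h2 := hXd x hx
      have h3 := hYd y hy
      omega
    · have h2 := hXd y hy
      have h3 := hYd x hx
      omega
    · have := hYs x hx y hy hxy
      omega
  · -- cov
    intro v hv
    by_cases hd : d v = j
    · obtain ⟨h2, h3, -, -⟩ := hg v hd
      refine ⟨g v, Or.inr h2, ?_, h3⟩
      rw [hYd _ h2, hd]
    · obtain ⟨x, hx, h2, h3⟩ := h.cov v (by omega)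
      exact ⟨x, Or.inl hx, h2, h3⟩
  · -- pi
    intro x hx hd
    exact hpi x ((hup x hd).1 hx)
  · -- pip
    intro x hx hd hpx
    have hx' := (hup x hd).1 hx
    have h2 := hp x hd
    by_cases hd' : d x = j + 1
    · rw [hπ1 x hd']
      refine (hgp x hd').2.2.2 ?_
      rcases hpx with h3 | h3
      · have := hXd _ h3
        omega
      · exact h3
    · rw [hπ2 x hd']
      refine h.pip x hx' (by omega) ?_
      rcases hpx with h3 | h3
      · exact h3
      · have := hYd _ h3
        omega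
  · -- pos
    rintro x (hx | hx)
    · rw [hw2 x (by have := hXd x hx; omega)]
      exact h.pos x hx
    · rw [hw1 x (hYd x hx)]
      omega
  · -- two
    intro x hx x' hx' hd hd' hne hππ
    have hx1 := (hup x hd).1 hx
    have hx2 := (hup x' hd').1 hx'
    have e1 := (hpi x hx1).2.1
    have e2 := (hpi x' hx2).2.1
    rw [hππ] at e1
    have e3 : d x = d x' := by omega
    rw [hw2 x (by omega), hw2 x' (by omega)]
    by_cases hdx : d x = j + 1
    · have h3 : x ∈ kd (π' x) := (hkd _ _).2 ⟨⟨hx1, hdx⟩, (hπ1 x hdx).symm⟩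
      have h4 : x' ∈ kd (π' x) := (hkd _ _).2 ⟨⟨hx2, by omega⟩, by
        rw [hππ]
        exact (hπ1 x' (by omega)).symm⟩
      have h5 : wt x + wt x' ≤ ∑ z ∈ kd (π' x), wt z := by
        rw [← Finset.sum_pair hne]
        refine Finset.sum_le_sum_of_subset ?_
        intro z hz
        rw [Finset.mem_insert, Finset.mem_singleton] at hz
        rcases hz with rfl | rfl
        · exact h3
        · exact h4
      have h6 : d (π' x) = j := by
        have := (hpi x hx1).2.1
        omega
      rw [hw1 _ h6]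
      omega
    · have h6 : d (π' x) ≠ j := by
        have := (hpi x hx1).2.1
        omega
      rw [hw2 _ h6, hπ2 x hdx]
      rw [hπ2 x hdx, hπ2 x' (by omega)] at hππ
      exact h.two x hx1 x' hx2 (by omega) (by omega) hne hππ
  · -- one
    intro x hx hd
    have hx1 := (hup x hd).1 hx
    rw [hw2 x (by omega)]
    by_cases hdx : d x = j + 1
    · have h3 : x ∈ kd (π' x) := (hkd _ _).2 ⟨⟨hx1, hdx⟩, (hπ1 x hdx).symm⟩
      have h5 : wt x ≤ ∑ z ∈ kd (π' x), wt z :=
        Finset.single_le_sum (f := wt) (fun z _ => Nat.zero_le _) h3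
      have h6 : d (π' x) = j := by
        have := (hpi x hx1).2.1
        omega
      rw [hw1 _ h6]
      omega
    · have h6 : d (π' x) ≠ j := by
        have := (hpi x hx1).2.1
        omega
      rw [hw2 _ h6, hπ2 x hdx]
      exact h.one x hx1 (by omega)
  · -- heavy
    intro x hx hd
    have hx1 := (hup x hd).1 hx
    by_cases hdx : d x = j + 1
    · have h3 : wt x ≤ load (p x) := by
        show wt x ≤ (ch (p x)).sup wt
        exact Finset.le_sup (f := wt) ((hch _ _).2 ⟨⟨hx1, hdx⟩, rfl⟩)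
      have h4 := (hgp x hdx).2.2.1
      have h5 := h.pos x hx1
      have h6 : (ch (g (p x))).Nonempty := by
        rw [Finset.nonempty_iff_ne_empty]
        intro h0
        have h7 : load (g (p x)) = 0 := by
          show (ch (g (p x))).sup wt = 0
          rw [h0]
          rfl
        omega
      obtain ⟨x', hx', e⟩ := Finset.exists_mem_eq_sup (ch (g (p x))) h6 wt
      obtain ⟨⟨h7, h8⟩, h9⟩ := (hch _ _).1 hx'
      refine ⟨x', Or.inl h7, by omega, ?_, ?_⟩
      · rw [hπ1 x hdx]
        exact h9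
      · rw [hw2 x (by omega), hw2 x' (by omega)]
        have h10 : load (g (p x)) = wt x' := e
        omega
    · obtain ⟨x', h3, h4, h5, h6⟩ := h.heavy x hx1 (by omega)
      refine ⟨x', Or.inl h3, by omega, ?_, ?_⟩
      · rw [hπ2 x hdx]
        exact h5
      · rw [hw2 x (by omega), hw2 x' (by omega)]
        exact h6
  · -- sum
    have e1 : lay d (X ∪ Y) j = Y.toFinset := by
      ext y
      rw [mem_lay, Set.mem_toFinset]
      constructor
      · rintro ⟨h2 | h2, h3⟩
        · have := hXd y h2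
          omega
        · exact h2
      · exact fun h2 => ⟨Or.inr h2, hYd y h2⟩
    have e2 : ∑ y ∈ Y.toFinset, wt' y = ∑ y ∈ Y.toFinset, (1 + ∑ x ∈ kd y, wt x) := by
      refine Finset.sum_congr rfl fun y hy => ?_
      exact hw1 y (hYd y (Set.mem_toFinset.1 hy))
    have e3 : ∑ y ∈ Y.toFinset, ∑ x ∈ kd y, wt x = ∑ x ∈ lay d X (j + 1), wt x := by
      refine Finset.sum_fiberwise_of_maps_to (g := fun x => g (p x)) ?_ wt
      intro x hx
      rw [mem_lay] at hx
      exact Set.mem_toFinset.2 (hgp x hx.2).1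
    have e4 : (X ∪ Y).ncard = X.ncard + Y.ncard := by
      refine Set.ncard_union_eq ?_ (Set.toFinite _) (Set.toFinite _)
      rw [Set.disjoint_left]
      intro x hx hy
      have h2 := hXd x hx
      have h3 := hYd x hy
      omega
    have e5 : Y.toFinset.card = Y.ncard := (Set.ncard_eq_toFinset_card' Y).symm
    rw [e1, e2, Finset.sum_add_distrib, e3, Finset.sum_const, e4, smul_eq_mul, mul_one, e5]
    have := h.sum
    omega

end XNET

theorem i_NET (h1 : S_GR1) : S_NET := by
  intro V hV G r hG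
  classical
  have hF : Fintype V := Fintype.ofFinite V
  have hp : ∀ v, ∃ u, v ≠ r → G.Adj v u ∧ G.dist r u + 1 = G.dist r v := by
    intro v
    by_cases hv : v = r
    · exact ⟨v, fun h => absurd hv h⟩
    · obtain ⟨u, hu⟩ := XNET.exists_par G r hG v hv
      exact ⟨u, fun _ => hu⟩
  choose p hp using hp
  have hd0 : ∀ v, G.dist r v = 0 ↔ v = r := by
    intro v
    rw [(hG r v).dist_eq_zero_iff]
    exact ⟨fun h => h.symm, fun h => h.symm⟩
  have hne : ∀ v, v ≠ r ↔ 0 < G.dist r v := by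
    intro v
    rw [Nat.pos_iff_ne_zero, ne_eq, ne_eq, hd0]
  let N : ℕ := Finset.univ.sup (fun v => G.dist r v) + 1
  have hN : ∀ v, G.dist r v < N := by
    intro v
    have : G.dist r v ≤ Finset.univ.sup (fun v => G.dist r v) :=
      Finset.le_sup (f := fun v => G.dist r v) (Finset.mem_univ v)
    show _ < Finset.univ.sup (fun v => G.dist r v) + 1
    omega
  have key : ∀ k j, j + k = N → ∃ X π wt, XNET.St G (fun v => G.dist r v) p j X π wt := by
    intro k
    induction k with
    | zero =>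
      intro j hj
      exact ⟨_, _, _, XNET.base G _ p j (fun v => by have := hN v; omega)⟩
    | succ k ih =>
      intro j hj
      obtain ⟨X, π, wt, h⟩ := ih (j + 1) (by omega)
      refine XNET.step h1 G _ p j ?_ X π wt h
      intro v hv
      exact (hp v ((hne v).2 (by have : j < G.dist r v := hv; omega))).2
  obtain ⟨X, π, wt, h⟩ := key N 0 (by omega)
  have hr : r ∈ X := by
    obtain ⟨x, hx, h2, -⟩ := h.cov r (Nat.zero_le _)
    have h3 : G.dist r x = G.dist r r := h2
    rw [(hd0 r).2 rfl] at h3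
    rw [← (hd0 x).1 h3]
    exact hx
  refine ⟨p, X, π, wt, ?_⟩
  constructor
  · exact hp
  · exact hr
  · exact h.sep
  · exact fun v => h.cov v (Nat.zero_le _)
  · exact fun x hx hxr => h.pi x hx ((hne x).1 hxr)
  · exact fun x hx hxr => h.pip x hx ((hne x).1 hxr)
  · exact h.pos
  · exact fun x hx x' hx' h2 h3 => h.two x hx x' hx' ((hne x).1 h2) ((hne x').1 h3)
  · exact fun x hx hxr => h.one x hx ((hne x).1 hxr)
  · have h2 : wt r ≤ ∑ x ∈ XNET.lay (fun v => G.dist r v) X 0, wt x :=
      Finset.single_le_sum (f := wt) (fun z _ => Nat.zero_le _)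
        ((XNET.mem_lay _ _ _ _).2 ⟨hr, (hd0 r).2 rfl⟩)
    have h3 := h.sum
    have h4 : X.ncard ≤ Nat.card V := by
      rw [← Set.ncard_univ]
      exact Set.ncard_le_ncard (Set.subset_univ _) (Set.toFinite _)
    omega
  · intro x hx hxr
    obtain ⟨x', h2, h3, h4, h5⟩ := h.heavy x hx ((hne x).1 hxr)
    exact ⟨x', h2, (hne x').2 h3, h4, h5⟩

end Pool.Agent.IM55.PL
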