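import Pool.Agent.Work.MP_55ff09_co.PL.Base

/-! Item [55ff09 PL ORD]. -/

set_option autoImplicit false

namespace Pool.Agent.IM55.PL

open SimpleGraph Pool.Agent.IM55

namespace XORD

/-- the window of one column, read in the direction in which the positions increase -/
theorem window {V : Type} {G : SimpleGraph V} {w : ℕ → V} {l : ℕ} (h : IP G w l) (T : ℕ → ℕ)
    (a e g₁ : ℕ) (hae : a ≤ e) (heg : e < g₁) (hT : ∀ k < g₁, T k ≤ l)
    (hm : (∀ k < g₁, ∀ k' < g₁, k < k' → T k < T k') ∨
      ∀ k < g₁, ∀ k' < g₁, k < k' → T k' < T k) :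
    ∃ (w' : ℕ → V) (l' : ℕ) (P q : ℕ → ℕ), IP G w' l' ∧
      (∀ i ≤ l', q i ≤ l ∧ w' i = w (q i)) ∧
      (∀ k, a ≤ k → k ≤ e → P k ≤ l' ∧ q (P k) = T k) ∧
      (∀ k k', a ≤ k → k < k' → k' ≤ e → P k < P k') ∧ P a = 0 ∧ P e = l' ∧
      ∀ k, a ≤ k → k < e → ∀ i, P k < i → i < P (k + 1) →
        (T k < q i ∧ q i < T (k + 1)) ∨ (T (k + 1) < q i ∧ q i < T k) := by
  rcases hm with hm | hm
  · have hle : ∀ k, a ≤ k → k < g₁ → T a ≤ T k := by
      intro k hk hkg
      rcases Nat.eq_or_lt_of_le hk with h1 | h1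
      · rw [h1]
      · exact (hm a (by omega) k hkg h1).le
    have hle2 : ∀ k, k ≤ e → T k ≤ T e := by
      intro k hk
      rcases Nat.eq_or_lt_of_le hk with h1 | h1
      · rw [h1]
      · exact (hm k (by omega) e heg h1).le
    have hTe := hT e heg
    have hae' := hle e hae heg
    refine ⟨fun i => w (T a + i), T e - T a, fun k => T k - T a, fun i => T a + i, ?_, ?_, ?_, ?_,
      ?_, ?_, ?_⟩
    · refine ⟨?_, ?_, ?_⟩
      · intro i hi
        have := h.adj (T a + i) (by omega)
        exact this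
      · intro i hi j hj hij
        have := h.inj (T a + i) (by omega) (T a + j) (by omega) hij
        omega
      · intro i hi j hj hij
        have := h.ind (T a + i) (by omega) (T a + j) (by omega) hij
        omega
    · intro i hi
      exact ⟨(by omega : T a + i ≤ l), rfl⟩
    · intro k hk hke
      have h1 := hle k hk (by omega)
      have h2 := hle2 k hke
      refine ⟨?_, ?_⟩
      · change T k - T a ≤ T e - T a
        omega
      · change T a + (T k - T a) = T k
        omega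
    · intro k k' hk hkk' hk'
      have h1 := hle k hk (by omega)
      have h2 := hm k (by omega) k' (by omega) hkk'
      change T k - T a < T k' - T a
      omega
    · change T a - T a = 0
      omega
    · rfl
    · intro k hk hke i h1 h2
      have h3 := hle k hk (by omega)
      change T k - T a < i at h1
      change i < T (k + 1) - T a at h2
      left
      change T k < T a + i ∧ T a + i < T (k + 1)
      omega
  · have hle : ∀ k, a ≤ k → k < g₁ → T k ≤ T a := by
      intro k hk hkg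
      rcases Nat.eq_or_lt_of_le hk with h1 | h1
      · rw [h1]
      · exact (hm a (by omega) k hkg h1).le
    have hle2 : ∀ k, k ≤ e → T e ≤ T k := by
      intro k hk
      rcases Nat.eq_or_lt_of_le hk with h1 | h1
      · rw [h1]
      · exact (hm k (by omega) e heg h1).le
    have hTa := hT a (by omega)
    have hae' := hle e hae heg
    refine ⟨fun i => w (T a - i), T a - T e, fun k => T a - T k, fun i => T a - i, ?_, ?_, ?_, ?_,
      ?_, ?_, ?_⟩
    · refine ⟨?_, ?_, ?_⟩
      · intro i hi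
        have h1 := h.adj (T a - (i + 1)) (by omega)
        have h2 : T a - (i + 1) + 1 = T a - i := by omega
        rw [h2] at h1
        exact h1.symm
      · intro i hi j hj hij
        have := h.inj (T a - i) (by omega) (T a - j) (by omega) hij
        omega
      · intro i hi j hj hij
        have := h.ind (T a - i) (by omega) (T a - j) (by omega) hij
        omega
    · intro i hi
      exact ⟨(by omega : T a - i ≤ l), rfl⟩
    · intro k hk hke
      have h1 := hle k hk (by omega)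
      have h2 := hle2 k hke
      refine ⟨?_, ?_⟩
      · change T a - T k ≤ T a - T e
        omega
      · change T a - (T a - T k) = T k
        omega
    · intro k k' hk hkk' hk'
      have h1 := hle k hk (by omega)
      have h2 := hm k (by omega) k' (by omega) hkk'
      change T a - T k < T a - T k'
      omega
    · change T a - T a = 0
      omega
    · rfl
    · intro k hk hke i h1 h2
      have h3 := hle k hk (by omega)
      have h4 := hle (k + 1) (by omega) (by omega)
      change T a - T k < i at h1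
      change i < T a - T (k + 1) at h2
      right
      change T (k + 1) < T a - i ∧ T a - i < T k
      omega

theorem s_mono {p : ℕ} {s φ : ℕ → ℕ} (h : ∀ x < p, s x ≤ φ x ∧ φ x < s (x + 1)) :
    ∀ x y, x ≤ y → y ≤ p → s x + (y - x) ≤ s y := by
  intro x y hxy hyp
  induction y, hxy using Nat.le_induction with
  | base => omega
  | succ y hxy ih =>
    have h1 := ih (by omega)
    have h2 := h y (by omega)
    omega

/-- the largest index with value at most `i` -/
theorem last_le (P : ℕ → ℕ) (a e i : ℕ) (hae : a ≤ e) (hPa : P a ≤ i) :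
    ∃ l, a ≤ l ∧ l ≤ e ∧ P l ≤ i ∧ (l < e → i < P (l + 1)) := by
  induction e, hae using Nat.le_induction with
  | base => exact ⟨a, le_rfl, le_rfl, hPa, fun h => absurd h (lt_irrefl _)⟩
  | succ e hae ih =>
    by_cases h1 : P (e + 1) ≤ i
    · exact ⟨e + 1, by omega, le_rfl, h1, fun h => absurd h (lt_irrefl _)⟩
    · obtain ⟨l, h2, h3, h4, h5⟩ := ih
      rcases Nat.eq_or_lt_of_le h3 with h6 | h6
      · exact ⟨l, h2, by omega, h4, fun _ => by rw [h6]; omega⟩
      · exact ⟨l, h2, by omega, h4, fun _ => h5 h6⟩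

theorem anti_mono {V : Type} {G : SimpleGraph V} {X Y X' Y' : Set V} (h : Anti G X Y)
    (hX : X' ⊆ X) (hY : Y' ⊆ Y) : Anti G X' Y' := fun x hx y hy => h x (hX hx) y (hY hy)

end XORD

theorem i_ORD (hPSB : S_PSB) (hES : S_ES) (hBDG : S_BDG) (hGAP : S_GAP) (hTCH : S_TCH) :
    S_ORD := by
  classical
  intro Δ t g K₀
  obtain ⟨g', hg'⟩ := hES t (Δ + 1) ((4 * g + 4) ^ (4 * K₀ * t + 1))
  refine ⟨g', ?_⟩
  intro V _ G r Lg U B W R w l τ hG hL hPre
  have hmul : ∀ j < t, ∀ x, {k | k < g' ∧ τ j k = x}.ncard ≤ Δ + 1 := by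
    intro j hj x
    have h1 := hTCH G Δ (Finset.range g') R (w j x) hG (by
      intro i hi i' hi' hne
      exact anti_disjoint (hPre.ranti i (Finset.mem_range.1 hi) i' (Finset.mem_range.1 hi') hne))
    refine le_trans ?_ h1
    unfold tn
    rw [← Set.ncard_coe_finset]
    refine Set.ncard_le_ncard ?_ (Finset.finite_toSet _)
    rintro k ⟨hk, hkx⟩
    rw [Finset.mem_coe, Finset.mem_filter]
    refine ⟨Finset.mem_range.2 hk, ?_⟩
    rw [← hkx]
    exact hPre.con j hj k hk
  obtain ⟨φ₁, hφ₁, hφ₁m, hMon⟩ := hg' τ hmul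
  set g₁ : ℕ := (4 * g + 4) ^ (4 * K₀ * t + 1) with hg₁
  obtain ⟨W₁, hP⟩ := hPSB G r Lg U B t g₁ g' K₀ W R w l τ φ₁ hPre hφ₁ hφ₁m
  set R₁ : ℕ → Set V := fun k => R (φ₁ k) with hR₁
  set T : ℕ → ℕ → ℕ := fun j k => τ j (φ₁ k) with hT
  have hbd := hBDG G r Lg U B t g₁ K₀ W₁ R₁ w l T hP hMon
  let f : ℕ → Finset ℕ := fun k => if h : k < g₁ then (hbd k h).1.toFinset else ∅
  have hf : ∀ k < g₁, ∀ x, x ∈ f k ↔ x ∈ bg G t g₁ R₁ w T k := by
    intro k hk x
    change x ∈ (if h : k < g₁ then (hbd k h).1.toFinset else ∅) ↔ _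
    rw [dif_pos hk, Set.Finite.mem_toFinset]
  obtain ⟨s, φ, hs, hsp, hsφ⟩ := hGAP (4 * g + 4) (4 * K₀ * t) f (by omega) (by
    intro k hk
    have hk' : k < g₁ := hk
    change (if h : k < g₁ then (hbd k h).1.toFinset else ∅).card ≤ _
    rw [dif_pos hk', ← Set.ncard_eq_toFinset_card _ (hbd k hk').1]
    exact (hbd k hk').2)
  have hsm := XORD.s_mono hs
  have hsp' : s (4 * g + 4) ≤ g₁ := hsp
  have hs0p := hsm 0 (4 * g + 4) (by omega) le_rfl
  set e : ℕ := s (4 * g + 4) - 1 with he
  have : Nonempty V := ⟨r⟩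
  have hwin : ∀ j, ∃ (w' : ℕ → V) (l' : ℕ) (P q : ℕ → ℕ), j < t → (IP G w' l' ∧
      (∀ i ≤ l', q i ≤ l j ∧ w' i = w j (q i)) ∧
      (∀ k, s 0 ≤ k → k ≤ e → P k ≤ l' ∧ q (P k) = T j k) ∧
      (∀ k k', s 0 ≤ k → k < k' → k' ≤ e → P k < P k') ∧ P (s 0) = 0 ∧ P e = l' ∧
      ∀ k, s 0 ≤ k → k < e → ∀ i, P k < i → i < P (k + 1) →
        (T j k < q i ∧ q i < T j (k + 1)) ∨ (T j (k + 1) < q i ∧ q i < T j k)) := by
    intro j
    by_cases hj : j < t
    · obtain ⟨w', l', P, q, h1⟩ := XORD.window (hP.ip j hj) (T j) (s 0) e g₁ (by omega) (by omega)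
        (fun k hk => hP.len j hj k hk) (hMon j hj)
      exact ⟨w', l', P, q, fun _ => h1⟩
    · exact ⟨fun _ => r, 0, fun _ => 0, fun _ => 0, fun h => absurd h hj⟩
  choose w' l' P q hw using hwin
  -- the indices
  have hidx : ∀ y < g, s 0 ≤ s (4 * y + 2) - 1 ∧ s (4 * y + 2) - 1 < φ (4 * y + 2) ∧
      φ (4 * y + 2) < s (4 * y + 3) ∧ s (4 * y + 3) ≤ e ∧ 1 ≤ s (4 * y + 2) := by
    intro y hy
    have h1 := hsm 0 (4 * y + 2) (by omega) (by omega)
    have h2 := hs (4 * y + 2) (by omega)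
    have h3 := hsm (4 * y + 3) (4 * g + 4) (by omega) le_rfl
    have h4 : 4 * y + 2 + 1 = 4 * y + 3 := by omega
    rw [h4] at h2
    omega
  have hφm : ∀ y < g, ∀ y' < g, y ≠ y' → φ (4 * y + 2) ≠ φ (4 * y' + 2) := by
    intro y hy y' hy' hne
    have h1 := hs (4 * y + 2) (by omega)
    have h2 := hs (4 * y' + 2) (by omega)
    rcases Nat.lt_or_gt_of_ne hne with h3 | h3
    · have h4 := hsm (4 * y + 2 + 1) (4 * y' + 2) (by omega) (by omega)
      omega
    · have h4 := hsm (4 * y' + 2 + 1) (4 * y + 2) (by omega) (by omega)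
      omega
  have hφg : ∀ y < g, φ (4 * y + 2) < g₁ := by
    intro y hy
    have := hidx y hy
    omega
  have hrng : ∀ j < t, rng (w' j) (l' j) ⊆ rng (w j) (l j) := by
    rintro j hj v ⟨i, hi, rfl⟩
    obtain ⟨h1, h2⟩ := (hw j hj).2.1 i hi
    exact ⟨q j i, h1, h2.symm⟩
  have hPle : ∀ j < t, ∀ k k', s 0 ≤ k → k ≤ k' → k' ≤ e → P j k ≤ P j k' := by
    intro j hj k k' h1 h2 h3
    rcases Nat.eq_or_lt_of_le h2 with h4 | h4
    · rw [h4]
    · exact ((hw j hj).2.2.2.1 k k' h1 h4 h3).le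
  have hwT : ∀ j < t, ∀ k, s 0 ≤ k → k ≤ e → w' j (P j k) = w j (T j k) := by
    intro j hj k h1 h2
    obtain ⟨h3, h4⟩ := (hw j hj).2.2.1 k h1 h2
    rw [((hw j hj).2.1 _ h3).2, h4]
  refine ⟨fun y => R₁ (φ (4 * y + 2)), w', l', fun j y => P j (s (4 * y + 2) - 1),
    fun j y => P j (s (4 * y + 3)), fun j y => P j (φ (4 * y + 2)),
    fun j y => Lg (w j (T j (φ (4 * y + 2)))), ?_⟩
  constructor
  · intro j hj
    exact (hw j hj).1
  · intro j hj j' hj' hne
    exact XORD.anti_mono (hP.col j hj j' hj' hne) (hrng j hj) (hrng j' hj')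
  · intro y hy
    exact hP.rconn _ (hφg y hy)
  · intro y hy y' hy' hne
    exact hP.ranti _ (hφg y hy) _ (hφg y' hy') (hφm y hy y' hy' hne)
  · intro j hj y hy
    obtain ⟨h1, h2, h3, h4, h5⟩ := hidx y hy
    exact ⟨hPle j hj _ _ h1 (by omega) (by omega), hPle j hj _ _ (by omega) (by omega) h4,
      ((hw j hj).2.2.1 _ (by omega) h4).1⟩
  · intro j hj y hy y' hy' hyy'
    obtain ⟨h1, h2, h3, h4, h5⟩ := hidx y hy
    obtain ⟨h1', h2', h3', h4', h5'⟩ := hidx y' hy'
    have h6 := hsm (4 * y + 3) (4 * y' + 2) (by omega) (by omega)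
    have h7 := (hw j hj).2.2.2.1 (s (4 * y + 3)) (s (4 * y + 3) + 1) (by omega) (by omega)
      (by omega)
    have h8 := (hw j hj).2.2.2.1 (s (4 * y + 3) + 1) (s (4 * y + 3) + 2) (by omega) (by omega)
      (by omega)
    have h9 := hPle j hj (s (4 * y + 3) + 2) (s (4 * y' + 2) - 1) (by omega) (by omega)
      (by omega)
    change P j (s (4 * y + 3)) + 2 ≤ P j (s (4 * y' + 2) - 1)
    omega
  · intro j hj y hy i hi htouch
    obtain ⟨h1, h2, h3, h4, h5⟩ := hidx y hy
    obtain ⟨hw1, hw2, hw3, hw4, hw5, hw6, hw7⟩ := hw j hj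
    set k : ℕ := φ (4 * y + 2) with hk
    have hkg : k < g₁ := hφg y hy
    obtain ⟨m, hm1, hm2, hm3, hm4⟩ := XORD.last_le (P j) (s 0) e i (by omega)
      (by rw [hw5]; exact Nat.zero_le _)
    change P j (s (4 * y + 2) - 1) ≤ i ∧ i ≤ P j (s (4 * y + 3))
    rcases Nat.eq_or_lt_of_le hm3 with hmi | hmi
    · -- a contact vertex
      have hmk : m = k := by
        by_contra hne
        have h6 := hP.leg j hj m (by omega) k hkg (fun h => hne h.symm)
        obtain ⟨x, hx, z, hz, hxz⟩ := htouch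
        rw [Set.mem_singleton_iff] at hx
        have h7 : x ∈ Lg (w j (T j m)) := by
          rw [hx, ← hmi, hwT j hj m hm1 hm2]
          exact hL.self _
        have h8 := h6 x h7 z hz
        rcases hxz with h9 | h9
        · exact h8.1 h9
        · exact h8.2 h9
      rw [← hmi, hmk]
      exact ⟨hPle j hj _ _ h1 (by omega) (by omega), hPle j hj _ _ (by omega) (by omega) h4⟩
    · have hme : m < e := by
        rcases Nat.eq_or_lt_of_le hm2 with h6 | h6
        · rw [h6, hw6] at hmi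
          omega
        · exact h6
      have hm5 := hm4 hme
      have hq := hw7 m hm1 hme i hmi hm5
      have hgoal : s (4 * y + 2) - 1 ≤ m ∧ m + 1 ≤ s (4 * y + 3) := by
        by_cases hcase : k < m ∨ m + 1 < k
        · have hbad : m ∈ bg G t g₁ R₁ w T k := by
            refine ⟨by omega, hcase, j, hj, q j i, hq, ?_⟩
            rw [← (hw2 i hi).2]
            exact htouch
          have h6 := hsφ (4 * y + 2) (by omega) m ((hf k hkg m).2 hbad) hm1 (by omega)
          have h7 : 4 * y + 2 + 1 = 4 * y + 3 := by omega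
          rw [h7] at h6
          omega
        · push Not at hcase
          have h6 := hs (4 * y + 2) (by omega)
          omega
      have h6 := hPle j hj (s (4 * y + 2) - 1) m h1 hgoal.1 hm2
      have h7 := hPle j hj (m + 1) (s (4 * y + 3)) (by omega) hgoal.2 h4
      omega
  · intro j hj y hy
    obtain ⟨h1, h2, h3, h4, h5⟩ := hidx y hy
    have h6 := hP.con j hj (φ (4 * y + 2)) (hφg y hy)
    change Touch G {w' j (P j (φ (4 * y + 2)))} _
    rw [hwT j hj _ (by omega) (by omega)]
    exact h6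
  · intro j hj y hy
    exact hL.conn _
  · intro j hj y hy
    exact hL.root _
  · intro j hj y hy
    obtain ⟨h1, h2, h3, h4, h5⟩ := hidx y hy
    change w' j (P j (φ (4 * y + 2))) ∈ _
    rw [hwT j hj _ (by omega) (by omega)]
    exact hL.self _
  · intro j hj y hy y' hy' hne
    exact hP.leg j hj _ (hφg y hy) _ (hφg y' hy') (hφm y' hy' y hy hne)
  · intro j hj y hy j' hj' hne
    exact XORD.anti_mono (hP.legc j hj _ (hφg y hy) j' hj' hne) subset_rfl (hrng j' hj')

end Pool.Agent.IM55.PL
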