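import Pool.Agent.Work.MP_55ff09_co.PL.Base

/-!
# MP_55ff09_co, block PL, item PAS: passages across a bipartition of the columns
-/

set_option autoImplicit false

namespace Pool.Agent.IM55.PL

open SimpleGraph Pool.Agent.IM55

namespace XPAS

theorem touch_point {V : Type} {G : SimpleGraph V} {X Y : Set V} (h : Touch G X Y) :
    ∃ x ∈ X, Touch G {x} Y := by
  obtain ⟨x, hx, y, hy, h⟩ := h
  exact ⟨x, hx, x, rfl, y, hy, h⟩

theorem mem_tch {V : Type} {G : SimpleGraph V} {t : ℕ} {w : ℕ → ℕ → V} {l : ℕ → ℕ} {K : Set V}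
    {j : ℕ} : j ∈ tch G t w l K ↔ j < t ∧ Touch G K (rng (w j) (l j)) := by
  unfold tch
  simp only [Finset.mem_filter, Finset.mem_range]

theorem tch_card {V : Type} [Finite V] (hTCH : S_TCH) (G : SimpleGraph V) (Δ t : ℕ)
    (w : ℕ → ℕ → V) (l : ℕ → ℕ) (hG : DegLe G Δ)
    (hcol : ∀ j < t, ∀ j' < t, j ≠ j' → Anti G (rng (w j) (l j)) (rng (w j') (l j')))
    (v : V) : (tch G t w l {v}).card ≤ Δ + 1 :=
  hTCH G Δ (Finset.range t) (fun j => rng (w j) (l j)) v hG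
    (fun i hi j hj hij => anti_disjoint
      (hcol i (Finset.mem_range.1 hi) j (Finset.mem_range.1 hj) hij))

end XPAS

open XPAS in
theorem i_PAS (hMPC : S_MPC) (hTCH : S_TCH) : S_PAS := by
  classical
  intro V _ G Δ t w l R S hG hcol hR hRt hS hSne hSne'
  obtain ⟨j₁, hj₁⟩ := hSne
  obtain ⟨j₂, hj₂⟩ := hSne'
  have hj₁t := Finset.mem_range.1 (hS hj₁)
  have hj₂t := Finset.mem_range.1 (Finset.mem_sdiff.1 hj₂).1
  obtain ⟨x₁, hx₁, ht₁⟩ := touch_point (hRt j₁ hj₁t)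
  obtain ⟨x₂, hx₂, ht₂⟩ := touch_point (hRt j₂ hj₂t)
  obtain ⟨K, hKR, hK, u, hu, v, hv, ⟨a, ha, hta⟩, ⟨b, hb, htb⟩, huniq, hvuniq⟩ :=
    hMPC G R (fun x => ∃ j ∈ S, Touch G {x} (rng (w j) (l j)))
      (fun x => ∃ j ∈ Finset.range t \ S, Touch G {x} (rng (w j) (l j))) hR
      ⟨x₁, hx₁, j₁, hj₁, ht₁⟩ ⟨x₂, hx₂, j₂, hj₂, ht₂⟩
  have hsub : tch G t w l K ⊆ tch G t w l {u} ∪ tch G t w l {v} := by
    intro j hj
    obtain ⟨hjt, hjK⟩ := mem_tch.1 hj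
    obtain ⟨x, hx, hxj⟩ := touch_point hjK
    by_cases hjS : j ∈ S
    · have := huniq x hx ⟨j, hjS, hxj⟩
      subst this
      exact Finset.mem_union_left _ (mem_tch.2 ⟨hjt, hxj⟩)
    · have := hvuniq x hx ⟨j, Finset.mem_sdiff.2 ⟨Finset.mem_range.2 hjt, hjS⟩, hxj⟩
      subst this
      exact Finset.mem_union_right _ (mem_tch.2 ⟨hjt, hxj⟩)
  refine ⟨K, hKR, hK, ?_, ⟨a, ?_⟩, ⟨b, ?_⟩⟩
  · have h1 := Finset.card_le_card hsub
    have h2 := Finset.card_union_le (tch G t w l {u}) (tch G t w l {v})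
    have h3 := tch_card hTCH G Δ t w l hG hcol u
    have h4 := tch_card hTCH G Δ t w l hG hcol v
    omega
  · exact Finset.mem_inter.2 ⟨mem_tch.2 ⟨Finset.mem_range.1 (hS ha),
      hta.mono (Set.singleton_subset_iff.2 hu) subset_rfl⟩, ha⟩
  · have hb' := Finset.mem_sdiff.1 hb
    exact Finset.mem_sdiff.2 ⟨mem_tch.2 ⟨Finset.mem_range.1 hb'.1,
      htb.mono (Set.singleton_subset_iff.2 hv) subset_rfl⟩, hb'.2⟩

end Pool.Agent.IM55.PL
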