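import Pool.Agent.Work.MP_55ff09_co.PL.Base

/-!
# MP_55ff09_co, block PL, item PRC: all pairs are linked
-/

set_option autoImplicit false

namespace Pool.Agent.IM55.PL

open SimpleGraph Pool.Agent.IM55

theorem i_PRC (h1 : S_STP) : S_PRC := by
  intro n Δ c f N
  induction N generalizing f with
  | zero =>
    refine ⟨1, one_pos, ?_⟩
    intro V _ G r Lg ly lb co P ℓ a b U w l _ _ _ _ _ _ _ _
    exact ⟨fun _ => ∅, fun s hs => absurd hs (Nat.not_lt_zero s),
      fun s hs => absurd hs (Nat.not_lt_zero s)⟩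
  | succ N ih =>
    obtain ⟨C₁, hC₁, hS⟩ := h1 n Δ c f N
    obtain ⟨C₂, hC₂, hI⟩ := ih (2 * f)
    refine ⟨C₁ * (C₂ + C₁), by positivity, ?_⟩
    intro V _ G r Lg ly lb co P ℓ a b U w l hd hna hL hLg hℓ hℓ1 hP hU
    have hm : C₁ * (C₂ + C₁) * ℓ = C₁ * ((C₂ + C₁) * ℓ) := by ring
    rw [hm] at hU
    obtain ⟨c₀, U', w', l', k1, k2, k3, k4, k5⟩ := hS G r Lg ly lb co P ((C₂ + C₁) * ℓ) ℓ a b U w l
      hd hna hL hLg hℓ hℓ1 hP (fun s hs => hU s (Nat.lt_succ_of_le hs))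
      (Nat.mul_le_mul_right ℓ (Nat.le_add_left C₁ C₂))
    obtain ⟨D, d1, d2⟩ := hI G r Lg ly lb co P ℓ a b U' w' l' hd hna hL hLg hℓ hℓ1 hP
      (fun s hs => by
        obtain ⟨e1, e2, e3, -, -⟩ := hU s (Nat.lt_succ_of_lt hs)
        obtain ⟨-, -, g3, g4⟩ := k5 s hs
        exact ⟨e1, e2, e3, g3, ap_mono g4 (le_refl _)
          (Nat.mul_le_mul_right ℓ (Nat.le_add_right C₂ C₁))⟩)
    have hNlt : N < N + 1 := Nat.lt_succ_self N
    obtain ⟨-, -, -, hLk, -⟩ := hU N hNlt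
    -- the later links are anticomplete to `c₀`
    have hanti : ∀ s < N, Anti G c₀ (D s) := by
      intro s hs x hx y hy
      obtain ⟨s', hs', hy'⟩ := (d1 s hs).2.2.2.2 hy
      exact (k5 s' hs').2.1.symm x hx y hy'
    obtain ⟨D', hD1, hD2⟩ : ∃ D' : ℕ → Set V, D' N = c₀ ∧ ∀ s, s ≠ N → D' s = D s :=
      ⟨fun s => if s = N then c₀ else D s, if_pos rfl, fun s hs => if_neg hs⟩
    refine ⟨D', ?_, ?_⟩
    · intro s hs
      by_cases hsN : s = N
      · subst hsN
        rw [hD1]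
        refine ⟨k1, k3, k4, fun x hx hxa hxb => (hLk.anti x hx hxa hxb).mono k2 (le_refl _), ?_⟩
        intro v hv
        exact ⟨s, hs, k2 hv⟩
      · have hs' : s < N := by omega
        rw [hD2 s hsN]
        obtain ⟨e1, e2, e3, e4, e5⟩ := d1 s hs'
        refine ⟨e1, e2, e3, e4, fun v hv => ?_⟩
        obtain ⟨s', hs'', hv'⟩ := e5 hv
        rcases (k5 s' hs'').1 hv' with h | h
        · exact ⟨s', by omega, h⟩
        · exact ⟨N, hNlt, h⟩
    · intro s hs s' hs' hne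
      by_cases hsN : s = N
      · have hs'N : s' ≠ N := fun h => hne (hsN.trans h.symm)
        rw [hsN, hD1, hD2 s' hs'N]
        exact hanti s' (by omega)
      · by_cases hs'N : s' = N
        · rw [hs'N, hD1, hD2 s hsN]
          exact (hanti s (by omega)).symm
        · rw [hD2 s hsN, hD2 s' hs'N]
          exact d2 s (by omega) s' (by omega) hne

end Pool.Agent.IM55.PL
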