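import Pool.Agent.Work.MP_55ff09_co.PL.Base

/-!
# MP_55ff09_co, block PL, item PRD: product structure from the labels
-/

set_option autoImplicit false

namespace Pool.Agent.IM55.PL

open SimpleGraph Pool.Agent.IM55

namespace XPRD

/-- the vertices of one label in one layer can be numbered -/
theorem exists_num {V : Type} [Finite V] (c : ℕ) (ly : V → ℕ) (lb : V → V)
    (h : ∀ i j, {v | lb v = i ∧ ly v = j}.ncard ≤ c) :
    ∃ num : V → Fin c, ∀ u v, lb u = lb v → ly u = ly v → num u = num v → u = v := by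
  classical
  have key : ∀ i j, Nonempty ({v | lb v = i ∧ ly v = j} ↪ Fin c) := by
    intro i j
    have : Fintype {v | lb v = i ∧ ly v = j} := Fintype.ofFinite _
    apply Function.Embedding.nonempty_of_card_le
    rw [Fintype.card_fin, ← Nat.card_eq_fintype_card]
    exact h i j
  refine ⟨fun v => (key (lb v) (ly v)).some ⟨v, rfl, rfl⟩, fun u v h1 h2 h3 => ?_⟩
  have h4 : ∀ (i : V) (j : ℕ) (hu : lb u = i ∧ ly u = j) (hv : lb v = i ∧ ly v = j),
      (key i j).some ⟨u, hu⟩ = (key i j).some ⟨v, hv⟩ → u = v := by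
    intro i j hu hv he
    have := (key i j).some.injective he
    exact congrArg Subtype.val this
  have h5 : ∀ (i : V) (j : ℕ) (hu : lb u = i ∧ ly u = j),
      (key (lb u) (ly u)).some ⟨u, rfl, rfl⟩ = (key i j).some ⟨u, hu⟩ := by
    rintro i j ⟨rfl, rfl⟩
    rfl
  refine h4 (lb v) (ly v) ⟨h1, h2⟩ ⟨rfl, rfl⟩ ?_
  rw [← h5 (lb v) (ly v) ⟨h1, h2⟩]
  exact h3

/-- blow-up of a graph -/
def JB {V : Type} (Q : SimpleGraph V) (c : ℕ) : SimpleGraph (V × Fin c) where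
  Adj p q := p ≠ q ∧ (p.1 = q.1 ∨ Q.Adj p.1 q.1)
  symm := ⟨by
    rintro p q ⟨h1, h2⟩
    exact ⟨h1.symm, h2.imp (fun e => e.symm) (fun e => e.symm)⟩⟩
  loopless := ⟨by
    rintro p ⟨h1, -⟩
    exact h1 rfl⟩

theorem tw {V : Type} (Q : SimpleGraph V) (c W : ℕ) (h : TreewidthLE Q W) :
    TreewidthLE (JB Q c) (c * (W + 1)) := by
  obtain ⟨T, t, bag, ht, hv, he, hb⟩ := h
  refine ⟨T, t, fun x => bag x ×ˢ Set.univ, ht, ?_, ?_, ?_⟩
  · rintro ⟨i, a⟩
    have : {x | (i, a) ∈ bag x ×ˢ (Set.univ : Set (Fin c))} = {x | i ∈ bag x} := by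
      ext x; simp
    rw [this]
    exact hv i
  · rintro ⟨i, a⟩ ⟨i', a'⟩ ⟨-, h2⟩
    rcases h2 with h2 | h2
    · have h2' : i = i' := h2
      subst h2'
      obtain ⟨⟨x, hx⟩⟩ := (hv i).nonempty
      exact ⟨x, ⟨hx, trivial⟩, ⟨hx, trivial⟩⟩
    · obtain ⟨x, hx, hx'⟩ := he i i' h2
      exact ⟨x, ⟨hx, trivial⟩, ⟨hx', trivial⟩⟩
  · intro x
    have h1 : (bag x ×ˢ (Set.univ : Set (Fin c))).encard = (bag x).encard * (c : ℕ∞) := by
      rw [Set.encard_prod, Set.encard_univ]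
      simp
    rw [h1]
    calc (bag x).encard * (c : ℕ∞) ≤ ((W : ℕ∞) + 1) * c := by
          exact mul_le_mul_left (hb x) _
      _ = ((c * (W + 1) : ℕ) : ℕ∞) := by
          push_cast; ring
      _ ≤ ((c * (W + 1) : ℕ) : ℕ∞) + 1 := le_self_add

end XPRD

theorem i_PRD : S_PRD := by
  classical
  intro V _ G c W r ly lb co hL hT
  obtain ⟨num, hnum⟩ := XPRD.exists_num c ly lb hL.width
  obtain ⟨k, hk⟩ : ∃ k, ∀ v, ly v < k := by
    obtain ⟨b, hb⟩ := (Set.finite_range ly).bddAbove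
    exact ⟨b + 1, fun v => Nat.lt_succ_of_le (hb ⟨v, rfl⟩)⟩
  refine ⟨V × Fin c, XPRD.JB (qG G lb) c, k, fun v => ((lb v, num v), ⟨ly v, hk v⟩),
    XPRD.tw _ _ _ hT, ?_, ?_⟩
  · intro u v h
    simp only [Prod.mk.injEq, Fin.mk.injEq] at h
    exact hnum u v h.1.1 h.2 h.1.2
  · intro u v huv
    refine ⟨?_, ?_⟩
    · by_cases h : ((lb u, num u) : V × Fin c) = (lb v, num v)
      · exact Or.inl h
      · refine Or.inr ⟨h, ?_⟩
        by_cases h' : lb u = lb v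
        · exact Or.inl h'
        · refine Or.inr ?_
          show (qG G lb).Adj (lb u) (lb v)
          rw [qG, SimpleGraph.fromRel_adj]
          exact ⟨h', Or.inl ⟨u, v, rfl, rfl, huv⟩⟩
    · have h1 := hL.lay u v huv
      have h2 := hL.lay v u huv.symm
      show (⟨ly u, hk u⟩ : Fin k) = ⟨ly v, hk v⟩ ∨
        (SimpleGraph.pathGraph k).Adj ⟨ly u, hk u⟩ ⟨ly v, hk v⟩
      rw [SimpleGraph.pathGraph_adj, Fin.mk.injEq]
      simp only
      omega

end Pool.Agent.IM55.PL
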