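import Pool.Agent.Work.MP_55ff09_co.PL.Base

/-!
# MP_55ff09_co, block PL: item PSB (restriction of the rows to a subsequence)
-/

set_option autoImplicit false

namespace Pool.Agent.IM55.PL

open SimpleGraph Pool.Agent.IM55

namespace XPSB

theorem chain {V : Type} {W : ℕ → Set V} {g : ℕ} (h : ∀ k < g, W k ⊆ W (k + 1)) {a b : ℕ}
    (hab : a ≤ b) (hb : b ≤ g) : W a ⊆ W b := by
  induction b, hab using Nat.le_induction with
  | base => exact subset_refl _
  | succ b hab ih => exact (ih (by omega)).trans (h b (by omega))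

/-- the indices of the new walls -/
def ix (φ : ℕ → ℕ) (g k : ℕ) : ℕ := if k < g then φ k else if g = 0 then 0 else φ (g - 1) + 1

theorem ix_lt {φ : ℕ → ℕ} {g k : ℕ} (h : k < g) : ix φ g k = φ k := by
  unfold ix
  rw [if_pos h]

theorem ix_le {φ : ℕ → ℕ} {g g' k : ℕ} (h : ∀ k < g, φ k < g') : ix φ g k ≤ g' := by
  unfold ix
  split_ifs with h1 h2
  · exact (h k h1).le
  · exact Nat.zero_le _
  · exact h (g - 1) (by omega)

theorem ix_succ {φ : ℕ → ℕ} {g k : ℕ} (h : ∀ k < g, ∀ k' < g, k < k' → φ k < φ k')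
    (hk : k < g) : φ k + 1 ≤ ix φ g (k + 1) := by
  unfold ix
  split_ifs with h1 h2
  · exact h k hk (k + 1) h1 (Nat.lt_succ_self k)
  · omega
  · have e : g - 1 = k := by omega
    rw [e]

end XPSB

open XPSB in
theorem i_PSB : S_PSB := by
  intro V G r Lg U B t g g' K₀ W R w l τ φ hP hφ hmono
  refine ⟨fun k => W (ix φ g k), ?_⟩
  have hne : ∀ k < g, ∀ k' < g, k ≠ k' → φ k ≠ φ k' := by
    intro k hk k' hk' hkk
    rcases Nat.lt_or_gt_of_ne hkk with h | h
    · exact (hmono k hk k' hk' h).ne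
    · exact (hmono k' hk' k hk h).ne'
  refine
    { ip := hP.ip
      sub := hP.sub
      col := hP.col
      mono := ?_
      wsub := fun k _ => hP.wsub _ (ix_le hφ)
      wall := fun j hj k _ => hP.wall j hj _ (ix_le hφ)
      rconn := fun k hk => hP.rconn _ (hφ k hk)
      ranti := fun k hk k' hk' h => hP.ranti _ (hφ k hk) _ (hφ k' hk') (hne k hk k' hk' h)
      up := ?_
      low := ?_
      len := fun j hj k hk => hP.len j hj _ (hφ k hk)
      con := fun j hj k hk => hP.con j hj _ (hφ k hk)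
      leg := fun j hj k hk k' hk' h =>
        hP.leg j hj _ (hφ k hk) _ (hφ k' hk') (hne k' hk' k hk h)
      legc := fun j hj k hk j' hj' h => hP.legc j hj _ (hφ k hk) j' hj' h }
  · intro k hk
    refine chain hP.mono ?_ (ix_le hφ)
    rw [ix_lt hk]
    have := ix_succ hmono hk
    omega
  · intro k hk
    obtain ⟨h1, h2⟩ := hP.up (φ k) (hφ k hk)
    have h3 : W (φ k + 1) ⊆ W (ix φ g (k + 1)) :=
      chain hP.mono (ix_succ hmono hk) (ix_le hφ)
    refine ⟨h1.trans h3, ?_⟩
    rw [Set.disjoint_left] at h2 ⊢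
    intro x hx hxb
    exact h2 hx (bd_anti h3 (h1 hx) hxb)
  · intro k hk
    change Disjoint (R (φ k)) (W (ix φ g k))
    rw [ix_lt hk]
    exact hP.low (φ k) (hφ k hk)

end Pool.Agent.IM55.PL
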