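import Pool.Agent.Work.MP_55ff09_co.PL.Base

set_option autoImplicit false

namespace Pool.Agent.IM55.PL

open SimpleGraph Pool.Agent.IM55

namespace XPTH

variable {V : Type} {G : SimpleGraph V}

theorem TL_mono {lb : V → V} {X Y B : Set V} (h : X ⊆ Y) (hT : TL G lb X B) : TL G lb Y B := by
  obtain ⟨y, hy, hB⟩ := hT
  exact ⟨y, clN_mono h hy, hB⟩

theorem TL_point {lb : V → V} {w : ℕ → V} {l a : ℕ} {B : Set V} (ha : a ≤ l)
    (hT : TL G lb {w a} B) : TL G lb (rng w l) B := by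
  apply TL_mono _ hT
  intro x hx
  rw [Set.mem_singleton_iff] at hx
  subst hx
  exact ⟨a, ha, rfl⟩

theorem used {lb : V → V} {k : ℕ} {BB : Set (Set V)} (hk : 2 ≤ k) (hB : Brm (qG G lb) k BB)
    {B : Set V} (hBB : B ∈ BB) {i : V} (hi : i ∈ B) : ∃ v, lb v = i := by
  by_contra hno
  push Not at hno
  have hiso : ∀ j, ¬ (qG G lb).Adj i j := by
    intro j hj
    unfold qG at hj
    rw [SimpleGraph.fromRel_adj] at hj
    obtain ⟨-, ⟨u, v, hu, -, -⟩ | ⟨u, v, -, hv, -⟩⟩ := hj
    · exact hno u hu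
    · exact hno v hv
  have hBs : ∀ j ∈ B, j = i := by
    intro j hj
    by_contra hji
    obtain ⟨u, hu, v, hv, h1, h2, h3⟩ := exit_edge (hB.conn B hBB) (fun z => z = i) hi rfl hj hji
    subst h1
    exact hiso v h3
  obtain ⟨B', hB', hdis⟩ := hB.ord {i} (by rw [Set.ncard_singleton]; omega)
  obtain ⟨x, hx, hx'⟩ := hB.int B hBB B' hB'
  have hxi := hBs x hx
  subst hxi
  exact Set.disjoint_left.1 hdis hx' rfl

end XPTH

open XPTH in
theorem i_PTH (hEXT : S_EXT) : S_PTH := by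
  intro V _ G c r ly lb co k BB hLab hk hB
  classical
  have hfin : BB.Finite := Set.toFinite _
  have main : ∀ N : ℕ, ∀ (w : ℕ → V) (l : ℕ) (B : Set V), B ∈ BB →
      Tip G lb co (2 * c + 1) B w l →
      {B' | B' ∈ BB ∧ ¬ TL G lb (rng w l) B'}.ncard ≤ N →
      ∃ (w' : ℕ → V) (l' : ℕ), IP G w' l' ∧ Thin lb co (2 * c + 1) (rng w' l') ∧
        (∀ a b d, a ≤ b → b ≤ d → d ≤ l' → lb (w' a) = lb (w' d) → lb (w' b) = lb (w' a)) ∧
        ∀ B ∈ BB, TL G lb (rng w' l') B := by
    intro N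
    induction N with
    | zero =>
      intro w l B hBB hT hN
      refine ⟨w, l, hT.ip, hT.thin, hT.cont, fun B' hB' => ?_⟩
      by_contra hno
      have h0 : {B' | B' ∈ BB ∧ ¬ TL G lb (rng w l) B'}.ncard = 0 := Nat.le_zero.1 hN
      rw [Set.ncard_eq_zero (hfin.subset fun x hx => hx.1)] at h0
      have : B' ∈ {B' | B' ∈ BB ∧ ¬ TL G lb (rng w l) B'} := ⟨hB', hno⟩
      rw [h0] at this
      exact this
    | succ N ih =>
      intro w l B hBB hT hN
      by_cases hall : ∀ B' ∈ BB, TL G lb (rng w l) B'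
      · exact ⟨w, l, hT.ip, hT.thin, hT.cont, hall⟩
      · push Not at hall
        obtain ⟨B', hB', hno⟩ := hall
        obtain ⟨w', l', h1, h2, h3⟩ := hEXT G c r ly lb co w l B B' hLab hT (hB.conn B hBB)
          (hB.int B hBB B' hB') (fun i hi => used hk hB hBB hi)
          (fun a ha hTa => hno (TL_point ha hTa))
        have hsub : rng w l ⊆ rng w' l' := by
          rintro v ⟨i, hi, rfl⟩
          exact ⟨i, hi.trans h2, h1 i hi⟩
        have hT' : TL G lb (rng w' l') B' := TL_point le_rfl h3.last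
        apply ih w' l' B' hB' h3
        have hss : {B'' | B'' ∈ BB ∧ ¬ TL G lb (rng w' l') B''} ⊂
            {B'' | B'' ∈ BB ∧ ¬ TL G lb (rng w l) B''} := by
          constructor
          · rintro C ⟨hC, hCn⟩
            exact ⟨hC, fun h => hCn (TL_mono hsub h)⟩
          · intro hle
            exact (hle ⟨hB', hno⟩).2 hT'
        have := Set.ncard_lt_ncard hss (hfin.subset fun x hx => hx.1)
        omega
  obtain ⟨B₀, hB₀, -⟩ := hB.ord ∅ (by rw [Set.ncard_empty]; omega)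
  obtain ⟨i, hi, -⟩ := hB.int B₀ hB₀ B₀ hB₀
  obtain ⟨v, hv⟩ := used hk hB hB₀ hi
  have hr : rng (fun _ : ℕ => v) 0 = {v} := by
    ext x
    constructor
    · rintro ⟨j, -, rfl⟩
      rfl
    · rintro rfl
      exact ⟨0, le_rfl, rfl⟩
  have hTip : Tip G lb co (2 * c + 1) B₀ (fun _ : ℕ => v) 0 := by
    refine ⟨⟨?_, ?_, ?_⟩, ?_, ?_, ?_, ?_⟩
    · intro i hi
      omega
    · intro i hi j hj _
      omega
    · intro i _ j _ h
      exact absurd h (G.irrefl)
    · intro j
      rw [hr]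
      have : {x | x ∈ ({v} : Set V) ∧ lb x = j ∧ x ∉ co} ⊆ {v} := fun x hx => hx.1
      have h1 := Set.ncard_le_ncard this (Set.finite_singleton v)
      rw [Set.ncard_singleton] at h1
      omega
    · intro a b d _ _ _ _
      rfl
    · refine ⟨v, subset_clN _ rfl, ?_⟩
      rw [hv]
      exact hi
    · intro i hi
      omega
  exact main _ _ _ B₀ hB₀ hTip le_rfl

end Pool.Agent.IM55.PL
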