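import Pool.Agent.Work.MP_55ff09_co.PL.Base

/-!
# MP_55ff09_co, block PL, item RAD: a free annulus
-/

set_option autoImplicit false

namespace Pool.Agent.IM55.PL

open SimpleGraph Pool.Agent.IM55

namespace XRAD

theorem near_mono {R R' : ℤ} {p q : ℤ × ℤ} (h : Near R p q) (hR : R ≤ R') : Near R' p q :=
  ⟨h.1.trans hR, h.2.trans hR⟩

end XRAD

open XRAD in
theorem i_RAD : S_RAD := by
  intro k z F q hF
  by_contra hcon
  push Not at hcon
  have hex : ∀ i : ℕ, i ≤ k → ∃ p ∈ F, Near ((i * (z + 2) : ℕ) + (z + 1)) p q ∧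
      ¬ Near ((i * (z + 2) : ℕ) : ℤ) p q := by
    intro i hi
    exact hcon (i * (z + 2)) (Nat.mul_le_mul_right _ hi)
  choose! p hp1 hp2 hp3 using hex
  have hlt : ∀ i j : ℕ, i < j → j ≤ k → p i ≠ p j := by
    intro i j hij hj he
    apply hp3 j hj
    rw [← he]
    refine near_mono (hp2 i (by omega)) ?_
    have h1 : (i + 1) * (z + 2) ≤ j * (z + 2) := Nat.mul_le_mul_right _ hij
    have h2 : (i + 1) * (z + 2) = i * (z + 2) + (z + 2) := by ring
    generalize i * (z + 2) = u at *
    generalize j * (z + 2) = v at *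
    omega
  have hcard : (Finset.range (k + 1)).card ≤ F.card := by
    refine Finset.card_le_card_of_injOn p ?_ ?_
    · intro i hi
      have hi' := Finset.mem_range.1 (Finset.mem_coe.1 hi)
      exact Finset.mem_coe.2 (hp1 i (by omega))
    · intro i hi j hj hij
      have hi' := Finset.mem_range.1 (Finset.mem_coe.1 hi)
      have hj' := Finset.mem_range.1 (Finset.mem_coe.1 hj)
      by_contra hne
      rcases lt_or_gt_of_ne hne with h | h
      · exact hlt i j h (by omega) hij
      · exact hlt j i h (by omega) hij.symm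
  rw [Finset.card_range] at hcard
  omega

end Pool.Agent.IM55.PL
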