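import Pool.Agent.Work.MP_55ff09_co.PL.Base

/-!
# MP_55ff09_co, block PL: item RLZ (realisation of a connected set of labels)
-/

set_option autoImplicit false

namespace Pool.Agent.IM55.PL

open SimpleGraph Pool.Agent.IM55

namespace XRLZ

variable {V : Type} {G : SimpleGraph V}

theorem qG_edge {lb : V → V} {i j : V} (h : (qG G lb).Adj i j) :
    ∃ u v, lb u = i ∧ lb v = j ∧ G.Adj u v := by
  rw [qG, SimpleGraph.fromRel_adj] at h
  obtain ⟨-, ⟨u, v, hu, hv, h⟩ | ⟨u, v, hu, hv, h⟩⟩ := h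
  · exact ⟨u, v, hu, hv, h⟩
  · exact ⟨v, u, hv, hu, h.symm⟩

/-- one label class: a connected set that contains two given vertices -/
theorem one [Finite V] {c : ℕ} {r : V} {ly : V → ℕ} {lb : V → V} {co : Set V}
    (hL : Lab G c r ly lb co) {x y : V} (h : lb x = lb y) :
    ∃ C : Set V, (G.induce C).Connected ∧ x ∈ C ∧ y ∈ C ∧ (∀ v ∈ C, lb v = lb y) ∧
      {v | v ∈ C ∧ v ∉ co}.ncard ≤ 2 * c := by
  obtain ⟨Dx, hDx, hxD, hDxco, hDxc, hDxi⟩ := hL.reach x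
  obtain ⟨Dy, hDy, hyD, hDyco, hDyc, hDyi⟩ := hL.reach y
  have hcore := hL.conn y
  refine ⟨(Dx ∪ {z | z ∈ co ∧ lb z = lb y}) ∪ Dy, ?_, Or.inl (Or.inl hxD), Or.inr hyD, ?_, ?_⟩
  · refine conn_union (conn_union hDx hcore ?_) hDy ?_
    · obtain ⟨z, hz, hzco⟩ := hDxco
      exact ⟨z, hz, z, ⟨hzco, by rw [hDxi z hz, h]⟩, Or.inl rfl⟩
    · obtain ⟨z, hz, hzco⟩ := hDyco
      exact ⟨z, Or.inr ⟨hzco, hDyi z hz⟩, z, hz, Or.inl rfl⟩
  · rintro z ((hz | hz) | hz)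
    · rw [hDxi z hz, h]
    · exact hz.2
    · exact hDyi z hz
  · have hsub : {v | v ∈ (Dx ∪ {z | z ∈ co ∧ lb z = lb y}) ∪ Dy ∧ v ∉ co} ⊆ Dx ∪ Dy := by
      rintro z ⟨(hz | hz) | hz, hzc⟩
      · exact Or.inl hz
      · exact absurd hz.1 hzc
      · exact Or.inr hz
    calc _ ≤ (Dx ∪ Dy).ncard := Set.ncard_le_ncard hsub (Set.toFinite _)
      _ ≤ Dx.ncard + Dy.ncard := Set.ncard_union_le _ _
      _ ≤ c + c := Nat.add_le_add hDxc hDyc
      _ = 2 * c := by ring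

/-- a path of labels -/
theorem chain [Finite V] {c : ℕ} {r : V} {ly : V → ℕ} {lb : V → V} {co : Set V}
    (hL : Lab G c r ly lb co) {w : ℕ → V} {x : V} (hx : lb x = w 0) (l : ℕ)
    (hadj : ∀ i < l, (qG G lb).Adj (w i) (w (i + 1)))
    (hinj : ∀ i ≤ l, ∀ j ≤ l, w i = w j → i = j) :
    ∀ y, lb y = w l → ∃ C : Set V, (G.induce C).Connected ∧ x ∈ C ∧ y ∈ C ∧
      (∀ v ∈ C, ∃ j ≤ l, lb v = w j) ∧ Thin lb co (2 * c) C := by
  induction l with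
  | zero =>
    intro y hy
    obtain ⟨C, h1, h2, h3, h4, h5⟩ := one hL (x := x) (y := y) (by rw [hx, hy])
    refine ⟨C, h1, h2, h3, fun v hv => ⟨0, le_rfl, by rw [h4 v hv, hy]⟩, fun i => ?_⟩
    refine le_trans (Set.ncard_le_ncard ?_ (Set.toFinite _)) h5
    rintro z ⟨hz, -, hzc⟩
    exact ⟨hz, hzc⟩
  | succ l ih =>
    intro y hy
    obtain ⟨u, v, hu, hv, huv⟩ := qG_edge (hadj l (Nat.lt_succ_self l))
    obtain ⟨C', h1', h2', h3', h4', h5'⟩ := ih (fun i hi => hadj i (by omega))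
      (fun i hi j hj => hinj i (by omega) j (by omega)) u hu
    obtain ⟨C, h1, h2, h3, h4, h5⟩ := one hL (x := v) (y := y) (by rw [hv, hy])
    refine ⟨C' ∪ C, conn_union h1' h1 ⟨u, h3', v, h2, Or.inr huv⟩, Or.inl h2', Or.inr h3, ?_, ?_⟩
    · rintro z (hz | hz)
      · obtain ⟨j, hj, e⟩ := h4' z hz
        exact ⟨j, by omega, e⟩
      · exact ⟨l + 1, le_rfl, by rw [h4 z hz, hy]⟩
    · intro i
      by_cases hi : i = w (l + 1)
      · refine le_trans (Set.ncard_le_ncard ?_ (Set.toFinite _)) h5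
        rintro z ⟨hz | hz, hzi, hzc⟩
        · exfalso
          obtain ⟨j, hj, e⟩ := h4' z hz
          have := hinj j (by omega) (l + 1) le_rfl (by rw [← e, hzi, hi])
          omega
        · exact ⟨hz, hzc⟩
      · refine le_trans (Set.ncard_le_ncard ?_ (Set.toFinite _)) (h5' i)
        rintro z ⟨hz | hz, hzi, hzc⟩
        · exact ⟨hz, hzi, hzc⟩
        · exact absurd (by rw [← hzi, h4 z hz, hy]) hi

end XRLZ

open XRLZ in
theorem i_RLZ (hIPA : S_IPA) : S_RLZ := by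
  intro V _ G c r ly lb co hL Q x y hQ hx hy
  obtain ⟨w, l, hw⟩ := hIPA (qG G lb) Q {lb x} {lb y} Q
    ⟨hQ, subset_refl _, ⟨lb x, hx, rfl⟩, ⟨lb y, hy, rfl⟩⟩
  have h0 : w 0 = lb x := (hw.hA 0 (Nat.zero_le _)).2 rfl
  have hl : w l = lb y := (hw.hB l le_rfl).2 rfl
  obtain ⟨C, h1, h2, h3, h4, h5⟩ := chain hL (w := w) (x := x) h0.symm l hw.ip.adj hw.ip.inj y
    hl.symm
  refine ⟨C, h1, h2, h3, fun v hv => ?_, h5⟩
  obtain ⟨j, hj, e⟩ := h4 v hv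
  rw [e]
  exact hw.sub ⟨j, hj, rfl⟩

end Pool.Agent.IM55.PL
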