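import Pool.Agent.Work.MP_55ff09_co.PL.Base

/-!
# MP_55ff09_co, block PL, item SEL: selection of slots without conflicts
-/

set_option autoImplicit false

namespace Pool.Agent.IM55.PL

open SimpleGraph Pool.Agent.IM55

namespace XSEL

/-- the slot of a candidate. -/
def slot (n N m : ℕ) (d : (Fin n × Fin n) × Fin N) (c : Fin m) :
    (Fin n × Fin n) × Fin (N * m) :=
  (d.1, finProdFinEquiv (d.2, c))

theorem slot_inj {n N m : ℕ} {d d' : (Fin n × Fin n) × Fin N} {c c' : Fin m}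
    (h : slot n N m d c = slot n N m d' c') : d = d' ∧ c = c' := by
  unfold slot at h
  rw [Prod.mk.injEq] at h
  have h2 := finProdFinEquiv.injective h.2
  rw [Prod.mk.injEq] at h2
  exact ⟨Prod.ext h.1 h2.1, h2.2⟩

/-- the conflicts; the element `none` stands for `Z₀`. -/
def Rr {n N m : ℕ} (Q : (Fin n × Fin n) × Fin (N * m) → Set (ℤ × ℤ))
    (Fs : Option ((Fin n × Fin n) × Fin N) × Fin m → Finset (ℤ × ℤ))
    (x y : Option ((Fin n × Fin n) × Fin N) × Fin m) : Prop :=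
  ∃ d, y.1 = some d ∧ ∃ p ∈ Fs x, p ∈ Q (slot n N m d y.2)

theorem out_le {n N m k : ℕ} (Q : (Fin n × Fin n) × Fin (N * m) → Set (ℤ × ℤ))
    (Fs : Option ((Fin n × Fin n) × Fin N) × Fin m → Finset (ℤ × ℤ))
    (hQ : ∀ p d d', p ∈ Q d → p ∈ Q d' → d = d') (hF : ∀ x, (Fs x).card ≤ k)
    (x : Option ((Fin n × Fin n) × Fin N) × Fin m) : {y | Rr Q Fs x y}.ncard ≤ k := by
  classical
  refine le_trans ?_ (hF x)
  rw [← Set.ncard_coe_finset]
  have hch : ∀ y, ∃ p : ℤ × ℤ, Rr Q Fs x y → p ∈ Fs x ∧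
      ∃ d, y.1 = some d ∧ p ∈ Q (slot n N m d y.2) := by
    intro y
    by_cases h : Rr Q Fs x y
    · obtain ⟨d, hd, p, hp, hpQ⟩ := h
      exact ⟨p, fun _ => ⟨hp, d, hd, hpQ⟩⟩
    · exact ⟨(0, 0), fun h' => absurd h' h⟩
  choose g hg using hch
  refine Set.ncard_le_ncard_of_injOn g (fun y hy => (hg y hy).1) ?_ (Finset.finite_toSet _)
  intro y hy y' hy' h
  obtain ⟨-, d, hd, hdQ⟩ := hg y hy
  obtain ⟨-, d', hd', hdQ'⟩ := hg y' hy'
  rw [h] at hdQ
  obtain ⟨h1, h2⟩ := slot_inj (hQ _ _ _ hdQ hdQ')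
  refine Prod.ext ?_ h2
  rw [hd, hd', h1]

end XSEL

open XSEL in
theorem i_SEL (h : ClaimTrans) : S_SEL := by
  intro n N k
  obtain ⟨m, hm⟩ : ∃ m, m = (n * n * N + 1) * k + 1 := ⟨_, rfl⟩
  refine ⟨N * m, ?_⟩
  intro Q F Z₀ hQ hF hZ
  obtain ⟨f, hf⟩ := h (Option ((Fin n × Fin n) × Fin N)) inferInstance m k
    (Rr Q (fun x => x.1.elim Z₀ (fun d => F (slot n N m d x.2))))
    (out_le Q _ hQ (by
      rintro ⟨x | x, c⟩
      · exact hZ
      · exact hF _))
    (by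
      rw [Fintype.card_option, Fintype.card_prod, Fintype.card_prod, Fintype.card_fin,
        Fintype.card_fin, hm]
      omega)
  refine ⟨fun d => finProdFinEquiv (d.2, f (some d)), ?_, ?_, ?_⟩
  · intro u t t' ht
    have h2 := finProdFinEquiv.injective ht
    rw [Prod.mk.injEq] at h2
    exact h2.1
  · intro d p hp hpQ
    exact hf none (some d) (by simp) ⟨d, rfl, p, hp, hpQ⟩
  · intro d d' hdd p hp hpQ
    exact hf (some d) (some d') (fun e => hdd (Option.some.inj e)) ⟨d', rfl, p, hp, hpQ⟩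

end Pool.Agent.IM55.PL
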