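import Pool.Agent.Work.MP_55ff09_co.PL.Base

/-!
# MP_55ff09_co, block PL: item SID (pigeonhole for patterns)
-/

set_option autoImplicit false

namespace Pool.Agent.IM55.PL

open SimpleGraph Pool.Agent.IM55

namespace XSID

/-- `k` different elements of a set with at least `k` elements -/
theorem pick (S : Finset ℕ) (k : ℕ) (h : k ≤ S.card) :
    ∃ f : ℕ → ℕ, (∀ i < k, f i ∈ S) ∧ ∀ i < k, ∀ j < k, i ≠ j → f i ≠ f j := by
  obtain ⟨T, hT, hc⟩ := Finset.exists_subset_card_eq h
  refine ⟨fun i => if hi : i < k then T.orderEmbOfFin hc ⟨i, hi⟩ else 0, ?_, ?_⟩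
  · intro i hi
    simp only [hi, dif_pos]
    exact hT (Finset.orderEmbOfFin_mem _ _ _)
  · intro i hi j hj hij he
    simp only [hi, hj, dif_pos] at he
    have := (T.orderEmbOfFin hc).injective he
    exact hij (by simpa using this)

end XSID

open XSID

theorem i_SID : S_SID := by
  classical
  intro n σ
  refine ⟨(σ + 1) * (2 ^ (2 * n) * (n * n)) + 2 * n + 1, ?_⟩
  intro Up x₀ y₀
  set m := 2 ^ (2 * n) * (n * n) with hm
  let p : ℕ → Finset ℕ := fun i =>
    (Finset.range (2 * n)).filter (fun j => Up (x₀ + ((σ + 1) * i : ℕ), y₀ + (j : ℕ)))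
  have h1 : ∃ q ∈ (Finset.range (2 * n)).powerset,
      n * n ≤ ((Finset.range m).filter fun i => p i = q).card := by
    apply Finset.exists_le_card_fiber_of_mul_le_card_of_maps_to
    · intro i _
      rw [Finset.mem_powerset]
      exact Finset.filter_subset _ _
    · exact ⟨∅, Finset.empty_mem_powerset _⟩
    · rw [Finset.card_powerset, Finset.card_range, Finset.card_range]
  obtain ⟨q, hq, hcard⟩ := h1
  rw [Finset.mem_powerset] at hq
  obtain ⟨f, hf, hfi⟩ := pick _ _ hcard
  have hf1 : ∀ i < n * n, f i < m := by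
    intro i hi
    have := hf i hi
    rw [Finset.mem_filter, Finset.mem_range] at this
    exact this.1
  have hf2 : ∀ i < n * n, ∀ j < 2 * n,
      (Up (x₀ + ((σ + 1) * f i : ℕ), y₀ + (j : ℕ)) ↔ j ∈ q) := by
    intro i hi j hj
    have := hf i hi
    rw [Finset.mem_filter, Finset.mem_range] at this
    rw [← this.2]
    simp only [p, Finset.mem_filter, Finset.mem_range]
    exact ⟨fun h => ⟨hj, h⟩, fun h => h.2⟩
  have hcol : ∃ g : ℕ → ℕ, (∀ j < n, g j < 2 * n) ∧ (∀ j < n, ∀ j' < n, j ≠ j' → g j ≠ g j') ∧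
      ((∀ j < n, g j ∈ q) ∨ ∀ j < n, g j ∉ q) := by
    rcases Nat.lt_or_ge q.card n with h | h
    · have hc : n ≤ (Finset.range (2 * n) \ q).card := by
        rw [Finset.card_sdiff_of_subset hq, Finset.card_range]
        omega
      obtain ⟨g, hg, hgi⟩ := pick _ _ hc
      refine ⟨g, fun j hj => ?_, hgi, Or.inr fun j hj => ?_⟩
      · exact Finset.mem_range.1 (Finset.mem_sdiff.1 (hg j hj)).1
      · exact (Finset.mem_sdiff.1 (hg j hj)).2
    · obtain ⟨g, hg, hgi⟩ := pick _ _ h
      exact ⟨g, fun j hj => Finset.mem_range.1 (hq (hg j hj)), hgi, Or.inl hg⟩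
  obtain ⟨g, hg1, hg2, hg3⟩ := hcol
  refine ⟨fun i => x₀ + ((σ + 1) * f i : ℕ), fun j => y₀ + (g j : ℕ), ?_, ?_, ?_, ?_, ?_⟩
  · intro i hi
    have h2 : (σ + 1) * f i ≤ (σ + 1) * m := Nat.mul_le_mul_left _ (hf1 i hi).le
    constructor
    · simp only
      omega
    · simp only
      omega
  · intro j hj
    have h2 := hg1 j hj
    constructor
    · simp only
      omega
    · simp only
      omega
  · intro i hi i' hi' hne
    have h2 := hfi i hi i' hi' hne
    have e : (x₀ + (((σ + 1) * f i : ℕ) : ℤ)) - (x₀ + (((σ + 1) * f i' : ℕ) : ℤ)) =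
        ((σ : ℤ) + 1) * ((f i : ℤ) - f i') := by
      push_cast
      ring
    show (σ : ℤ) ≤ |(x₀ + (((σ + 1) * f i : ℕ) : ℤ)) - (x₀ + (((σ + 1) * f i' : ℕ) : ℤ))|
    rw [e, abs_mul]
    have h3 : (1 : ℤ) ≤ |(f i : ℤ) - f i'| := by
      apply Int.one_le_abs
      intro h
      apply h2
      omega
    have h4 : |(σ : ℤ) + 1| = (σ : ℤ) + 1 := abs_of_nonneg (by positivity)
    rw [h4]
    nlinarith
  · intro j hj j' hj' hne he
    apply hg2 j hj j' hj' hne
    simp only at he
    omega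
  · rcases hg3 with h | h
    · left
      intro i hi j hj
      exact (hf2 i hi (g j) (hg1 j hj)).2 (h j hj)
    · right
      intro i hi j hj hU
      exact h j hj ((hf2 i hi (g j) (hg1 j hj)).1 hU)

end Pool.Agent.IM55.PL
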