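import Pool.Agent.Work.MP_55ff09_co.PL.Base

/-!
# MP_55ff09_co, block PL, item SLT (slots)
-/

set_option autoImplicit false

namespace Pool.Agent.IM55.PL

open SimpleGraph Pool.Agent.IM55

namespace XSLT

theorem mul_step {i j : ℕ} {L : ℤ} (hL : 0 ≤ L) (h : i < j) : (i : ℤ) * L + L ≤ (j : ℤ) * L := by
  have h1 : ((i : ℤ) + 1) * L ≤ (j : ℤ) * L :=
    mul_le_mul_of_nonneg_right (by exact_mod_cast h) hL
  linarith

theorem mul_le {i j : ℕ} {L : ℤ} (hL : 0 ≤ L) (h : i ≤ j) : (i : ℤ) * L ≤ (j : ℤ) * L :=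
  mul_le_mul_of_nonneg_right (by exact_mod_cast h) hL

end XSLT

open XSLT in
theorem i_SLT : S_SLT := by
  intro n N s ρ lo
  set w : ℕ := s + 2 * ρ + 2 with hw
  set L : ℕ := (N + 2) * w + lo with hL
  have hLz : (L : ℤ) = ((N : ℤ) + 2) * (w : ℤ) + lo := by rw [hL]; push_cast; ring
  have hwz : (w : ℤ) = s + 2 * ρ + 2 := by rw [hw]; push_cast; ring
  have hNw : (0 : ℤ) ≤ (N : ℤ) * (w : ℤ) := by positivity
  have hw0 : (0 : ℤ) ≤ (w : ℤ) := by positivity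
  have hlo : (0 : ℤ) ≤ (lo : ℤ) := by positivity
  have hs0 : (0 : ℤ) ≤ (s : ℤ) := by positivity
  have hρ0 : (0 : ℤ) ≤ (ρ : ℤ) := by positivity
  have hL0 : (0 : ℤ) ≤ (L : ℤ) := by positivity
  have hLw : 2 * (w : ℤ) ≤ (L : ℤ) := by rw [hLz]; nlinarith
  refine ⟨L, by rw [hL]; exact Nat.le_add_left _ _, ?_, ?_⟩
  · have : (s : ℤ) ≤ (L : ℤ) := by linarith
    exact_mod_cast this
  intro a b
  refine ⟨fun d => a + ((d.1.2 : ℕ) : ℤ) * L + ρ + ((d.2 : ℕ) : ℤ) * w,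
    fun d => b + ((d.1.1 : ℕ) : ℤ) * L + ρ, ?_, ?_, ?_⟩
  · rintro ⟨⟨i, j⟩, t⟩ q ⟨h1, h2, h3, h4⟩
    simp only at h1 h2 h3 h4
    have ht := mul_step hw0 t.2
    have ht0 : (0 : ℤ) ≤ ((t : ℕ) : ℤ) * (w : ℤ) := by positivity
    refine ⟨?_, ?_, ?_, ?_⟩ <;> simp only <;> nlinarith
  · rintro ⟨⟨i, j⟩, t⟩ q ⟨h1, h2, h3, h4⟩
    simp only at h1 h2 h3 h4
    have ht := mul_step hw0 t.2
    have hi := mul_step hL0 i.2
    have hj := mul_step hL0 j.2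
    have ht0 : (0 : ℤ) ≤ ((t : ℕ) : ℤ) * (w : ℤ) := by positivity
    have hi0 : (0 : ℤ) ≤ ((i : ℕ) : ℤ) * (L : ℤ) := by positivity
    have hj0 : (0 : ℤ) ≤ ((j : ℕ) : ℤ) * (L : ℤ) := by positivity
    refine ⟨?_, ?_, ?_, ?_⟩ <;> nlinarith
  · rintro ⟨⟨i, j⟩, t⟩ ⟨⟨i', j'⟩, t'⟩ q ⟨h1, h2, h3, h4⟩ q' ⟨h1', h2', h3', h4'⟩ p ⟨n1, n2⟩ ⟨n1', n2'⟩
    simp only at h1 h2 h3 h4 h1' h2' h3' h4'
    rw [abs_le] at n1 n2 n1' n2'
    have ht := mul_step hw0 t.2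
    have ht' := mul_step hw0 t'.2
    have ht0 : (0 : ℤ) ≤ ((t : ℕ) : ℤ) * (w : ℤ) := by positivity
    have ht0' : (0 : ℤ) ≤ ((t' : ℕ) : ℤ) * (w : ℤ) := by positivity
    have hNL : (N : ℤ) * w + 2 * w ≤ L := by rw [hLz]; nlinarith
    have hi : i = i' := by
      apply Fin.ext
      rcases lt_trichotomy (i : ℕ) (i' : ℕ) with h | h | h
      · have := mul_step hL0 h
        linarith [n2.1, n2.2, n2'.1, n2'.2]
      · exact h
      · have := mul_step hL0 h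
        linarith [n2.1, n2.2, n2'.1, n2'.2]
    have hj : j = j' := by
      apply Fin.ext
      rcases lt_trichotomy (j : ℕ) (j' : ℕ) with h | h | h
      · have := mul_step hL0 h
        linarith [n1.1, n1.2, n1'.1, n1'.2]
      · exact h
      · have := mul_step hL0 h
        linarith [n1.1, n1.2, n1'.1, n1'.2]
    subst hi
    subst hj
    have htt : t = t' := by
      apply Fin.ext
      rcases lt_trichotomy (t : ℕ) (t' : ℕ) with h | h | h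
      · have := mul_step hw0 h
        linarith [n1.1, n1.2, n1'.1, n1'.2]
      · exact h
      · have := mul_step hw0 h
        linarith [n1.1, n1.2, n1'.1, n1'.2]
    subst htt
    rfl

end Pool.Agent.IM55.PL
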