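import Pool.Agent.Work.MP_55ff09_co.PL.Base

/-!
# MP_55ff09_co, block PL, item SMP (sampling)
-/

set_option autoImplicit false

namespace Pool.Agent.IM55.PL

open SimpleGraph Pool.Agent.IM55

namespace XSMP

variable {V : Type} {G : SimpleGraph V}

theorem tn_eq (I : Finset ℕ) (X : Set V) (Q : ℕ → Set V) :
    tn G I X Q = {c | c ∈ I ∧ Touch G X (Q c)}.ncard := by
  classical
  unfold tn
  rw [← Set.ncard_coe_finset]
  congr 1
  ext c
  simp

theorem tn_range (m : ℕ) (X : Set V) (Q : ℕ → Set V) :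
    {c | c < m ∧ Touch G X (Q c)}.ncard = tn G (Finset.range m) X Q := by
  rw [tn_eq]
  congr 1
  ext c
  simp

theorem tp_eq (I : Finset ℕ) (m : ℕ) (R Q : ℕ → Set V) :
    tp G I m R Q = ∑ a ∈ I, {c | c < m ∧ Touch G (R a) (Q c)}.ncard := by
  classical
  unfold tp
  rw [Finset.card_filter, Finset.sum_product]
  refine Finset.sum_congr rfl fun a _ => ?_
  rw [← Finset.card_filter, ← Set.ncard_coe_finset]
  congr 1
  ext c
  simp

/-- many rows touch many columns -/
theorem many (I : Finset ℕ) (m d : ℕ) (hm : 0 < m) (cnt : ℕ → ℕ) (hc : ∀ a ∈ I, cnt a ≤ m)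
    (h : I.card * m ≤ d * ∑ a ∈ I, cnt a) :
    I.card ≤ 2 * d * (I.filter fun a => m ≤ 2 * d * cnt a).card := by
  have h1 : ∑ a ∈ I, 2 * d * cnt a ≤
      2 * d * m * (I.filter fun a => m ≤ 2 * d * cnt a).card + m * I.card := by
    rw [← Finset.sum_filter_add_sum_filter_not I (fun a => m ≤ 2 * d * cnt a)]
    refine Nat.add_le_add ?_ ?_
    · calc ∑ a ∈ I.filter (fun a => m ≤ 2 * d * cnt a), 2 * d * cnt a
          ≤ ∑ _a ∈ I.filter (fun a => m ≤ 2 * d * cnt a), 2 * d * m :=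
            Finset.sum_le_sum fun a ha =>
              Nat.mul_le_mul_left _ (hc a (Finset.mem_filter.1 ha).1)
        _ = _ := by rw [Finset.sum_const, smul_eq_mul, mul_comm]
    · calc ∑ a ∈ I.filter (fun a => ¬ m ≤ 2 * d * cnt a), 2 * d * cnt a
          ≤ ∑ _a ∈ I.filter (fun a => ¬ m ≤ 2 * d * cnt a), m :=
            Finset.sum_le_sum fun a ha => (not_le.1 (Finset.mem_filter.1 ha).2).le
        _ = m * (I.filter (fun a => ¬ m ≤ 2 * d * cnt a)).card := by
            rw [Finset.sum_const, smul_eq_mul, mul_comm]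
        _ ≤ _ := Nat.mul_le_mul_left _ (Finset.card_le_card (Finset.filter_subset _ _))
  rw [← Finset.mul_sum] at h1
  have h2 : 2 * (I.card * m) ≤ 2 * d * ∑ a ∈ I, cnt a := by
    calc 2 * (I.card * m) ≤ 2 * (d * ∑ a ∈ I, cnt a) := Nat.mul_le_mul_left _ h
      _ = _ := by ring
  have h3 : m * I.card ≤ m * (2 * d * (I.filter fun a => m ≤ 2 * d * cnt a).card) := by
    have e1 : 2 * (I.card * m) = m * I.card + m * I.card := by ring
    have e2 : 2 * d * m * (I.filter fun a => m ≤ 2 * d * cnt a).card =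
      m * (2 * d * (I.filter fun a => m ≤ 2 * d * cnt a).card) := by ring
    omega
  exact Nat.le_of_mul_le_mul_left h3 hm

/-- disjoint columns -/
theorem load [Finite V] (m : ℕ) (Z : Set V) (col : ℕ → Set V)
    (hd : ∀ c < m, ∀ c' < m, c ≠ c' → Disjoint (col c) (col c')) :
    ∑ c ∈ Finset.range m, (Z ∩ col c).ncard ≤ Z.ncard := by
  classical
  have h1 : ∀ n ≤ m, ∑ c ∈ Finset.range n, (Z ∩ col c).ncard =
      {v | v ∈ Z ∧ ∃ c < n, v ∈ col c}.ncard := by
    intro n hn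
    induction n with
    | zero => simp
    | succ n ih =>
      rw [Finset.sum_range_succ, ih (by omega), ← Set.ncard_union_eq]
      · congr 1
        ext v
        simp only [Set.mem_union, Set.mem_inter_iff, Set.mem_ofPred_eq]
        constructor
        · rintro (⟨h1, c, h2, h3⟩ | ⟨h1, h2⟩)
          · exact ⟨h1, c, by omega, h3⟩
          · exact ⟨h1, n, by omega, h2⟩
        · rintro ⟨h1, c, h2, h3⟩
          rcases Nat.lt_succ_iff_lt_or_eq.1 h2 with h4 | h4
          · exact Or.inl ⟨h1, c, h4, h3⟩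
          · subst h4
            exact Or.inr ⟨h1, h3⟩
      · rw [Set.disjoint_left]
        rintro v ⟨h1, c, h2, h3⟩ ⟨h4, h5⟩
        exact Set.disjoint_left.1 (hd c (by omega) n (by omega) (by omega)) h3 h5
  rw [h1 m le_rfl]
  exact Set.ncard_le_ncard (fun v hv => hv.1) (Set.toFinite _)

theorem mono_chain {W : ℕ → Set V} {s : ℕ} (h : ∀ i < s, W i ⊆ W (i + 1)) {i j : ℕ} (hij : i ≤ j)
    (hj : j ≤ s) : W i ⊆ W j := by
  induction j, hij using Nat.le_induction with
  | base => exact subset_rfl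
  | succ j hij ih => exact (ih (by omega)).trans (h j (by omega))

/-- an injection into a large set -/
theorem inj_of_card {S : Set ℕ} {n : ℕ} (h : n ≤ S.ncard) :
    ∃ e : Fin n → ℕ, Function.Injective e ∧ ∀ p, e p ∈ S := by
  obtain ⟨T, hT, hTn⟩ := Set.exists_subset_card_eq h
  by_cases hn : n = 0
  · subst hn
    exact ⟨fun p => p.elim0, fun p => p.elim0, fun p => p.elim0⟩
  · have hTf : T.Finite := Set.finite_of_ncard_ne_zero (by omega)
    have hc : hTf.toFinset.card = n := by rw [← Set.ncard_eq_toFinset_card T hTf, hTn]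
    refine ⟨fun p => hTf.toFinset.orderEmbOfFin hc p,
      fun p q hpq => (hTf.toFinset.orderEmbOfFin hc).injective hpq, fun p => hT ?_⟩
    exact hTf.mem_toFinset.1 (Finset.orderEmbOfFin_mem _ hc p)

end XSMP

open XSMP in
theorem i_SMP (hZON : S_ZON) (hAVG : S_AVG) (hT : ClaimTrans) : S_SMP := by
  classical
  intro Δ d K t
  refine ⟨16 * (2 * d) ^ t * (2 * K * t + 1), fun g hg => ?_⟩
  set D : ℕ := 16 * (2 * d) ^ t with hD
  set s : ℕ := D * g with hs
  refine ⟨2 * d * ((s + 1) * (D * (g * t + 1) + (2 * Δ + 4) * K)) + 4 * (2 * d) ^ t * t ^ 2 + 1,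
    Nat.succ_pos _, ?_⟩
  intro V _ G r Lg U A B I R M m ℓ w l hG hL hR hC hAP hMK hℓ hlR hlC hCℓ hCm hden
  set C : ℕ := 2 * d * ((s + 1) * (D * (g * t + 1) + (2 * Δ + 4) * K)) +
    4 * (2 * d) ^ t * t ^ 2 + 1 with hCdef
  have hC1 : 1 ≤ C := Nat.succ_le_succ (Nat.zero_le _)
  have hℓm : ℓ ≤ m := (Nat.le_mul_of_pos_left ℓ hC1).trans hCℓ
  have hm : 0 < m := hℓ.trans hℓm
  have hmI : m ≤ I.card := (Nat.le_mul_of_pos_left m hC1).trans hCm
  have hd : 1 ≤ d := by
    rcases Nat.eq_zero_or_pos d with h | h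
    · rw [h, zero_mul] at hden
      have : 0 < I.card * m := Nat.mul_pos (hm.trans_le hmI) hm
      omega
    · exact h
  have hDpos : 0 < D := by
    rw [hD]
    positivity
  set col : ℕ → Set V := fun c => rng (w c) (l c) with hcol
  have hcold : ∀ c < m, ∀ c' < m, c ≠ c' → Disjoint (col c) (col c') :=
    fun c hc c' hc' h => anti_disjoint (hAP.2 c hc c' hc' h)
  -- the rows touching many columns
  set cnt : ℕ → ℕ := fun a => {c | c < m ∧ Touch G (R a) (col c)}.ncard with hcnt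
  have hcm : ∀ a ∈ I, cnt a ≤ m := by
    intro a _
    calc cnt a ≤ (Finset.range m : Set ℕ).ncard :=
          Set.ncard_le_ncard (fun c hc => by simpa using hc.1) (Set.toFinite _)
      _ = m := by rw [Set.ncard_coe_finset, Finset.card_range]
  rw [tp_eq] at hden
  have hI := many I m d hm cnt hcm hden
  set I' : Finset ℕ := I.filter fun a => m ≤ 2 * d * cnt a with hI'
  have hI'I : I' ⊆ I := Finset.filter_subset _ _
  have hmem' : ∀ a ∈ I', m ≤ 2 * d * cnt a := fun a ha => (Finset.mem_filter.1 ha).2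
  have htouch : ∀ a ∈ I', ∃ c < m, Touch G (R a) (col c) := by
    intro a ha
    have h1 := hmem' a ha
    have h2 : cnt a ≠ 0 := by
      intro h
      rw [h, mul_zero] at h1
      omega
    obtain ⟨c, hc⟩ := Set.nonempty_of_ncard_ne_zero h2
    exact ⟨c, hc.1, hc.2⟩
  set N : ℕ := D * (g * t * ℓ + 1) with hN
  have hbig : (s + 1) * (N + (2 * Δ + 4) * M) ≤ I'.card := by
    have h1 : N ≤ D * (g * t + 1) * m := by
      rw [hN]
      calc D * (g * t * ℓ + 1) ≤ D * (g * t * m + m) :=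
            Nat.mul_le_mul_left _ (Nat.add_le_add (Nat.mul_le_mul_left _ hℓm) hm)
        _ = D * (g * t + 1) * m := by ring
    have h2 : (2 * Δ + 4) * M ≤ (2 * Δ + 4) * K * m := by
      rw [mul_assoc]
      exact Nat.mul_le_mul_left _ hMK
    have h3 : (s + 1) * (N + (2 * Δ + 4) * M) ≤
        (s + 1) * (D * (g * t + 1) + (2 * Δ + 4) * K) * m := by
      rw [mul_assoc]
      refine Nat.mul_le_mul_left _ ?_
      calc N + (2 * Δ + 4) * M ≤ D * (g * t + 1) * m + (2 * Δ + 4) * K * m :=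
            Nat.add_le_add h1 h2
        _ = _ := by ring
    refine h3.trans ?_
    have h4 : 2 * d * ((s + 1) * (D * (g * t + 1) + (2 * Δ + 4) * K) * m) ≤ 2 * d * I'.card := by
      calc 2 * d * ((s + 1) * (D * (g * t + 1) + (2 * Δ + 4) * K) * m)
          = 2 * d * ((s + 1) * (D * (g * t + 1) + (2 * Δ + 4) * K)) * m := by ring
        _ ≤ C * m := by
            refine Nat.mul_le_mul_right _ ?_
            rw [hCdef]
            omega
        _ ≤ I.card := hCm
        _ ≤ _ := hI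
    exact Nat.le_of_mul_le_mul_left h4 (by omega)
  obtain ⟨W, hW1, hW2, hW3⟩ := hZON G Δ U A B I I' R M s N hG hR hC hI'I (fun a ha => by
    obtain ⟨c, hc, h⟩ := htouch a ha
    exact ⟨col c, pc_cr (hAP.1 c hc), h.symm⟩) hbig
  -- contacts
  have hch : ∀ a c : ℕ, ∃ i : ℕ, Touch G (R a) (col c) → i ≤ l c ∧ Touch G {w c i} (R a) := by
    intro a c
    by_cases h : Touch G (R a) (col c)
    · obtain ⟨x, hx, y, ⟨i, hi, rfl⟩, hxy⟩ := h
      exact ⟨i, fun _ => ⟨hi, w c i, rfl, x, hx, hxy.imp (fun e => e.symm) (fun e => e.symm)⟩⟩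
    · exact ⟨0, fun h' => absurd h' h⟩
  choose τ₀ hτ₀ using hch
  set S : ℕ → Finset ℕ := fun i => zR G U B I' R (W i) (W (i + 1)) with hS
  have hSI : ∀ i, S i ⊆ I' := fun i => Finset.filter_subset _ _
  have hSm : ∀ i, ∀ a ∈ S i, R a ⊆ W (i + 1) ∧ Disjoint (R a) (bd G U B (W (i + 1))) ∧
      Disjoint (R a) (W i) := fun i a ha => (Finset.mem_filter.1 ha).2
  have hNpos : 1 ≤ N := Nat.mul_pos hDpos (Nat.succ_pos _)
  have hAvgC : 2 * (2 * d) ^ t * t ^ 2 * (ℓ + 1) ≤ m := by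
    calc 2 * (2 * d) ^ t * t ^ 2 * (ℓ + 1) ≤ 2 * (2 * d) ^ t * t ^ 2 * (2 * ℓ) :=
          Nat.mul_le_mul_left _ (by omega)
      _ = 4 * (2 * d) ^ t * t ^ 2 * ℓ := by ring
      _ ≤ C * ℓ := by
          refine Nat.mul_le_mul_right _ ?_
          rw [hCdef]
          omega
      _ ≤ m := hCℓ
  obtain ⟨f, J, hf1, hf2, hJs, hJc, hJ⟩ := hAVG t (2 * d) (2 * K) m s N ℓ S
    (fun a c => Touch G (R a) (col c))
    (fun a c c' => Touch G (Lg (w c (τ₀ a c))) (col c'))
    (fun i c => (bd G U B (W i) ∩ col c).ncard + (bd G U B (W (i + 1)) ∩ col c).ncard)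
    (by omega) hNpos hm hAvgC hW3 (fun i _ a ha => hmem' a (hSI i ha))
    (fun i _ a _ c _ => by
      rw [tn_range]
      exact hlC _)
    (fun i hi => by
      rw [Finset.sum_add_distrib]
      have h1 := load m (bd G U B (W i)) col hcold
      have h2 := load m (bd G U B (W (i + 1))) col hcold
      rw [(hW1 i hi.le).2.2] at h1
      rw [(hW1 (i + 1) hi).2.2] at h2
      calc _ ≤ M + M := Nat.add_le_add h1 h2
        _ ≤ K * m + K * m := Nat.add_le_add hMK hMK
        _ = _ := by ring)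
  have hgJ : g ≤ J.card := by
    have : D * g ≤ D * J.card := hJc
    exact Nat.le_of_mul_le_mul_left this hDpos
  set ik : Fin g ↪o ℕ := J.orderEmbOfCardLe hgJ with hik
  have hikJ : ∀ k, ik k ∈ J := fun k => Finset.orderEmbOfCardLe_mem J hgJ k
  have hiks : ∀ k, ik k < s := fun k => Finset.mem_range.1 (hJs (hikJ k))
  set good : ℕ → Set ℕ := fun i => {a | a ∈ S i ∧ (∀ j < t, Touch G (R a) (col (f j))) ∧
        ∀ j < t, ∀ j' < t, j ≠ j' →
          ¬ Touch G (Lg (w (f j) (τ₀ a (f j)))) (col (f j'))} with hgood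
  have hgc : ∀ k, g * t * ℓ + 1 ≤ (good (ik k)).ncard := by
    intro k
    have h1 : D * (g * t * ℓ + 1) ≤ D * (good (ik k)).ncard := (hJ _ (hikJ k)).2
    exact Nat.le_of_mul_le_mul_left h1 hDpos
  choose e he1 he2 using fun k => inj_of_card (hgc k)
  -- rows in different zones are different
  have hzone : ∀ i < s, ∀ i' < s, i < i' → ∀ a ∈ S i, ∀ a' ∈ S i', a ≠ a' := by
    rintro i hi i' hi' hii a ha a' ha' rfl
    obtain ⟨x, hx⟩ := (hR.conn a (hI'I (hSI i ha))).nonempty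
    have h1 : x ∈ W i' := mono_chain hW2 hii (le_of_lt hi') ((hSm i a ha).1 hx)
    exact Set.disjoint_left.1 (hSm i' a ha').2.2 hx h1
  have hΦ : Function.Injective (fun y : Fin g × Fin (g * t * ℓ + 1) => e y.1 y.2) := by
    rintro ⟨k, p⟩ ⟨k', p'⟩ h
    simp only at h
    rcases lt_trichotomy k k' with h1 | h1 | h1
    · exact absurd h (hzone _ (hiks k) _ (hiks k') (ik.strictMono h1) _ (he2 k p).1 _
        (he2 k' p').1)
    · subst h1
      rw [he1 k h]
    · exact absurd h.symm (hzone _ (hiks k') _ (hiks k) (ik.strictMono h1) _ (he2 k' p').1 _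
        (he2 k p).1)
  have hcf : ∀ x : Fin g × Fin (g * t * ℓ + 1),
      {y : Fin g × Fin (g * t * ℓ + 1) | ∃ j < t,
        Touch G (Lg (w (f j) (τ₀ (e x.1 x.2) (f j)))) (R (e y.1 y.2))}.ncard ≤ t * ℓ := by
    intro x
    have h1 : ∀ n ≤ t, {y : Fin g × Fin (g * t * ℓ + 1) | ∃ j < n,
        Touch G (Lg (w (f j) (τ₀ (e x.1 x.2) (f j)))) (R (e y.1 y.2))}.ncard ≤ n * ℓ := by
      intro n hn
      induction n with
      | zero => simp
      | succ n ih =>
        have h2 : {y : Fin g × Fin (g * t * ℓ + 1) | ∃ j < n + 1,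
            Touch G (Lg (w (f j) (τ₀ (e x.1 x.2) (f j)))) (R (e y.1 y.2))} ⊆
            {y : Fin g × Fin (g * t * ℓ + 1) | ∃ j < n,
              Touch G (Lg (w (f j) (τ₀ (e x.1 x.2) (f j)))) (R (e y.1 y.2))} ∪
            {y | Touch G (Lg (w (f n) (τ₀ (e x.1 x.2) (f n)))) (R (e y.1 y.2))} := by
          rintro y ⟨j, hj, hy⟩
          rcases Nat.lt_succ_iff_lt_or_eq.1 hj with h4 | h4
          · exact Or.inl ⟨j, h4, hy⟩
          · subst h4
            exact Or.inr hy
        have h3 : {y : Fin g × Fin (g * t * ℓ + 1) |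
            Touch G (Lg (w (f n) (τ₀ (e x.1 x.2) (f n)))) (R (e y.1 y.2))}.ncard ≤ ℓ := by
          rw [← Set.ncard_image_of_injective _ hΦ]
          refine le_trans ?_ (hlR (w (f n) (τ₀ (e x.1 x.2) (f n))))
          rw [tn_eq]
          refine Set.ncard_le_ncard ?_ ((Finset.finite_toSet I).subset fun a ha => ha.1)
          rintro _ ⟨y, hy, rfl⟩
          exact ⟨hI'I (hSI _ (he2 y.1 y.2).1), hy⟩
        calc _ ≤ _ := Set.ncard_le_ncard h2 (Set.toFinite _)
          _ ≤ _ := Set.ncard_union_le _ _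
          _ ≤ n * ℓ + ℓ := Nat.add_le_add (ih (by omega)) h3
          _ = (n + 1) * ℓ := by ring
    exact h1 t le_rfl
  obtain ⟨F, hF⟩ := hT (Fin g) inferInstance (g * t * ℓ + 1) (t * ℓ)
    (fun x y => ∃ j < t, Touch G (Lg (w (f j) (τ₀ (e x.1 x.2) (f j)))) (R (e y.1 y.2))) hcf
    (by rw [Fintype.card_fin]; rw [← mul_assoc]; exact Nat.lt_succ_self _)
  -- the result
  set aN : ℕ → ℕ := fun k => if h : k < g then e ⟨k, h⟩ (F ⟨k, h⟩) else 0 with haN
  have haN' : ∀ k (h : k < g), aN k = e ⟨k, h⟩ (F ⟨k, h⟩) := fun k h => dif_pos h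
  have hag : ∀ k (h : k < g), aN k ∈ good (ik ⟨k, h⟩) := fun k h => by
    rw [haN' k h]
    exact he2 _ _
  have haI : ∀ k < g, aN k ∈ I := fun k h => hI'I (hSI _ (hag k h).1)
  set WW : ℕ → Set V := fun k => if h : k < g then W (ik ⟨k, h⟩) else
    W (ik ⟨g - 1, by omega⟩ + 1) with hWW
  have hWW1 : ∀ k (h : k < g), WW k = W (ik ⟨k, h⟩) := fun k h => dif_pos h
  have hWW2 : ∀ k, ¬ k < g → WW k = W (ik ⟨g - 1, by omega⟩ + 1) := fun k h => dif_neg h
  -- `W (ik k + 1) ⊆ WW (k + 1)`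
  have hstep : ∀ k (h : k < g), W (ik ⟨k, h⟩ + 1) ⊆ WW (k + 1) := by
    intro k h
    by_cases h1 : k + 1 < g
    · rw [hWW1 _ h1]
      exact mono_chain hW2 (ik.strictMono (show (⟨k, h⟩ : Fin g) < ⟨k + 1, h1⟩ from
        Nat.lt_succ_self k)) (le_of_lt (hiks _))
    · rw [hWW2 _ h1]
      have : k = g - 1 := by omega
      subst this
      exact subset_rfl
  refine ⟨WW, fun k => R (aN k), fun j => w (f j), fun j => l (f j), fun j k => τ₀ (aN k) (f j),
    ?_⟩
  refine
    { ip := fun j hj => (hAP.1 _ (hf1 j hj)).ip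
      sub := fun j hj => (hAP.1 _ (hf1 j hj)).sub
      col := fun j hj j' hj' h => hAP.2 _ (hf1 j hj) _ (hf1 j' hj') (hf2 j hj j' hj' h)
      mono := ?_
      wsub := ?_
      wall := ?_
      rconn := fun k hk => hR.conn _ (haI k hk)
      ranti := ?_
      up := ?_
      low := ?_
      len := ?_
      con := ?_
      leg := ?_
      legc := ?_ }
  · intro k hk
    refine subset_trans ?_ (hstep k hk)
    rw [hWW1 k hk]
    exact hW2 _ (hiks _)
  · intro k hk
    by_cases h : k < g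
    · rw [hWW1 k h]
      exact (hW1 _ (le_of_lt (hiks _))).2.1
    · rw [hWW2 k h]
      exact (hW1 _ (hiks _)).2.1
  · intro j hj k hk
    have hsum : ∀ i ∈ J, (bd G U B (W i) ∩ col (f j)).ncard +
        (bd G U B (W (i + 1)) ∩ col (f j)).ncard ≤ D * (2 * K * t + 1) := by
      intro i hi
      refine le_trans ?_ (hJ i hi).1
      exact Finset.single_le_sum
        (f := fun j => (bd G U B (W i) ∩ col (f j)).ncard +
          (bd G U B (W (i + 1)) ∩ col (f j)).ncard)
        (fun _ _ => Nat.zero_le _) (Finset.mem_range.2 hj)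
    by_cases h : k < g
    · rw [hWW1 k h]
      exact (Nat.le_add_right _ _).trans (hsum _ (hikJ _))
    · rw [hWW2 k h]
      exact (Nat.le_add_left _ _).trans (hsum _ (hikJ _))
  · intro k hk k' hk' h
    refine hR.anti _ (haI k hk) _ (haI k' hk') ?_
    rw [haN' k hk, haN' k' hk']
    intro h1
    have h2 := @hΦ (⟨k, hk⟩, F ⟨k, hk⟩) (⟨k', hk'⟩, F ⟨k', hk'⟩) h1
    exact h (congrArg (fun y : Fin g × Fin (g * t * ℓ + 1) => (y.1 : ℕ)) h2)
  · intro k hk
    obtain ⟨h1, h2, h3⟩ := hSm _ _ (hag k hk).1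
    refine ⟨h1.trans (hstep k hk), ?_⟩
    rw [Set.disjoint_left]
    intro x hx hxb
    exact Set.disjoint_left.1 h2 hx (bd_anti (hstep k hk) (h1 hx) hxb)
  · intro k hk
    rw [hWW1 k hk]
    exact (hSm _ _ (hag k hk).1).2.2
  · intro j hj k hk
    exact (hτ₀ _ _ ((hag k hk).2.1 j hj)).1
  · intro j hj k hk
    exact (hτ₀ _ _ ((hag k hk).2.1 j hj)).2
  · intro j hj k hk k' hk' h
    rw [← not_touch_iff]
    intro h1
    have h2 := hF ⟨k, hk⟩ ⟨k', hk'⟩ (fun h3 => h (congrArg Fin.val h3).symm)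
    apply h2
    refine ⟨j, hj, ?_⟩
    rw [haN' k hk, haN' k' hk'] at h1
    exact h1
  · intro j hj k hk j' hj' h
    rw [← not_touch_iff]
    exact (hag k hk).2.2 j hj j' hj' (Ne.symm h)

end Pool.Agent.IM55.PL
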