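import Pool.Agent.Work.MP_55ff09_co.PL.Base

/-!
# MP_55ff09_co, block PL: item SPR
-/

set_option autoImplicit false

namespace Pool.Agent.IM55.PL

open SimpleGraph Pool.Agent.IM55

theorem i_SPR (hD : S_DEN) (hI : S_IM) (hC : S_CRI) (hR : S_DRW) : S_SPR := by
  intro n Δ d
  obtain ⟨K, hK, hK'⟩ := hI Δ
  obtain ⟨C', hC0, hC'⟩ := hD n Δ d K
  refine ⟨C' + K + d, by omega, ?_⟩
  intro V _ G r Lg U₀ A B I R k m ℓ hG hn hL hRo hsub hex hℓ hl1 hl2 h1 h2 h3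
  obtain ⟨L, hL'⟩ := hex
  have e1 : C' * ℓ ≤ m := le_trans (Nat.mul_le_mul_right _ (by omega)) h1
  have e2 : K * m ≤ k := le_trans (Nat.mul_le_mul_right _ (by omega)) h2
  have e3 : C' * m ≤ I.card := le_trans (Nat.mul_le_mul_right _ (by omega)) h3
  have e4 : d * m ≤ I.card := le_trans (Nat.mul_le_mul_right _ (by omega)) h3
  have em : 1 ≤ m := by
    have : 1 * 1 ≤ (C' + K + d) * ℓ := Nat.mul_le_mul (by omega) hℓ
    omega
  obtain ⟨U, hU1, hU2, hU3, hU4⟩ := hC G U₀ A B (Un I R) (K * m) hsub ⟨L, fm_mono hL' le_rfl e2⟩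
  haveI : Nonempty V := ⟨r⟩
  obtain ⟨w, l, hap⟩ := hK' G U A B m hG hU3
  refine ⟨w, l, ap_mono hap hU2 le_rfl, ?_⟩
  by_contra hcon
  push Not at hcon
  rcases hU4 with hU4 | hU4
  · have h5 := hR G A B I R m (fun c => rng (w c) (l c)) hRo (by rw [← hU4]; exact ap_fm hap)
    have h6 : d * tp G I m R (fun c => rng (w c) (l c)) ≤ d * m := Nat.mul_le_mul_left _ h5
    have h7 : I.card * 1 ≤ I.card * m := Nat.mul_le_mul_left _ em
    omega
  · exact hn (hC' G r Lg U A B I R (K * m) m ℓ w l hG hL hRo hU4 hap le_rfl hℓ hl1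
      (fun z => hl2 z m _ (fm_mono (ap_fm hap) hU2 le_rfl)) e1 e3 hcon.le)

end Pool.Agent.IM55.PL
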