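import Pool.Agent.Work.MP_55ff09_co.PL.Base

/-!
# [55ff09 PL STG] stars and geodesics in hypergraphs
-/

set_option autoImplicit false

namespace Pool.Agent.IM55.PL

open SimpleGraph Pool.Agent.IM55

namespace XSTG

/-- independent sets in digraphs with out-degree at most `c` -/
theorem indep (c : ℕ) (f : ℕ → Finset ℕ) (n : ℕ) : ∀ N : Finset ℕ, (∀ y ∈ N, (f y).card ≤ c) →
    n * (2 * c + 1) ≤ N.card → ∃ y : ℕ → ℕ, (∀ i < n, y i ∈ N) ∧
      ∀ i < n, ∀ j < n, i ≠ j → y i ≠ y j ∧ y j ∉ f (y i) := by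
  classical
  induction n with
  | zero =>
    intro N _ _
    exact ⟨fun _ => 0, fun i hi => absurd hi (Nat.not_lt_zero i),
      fun i hi => absurd hi (Nat.not_lt_zero i)⟩
  | succ n ih =>
    intro N hf hN
    have hNpos : 0 < N.card := by
      have : 0 < (n + 1) * (2 * c + 1) := by positivity
      omega
    have hNne : N.Nonempty := Finset.card_pos.1 hNpos
    obtain ⟨x, hx, hxc⟩ : ∃ x ∈ N, (N.filter fun y => x ∈ f y).card ≤ c := by
      have h1 : ∑ x ∈ N, (N.filter fun y => x ∈ f y).card ≤ ∑ _x ∈ N, c := by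
        have h2 := Finset.sum_card_bipartiteAbove_eq_sum_card_bipartiteBelow (s := N) (t := N)
          (fun x y : ℕ => x ∈ f y)
        have h3 : ∑ x ∈ N, (N.filter fun y => x ∈ f y).card =
            ∑ y ∈ N, (N.filter fun x => x ∈ f y).card := h2
        rw [h3]
        refine Finset.sum_le_sum fun y hy => ?_
        refine le_trans (Finset.card_le_card ?_) (hf y hy)
        intro x hx
        exact (Finset.mem_filter.1 hx).2
      exact Finset.exists_le_of_sum_le hNne h1
    set N' : Finset ℕ := ((N.erase x) \ f x) \ (N.filter fun y => x ∈ f y) with hN'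
    have hsub : N' ⊆ N := by
      intro y hy
      rw [hN', Finset.mem_sdiff, Finset.mem_sdiff, Finset.mem_erase] at hy
      exact hy.1.1.2
    have hcard : n * (2 * c + 1) ≤ N'.card := by
      have h1 : (N.erase x).card = N.card - 1 := Finset.card_erase_of_mem hx
      have h2 := Finset.le_card_sdiff (f x) (N.erase x)
      have h3 := Finset.le_card_sdiff (N.filter fun y => x ∈ f y) ((N.erase x) \ f x)
      have h4 := hf x hx
      have h5 : (n + 1) * (2 * c + 1) = n * (2 * c + 1) + (2 * c + 1) := by ring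
      rw [← hN'] at h3
      omega
    obtain ⟨y, hy, hyy⟩ := ih N' (fun z hz => hf z (hsub hz)) hcard
    have hmem : ∀ i < n, y i ≠ x ∧ y i ∉ f x ∧ x ∉ f (y i) := by
      intro i hi
      have h := hy i hi
      rw [hN', Finset.mem_sdiff, Finset.mem_sdiff, Finset.mem_erase, Finset.mem_filter] at h
      exact ⟨h.1.1.1, h.1.2, fun hc => h.2 ⟨h.1.1.2, hc⟩⟩
    refine ⟨fun i => if i < n then y i else x, fun i _ => ?_, fun i hi j hj hij => ?_⟩
    · by_cases h : i < n
      · simp only [h, if_true]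
        exact hsub (hy i h)
      · simp only [h, if_false]
        exact hx
    · by_cases h1 : i < n <;> by_cases h2 : j < n
      · simp only [h1, h2, if_true]
        exact hyy i h1 j h2 hij
      · simp only [h1, h2, if_true, if_false]
        exact ⟨(hmem i h1).1, (hmem i h1).2.2⟩
      · simp only [h1, h2, if_true, if_false]
        exact ⟨(hmem j h2).1.symm, (hmem j h2).2.1⟩
      · omega

/-- adjacency -/
def Ad (F : Set (Finset ℕ)) (x y : ℕ) : Prop := x ≠ y ∧ ∃ e ∈ F, x ∈ e ∧ y ∈ e

open Classical in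
/-- balls -/
noncomputable def Bl (F : Set (Finset ℕ)) (t : ℕ) : ℕ → Finset ℕ
  | 0 => {0}
  | k + 1 => Bl F t k ∪ (Finset.range t).filter fun y => ∃ x ∈ Bl F t k, Ad F x y

variable {F : Set (Finset ℕ)} {t : ℕ}

theorem Bl_succ (k y : ℕ) : y ∈ Bl F t (k + 1) ↔
    y ∈ Bl F t k ∨ (y < t ∧ ∃ x ∈ Bl F t k, Ad F x y) := by
  classical
  rw [Bl, Finset.mem_union, Finset.mem_filter, Finset.mem_range]

theorem Bl_mono {k k' : ℕ} (h : k ≤ k') : Bl F t k ⊆ Bl F t k' := by
  induction k', h using Nat.le_induction with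
  | base => exact Finset.Subset.refl _
  | succ m _ ih => exact ih.trans fun y hy => (Bl_succ m y).2 (Or.inl hy)

theorem Bl_sub (ht : 0 < t) (k : ℕ) : Bl F t k ⊆ Finset.range t := by
  induction k with
  | zero =>
    intro y hy
    rw [Bl, Finset.mem_singleton] at hy
    rw [hy, Finset.mem_range]
    exact ht
  | succ k ih =>
    intro y hy
    rcases (Bl_succ k y).1 hy with h | h
    · exact ih h
    · exact Finset.mem_range.2 h.1

theorem Bl_card (D : ℕ) (ht : 0 < t) (hD : ∀ x < t, ∀ s : Finset ℕ,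
    (∀ y ∈ s, y < t ∧ Ad F x y) → s.card ≤ D) (k : ℕ) : (Bl F t k).card ≤ (D + 1) ^ k := by
  classical
  induction k with
  | zero => rw [Bl, Finset.card_singleton, pow_zero]
  | succ k ih =>
    have h1 : Bl F t (k + 1) ⊆ Bl F t k ∪ (Bl F t k).biUnion
        fun x => (Finset.range t).filter fun y => Ad F x y := by
      intro y hy
      rcases (Bl_succ k y).1 hy with h | ⟨h, x, hx, hxy⟩
      · exact Finset.mem_union_left _ h
      · refine Finset.mem_union_right _ (Finset.mem_biUnion.2 ⟨x, hx, ?_⟩)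
        exact Finset.mem_filter.2 ⟨Finset.mem_range.2 h, hxy⟩
    have h2 : ((Bl F t k).biUnion fun x => (Finset.range t).filter fun y => Ad F x y).card ≤
        (Bl F t k).card * D := by
      refine Finset.card_biUnion_le_card_mul _ _ _ fun x hx => ?_
      refine hD x (Finset.mem_range.1 (Bl_sub ht k hx)) _ fun y hy => ?_
      rw [Finset.mem_filter, Finset.mem_range] at hy
      exact hy
    calc (Bl F t (k + 1)).card ≤ _ := Finset.card_le_card h1
      _ ≤ (Bl F t k).card + (Bl F t k).card * D := (Finset.card_union_le _ _).trans (by omega)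
      _ = (Bl F t k).card * (D + 1) := by ring
      _ ≤ (D + 1) ^ k * (D + 1) := Nat.mul_le_mul_right _ ih
      _ = (D + 1) ^ (k + 1) := by rw [pow_succ]

/-- geodesics -/
theorem geo (k : ℕ) : ∀ y, y ∈ Bl F t k → (∀ k' < k, y ∉ Bl F t k') →
    ∃ q : ℕ → ℕ, q k = y ∧ (∀ i ≤ k, q i ∈ Bl F t i ∧ ∀ k' < i, q i ∉ Bl F t k') ∧
      ∀ i < k, Ad F (q i) (q (i + 1)) := by
  induction k with
  | zero =>
    intro y hy _
    refine ⟨fun _ => y, rfl, fun i hi => ?_, fun i hi => absurd hi (Nat.not_lt_zero i)⟩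
    obtain rfl : i = 0 := by omega
    exact ⟨hy, fun k' hk' => absurd hk' (Nat.not_lt_zero k')⟩
  | succ k ih =>
    intro y hy hn
    rcases (Bl_succ k y).1 hy with h | ⟨hyt, x, hx, hxy⟩
    · exact absurd h (hn k (Nat.lt_succ_self k))
    · have hxn : ∀ k' < k, x ∉ Bl F t k' := by
        intro k' hk' hc
        refine hn (k' + 1) (by omega) ?_
        exact (Bl_succ k' y).2 (Or.inr ⟨hyt, x, hc, hxy⟩)
      obtain ⟨q, hq1, hq2, hq3⟩ := ih x hx hxn
      refine ⟨Function.update q (k + 1) y, Function.update_self _ _ _, fun i hi => ?_,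
        fun i hi => ?_⟩
      · by_cases h : i = k + 1
        · subst h
          rw [Function.update_self]
          exact ⟨hy, hn⟩
        · rw [Function.update_of_ne h]
          exact hq2 i (by omega)
      · rw [Function.update_of_ne (by omega : i ≠ k + 1)]
        by_cases h : i = k
        · subst h
          rw [Function.update_self, hq1]
          exact hxy
        · rw [Function.update_of_ne (by omega : i + 1 ≠ k + 1)]
          exact hq3 i (by omega)

end XSTG

open XSTG in
theorem i_STG : S_STG := by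
  classical
  intro c n p
  set D : ℕ := n * (2 * c + 1) with hD
  refine ⟨(D + 1) ^ p + 1, fun t hT F hF hcr => ?_⟩
  have ht : 0 < t := by omega
  by_cases hcase : ∃ c₀ < t, ∃ s : Finset ℕ, (∀ y ∈ s, y < t ∧ Ad F c₀ y) ∧ D ≤ s.card
  · left
    obtain ⟨c₀, hc₀, s, hs, hsD⟩ := hcase
    have hch : ∀ y : ℕ, ∃ e : Finset ℕ, y ∈ s → e ∈ F ∧ c₀ ∈ e ∧ y ∈ e := by
      intro y
      by_cases hy : y ∈ s
      · obtain ⟨e, he, h1, h2⟩ := (hs y hy).2.2
        exact ⟨e, fun _ => ⟨he, h1, h2⟩⟩
      · exact ⟨∅, fun h => absurd h hy⟩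
    choose f hf using hch
    obtain ⟨y, hy, hyy⟩ := indep c f n s (fun y hy => (hF _ (hf y hy).1).2) hsD
    refine ⟨c₀, y, fun i => f (y i), hc₀, fun i hi => ?_, hyy⟩
    have h1 := hf (y i) (hy i hi)
    have h2 := hs (y i) (hy i hi)
    exact ⟨h1.1, h1.2.1, h1.2.2, h2.2.1.symm, h2.1⟩
  · right
    have hdeg : ∀ x < t, ∀ s : Finset ℕ, (∀ y ∈ s, y < t ∧ Ad F x y) → s.card ≤ D := by
      intro x hx s hs
      by_contra hlt
      exact hcase ⟨x, hx, s, hs, by omega⟩
    rcases Nat.eq_zero_or_pos p with hp | hp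
    · subst hp
      exact ⟨fun _ => 0, fun _ => ∅, fun i hi => absurd hi (Nat.not_lt_zero i),
        fun i hi => absurd hi (Nat.not_lt_zero i), fun i hi => absurd hi (Nat.not_lt_zero _)⟩
    have hlay : ∀ k ≤ p, ∃ y, y ∈ Bl F t k ∧ ∀ k' < k, y ∉ Bl F t k' := by
      intro k hk
      rcases k with _ | k
      · exact ⟨0, by rw [Bl, Finset.mem_singleton], fun k' hk' => absurd hk' (Nat.not_lt_zero k')⟩
      · have hcard := Bl_card (F := F) D ht hdeg k
        have hpow : (D + 1) ^ k ≤ (D + 1) ^ p := Nat.pow_le_pow_right (Nat.succ_pos D) (by omega)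
        have hne : (Finset.range t \ Bl F t k).Nonempty := by
          rw [← Finset.card_pos]
          have h1 := Finset.le_card_sdiff (Bl F t k) (Finset.range t)
          rw [Finset.card_range] at h1
          omega
        have hne0 : (Bl F t k).Nonempty :=
          ⟨0, Bl_mono (Nat.zero_le k) (by rw [Bl, Finset.mem_singleton])⟩
        obtain ⟨e, he, ⟨x, hx⟩, ⟨y, hy⟩⟩ := hcr (Bl F t k) (Bl_sub ht k) hne0 hne
        rw [Finset.mem_inter] at hx
        rw [Finset.mem_sdiff] at hy
        refine ⟨y, (Bl_succ k y).2 (Or.inr ⟨Finset.mem_range.1 ((hF e he).1 hy.1), x, hx.2,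
          fun hc => hy.2 (hc ▸ hx.2), e, he, hx.1, hy.1⟩), fun k' hk' hc => ?_⟩
        exact hy.2 (Bl_mono (by omega) hc)
    obtain ⟨y, hy, hyn⟩ := hlay (p - 1) (by omega)
    obtain ⟨q, -, hq2, hq3⟩ := geo (p - 1) y hy hyn
    have hch : ∀ i : ℕ, ∃ e : Finset ℕ, i < p - 1 → e ∈ F ∧ q i ∈ e ∧ q (i + 1) ∈ e := by
      intro i
      by_cases hi : i < p - 1
      · obtain ⟨-, e, he, h1, h2⟩ := hq3 i hi
        exact ⟨e, fun _ => ⟨he, h1, h2⟩⟩
      · exact ⟨∅, fun h => absurd h hi⟩
    choose e he using hch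
    refine ⟨q, e, fun i hi => ?_, fun i hi j hj hij heq => ?_, fun i hi => ?_⟩
    · exact Finset.mem_range.1 (Bl_sub ht i (hq2 i (by omega)).1)
    · rcases Nat.lt_or_gt_of_ne hij with h | h
      · refine (hq2 j (by omega)).2 i h ?_
        rw [← heq]
        exact (hq2 i (by omega)).1
      · refine (hq2 i (by omega)).2 j h ?_
        rw [heq]
        exact (hq2 j (by omega)).1
    · obtain ⟨heF, h1, h2⟩ := he i (by omega)
      refine ⟨heF, fun j hj => ⟨fun hqj => ?_, fun h => ?_⟩⟩
      · by_contra hne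
        push Not at hne
        rcases Nat.lt_or_ge j i with h | h
        · -- `q (i + 1)` is adjacent to `q j`
          have h3 : q (i + 1) ∈ Bl F t (j + 1) := by
            refine (Bl_succ j _).2 (Or.inr ⟨?_, q j, (hq2 j (by omega)).1, ?_, e i, heF, hqj, h2⟩)
            · exact Finset.mem_range.1 (Bl_sub ht (i + 1) (hq2 (i + 1) (by omega)).1)
            · intro hc
              refine (hq2 (i + 1) (by omega)).2 j (by omega) ?_
              rw [← hc]
              exact (hq2 j (by omega)).1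
          exact (hq2 (i + 1) (by omega)).2 (j + 1) (by omega) h3
        · have hj2 : i + 1 < j := by omega
          have h3 : q j ∈ Bl F t (i + 1) := by
            refine (Bl_succ i _).2 (Or.inr ⟨?_, q i, (hq2 i (by omega)).1, ?_, e i, heF, h1, hqj⟩)
            · exact Finset.mem_range.1 (Bl_sub ht j (hq2 j (by omega)).1)
            · intro hc
              refine (hq2 j (by omega)).2 i (by omega) ?_
              rw [← hc]
              exact (hq2 i (by omega)).1
          exact (hq2 j (by omega)).2 (i + 1) hj2 h3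
      · rcases h with rfl | rfl
        · exact h1
        · exact h2

end Pool.Agent.IM55.PL
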