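import Pool.Agent.Work.MP_55ff09_co.PL.Base

set_option autoImplicit false

/-! Item STP: one pair is linked, the other families are made sparse and cleaned. -/

namespace Pool.Agent.IM55.PL

open SimpleGraph Pool.Agent.IM55

namespace XSTP

variable {V : Type} {G : SimpleGraph V}

theorem tn_union (I : Finset ℕ) (X Y : Set V) (Q : ℕ → Set V) :
    tn G I (X ∪ Y) Q ≤ tn G I X Q + tn G I Y Q := by
  classical
  unfold tn
  refine (Finset.card_le_card ?_).trans (Finset.card_union_le _ _)
  intro c hc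
  rw [Finset.mem_filter] at hc
  rw [Finset.mem_union, Finset.mem_filter, Finset.mem_filter]
  obtain ⟨h1, x, hx | hx, y, hy, h⟩ := hc
  · exact Or.inl ⟨h1, x, hx, y, hy, h⟩
  · exact Or.inr ⟨h1, x, hx, y, hy, h⟩

theorem tn_mono {I : Finset ℕ} {X Y : Set V} {Q Q' : ℕ → Set V} (h : X ⊆ Y)
    (hQ : ∀ c ∈ I, Q c ⊆ Q' c) : tn G I X Q ≤ tn G I Y Q' := by
  classical
  unfold tn
  refine Finset.card_le_card fun c hc => ?_
  rw [Finset.mem_filter] at hc ⊢
  exact ⟨hc.1, hc.2.mono h (hQ c hc.1)⟩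

theorem tp_eq (I : Finset ℕ) (m : ℕ) (R Q : ℕ → Set V) :
    tp G I m R Q = ∑ a ∈ I, tn G (Finset.range m) (R a) Q := by
  classical
  unfold tp tn
  rw [Finset.card_filter, Finset.sum_product]
  refine Finset.sum_congr rfl fun a _ => ?_
  rw [Finset.card_filter]

theorem thin_mono [Finite V] {lb : V → V} {co : Set V} {f f' : ℕ} {U U' : Set V}
    (h : Thin lb co f U) (hf : f ≤ f') (hU : U' ⊆ U) : Thin lb co f' U' := by
  intro i
  refine (Set.ncard_le_ncard ?_ (Set.toFinite _)).trans ((h i).trans hf)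
  rintro x ⟨h1, h2⟩
  exact ⟨hU h1, h2⟩

theorem thin_union [Finite V] {lb : V → V} {co : Set V} {f f' : ℕ} {U U' : Set V}
    (h : Thin lb co f U) (h' : Thin lb co f' U') : Thin lb co (f + f') (U ∪ U') := by
  intro i
  have e : {x | x ∈ U ∪ U' ∧ lb x = i ∧ x ∉ co} ⊆
      {x | x ∈ U ∧ lb x = i ∧ x ∉ co} ∪ {x | x ∈ U' ∧ lb x = i ∧ x ∉ co} := by
    rintro x ⟨h1 | h1, h2⟩
    · exact Or.inl ⟨h1, h2⟩
    · exact Or.inr ⟨h1, h2⟩
  exact (Set.ncard_le_ncard e (Set.toFinite _)).trans
    ((Set.ncard_union_le _ _).trans (Nat.add_le_add (h i) (h' i)))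

/-- keep `m` members of a family which are anticomplete to `c₀` -/
theorem keep {U A B : Set V} {M m : ℕ} {w : ℕ → ℕ → V} {l : ℕ → ℕ} (h : AP G U A B M w l)
    (c₀ : Set V) (ht : tn G (Finset.range M) c₀ (fun c => rng (w c) (l c)) + m ≤ M) :
    ∃ (U' : Set V) (w' : ℕ → ℕ → V) (l' : ℕ → ℕ), U' ⊆ U ∧ Anti G U' c₀ ∧
      AP G U' A B m w' l' := by
  classical
  set S : Finset ℕ := (Finset.range M).filter fun c => ¬ Touch G c₀ (rng (w c) (l c)) with hS
  have hcard : m ≤ S.card := by
    have h1 := Finset.card_filter_add_card_filter_not (s := Finset.range M)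
      (fun c => Touch G c₀ (rng (w c) (l c)))
    rw [Finset.card_range] at h1
    have h0 : ((Finset.range M).filter fun c => ¬ Touch G c₀ (rng (w c) (l c))).card =
        S.card := by
      rw [hS]
    rw [h0] at h1
    have h2 : ((Finset.range M).filter fun c => Touch G c₀ (rng (w c) (l c))).card =
        tn G (Finset.range M) c₀ (fun c => rng (w c) (l c)) := by
      unfold tn
      congr
    omega
  obtain ⟨T, hTS, hT⟩ := Finset.exists_subset_card_eq hcard
  set e := T.orderIsoOfFin hT with he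
  set g : ℕ → ℕ := fun i => if h : i < m then ((e ⟨i, h⟩ : T) : ℕ) else 0 with hg
  have hgT : ∀ i < m, g i ∈ S := by
    intro i hi
    have : g i = ((e ⟨i, hi⟩ : T) : ℕ) := by rw [hg]; simp only [hi, dif_pos]
    rw [this]
    exact hTS (e ⟨i, hi⟩).2
  have hginj : ∀ i < m, ∀ j < m, g i = g j → i = j := by
    intro i hi j hj hij
    have h1 : g i = ((e ⟨i, hi⟩ : T) : ℕ) := by rw [hg]; simp only [hi, dif_pos]
    have h2 : g j = ((e ⟨j, hj⟩ : T) : ℕ) := by rw [hg]; simp only [hj, dif_pos]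
    rw [h1, h2] at hij
    have h3 := e.injective (Subtype.ext hij)
    exact congrArg Fin.val h3
  have hgM : ∀ i < m, g i < M := fun i hi =>
    Finset.mem_range.1 (Finset.mem_filter.1 (hgT i hi)).1
  refine ⟨{v | ∃ i < m, v ∈ rng (w (g i)) (l (g i))}, fun i => w (g i), fun i => l (g i),
    ?_, ?_, ?_, ?_⟩
  · rintro v ⟨i, hi, hv⟩
    exact (h.1 _ (hgM i hi)).sub hv
  · rintro v ⟨i, hi, hv⟩ x hx
    have h1 := not_touch_iff.1 (Finset.mem_filter.1 (hgT i hi)).2
    exact h1.symm v hv x hx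
  · intro i hi
    have h1 := h.1 _ (hgM i hi)
    exact ⟨h1.ip, fun v hv => ⟨i, hi, hv⟩, h1.hA, h1.hB⟩
  · intro i hi j hj hij
    exact h.2 _ (hgM i hi) _ (hgM j hj) fun h1 => hij (hginj i hi j hj h1)

/-- the regions of the kept families -/
theorem lk_of [Finite V] {lb : V → V} {co : Set V} {P : ℕ → Set V} {n f a b : ℕ}
    {U Z U' : Set V} (ha : a < n) (hb : b < n) (h : Lk G lb co P n f a b U)
    (hZ : ∀ x < n, Anti G Z (P x)) (hZt : Thin lb co f Z) (hU' : U' ⊆ Z ∪ U) :
    Lk G lb co P n (2 * f) a b U' where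
  disa := by
    rw [Set.disjoint_left]
    intro v hv hvP
    rcases hU' hv with h1 | h1
    · exact (hZ a ha v h1 v hvP).1 rfl
    · exact Set.disjoint_left.1 h.disa h1 hvP
  disb := by
    rw [Set.disjoint_left]
    intro v hv hvP
    rcases hU' hv with h1 | h1
    · exact (hZ b hb v h1 v hvP).1 rfl
    · exact Set.disjoint_left.1 h.disb h1 hvP
  anti := by
    intro x hx hxa hxb v hv y hy
    rcases hU' hv with h1 | h1
    · exact hZ x hx v h1 y hy
    · exact h.anti x hx hxa hxb v h1 y hy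
  thin := thin_mono (thin_union hZt h.thin) (by omega) hU'

theorem rng_short {w : ℕ → V} {l : ℕ} (hl : l ≤ 1) : rng w l ⊆ {w 0} ∪ {w 1} := by
  rintro v ⟨i, hi, rfl⟩
  have : i = 0 ∨ i = 1 := by omega
  rcases this with rfl | rfl
  · exact Or.inl rfl
  · exact Or.inr rfl

/-- the inner part of a path -/
def inn (w : ℕ → V) (l : ℕ) : Set V := {v | ∃ i, 1 ≤ i ∧ i ≤ l - 1 ∧ w i = v}

theorem inn_sub (w : ℕ → V) (l : ℕ) : inn w l ⊆ rng w l := by
  rintro v ⟨i, -, h2, rfl⟩
  exact ⟨i, by omega, rfl⟩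

theorem rng_sub (w : ℕ → V) (l : ℕ) : rng w l ⊆ (inn w l ∪ {w 0}) ∪ {w l} := by
  rintro v ⟨i, hi, rfl⟩
  by_cases h0 : i = 0
  · subst h0
    exact Or.inl (Or.inr rfl)
  · by_cases hl : i = l
    · subst hl
      exact Or.inr rfl
    · exact Or.inl (Or.inl ⟨i, by omega, by omega, rfl⟩)

end XSTP

open XSTP in
theorem i_STP (hSPR : S_SPR) (hTHN : S_THN) (hTCH : S_TCH) : S_STP := by
  intro n Δ c f N
  obtain ⟨C₁, hC₁, hspr⟩ := hSPR n Δ (8 * (N + 1))
  refine ⟨8 * C₁ * (c + 2 * f + 1) + 2 * (Δ + 1) + 2, by omega, ?_⟩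
  set C : ℕ := 8 * C₁ * (c + 2 * f + 1) + 2 * (Δ + 1) + 2 with hC
  intro V _ G r Lg ly lb co P m ℓ a b U w l hDeg hNot hLab hLegs hlab hℓ hPP hfam hCm
  classical
  have hCℓ : C ≤ m := (Nat.le_mul_of_pos_right C hℓ).trans hCm
  have hm2 : 2 * (Δ + 1) + 2 ≤ m := by
    have : 2 * (Δ + 1) + 2 ≤ C := by rw [hC]; omega
    omega
  have hm0 : 0 < m := by omega
  obtain ⟨haN, hbN, habN, hLkN, hAPN⟩ := hfam N le_rfl
  -- general facts on the link
  have hlink : ∀ c' < C * m, (G.induce (rng (w N c') (l N c'))).Connected ∧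
      rng (w N c') (l N c') ⊆ U N ∧ Touch G (rng (w N c') (l N c')) (P (a N)) ∧
      Touch G (rng (w N c') (l N c')) (P (b N)) := by
    intro c' hc'
    have h1 := hAPN.1 c' hc'
    refine ⟨rng_conn h1.ip, h1.sub, ?_, ?_⟩
    · obtain ⟨-, x, hx, hadj⟩ := (h1.hA 0 (Nat.zero_le _)).2 rfl
      exact ⟨_, ⟨0, Nat.zero_le _, rfl⟩, x, hx, Or.inr hadj.symm⟩
    · obtain ⟨-, x, hx, hadj⟩ := (h1.hB _ le_rfl).2 rfl
      exact ⟨_, ⟨_, le_rfl, rfl⟩, x, hx, Or.inr hadj.symm⟩
  by_cases hshort : ∃ c' < C * m, l N c' ≤ 1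
  · -- case 1
    obtain ⟨c', hc', hl⟩ := hshort
    obtain ⟨k1, k2, k3, k4⟩ := hlink c' hc'
    have key : ∀ s, ∃ (U' : Set V) (w' : ℕ → ℕ → V) (l' : ℕ → ℕ), s < N →
        U' ⊆ U s ∪ U N ∧ Anti G U' (rng (w N c') (l N c')) ∧
        Lk G lb co P n (2 * f) (a s) (b s) U' ∧
        AP G U' (opN G (P (a s))) (opN G (P (b s))) m w' l' := by
      intro s
      by_cases hs : s < N
      · obtain ⟨has, hbs, habs, hLks, hAPs⟩ := hfam s hs.le
        have hdis : ∀ i ∈ Finset.range (C * m), ∀ j ∈ Finset.range (C * m), i ≠ j →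
            Disjoint (rng (w s i) (l s i)) (rng (w s j) (l s j)) := fun i hi j hj hij =>
          (ap_fm hAPs).2 i (Finset.mem_range.1 hi) j (Finset.mem_range.1 hj) hij
        have ht : tn G (Finset.range (C * m)) (rng (w N c') (l N c'))
            (fun c => rng (w s c) (l s c)) ≤ (Δ + 1) + (Δ + 1) :=
          (tn_mono (rng_short hl) (fun _ _ => Set.Subset.rfl)).trans
            ((tn_union _ _ _ _).trans (Nat.add_le_add (hTCH G Δ _ _ _ hDeg hdis)
              (hTCH G Δ _ _ _ hDeg hdis)))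
        have hCm2 : 2 * m ≤ C * m := Nat.mul_le_mul_right m (by rw [hC]; omega)
        obtain ⟨U', w', l', h1, h2, h3⟩ := keep (m := m) hAPs (rng (w N c') (l N c')) (by omega)
        refine ⟨U', w', l', fun _ => ⟨fun v hv => Or.inl (h1 hv), h2, ?_, h3⟩⟩
        refine lk_of (Z := ∅) has hbs hLks (fun x _ v hv => absurd hv (Set.notMem_empty v)) ?_
          (fun v hv => Or.inr (h1 hv))
        intro i
        have e : {x | x ∈ (∅ : Set V) ∧ lb x = i ∧ x ∉ co} = ∅ := by
          ext x
          simp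
        rw [e, Set.ncard_empty]
        exact Nat.zero_le _
      · exact ⟨∅, w s, l s, fun h => absurd h hs⟩
    choose U' w' l' hkey using key
    exact ⟨rng (w N c') (l N c'), U', w', l', k1, k2, k3, k4, fun s hs => hkey s hs⟩
  · -- case 2
    push Not at hshort
    set I : Finset ℕ := Finset.range (C * m) with hI
    set R : ℕ → Set V := fun c' => inn (w N c') (l N c') with hR
    have hRrng : ∀ c', R c' ⊆ rng (w N c') (l N c') := fun c' => inn_sub _ _
    have hrows : Rows G I R := by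
      refine ⟨fun c' hc' => ?_, fun c' hc' c'' hc'' hne => ?_⟩
      · have h1 := hshort c' (Finset.mem_range.1 hc')
        exact ip_seg_conn (hAPN.1 c' (Finset.mem_range.1 hc')).ip (by omega) (by omega)
      · exact (hAPN.2 c' (Finset.mem_range.1 hc') c'' (Finset.mem_range.1 hc'') hne).mono
          (hRrng _) (hRrng _)
    have hUnN : Un I R ⊆ U N := by
      rintro v ⟨c', hc', hv⟩
      exact (hlink c' (Finset.mem_range.1 hc')).2.1 (hRrng c' hv)
    have hUnP : ∀ x < n, Anti G (Un I R) (P x) := by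
      rintro x hx v ⟨c', hc', i, hi1, hi2, rfl⟩ y hy
      have hc'' := Finset.mem_range.1 hc'
      have hpc := hAPN.1 c' hc''
      have hl := hshort c' hc''
      have hvU : w N c' i ∈ U N := hpc.sub ⟨i, by omega, rfl⟩
      by_cases hxa : x = a N
      · subst hxa
        have hvP : w N c' i ∉ P (a N) := fun h => Set.disjoint_left.1 hLkN.disa hvU h
        refine ⟨fun e => hvP (e ▸ hy), fun hadj => ?_⟩
        have := (hpc.hA i (by omega)).1 ⟨hvP, y, hy, hadj.symm⟩
        omega
      · by_cases hxb : x = b N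
        · subst hxb
          have hvP : w N c' i ∉ P (b N) := fun h => Set.disjoint_left.1 hLkN.disb hvU h
          refine ⟨fun e => hvP (e ▸ hy), fun hadj => ?_⟩
          have := (hpc.hB i (by omega)).1 ⟨hvP, y, hy, hadj.symm⟩
          omega
        · exact hLkN.anti x hx hxa hxb _ hvU y hy
    have hUnT : Thin lb co f (Un I R) := thin_mono hLkN.thin le_rfl hUnN
    set ℓ' : ℕ := (c + 2 * f + 1) * ℓ with hℓ'
    have hℓ'1 : 1 ≤ ℓ' := by
      rw [hℓ']
      exact Nat.mul_pos (by omega) hℓ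
    have n1 : C₁ * ℓ' ≤ 8 * m := by
      have h1 : C₁ * ℓ' ≤ C * ℓ := by
        rw [hℓ', ← mul_assoc]
        refine Nat.mul_le_mul_right ℓ ?_
        rw [hC]
        nlinarith
      omega
    have n2 : C₁ * (8 * m) ≤ C * m := by
      rw [← mul_assoc]
      refine Nat.mul_le_mul_right m ?_
      rw [hC]
      nlinarith
    have hIcard : I.card = C * m := Finset.card_range _
    -- the sparse families
    have key1 : ∀ s, ∃ (w' : ℕ → ℕ → V) (l' : ℕ → ℕ), s < N →
        AP G (Un I R ∪ U s) (opN G (P (a s))) (opN G (P (b s))) (8 * m) w' l' ∧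
        8 * (N + 1) * tp G I (8 * m) R (fun c => rng (w' c) (l' c)) ≤ I.card * (8 * m) := by
      intro s
      by_cases hs : s < N
      · obtain ⟨has, hbs, habs, hLks, hAPs⟩ := hfam s hs.le
        have g1 : ∀ z, tn G I (Lg z) R ≤ ℓ' := by
          intro z
          have h1 := hTHN G c f r ly lb co (U N) (P (a N)) (P (b N)) (Lg z) hLab hLkN.thin
            (fun x hx y hy => hPP _ haN _ hbN habN x hx y hy) (C * m) _ (ap_fm hAPN)
          refine (tn_mono Set.Subset.rfl (fun c' _ => hRrng c')).trans (h1.trans ?_)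
          calc (lb '' clN G (Lg z)).ncard * (c + f) ≤ ℓ * (c + 2 * f + 1) :=
                Nat.mul_le_mul (hlab z) (by omega)
            _ = ℓ' := by rw [hℓ', mul_comm]
        have g2 : ∀ (z : V) (m' : ℕ) (Q : ℕ → Set V),
            Fm G (Un I R ∪ U s) (opN G (P (a s))) (opN G (P (b s))) m' Q →
            tn G (Finset.range m') (Lg z) Q ≤ ℓ' := by
          intro z m' Q hQ
          have h1 := hTHN G c (f + f) r ly lb co (Un I R ∪ U s) (P (a s)) (P (b s)) (Lg z) hLab
            (thin_union hUnT hLks.thin)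
            (fun x hx y hy => hPP _ has _ hbs habs x hx y hy) m' Q hQ
          refine h1.trans ?_
          calc (lb '' clN G (Lg z)).ncard * (c + (f + f)) ≤ ℓ * (c + 2 * f + 1) :=
                Nat.mul_le_mul (hlab z) (by omega)
            _ = ℓ' := by rw [hℓ', mul_comm]
        obtain ⟨w', l', h1, h2⟩ := hspr G r Lg (Un I R ∪ U s) (opN G (P (a s))) (opN G (P (b s)))
          I R (C * m) (8 * m) ℓ' hDeg hNot hLegs hrows Set.subset_union_left
          ⟨_, fm_mono (ap_fm hAPs) Set.subset_union_right le_rfl⟩ hℓ'1 g1 g2 n1 n2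
          (by rw [hIcard]; exact n2)
        exact ⟨w', l', fun _ => ⟨h1, h2⟩⟩
      · exact ⟨w s, l s, fun h => absurd h hs⟩
    choose ws ls hws using key1
    -- a row which touches few connectors of all families
    have hrow : ∃ c' ∈ I, ∀ s < N,
        tn G (Finset.range (8 * m)) (R c') (fun c => rng (ws s c) (ls s c)) ≤ 4 * m := by
      by_contra hcon
      push Not at hcon
      set H : ℕ → Finset ℕ := fun s => I.filter fun c' =>
        4 * m < tn G (Finset.range (8 * m)) (R c') (fun c => rng (ws s c) (ls s c)) with hH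
      have hHcard : ∀ s < N, 4 * (N + 1) * (H s).card ≤ I.card := by
        intro s hs
        have h1 : (H s).card * (4 * m) ≤
            tp G I (8 * m) R (fun c => rng (ws s c) (ls s c)) := by
          rw [tp_eq, ← smul_eq_mul]
          refine (Finset.card_nsmul_le_sum (H s) _ (4 * m) fun c' hc' =>
            (Finset.mem_filter.1 hc').2.le).trans ?_
          exact Finset.sum_le_sum_of_subset (Finset.filter_subset _ _)
        have h2 := (hws s hs).2
        have h3 : (4 * (N + 1) * (H s).card) * (8 * m) ≤ I.card * (8 * m) := by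
          calc (4 * (N + 1) * (H s).card) * (8 * m)
              = 8 * (N + 1) * ((H s).card * (4 * m)) := by ring
            _ ≤ 8 * (N + 1) * tp G I (8 * m) R (fun c => rng (ws s c) (ls s c)) :=
              Nat.mul_le_mul_left _ h1
            _ ≤ I.card * (8 * m) := h2
        exact Nat.le_of_mul_le_mul_right h3 (by omega)
      have hcov : I ⊆ (Finset.range N).biUnion H := by
        intro c' hc'
        obtain ⟨s, hs, h1⟩ := hcon c' hc'
        exact Finset.mem_biUnion.2 ⟨s, Finset.mem_range.2 hs, Finset.mem_filter.2 ⟨hc', h1⟩⟩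
      have h1 : I.card ≤ ∑ s ∈ Finset.range N, (H s).card :=
        (Finset.card_le_card hcov).trans Finset.card_biUnion_le
      have h2 : 4 * (N + 1) * ∑ s ∈ Finset.range N, (H s).card ≤ N * I.card := by
        rw [Finset.mul_sum]
        calc ∑ s ∈ Finset.range N, 4 * (N + 1) * (H s).card
            ≤ ∑ _s ∈ Finset.range N, I.card :=
              Finset.sum_le_sum fun s hs => hHcard s (Finset.mem_range.1 hs)
          _ = N * I.card := by rw [Finset.sum_const, Finset.card_range, smul_eq_mul]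
      have h3 : 0 < I.card := by
        rw [hIcard]
        exact Nat.mul_pos (by rw [hC]; omega) hm0
      have h4 : 4 * (N + 1) * I.card ≤ N * I.card :=
        (Nat.mul_le_mul_left _ h1).trans h2
      have h5 := Nat.le_of_mul_le_mul_right h4 h3
      omega
    obtain ⟨c', hc', hfew⟩ := hrow
    obtain ⟨k1, k2, k3, k4⟩ := hlink c' (Finset.mem_range.1 hc')
    have key : ∀ s, ∃ (U' : Set V) (w' : ℕ → ℕ → V) (l' : ℕ → ℕ), s < N →
        U' ⊆ U s ∪ U N ∧ Anti G U' (rng (w N c') (l N c')) ∧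
        Lk G lb co P n (2 * f) (a s) (b s) U' ∧
        AP G U' (opN G (P (a s))) (opN G (P (b s))) m w' l' := by
      intro s
      by_cases hs : s < N
      · obtain ⟨has, hbs, habs, hLks, hAPs⟩ := hfam s hs.le
        obtain ⟨hAP, -⟩ := hws s hs
        have hdis : ∀ i ∈ Finset.range (8 * m), ∀ j ∈ Finset.range (8 * m), i ≠ j →
            Disjoint (rng (ws s i) (ls s i)) (rng (ws s j) (ls s j)) := fun i hi j hj hij =>
          (ap_fm hAP).2 i (Finset.mem_range.1 hi) j (Finset.mem_range.1 hj) hij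
        have ht : tn G (Finset.range (8 * m)) (rng (w N c') (l N c'))
            (fun c => rng (ws s c) (ls s c)) ≤ (4 * m + (Δ + 1)) + (Δ + 1) :=
          (tn_mono (rng_sub _ _) (fun _ _ => Set.Subset.rfl)).trans
            ((tn_union _ _ _ _).trans (Nat.add_le_add
              ((tn_union _ _ _ _).trans (Nat.add_le_add (hfew s hs)
                (hTCH G Δ _ _ _ hDeg hdis))) (hTCH G Δ _ _ _ hDeg hdis)))
        obtain ⟨U', w', l', h1, h2, h3⟩ := keep (m := m) hAP (rng (w N c') (l N c')) (by omega)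
        refine ⟨U', w', l', fun _ => ⟨fun v hv => ?_, h2, ?_, h3⟩⟩
        · rcases h1 hv with h4 | h4
          · exact Or.inr (hUnN h4)
          · exact Or.inl h4
        · exact lk_of has hbs hLks hUnP hUnT h1
      · exact ⟨∅, w s, l s, fun h => absurd h hs⟩
    choose U' w' l' hkey using key
    exact ⟨rng (w N c') (l N c'), U', w', l', k1, k2, k3, k4, fun s hs => hkey s hs⟩

end Pool.Agent.IM55.PL
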