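import Pool.Agent.Work.MP_55ff09_co.PL.Base

/-!
# MP_55ff09_co, block PL: item STR (the star case)
-/

set_option autoImplicit false

namespace Pool.Agent.IM55.PL

open SimpleGraph Pool.Agent.IM55

namespace XSTR

variable {V : Type} {G : SimpleGraph V}

theorem anti_union_left {X Y Z : Set V} (h1 : Anti G X Z) (h2 : Anti G Y Z) :
    Anti G (X ∪ Y) Z := by
  rintro x (hx | hx) z hz
  · exact h1 x hx z hz
  · exact h2 x hx z hz

theorem anti_union_right {X Y Z : Set V} (h1 : Anti G X Y) (h2 : Anti G X Z) :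
    Anti G X (Y ∪ Z) := (anti_union_left h1.symm h2.symm).symm

/-- the part of a column between two positions -/
def sg (w : ℕ → V) (a b : ℕ) : Set V := {v | ∃ i, a ≤ i ∧ i ≤ b ∧ w i = v}

theorem sg_sub {w : ℕ → V} {a b l : ℕ} (h : b ≤ l) : sg w a b ⊆ rng w l := by
  rintro v ⟨i, -, h2, rfl⟩
  exact ⟨i, by omega, rfl⟩

variable {r : V} {t g : ℕ} {R : ℕ → Set V} {w : ℕ → ℕ → V} {l : ℕ → ℕ} {α β τ : ℕ → ℕ → ℕ}
  {Vg : ℕ → ℕ → Set V}

theorem mem_tch {K : Set V} {j : ℕ} :
    j ∈ tch G t w l K ↔ j < t ∧ Touch G K (rng (w j) (l j)) := by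
  classical
  unfold tch
  rw [Finset.mem_filter, Finset.mem_range]

/-- contacts between a part of the row `k` and the column `c` -/
theorem contact (hF : Frame G r t g R w l α β τ Vg) {k c : ℕ} (hk : k < g) (hc : c < t)
    {K : Set V} (hK : K ⊆ R k) {x : V} (hx : x ∈ K) {a : ℕ} (ha : a ≤ l c)
    (h : x = w c a ∨ G.Adj x (w c a)) : α c k ≤ a ∧ a ≤ β c k :=
  hF.conf c hc k hk a ha ⟨w c a, rfl, x, hK hx, h.imp (fun e => e.symm) (fun e => e.symm)⟩

/-- a part of the row `k` which touches the column `c` touches it between `α` and `β` -/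
theorem touch_sg (hF : Frame G r t g R w l α β τ Vg) {k c : ℕ} (hk : k < g) (hc : c < t)
    {K : Set V} (hK : K ⊆ R k) (h : Touch G K (rng (w c) (l c))) {a b : ℕ} (ha : a ≤ α c k)
    (hb : β c k ≤ b) : Touch G K (sg (w c) a b) := by
  obtain ⟨x, hx, y, ⟨i, hi, rfl⟩, hxy⟩ := h
  obtain ⟨h1, h2⟩ := contact hF hk hc hK hx hi hxy
  exact ⟨x, hx, w c i, ⟨i, by omega, by omega, rfl⟩, hxy⟩

/-- a part of the row `k` does not touch far away parts of the columns -/
theorem anti_sg (hF : Frame G r t g R w l α β τ Vg) {k c : ℕ} (hk : k < g) (hc : c < t)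
    {K : Set V} (hK : K ⊆ R k) {a b : ℕ} (hb : b ≤ l c) (h : β c k < a ∨ b < α c k) :
    Anti G K (sg (w c) a b) := by
  rw [← not_touch_iff]
  rintro ⟨x, hx, y, ⟨i, hi1, hi2, rfl⟩, hxy⟩
  obtain ⟨h1, h2⟩ := contact hF hk hc hK hx (by omega) hxy
  omega

/-- far away parts of one column -/
theorem sg_sg {w : ℕ → V} {l a b a' b' : ℕ} (h : IP G w l) (hb : b + 2 ≤ a') (hb' : b' ≤ l) :
    Anti G (sg w a b) (sg w a' b') := by
  rintro x ⟨i, hi1, hi2, rfl⟩ y ⟨j, hj1, hj2, rfl⟩
  constructor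
  · intro e
    have := h.inj i (by omega) j (by omega) e
    omega
  · intro e
    have := h.ind i (by omega) j (by omega) e
    omega

/-- the connector: parts `A`, `B` of the rows `k`, `k + 1` and the part of the column `c` between -/
def con (w : ℕ → ℕ → V) (α β : ℕ → ℕ → ℕ) (c k : ℕ) (A B : Set V) : Set V :=
  (A ∪ sg (w c) (α c k) (β c (k + 1))) ∪ B

theorem con_anti (hF : Frame G r t g R w l α β τ Vg) {k k' c : ℕ} (hkk : k + 1 < k')
    (hk' : k' + 1 < g) (hc : c < t) {A B A' B' : Set V} (hA : A ⊆ R k) (hB : B ⊆ R (k + 1))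
    (hA' : A' ⊆ R k') (hB' : B' ⊆ R (k' + 1)) :
    Anti G (con w α β c k A B) (con w α β c k' A' B') := by
  have hr : ∀ m m', m < g → m' < g → m ≠ m' → Anti G (R m) (R m') :=
    fun m m' h1 h2 h3 => hF.ranti m h1 m' h2 h3
  have g1 := hF.gap c hc k (by omega) k' (by omega) (by omega)
  have g2 := hF.gap c hc (k + 1) (by omega) k' (by omega) (by omega)
  have g3 := hF.gap c hc k' (by omega) (k' + 1) (by omega) (by omega)
  have o1 := hF.ord c hc k (by omega)
  have o2 := hF.ord c hc (k + 1) (by omega)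
  have o3 := hF.ord c hc k' (by omega)
  have o4 := hF.ord c hc (k' + 1) (by omega)
  unfold con
  refine anti_union_left (anti_union_left ?_ ?_) ?_
  · refine anti_union_right (anti_union_right ?_ ?_) ?_
    · exact (hr k k' (by omega) (by omega) (by omega)).mono hA hA'
    · exact anti_sg hF (by omega) hc hA (by omega) (Or.inl (by omega))
    · exact (hr k (k' + 1) (by omega) (by omega) (by omega)).mono hA hB'
  · refine anti_union_right (anti_union_right ?_ ?_) ?_
    · exact (anti_sg hF (by omega) hc hA' (by omega) (Or.inr (by omega))).symm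
    · exact sg_sg (hF.ip c hc) (by omega) (by omega)
    · exact (anti_sg hF (by omega) hc hB' (by omega) (Or.inr (by omega))).symm
  · refine anti_union_right (anti_union_right ?_ ?_) ?_
    · exact (hr (k + 1) k' (by omega) (by omega) (by omega)).mono hB hA'
    · exact anti_sg hF (by omega) hc hB (by omega) (Or.inl (by omega))
    · exact (hr (k + 1) (k' + 1) (by omega) (by omega) (by omega)).mono hB hB'

end XSTR

open XSTR in
theorem i_STR (hK1 : S_K1) : S_STR := by
  intro V _ G r t g n R w l α β τ Vg c₀ y e K hF hg hc₀ hy hyy hK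
  have hlt : ∀ i j, i < j → j < n → 2 * (i * n + j) + 1 < g := by
    intro i j hij hj
    have h1 : i + 1 ≤ n := by omega
    have h2 : (i + 1) * n ≤ n * n := Nat.mul_le_mul_right n h1
    have h3 : (i + 1) * n = i * n + n := by ring
    omega
  have hinj : ∀ i j i' j', i < j → j < n → i' < j' → j' < n → (i, j) ≠ (i', j') →
      i * n + j ≠ i' * n + j' := by
    intro i j i' j' h1 h2 h3 h4 h5 h6
    apply h5
    have hn : 0 < n := by omega
    have e1 : (i * n + j) / n = i := by
      rw [mul_comm, Nat.mul_add_div hn, Nat.div_eq_of_lt h2, add_zero]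
    have e2 : (i' * n + j') / n = i' := by
      rw [mul_comm, Nat.mul_add_div hn, Nat.div_eq_of_lt h4, add_zero]
    have e3 : i = i' := by rw [← e1, ← e2, h6]
    subst e3
    have e4 : j = j' := by omega
    rw [e4]
  have htch : ∀ k < g, ∀ i < n, ∀ j < t, j ∈ e i ↔ Touch G (K k i) (rng (w j) (l j)) := by
    intro k hk i hi j hj
    rw [← (hK k hk i hi).2.2, mem_tch]
    exact ⟨fun h => h.2, fun h => ⟨hj, h⟩⟩
  refine hK1 G n (fun i => rng (w (y i)) (l (y i)))
    (fun i j => con w α β c₀ (2 * (i * n + j)) (K (2 * (i * n + j)) i)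
      (K (2 * (i * n + j) + 1) j)) ?_ ?_ ?_ ?_
  · intro i hi
    exact rng_conn (hF.ip (y i) (hy i hi).2.2.2)
  · intro i hi j hj hij
    exact hF.col (y i) (hy i hi).2.2.2 (y j) (hy j hj).2.2.2 (hyy i hi j hj hij).1
  · intro i j hij hj
    have hi : i < n := by omega
    have hk1 := hlt i j hij hj
    generalize 2 * (i * n + j) = k at hk1 ⊢
    have hk : k < g := by omega
    have g1 := hF.gap c₀ hc₀ k hk (k + 1) hk1 (by omega)
    have o1 := hF.ord c₀ hc₀ k hk
    have o2 := hF.ord c₀ hc₀ (k + 1) hk1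
    have t1 : Touch G (K k i) (rng (w c₀) (l c₀)) := (htch k hk i hi c₀ hc₀).1 (hy i hi).1
    have t2 : Touch G (K (k + 1) j) (rng (w c₀) (l c₀)) :=
      (htch (k + 1) hk1 j hj c₀ hc₀).1 (hy j hj).1
    have s1 : Touch G (K k i) (sg (w c₀) (α c₀ k) (β c₀ (k + 1))) :=
      touch_sg hF hk hc₀ (hK k hk i hi).1 t1 le_rfl (by omega)
    have s2 : Touch G (K (k + 1) j) (sg (w c₀) (α c₀ k) (β c₀ (k + 1))) :=
      touch_sg hF hk1 hc₀ (hK (k + 1) hk1 j hj).1 t2 (by omega) le_rfl
    have hs : (G.induce (sg (w c₀) (α c₀ k) (β c₀ (k + 1)))).Connected :=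
      ip_seg_conn (hF.ip c₀ hc₀) (by omega) (by omega)
    refine ⟨?_, ?_, ?_, ?_⟩
    · refine conn_union (conn_union (hK k hk i hi).2.1 hs s1) (hK (k + 1) hk1 j hj).2.1 ?_
      exact s2.symm.mono Set.subset_union_right (subset_refl _)
    · exact ((htch k hk i hi (y i) (hy i hi).2.2.2).1 (hy i hi).2.1).mono
        (Set.subset_union_left.trans Set.subset_union_left) (subset_refl _)
    · exact ((htch (k + 1) hk1 j hj (y j) (hy j hj).2.2.2).1 (hy j hj).2.1).mono
        Set.subset_union_right (subset_refl _)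
    · intro m hm hmi hmj
      refine anti_union_left (anti_union_left ?_ ?_) ?_
      · rw [← not_touch_iff, ← htch k hk i hi (y m) (hy m hm).2.2.2]
        exact (hyy i hi m hm (Ne.symm hmi)).2
      · exact (hF.col c₀ hc₀ (y m) (hy m hm).2.2.2 (hy m hm).2.2.1.symm).mono
          (sg_sub (by omega)) (subset_refl _)
      · rw [← not_touch_iff, ← htch (k + 1) hk1 j hj (y m) (hy m hm).2.2.2]
        exact (hyy j hj m hm (Ne.symm hmj)).2
  · intro i j i' j' hij hj hij' hj' hne
    have h1 := hlt i j hij hj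
    have h2 := hlt i' j' hij' hj'
    have h3 := hinj i j i' j' hij hj hij' hj' hne
    have hsub : ∀ k < g, ∀ i < n, K k i ⊆ R k := fun k hk i hi => (hK k hk i hi).1
    rcases Nat.lt_or_gt_of_ne h3 with h4 | h4
    · exact con_anti hF (by omega) h2 hc₀ (hsub _ (by omega) _ (by omega))
        (hsub _ (by omega) _ hj) (hsub _ (by omega) _ (by omega)) (hsub _ (by omega) _ hj')
    · exact (con_anti hF (by omega) h1 hc₀ (hsub _ (by omega) _ (by omega))
        (hsub _ (by omega) _ hj') (hsub _ (by omega) _ (by omega)) (hsub _ (by omega) _ hj)).symm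

end Pool.Agent.IM55.PL
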