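import Pool.Agent.Work.MP_55ff09_co.PL.Base

/-!
# MP_55ff09_co, block PL, item TCH
-/

set_option autoImplicit false

namespace Pool.Agent.IM55.PL

open SimpleGraph Pool.Agent.IM55

theorem i_TCH : S_TCH := by
  classical
  intro V _ G Δ I Q v hG hdis
  have hch : ∀ c : ℕ, ∃ y : V, Touch G {v} (Q c) → y ∈ clN G {v} ∧ y ∈ Q c := by
    intro c
    by_cases h : Touch G {v} (Q c)
    · obtain ⟨y, h1, h2⟩ := touch_iff_clN.1 h
      exact ⟨y, fun _ => ⟨h1, h2⟩⟩
    · exact ⟨v, fun h' => absurd h' h⟩
  choose y hy using hch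
  have hfin : (clN G {v}).Finite := Set.toFinite _
  have h1 : tn G I {v} Q ≤ hfin.toFinset.card := by
    unfold tn
    refine Finset.card_le_card_of_injOn y ?_ ?_
    · intro c hc
      have hc' := (Finset.mem_filter.1 hc).2
      exact (Set.Finite.mem_toFinset hfin).2 (hy c hc').1
    · intro c hc c' hc' he
      by_contra hne
      have h2 := Finset.mem_filter.1 hc
      have h3 := Finset.mem_filter.1 hc'
      have h4 := (hy c h2.2).2
      have h5 := (hy c' h3.2).2
      rw [← he] at h5
      exact Set.disjoint_left.1 (hdis c h2.1 c' h3.1 hne) h4 h5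
  rw [← Set.ncard_eq_toFinset_card _ hfin] at h1
  exact h1.trans (clN_ncard hG v)

end Pool.Agent.IM55.PL
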