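import Pool.Agent.Work.MP_55ff09_co.PL.Base

/-!
# [55ff09 PL THN] legs touch few connectors of a thin set
-/

set_option autoImplicit false

namespace Pool.Agent.IM55.PL

open SimpleGraph Pool.Agent.IM55

namespace XTHN

variable {V : Type} {G : SimpleGraph V}

/-- a connector meeting a label has an exit of the label -/
theorem exit {lb : V → V} {U X Y Q : Set V} (hXY : ∀ x ∈ X, ∀ y ∈ Y, lb x ≠ lb y)
    (hQ : Cr G U (opN G X) (opN G Y) Q) {z : V} (hz : z ∈ Q) :
    ∃ v ∈ Q, lb v = lb z ∧ ∃ u, G.Adj v u ∧ lb u ≠ lb z := by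
  by_cases h : ∀ y ∈ Q, lb y = lb z
  · obtain ⟨a, ha, -, x, hx, hxa⟩ := hQ.hA
    obtain ⟨b, hb, -, y, hy, hyb⟩ := hQ.hB
    by_cases hx' : lb x = lb z
    · refine ⟨b, hb, h b hb, y, hyb.symm, fun hc => ?_⟩
      exact hXY x hx y hy (hx'.trans hc.symm)
    · exact ⟨a, ha, h a ha, x, hxa.symm, hx'⟩
  · push Not at h
    obtain ⟨y, hy, hne⟩ := h
    obtain ⟨u, hu, v, _, h1, h2, h3⟩ := exit_edge hQ.conn (fun w => lb w = lb z) hz rfl hy hne
    exact ⟨u, hu, h1, v, h3, h2⟩

end XTHN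

open XTHN in
theorem i_THN : S_THN := by
  classical
  intro V _ G c f r ly lb co U X Y L hLab hThin hXY m Q hQ
  have hF : Fintype V := Fintype.ofFinite V
  set W : Finset V := Finset.univ.filter fun v => v ∈ U ∧ lb v ∈ lb '' clN G L ∧
    ∃ u, G.Adj v u ∧ lb u ≠ lb v with hW
  set T : Finset ℕ := (Finset.range m).filter fun j => Touch G L (Q j) with hT
  have htn : tn G (Finset.range m) L Q = T.card := rfl
  have hch : ∀ j : ℕ, j ∈ T → ∃ v : V, v ∈ Q j ∧ v ∈ W := by
    intro j hj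
    rw [hT, Finset.mem_filter, Finset.mem_range] at hj
    obtain ⟨z, hzL, hzQ⟩ := touch_iff_clN.1 hj.2
    obtain ⟨v, hv, h1, u, h2, h3⟩ := exit hXY (hQ.1 j hj.1) hzQ
    refine ⟨v, hv, ?_⟩
    rw [hW, Finset.mem_filter]
    refine ⟨Finset.mem_univ _, (hQ.1 j hj.1).sub hv, ?_, u, h2, ?_⟩
    · rw [h1]
      exact ⟨z, hzL, rfl⟩
    · rw [h1]
      exact h3
  have hne : Nonempty V := ⟨r⟩
  choose! v hv using hch
  have h1 : T.card ≤ W.card := by
    refine Finset.card_le_card_of_injOn v (fun j hj => (hv j hj).2) ?_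
    intro i hi j hj hij
    by_contra hne
    have hi' := Finset.mem_range.1 (Finset.mem_filter.1 (Finset.mem_coe.1 hi)).1
    have hj' := Finset.mem_range.1 (Finset.mem_filter.1 (Finset.mem_coe.1 hj)).1
    have h2 := hQ.2 i hi' j hj' hne
    refine Set.disjoint_left.1 h2 (hv i (Finset.mem_coe.1 hi)).1 ?_
    rw [hij]
    exact (hv j (Finset.mem_coe.1 hj)).1
  have h2 : W.card ≤ (c + f) * (W.image lb).card := by
    refine Finset.card_le_mul_card_image W (c + f) fun i _ => ?_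
    have h3 : ((W.filter fun x => lb x = i : Finset V) : Set V) ⊆
        {v | v ∈ co ∧ lb v = i ∧ ∃ u, G.Adj v u ∧ lb u ≠ i} ∪
          {x | x ∈ U ∧ lb x = i ∧ x ∉ co} := by
      intro x hx
      rw [Finset.mem_coe, Finset.mem_filter, hW, Finset.mem_filter] at hx
      obtain ⟨⟨-, hxU, -, u, hu1, hu2⟩, hxi⟩ := hx
      by_cases hco : x ∈ co
      · left
        refine ⟨hco, hxi, u, hu1, ?_⟩
        rwa [hxi] at hu2
      · right
        exact ⟨hxU, hxi, hco⟩
    have h4 := Set.ncard_le_ncard h3 (Set.toFinite _)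
    rw [Set.ncard_coe_finset] at h4
    exact (h4.trans (Set.ncard_union_le _ _)).trans (Nat.add_le_add (hLab.exits i) (hThin i))
  have h3 : (W.image lb).card ≤ (lb '' clN G L).ncard := by
    rw [← Set.ncard_coe_finset]
    refine Set.ncard_le_ncard ?_ (Set.toFinite _)
    intro x hx
    rw [Finset.mem_coe, Finset.mem_image] at hx
    obtain ⟨y, hy, rfl⟩ := hx
    rw [hW, Finset.mem_filter] at hy
    exact hy.2.2.1
  rw [htn, mul_comm]
  exact (h1.trans h2).trans (Nat.mul_le_mul_left _ h3)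

end Pool.Agent.IM55.PL
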