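import Pool.Agent.Work.MP_55ff09_co.PL.I_FIN

/-!
# MP_55ff09_co, block PL: item TPC
-/

set_option autoImplicit false

namespace Pool.Agent.IM55.PL

open SimpleGraph Pool.Agent.IM55

namespace XTPC

theorem hasAll_small {V : Type} {G : SimpleGraph V} [Nonempty V] {n : ℕ} (hn : n ≤ 1) :
    HasAll G n := by
  intro H
  obtain ⟨v⟩ := ‹Nonempty V›
  have hs : ∀ i j : Fin n, i = j := fun i j => Fin.ext (by omega)
  exact ⟨fun _ => {v}, fun _ => conn_singleton v, fun i j hij => absurd (hs i j) hij,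
    fun i j hij => absurd (hs i j) hij⟩

/-- second index of a pair -/
def bb (n s : ℕ) : ℕ := if s % n = s / n then (s / n + 1) % n else s % n

theorem bb_lt {n s : ℕ} (hn : 0 < n) : bb n s < n := by
  unfold bb
  split_ifs
  · exact Nat.mod_lt _ hn
  · exact Nat.mod_lt _ hn

theorem ne_bb {n s : ℕ} (hn : 2 ≤ n) (hs : s < n * n) : s / n ≠ bb n s := by
  have h1 : s / n < n := Nat.div_lt_of_lt_mul hs
  unfold bb
  split_ifs with h
  · intro h2
    rcases Nat.lt_or_ge (s / n + 1) n with h3 | h3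
    · rw [Nat.mod_eq_of_lt h3] at h2
      omega
    · have h4 : s / n + 1 = n := by omega
      rw [h4, Nat.mod_self] at h2
      omega
  · exact fun h2 => h h2.symm

theorem arith (c CP CF k₀ Δ Λ : ℕ) (hΛ : 1 ≤ Λ) :
    c * (7 * (2 * (CF * ((CP + CF) * (c * Λ + 1)) + k₀ + 1) *
      ((CF * ((CP + CF) * (c * Λ + 1)) + k₀ + 1) + 2 * Δ + 2)) + 1) ≤
    c * (14 * (CF * ((CP + CF) * (c + 1)) + k₀ + 1) *
      ((CF * ((CP + CF) * (c + 1)) + k₀ + 1) + 2 * Δ + 2) + 1) * Λ ^ 2 := by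
  have h1 : c * Λ + 1 ≤ (c + 1) * Λ := by nlinarith
  have h2 : (CP + CF) * (c * Λ + 1) ≤ (CP + CF) * (c + 1) * Λ := by
    rw [mul_assoc]
    exact Nat.mul_le_mul_left _ h1
  have h3 : CF * ((CP + CF) * (c * Λ + 1)) ≤ CF * ((CP + CF) * (c + 1)) * Λ := by
    rw [mul_assoc]
    exact Nat.mul_le_mul_left _ h2
  set a := CF * ((CP + CF) * (c + 1)) with ha
  set k := CF * ((CP + CF) * (c * Λ + 1)) with hk
  have h4 : k + k₀ + 1 ≤ (a + k₀ + 1) * Λ := by nlinarith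
  have h5 : k + k₀ + 1 + 2 * Δ + 2 ≤ (a + k₀ + 1 + 2 * Δ + 2) * Λ := by nlinarith
  have h6 : (k + k₀ + 1) * (k + k₀ + 1 + 2 * Δ + 2) ≤
      ((a + k₀ + 1) * Λ) * ((a + k₀ + 1 + 2 * Δ + 2) * Λ) := Nat.mul_le_mul h4 h5
  have h7 : 1 ≤ Λ ^ 2 := Nat.one_le_pow _ _ hΛ
  have h8 : 7 * (2 * (k + k₀ + 1) * (k + k₀ + 1 + 2 * Δ + 2)) + 1 ≤
      (14 * (a + k₀ + 1) * (a + k₀ + 1 + 2 * Δ + 2) + 1) * Λ ^ 2 := by
    have e1 : 7 * (2 * (k + k₀ + 1) * (k + k₀ + 1 + 2 * Δ + 2)) + 1 =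
        14 * ((k + k₀ + 1) * (k + k₀ + 1 + 2 * Δ + 2)) + 1 := by ring
    have e2 : (14 * (a + k₀ + 1) * (a + k₀ + 1 + 2 * Δ + 2) + 1) * Λ ^ 2 =
        14 * (((a + k₀ + 1) * Λ) * ((a + k₀ + 1 + 2 * Δ + 2) * Λ)) + Λ ^ 2 := by ring
    rw [e1, e2]
    omega
  exact (Nat.mul_le_mul_left c h8).trans (le_of_eq (by ring))

end XTPC

open XTPC in
theorem i_TPC (hB : S_BRM) (hH : S_HUB) (hF : S_FAM) (hP : S_PRC) (hK : S_K1) (hR : S_PRD)
    (hL : S_LAB) : S_TPC := by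
  intro n Δ
  obtain ⟨c, hc⟩ := hL Δ
  obtain ⟨CP, hCP0, hCP⟩ := hP n Δ c (4 * c + 1) (n * n)
  obtain ⟨CF, hCF0, hCF⟩ := hF n Δ c
  obtain ⟨k₀, hk₀⟩ := hH Δ c
  refine ⟨c * (14 * (CF * ((CP + CF) * (c + 1)) + k₀ + 1) *
      ((CF * ((CP + CF) * (c + 1)) + k₀ + 1) + 2 * Δ + 2) + 1), ?_⟩
  intro V _ G hG hcon hn
  have hne : Nonempty V := hcon.nonempty
  have hn2 : 2 ≤ n := by
    by_contra h
    exact hn (hasAll_small (by omega))
  obtain ⟨r, ly, lb, co, hlab⟩ := hc G hG hcon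
  set Λ := Nat.log 2 (Nat.card V) + 1 with hΛ
  have hΛ1 : 1 ≤ Λ := Nat.succ_le_succ (Nat.zero_le _)
  set ℓ := c * Λ + 1 with hℓ
  set m := (CP + CF) * ℓ with hm
  set k := CF * m + k₀ + 1 with hk
  set K := 2 * k * (k + 2 * Δ + 2) with hKd
  have harith := arith c CP CF k₀ Δ Λ hΛ1
  by_cases htw : TreewidthLE (qG G lb) (7 * K)
  · exact XFIN.emb_mono (hR G c (7 * K) r ly lb co hlab htw) harith
  · exfalso
    obtain ⟨BB, hBB⟩ := hB (qG G lb) K (by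
      have : 1 * 1 ≤ 2 * k * (k + 2 * Δ + 2) := Nat.mul_le_mul (by omega) (by omega)
      omega) htw
    obtain ⟨P, hPh⟩ := hk₀ k k G r ly lb co BB hG hlab (by omega) hBB
    choose Lg hLg1 hLg2 hLg3 hLg4 using hlab.legs
    have hlegs : Legs G r Lg := ⟨hLg1, hLg2, hLg3⟩
    have hle : ∀ z, (lb '' clN G (Lg z)).ncard ≤ ℓ := fun z =>
      (hLg4 z).trans (by rw [← hΛ]; exact Nat.le_succ _)
    have hCFℓ : CF * ℓ ≤ m := Nat.mul_le_mul_right _ (by omega)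
    have hCPℓ : CP * ℓ ≤ m := Nat.mul_le_mul_right _ (by omega)
    obtain ⟨f, U, w, l, hf1, hf2, hf3⟩ := hCF G r Lg ly lb co BB K k k m ℓ P hG hn hlab hlegs hle
      (by omega) hBB hPh hCFℓ (by omega) (by omega)
    obtain ⟨D, hD1, hD2⟩ := hCP G r Lg ly lb co (fun x => P (f x)) ℓ (fun s => s / n)
      (fun s => bb n s) (fun s => U (s / n) (bb n s)) (fun s => w (s / n) (bb n s))
      (fun s => l (s / n) (bb n s)) hG hn hlab hlegs hle (by omega)
      (fun x hx y hy hxy u hu v hv => hPh.lab (f x) (hf1 x hx) (f y) (hf1 y hy)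
        (hf2 x hx y hy hxy) u hu v hv)
      (by
        intro s hs
        have h1 : s / n < n := Nat.div_lt_of_lt_mul hs
        have h2 : bb n s < n := bb_lt (by omega)
        have h3 : s / n ≠ bb n s := ne_bb hn2 hs
        obtain ⟨h4, h5⟩ := hf3 (s / n) h1 (bb n s) h2 h3
        exact ⟨h1, h2, h3, h4, ap_mono h5 le_rfl hCPℓ⟩)
    have hidx : ∀ i j, i < j → j < n → i * n + j < n * n ∧ (i * n + j) / n = i ∧
        bb n (i * n + j) = j := by
      intro i j hij hj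
      have h1 : (i * n + j) / n = i := by
        rw [mul_comm, Nat.mul_add_div (by omega), Nat.div_eq_of_lt hj, add_zero]
      have h2 : (i * n + j) % n = j := by
        rw [mul_comm, Nat.mul_add_mod, Nat.mod_eq_of_lt hj]
      refine ⟨?_, h1, ?_⟩
      · have : i + 1 ≤ n := by omega
        nlinarith
      · unfold bb
        rw [h1, h2, if_neg (by omega)]
    refine hn (hK G n (fun x => P (f x)) (fun i j => D (i * n + j))
      (fun i hi => hPh.conn _ (hf1 i hi))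
      (fun i hi j hj hij => hPh.anti _ (hf1 i hi) _ (hf1 j hj) (hf2 i hi j hj hij)) ?_ ?_)
    · intro i j hij hj
      obtain ⟨h1, h2, h3⟩ := hidx i j hij hj
      obtain ⟨g1, g2, g3, g4, -⟩ := hD1 _ h1
      simp only [h2, h3] at g2 g3 g4
      exact ⟨g1, g2, g3, fun x hx hxi hxj => g4 x hx hxi hxj⟩
    · intro i j i' j' hij hj hij' hj' hne
      obtain ⟨h1, h2, h3⟩ := hidx i j hij hj
      obtain ⟨h1', h2', h3'⟩ := hidx i' j' hij' hj'
      refine hD2 _ h1 _ h1' (fun he => hne ?_)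
      rw [he] at h2 h3
      rw [h2'] at h2
      rw [h3'] at h3
      rw [h2, h3]

end Pool.Agent.IM55.PL
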