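import Pool.Agent.Work.MP_55ff09_co.PL.Base

/-!
# MP_55ff09_co, block PL, item UNC: minimum cuts are closed under union and intersection
-/

set_option autoImplicit false

namespace Pool.Agent.IM55.PL

open SimpleGraph Pool.Agent.IM55

namespace XUNC

variable {V : Type} {G : SimpleGraph V} {U B X Y : Set V}

theorem union_sub : bd G U B (X ∩ Y) ∪ bd G U B (X ∪ Y) ⊆ bd G U B X ∪ bd G U B Y := by
  rintro v (⟨⟨hX, hY⟩, h⟩ | h)
  · rcases h with h | ⟨y, hy, hyn, ha⟩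
    · exact Or.inl ⟨hX, Or.inl h⟩
    · by_cases hyX : y ∈ X
      · exact Or.inr ⟨hY, Or.inr ⟨y, hy, fun h' => hyn ⟨hyX, h'⟩, ha⟩⟩
      · exact Or.inl ⟨hX, Or.inr ⟨y, hy, hyX, ha⟩⟩
  · rcases h.1 with hX | hY
    · exact Or.inl (bd_anti Set.subset_union_left hX h)
    · exact Or.inr (bd_anti Set.subset_union_right hY h)

theorem inter_sub : bd G U B (X ∩ Y) ∩ bd G U B (X ∪ Y) ⊆ bd G U B X ∩ bd G U B Y := by
  rintro v ⟨h1, h2⟩
  exact ⟨bd_anti Set.subset_union_left h1.1.1 h2, bd_anti Set.subset_union_right h1.1.2 h2⟩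

end XUNC

theorem i_UNC : S_UNC := by
  intro V _ G U A B M hmin X Y hX hY
  have s1 : A ∩ U ⊆ X ∩ Y := Set.subset_inter hX.1 hY.1
  have s2 : X ∩ Y ⊆ U := Set.inter_subset_left.trans hX.2.1
  have s3 : A ∩ U ⊆ X ∪ Y := hX.1.trans Set.subset_union_left
  have s4 : X ∪ Y ⊆ U := Set.union_subset hX.2.1 hY.2.1
  have m1 := hmin _ s1 s2
  have m2 := hmin _ s3 s4
  have e1 := Set.ncard_union_add_ncard_inter (bd G U B (X ∩ Y)) (bd G U B (X ∪ Y))
    (Set.toFinite _) (Set.toFinite _)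
  have e2 := Set.ncard_union_add_ncard_inter (bd G U B X) (bd G U B Y)
    (Set.toFinite _) (Set.toFinite _)
  have l1 := Set.ncard_le_ncard (XUNC.union_sub (G := G) (U := U) (B := B) (X := X) (Y := Y))
    (Set.toFinite _)
  have l2 := Set.ncard_le_ncard (XUNC.inter_sub (G := G) (U := U) (B := B) (X := X) (Y := Y))
    (Set.toFinite _)
  have c1 := hX.2.2
  have c2 := hY.2.2
  have q1 : bd G U B (X ∩ Y) ∪ bd G U B (X ∪ Y) = bd G U B X ∪ bd G U B Y :=
    Set.eq_of_subset_of_ncard_le XUNC.union_sub (by omega) (Set.toFinite _)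
  refine ⟨⟨s3, s4, by omega⟩, ⟨s1, s2, by omega⟩, ?_, ?_⟩
  · intro v hv hvX
    have hv' : v ∈ bd G U B (X ∩ Y) ∪ bd G U B (X ∪ Y) := by rw [q1]; exact Or.inr hv
    rcases hv' with h | h
    · exact absurd h.1.1 hvX
    · exact h
  · intro v hv hvX hvn
    have hv' : v ∈ bd G U B (X ∩ Y) ∪ bd G U B (X ∪ Y) := by rw [q1]; exact Or.inr hv
    rcases hv' with h | h
    · exact h
    · exact absurd (bd_anti Set.subset_union_left hvX h) hvn

end Pool.Agent.IM55.PL
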