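import Pool.Agent.Work.MP_55ff09_co.PL.Base

/-!
# MP_55ff09_co, block PL, item WID: the layers of the cells are small
-/

set_option autoImplicit false

namespace Pool.Agent.IM55.PL

open SimpleGraph Pool.Agent.IM55

theorem i_WID (h1 : ClaimBall) : S_WID := by
  intro Δ
  refine ⟨9 * (Δ + 1) ^ 5, ?_⟩
  intro V _ G r p X π wt top a hG hconn hN hC hA i j
  let Y : Set V := {x | x ∈ X ∧ top x = i ∧ j ≤ G.dist r x + 4 ∧ G.dist r x ≤ j + 4}
  have hY : Y.ncard ≤ 9 := by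
    have h2 : Y.ncard ≤ ((Finset.Icc (j - 4) (j + 4) : Finset ℕ) : Set ℕ).ncard := by
      refine Set.ncard_le_ncard_of_injOn (fun x => G.dist r x) ?_ ?_ (Finset.finite_toSet _)
      · intro x hx
        simp only [Finset.coe_Icc, Set.mem_Icc]
        obtain ⟨-, -, h3, h4⟩ := hx
        omega
      · intro x hx y hy hxy
        exact hC.inj x hx.1 y hy.1 (hx.2.1.trans hy.2.1.symm) hxy
    rw [Set.ncard_coe_finset, Nat.card_Icc] at h2
    omega
  have hsub : {v | top (a v) = i ∧ G.dist r v = j} ⊆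
      {u | ∃ D : Set V, (G.induce D).Connected ∧ D.ncard ≤ 5 ∧ u ∈ D ∧ Touch G Y D} := by
    rintro v ⟨h2, h3⟩
    obtain ⟨D, d1, d2, d3, d4, -⟩ := hA.conn v
    obtain ⟨x, hx, -, hx4⟩ := hN.cov v
    have h4 : G.dist v (a v) ≤ 4 := (hA.near v x hx).trans hx4
    have h5 : G.dist r v ≤ G.dist r (a v) + G.dist (a v) v := hconn.dist_triangle
    have h6 : G.dist r (a v) ≤ G.dist r v + G.dist v (a v) := hconn.dist_triangle
    rw [SimpleGraph.dist_comm (u := a v) (v := v)] at h5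
    refine ⟨D, d1, d4, d2, a v, ⟨hA.mem v, h2, by omega, by omega⟩, a v, d3, Or.inl rfl⟩
  calc {v | top (a v) = i ∧ G.dist r v = j}.ncard
      ≤ {u | ∃ D : Set V, (G.induce D).Connected ∧ D.ncard ≤ 5 ∧ u ∈ D ∧ Touch G Y D}.ncard :=
        Set.ncard_le_ncard hsub (Set.toFinite _)
    _ ≤ Y.ncard * (Δ + 1) ^ 5 := h1 V inferInstance G Δ 5 hG Y
    _ ≤ 9 * (Δ + 1) ^ 5 := Nat.mul_le_mul_right _ hY

end Pool.Agent.IM55.PL
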