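import Pool.Agent.Work.MP_55ff09_co.PL.I_STR

/-!
# MP_55ff09_co, block PL: item WLD (the geodesic case)
-/

set_option autoImplicit false

namespace Pool.Agent.IM55.PL

open SimpleGraph Pool.Agent.IM55

namespace XWLD

open XSTR

variable {V : Type} {G : SimpleGraph V}

theorem alpha_le {r : V} {t g : ℕ} {R : ℕ → Set V} {w : ℕ → ℕ → V} {l : ℕ → ℕ}
    {α β τ : ℕ → ℕ → ℕ} {Vg : ℕ → ℕ → Set V} (hF : Frame G r t g R w l α β τ Vg) {j k k' : ℕ}
    (hj : j < t) (hk' : k' < g) (h : k < k') : α j k ≤ β j k ∧ β j k + 2 ≤ α j k' := by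
  have h1 := hF.ord j hj k (by omega)
  have h2 := hF.gap j hj k (by omega) k' hk' h
  omega

theorem alpha_mono {r : V} {t g : ℕ} {R : ℕ → Set V} {w : ℕ → ℕ → V} {l : ℕ → ℕ}
    {α β τ : ℕ → ℕ → ℕ} {Vg : ℕ → ℕ → Set V} (hF : Frame G r t g R w l α β τ Vg) {j k k' : ℕ}
    (hj : j < t) (hk' : k' < g) (h : k ≤ k') : α j k ≤ α j k' := by
  rcases Nat.eq_or_lt_of_le h with h | h
  · rw [h]
  · have := alpha_le hF hj hk' h
    omega

/-- the data of the geodesic case (natural number indices) -/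
structure Dat (G : SimpleGraph V) (r : V) (t g M : ℕ) (R : ℕ → Set V) (w : ℕ → ℕ → V) (l : ℕ → ℕ)
    (α β τ : ℕ → ℕ → ℕ) (Vg : ℕ → ℕ → Set V) (q : ℕ → ℕ) (K : ℕ → ℕ → Set V) : Prop where
  fr : Frame G r t g R w l α β τ Vg
  hM : M * (M + 1) < g
  hq : ∀ i < M, q i < t
  inj : ∀ i < M, ∀ j < M, i ≠ j → q i ≠ q j
  sub : ∀ k < g, ∀ i, i + 1 < M → K k i ⊆ R k
  conn : ∀ k < g, ∀ i, i + 1 < M → (G.induce (K k i)).Connected
  t1 : ∀ k < g, ∀ i, i + 1 < M → Touch G (K k i) (rng (w (q i)) (l (q i)))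
  t2 : ∀ k < g, ∀ i, i + 1 < M → Touch G (K k i) (rng (w (q (i + 1))) (l (q (i + 1))))
  only : ∀ k < g, ∀ i, i + 1 < M → ∀ j < M, Touch G (K k i) (rng (w (q j)) (l (q j))) →
    j = i ∨ j = i + 1
  dis : ∀ k < g, ∀ i, i + 1 < M → ∀ j < M, Disjoint (K k i) (rng (w (q j)) (l (q j)))

/-- the first position of the super-zone `y` on the column `x` -/
def A (M : ℕ) (α : ℕ → ℕ → ℕ) (q : ℕ → ℕ) (x y : ℕ) : ℕ := α (q x) (y * (M + 1))

/-- segments -/
def sgm (M : ℕ) (w : ℕ → ℕ → V) (α : ℕ → ℕ → ℕ) (q : ℕ → ℕ) (x y : ℕ) : Set V :=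
  sg (w (q x)) (A M α q x y) (A M α q x (y + 1) - 1)

open Classical in
/-- passages -/
noncomputable def psm (M : ℕ) (K : ℕ → ℕ → Set V) (x y : ℕ) : Set V :=
  if x + 1 < M then K (y * (M + 1) + x) x else ∅

variable {r : V} {t g M : ℕ} {R : ℕ → Set V} {w : ℕ → ℕ → V} {l : ℕ → ℕ} {α β τ : ℕ → ℕ → ℕ}
  {Vg : ℕ → ℕ → Set V} {q : ℕ → ℕ} {K : ℕ → ℕ → Set V}

theorem idx {y c : ℕ} (hM : M * (M + 1) < g) (hy : y < M) (hc : c ≤ M) :
    y * (M + 1) + c < g ∧ y * (M + 1) + c < (y + 1) * (M + 1) ∧ (y + 1) * (M + 1) < g := by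
  have h1 : (y + 1) * (M + 1) ≤ M * (M + 1) := Nat.mul_le_mul_right _ hy
  have h2 : (y + 1) * (M + 1) = y * (M + 1) + (M + 1) := by ring
  omega

theorem A_lt (h : Dat G r t g M R w l α β τ Vg q K) {x y : ℕ} (hx : x < M) (hy : y < M) :
    A M α q x y + 2 ≤ A M α q x (y + 1) ∧ A M α q x (y + 1) ≤ l (q x) := by
  obtain ⟨h1, h2, h3⟩ := idx (c := 0) h.hM hy (Nat.zero_le _)
  have h4 := alpha_le h.fr (h.hq x hx) h3 (by omega : y * (M + 1) < (y + 1) * (M + 1))
  have h5 := h.fr.ord (q x) (h.hq x hx) _ h3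
  unfold A
  omega

theorem A_mono (h : Dat G r t g M R w l α β τ Vg q K) {x y y' : ℕ} (hx : x < M) (hy : y ≤ y')
    (hy' : y' ≤ M) : A M α q x y ≤ A M α q x y' := by
  unfold A
  apply alpha_mono h.fr (h.hq x hx)
  · have : y' * (M + 1) ≤ M * (M + 1) := Nat.mul_le_mul_right _ hy'
    have := h.hM
    omega
  · exact Nat.mul_le_mul_right _ hy

theorem sgm_sub (h : Dat G r t g M R w l α β τ Vg q K) {x y : ℕ} (hx : x < M) (hy : y < M) :
    sgm M w α q x y ⊆ rng (w (q x)) (l (q x)) := by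
  have := A_lt h hx hy
  exact sg_sub (by omega)

theorem sgm_conn (h : Dat G r t g M R w l α β τ Vg q K) {x y : ℕ} (hx : x < M) (hy : y < M) :
    (G.induce (sgm M w α q x y)).Connected := by
  have h1 := A_lt h hx hy
  exact ip_seg_conn (h.fr.ip _ (h.hq x hx)) (by omega) (by omega)

/-- positions of touching vertices on a column -/
theorem pos_near {w : ℕ → V} {l i j : ℕ} (h : IP G w l) (hi : i ≤ l) (hj : j ≤ l)
    (hij : w i = w j ∨ G.Adj (w i) (w j)) : i ≤ j + 1 ∧ j ≤ i + 1 := by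
  rcases hij with e | e
  · have := h.inj i hi j hj e
    omega
  · have := h.ind i hi j hj e
    omega

theorem f1 (h : Dat G r t g M R w l α β τ Vg q K) {x y x' y' : ℕ} (hx : x < M) (hy : y < M)
    (hx' : x' < M) (hy' : y' < M) (hT : Touch G (sgm M w α q x y) (sgm M w α q x' y')) :
    x = x' ∧ y ≤ y' + 1 ∧ y' ≤ y + 1 := by
  have hxx : x = x' := by
    by_contra hne
    have h1 := h.fr.col _ (h.hq x hx) _ (h.hq x' hx') (h.inj x hx x' hx' hne)
    exact (not_touch_iff.2 h1) (hT.mono (sgm_sub h hx hy) (sgm_sub h hx' hy'))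
  subst hxx
  obtain ⟨_, ⟨i, hi1, hi2, rfl⟩, _, ⟨j, hj1, hj2, rfl⟩, hij⟩ := hT
  have h1 := A_lt h hx hy
  have h2 := A_lt h hx hy'
  have h3 := pos_near (h.fr.ip _ (h.hq x hx)) (by omega) (by omega) hij
  refine ⟨rfl, ?_, ?_⟩
  · by_contra hc
    have h4 := A_mono h hx (y := y' + 1 + 1) (y' := y) (by omega) (by omega)
    have h5 := A_lt h hx (y := y' + 1) (by omega)
    omega
  · by_contra hc
    have h4 := A_mono h hx (y := y + 1 + 1) (y' := y') (by omega) (by omega)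
    have h5 := A_lt h hx (y := y + 1) (by omega)
    omega

theorem f2 (h : Dat G r t g M R w l α β τ Vg q K) {x y : ℕ} (hx : x < M) (hy : y + 1 < M) :
    ∃ u ∈ sgm M w α q x y, ∃ v ∈ sgm M w α q x (y + 1), G.Adj u v := by
  have h1 := A_lt h hx (y := y) (by omega)
  have h2 := A_lt h hx hy
  have h3 := (h.fr.ip _ (h.hq x hx)).adj (A M α q x (y + 1) - 1) (by omega)
  rw [Nat.sub_add_cancel (by omega)] at h3
  exact ⟨_, ⟨_, by omega, le_rfl, rfl⟩, _, ⟨_, le_rfl, by omega, rfl⟩, h3⟩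

theorem f7 (h : Dat G r t g M R w l α β τ Vg q K) {x y x' y' : ℕ} (hx : x < M) (hy : y < M)
    (hx' : x' < M) (hy' : y' < M) (hne : ¬ (x = x' ∧ y = y')) :
    Disjoint (sgm M w α q x y) (sgm M w α q x' y') := by
  rw [Set.disjoint_left]
  intro v hv hv'
  have h1 := (f1 h hx hy hx' hy' ⟨v, hv, v, hv', Or.inl rfl⟩).1
  subst h1
  obtain ⟨i, hi1, hi2, rfl⟩ := hv
  obtain ⟨j, hj1, hj2, hij⟩ := hv'
  have h1 := A_lt h hx hy
  have h2 := A_lt h hx hy'
  have h3 := (h.fr.ip _ (h.hq x hx)).inj j (by omega) i (by omega) hij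
  rcases Nat.lt_trichotomy y y' with h4 | h4 | h4
  · have h5 := A_mono h hx (y := y + 1) (y' := y') (by omega) (by omega)
    omega
  · exact hne ⟨rfl, h4⟩
  · have h5 := A_mono h hx (y := y' + 1) (y' := y) (by omega) (by omega)
    omega

/-- a row touches a column only in its own super-zone -/
theorem row_seg (h : Dat G r t g M R w l α β τ Vg q K) {x y y' c : ℕ} (hx : x < M) (hy : y < M)
    (hy' : y' < M) (hc : c ≤ M) {X : Set V} (hX : X ⊆ R (y * (M + 1) + c))
    (hT : Touch G X (sgm M w α q x y')) : y = y' := by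
  obtain ⟨u, hu, _, ⟨i, hi1, hi2, rfl⟩, hui⟩ := hT
  obtain ⟨h1, h2, h3⟩ := idx h.hM hy hc
  have h4 := A_lt h hx hy'
  obtain ⟨h5, h6⟩ := contact h.fr h1 (h.hq x hx) hX hu (by omega) hui
  rcases Nat.lt_trichotomy y y' with h7 | h7 | h7
  · exfalso
    have h8 := A_mono h hx (y := y + 1) (y' := y') (by omega) (by omega)
    have h9 := alpha_le h.fr (h.hq x hx) h3 h2
    unfold A at *
    omega
  · exact h7
  · exfalso
    have h8 := A_mono h hx (y := y' + 1) (y' := y) (by omega) (by omega)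
    have h9 := alpha_mono h.fr (h.hq x hx) h1 (by omega : y * (M + 1) ≤ y * (M + 1) + c)
    unfold A at *
    omega

/-- a part of a row of the super-zone which touches the column touches the segment -/
theorem touch_seg (h : Dat G r t g M R w l α β τ Vg q K) {x y c : ℕ} (hx : x < M) (hy : y < M)
    (hc : c ≤ M) {X : Set V} (hX : X ⊆ R (y * (M + 1) + c))
    (hT : Touch G X (rng (w (q x)) (l (q x)))) : Touch G X (sgm M w α q x y) := by
  obtain ⟨h1, h2, h3⟩ := idx h.hM hy hc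
  apply touch_sg h.fr h1 (h.hq x hx) hX hT
  · exact alpha_mono h.fr (h.hq x hx) h1 (by omega : y * (M + 1) ≤ y * (M + 1) + c)
  · have h9 := alpha_le h.fr (h.hq x hx) h3 h2
    unfold A
    omega

theorem psm_sub (h : Dat G r t g M R w l α β τ Vg q K) {x y : ℕ} (hx : x < M) (hy : y < M) :
    psm M K x y ⊆ R (y * (M + 1) + x) := by
  unfold psm
  split_ifs with h1
  · exact h.sub _ (idx h.hM hy hx.le).1 _ h1
  · exact Set.empty_subset _

theorem f3 (h : Dat G r t g M R w l α β τ Vg q K) {x y x' y' : ℕ} (hx : x < M) (hy : y < M)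
    (hx' : x' < M) (hy' : y' < M) (hT : Touch G (psm M K x y) (sgm M w α q x' y')) :
    y = y' ∧ (x' = x ∨ x' = x + 1) := by
  refine ⟨row_seg h hx' hy hy' hx.le (psm_sub h hx hy) hT, ?_⟩
  have h1 : x + 1 < M := by
    by_contra hc
    unfold psm at hT
    rw [if_neg hc] at hT
    obtain ⟨u, hu, -⟩ := hT
    exact hu
  have h2 : psm M K x y = K (y * (M + 1) + x) x := if_pos h1
  rw [h2] at hT
  exact h.only _ (idx h.hM hy hx.le).1 _ h1 _ hx' (hT.mono le_rfl (sgm_sub h hx' hy'))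

theorem row_ne {x y x' y' : ℕ} (hx : x < M) (hx' : x' < M) (hne : ¬ (x = x' ∧ y = y')) :
    y * (M + 1) + x ≠ y' * (M + 1) + x' := by
  intro he
  rcases Nat.lt_trichotomy y y' with h | h | h
  · have : (y + 1) * (M + 1) ≤ y' * (M + 1) := Nat.mul_le_mul_right _ h
    have : (y + 1) * (M + 1) = y * (M + 1) + (M + 1) := by ring
    omega
  · subst h
    exact hne ⟨by omega, rfl⟩
  · have : (y' + 1) * (M + 1) ≤ y * (M + 1) := Nat.mul_le_mul_right _ h
    have : (y' + 1) * (M + 1) = y' * (M + 1) + (M + 1) := by ring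
    omega

theorem f5 (h : Dat G r t g M R w l α β τ Vg q K) {x y x' y' : ℕ} (hx : x < M) (hy : y < M)
    (hx' : x' < M) (hy' : y' < M) (hne : ¬ (x = x' ∧ y = y')) :
    Anti G (psm M K x y) (psm M K x' y') :=
  (h.fr.ranti _ (idx h.hM hy hx.le).1 _ (idx h.hM hy' hx'.le).1 (row_ne hx hx' hne)).mono
    (psm_sub h hx hy) (psm_sub h hx' hy')

theorem f6 (h : Dat G r t g M R w l α β τ Vg q K) {x y x' y' : ℕ} (hx : x < M) (hy : y < M)
    (hx' : x' < M) (hy' : y' < M) : Disjoint (psm M K x y) (sgm M w α q x' y') := by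
  unfold psm
  split_ifs with h1
  · exact (h.dis _ (idx h.hM hy hx.le).1 _ h1 _ hx').mono_right (sgm_sub h hx' hy')
  · exact Set.empty_disjoint _

/-- the cell of the grid -/
noncomputable def cell (M : ℕ) (w : ℕ → ℕ → V) (α : ℕ → ℕ → ℕ) (q : ℕ → ℕ) (K : ℕ → ℕ → Set V)
    (x y : ℕ) : Set V := sgm M w α q x y ∪ psm M K x y

theorem cell_touch (h : Dat G r t g M R w l α β τ Vg q K) {x y x' y' : ℕ} (hx : x < M)
    (hy : y < M) (hx' : x' < M) (hy' : y' < M) (hne : ¬ (x = x' ∧ y = y'))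
    (hT : Touch G (cell M w α q K x y) (cell M w α q K x' y')) :
    (x = x' ∧ (y = y' + 1 ∨ y' = y + 1)) ∨ (y = y' ∧ (x = x' + 1 ∨ x' = x + 1)) := by
  obtain ⟨u, hu, v, hv, huv⟩ := hT
  rcases hu with hu | hu <;> rcases hv with hv | hv
  · have := f1 h hx hy hx' hy' ⟨u, hu, v, hv, huv⟩
    omega
  · have := f3 h hx' hy' hx hy (Touch.symm ⟨u, hu, v, hv, huv⟩)
    omega
  · have := f3 h hx hy hx' hy' ⟨u, hu, v, hv, huv⟩
    omega
  · exact absurd ⟨u, hu, v, hv, huv⟩ (not_touch_iff.2 (f5 h hx hy hx' hy' hne))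

theorem cell_disj (h : Dat G r t g M R w l α β τ Vg q K) {x y x' y' : ℕ} (hx : x < M)
    (hy : y < M) (hx' : x' < M) (hy' : y' < M) (hne : ¬ (x = x' ∧ y = y')) :
    Disjoint (cell M w α q K x y) (cell M w α q K x' y') := by
  unfold cell
  rw [Set.disjoint_union_left, Set.disjoint_union_right, Set.disjoint_union_right]
  exact ⟨⟨f7 h hx hy hx' hy' hne, (f6 h hx' hy' hx hy).symm⟩, f6 h hx hy hx' hy',
    anti_disjoint (f5 h hx hy hx' hy' hne)⟩

theorem edge_of_touch {X Y : Set V} (h : Touch G X Y) (hd : Disjoint X Y) :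
    ∃ u ∈ X, ∃ v ∈ Y, G.Adj u v := by
  obtain ⟨u, hu, v, hv, e | e⟩ := h
  · subst e
    exact absurd hv (Set.disjoint_left.1 hd hu)
  · exact ⟨u, hu, v, hv, e⟩

theorem cell_ver (h : Dat G r t g M R w l α β τ Vg q K) {x y : ℕ} (hx : x < M)
    (hy : y + 1 < M) : ∃ u ∈ cell M w α q K x y, ∃ v ∈ cell M w α q K x (y + 1), G.Adj u v := by
  obtain ⟨u, hu, v, hv, e⟩ := f2 h hx hy
  exact ⟨u, Or.inl hu, v, Or.inl hv, e⟩

theorem cell_hor (h : Dat G r t g M R w l α β τ Vg q K) {x y : ℕ} (hx : x + 1 < M)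
    (hy : y < M) : ∃ u ∈ cell M w α q K x y, ∃ v ∈ cell M w α q K (x + 1) y, G.Adj u v := by
  have h1 : psm M K x y = K (y * (M + 1) + x) x := if_pos hx
  have hk := (idx h.hM hy (by omega : x ≤ M)).1
  have h2 := touch_seg h hx hy (by omega : x ≤ M) (h.sub _ hk _ hx) (h.t2 _ hk _ hx)
  rw [← h1] at h2
  obtain ⟨u, hu, v, hv, e⟩ := edge_of_touch h2 (f6 h (by omega) hy hx hy)
  exact ⟨u, Or.inr hu, v, Or.inl hv, e⟩

theorem cell_conn (h : Dat G r t g M R w l α β τ Vg q K) {x y : ℕ} (hx : x < M) (hy : y < M) :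
    (G.induce (cell M w α q K x y)).Connected := by
  by_cases h0 : x + 1 < M
  · have h1 : psm M K x y = K (y * (M + 1) + x) x := if_pos h0
    have hk := (idx h.hM hy (by omega : x ≤ M)).1
    have h2 := touch_seg h hx hy (by omega : x ≤ M) (h.sub _ hk _ h0) (h.t1 _ hk _ h0)
    unfold cell
    rw [h1]
    exact conn_union (sgm_conn h hx hy) (h.conn _ hk _ h0) h2.symm
  · have h1 : psm M K x y = ∅ := if_neg h0
    unfold cell
    rw [h1, Set.union_empty]
    exact sgm_conn h hx hy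

/-- cells of the box -/
theorem box_nat {c : ℤ × ℤ} (hc : c ∈ Box 0 0 (M : ℤ)) :
    c.1.toNat < M ∧ c.2.toNat < M ∧ (c.1.toNat : ℤ) = c.1 ∧ (c.2.toNat : ℤ) = c.2 := by
  obtain ⟨h1, h2, h3, h4⟩ := hc
  omega

theorem toWorld (h : Dat G r t g M R w l α β τ Vg q K) :
    World G r M (fun c => sgm M w α q c.1.toNat c.2.toNat)
      (fun c => psm M K c.1.toNat c.2.toNat)
      (fun c => Vg (q c.1.toNat) (c.2.toNat * (M + 1) + M))
      (fun y => R (y.toNat * (M + 1) + M)) where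
  model := by
    refine ⟨?_, ?_, ?_⟩
    · intro c hc
      obtain ⟨h1, h2, -, -⟩ := box_nat hc
      exact cell_conn h h1 h2
    · intro c hc c' hc' hne
      obtain ⟨h1, h2, h3, h4⟩ := box_nat hc
      obtain ⟨h1', h2', h3', h4'⟩ := box_nat hc'
      refine cell_disj h h1 h2 h1' h2' (fun he => hne (Prod.ext ?_ ?_))
      · rw [← h3, ← h3', he.1]
      · rw [← h4, ← h4', he.2]
    · intro c hc c' hc' hne
      obtain ⟨h1, h2, h3, h4⟩ := box_nat hc
      obtain ⟨h1', h2', h3', h4'⟩ := box_nat hc'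
      constructor
      · intro hg
        unfold GAdj at hg
        rcases hg with ⟨e1, e2 | e2⟩ | ⟨e1, e2 | e2⟩
        · have g1 : c.1.toNat = c'.1.toNat := by omega
          have g2 : c.2.toNat = c'.2.toNat + 1 := by omega
          obtain ⟨u, hu, v, hv, e⟩ := cell_ver h h1' (y := c'.2.toNat) (by omega)
          refine ⟨v, ?_, u, hu, e.symm⟩
          show v ∈ cell M w α q K c.1.toNat c.2.toNat
          rw [g1, g2]
          exact hv
        · have g1 : c'.1.toNat = c.1.toNat := by omega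
          have g2 : c'.2.toNat = c.2.toNat + 1 := by omega
          obtain ⟨u, hu, v, hv, e⟩ := cell_ver h h1 (y := c.2.toNat) (by omega)
          refine ⟨u, hu, v, ?_, e⟩
          show v ∈ cell M w α q K c'.1.toNat c'.2.toNat
          rw [g1, g2]
          exact hv
        · have g1 : c.2.toNat = c'.2.toNat := by omega
          have g2 : c.1.toNat = c'.1.toNat + 1 := by omega
          obtain ⟨u, hu, v, hv, e⟩ := cell_hor h (x := c'.1.toNat) (by omega) h2'
          refine ⟨v, ?_, u, hu, e.symm⟩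
          show v ∈ cell M w α q K c.1.toNat c.2.toNat
          rw [g1, g2]
          exact hv
        · have g1 : c'.2.toNat = c.2.toNat := by omega
          have g2 : c'.1.toNat = c.1.toNat + 1 := by omega
          obtain ⟨u, hu, v, hv, e⟩ := cell_hor h (x := c.1.toNat) (by omega) h2
          refine ⟨u, hu, v, ?_, e⟩
          show v ∈ cell M w α q K c'.1.toNat c'.2.toNat
          rw [g1, g2]
          exact hv
      · rintro ⟨u, hu, v, hv, e⟩
        have := cell_touch h h1 h2 h1' h2' (fun he => hne (Prod.ext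
          (by rw [← h3, ← h3', he.1]) (by rw [← h4, ← h4', he.2])))
          ⟨u, hu, v, hv, Or.inr e⟩
        unfold GAdj
        omega
  sconn := by
    intro c hc
    obtain ⟨h1, h2, -, -⟩ := box_nat hc
    exact sgm_conn h h1 h2
  sadj := by
    intro x y hc hc'
    obtain ⟨h1, h2, h3, h4⟩ := box_nat hc
    obtain ⟨h1', h2', h3', h4'⟩ := box_nat hc'
    have g : (y + 1).toNat = y.toNat + 1 := by
      simp only at h4 h4'
      omega
    simp only [g] at h2' ⊢
    obtain ⟨u, hu, v, hv, e⟩ := f2 h h1 h2'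
    exact ⟨u, hu, v, hv, Or.inr e⟩
  santi := by
    intro c hc c' hc' hne
    obtain ⟨h1, h2, h3, h4⟩ := box_nat hc
    obtain ⟨h1', h2', h3', h4'⟩ := box_nat hc'
    rw [← not_touch_iff]
    intro hT
    have := (f1 h h1 h2 h1' h2' hT).1
    omega
  vconn := by
    intro c hc
    obtain ⟨h1, h2, -, -⟩ := box_nat hc
    exact h.fr.vconn _ (h.hq _ h1) _ (idx h.hM h2 le_rfl).1
  vroot := by
    intro c hc
    obtain ⟨h1, h2, -, -⟩ := box_nat hc
    exact h.fr.vroot _ (h.hq _ h1) _ (idx h.hM h2 le_rfl).1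
  cont := by
    intro c hc
    obtain ⟨h1, h2, -, -⟩ := box_nat hc
    obtain ⟨k1, k2, k3⟩ := idx h.hM h2 le_rfl
    refine ⟨w (q c.1.toNat) (τ (q c.1.toNat) (c.2.toNat * (M + 1) + M)),
      h.fr.vself _ (h.hq _ h1) _ k1, ?_, h.fr.con _ (h.hq _ h1) _ k1⟩
    have h3 := h.fr.ord _ (h.hq _ h1) _ k1
    have h4 := alpha_mono h.fr (h.hq _ h1) k1
      (by omega : c.2.toNat * (M + 1) ≤ c.2.toNat * (M + 1) + M)
    have h5 := alpha_le h.fr (h.hq _ h1) k3 k2
    refine ⟨_, ?_, ?_, rfl⟩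
    · unfold A
      omega
    · unfold A
      omega
  vcol := by
    intro c hc c' hc' hne
    obtain ⟨h1, h2, h3, h4⟩ := box_nat hc
    obtain ⟨h1', h2', h3', h4'⟩ := box_nat hc'
    exact (h.fr.vcol _ (h.hq _ h1) _ (idx h.hM h2 le_rfl).1 _ (h.hq _ h1')
      (h.inj _ h1' _ h1 (by omega))).mono le_rfl (sgm_sub h h1' h2')
  vps := by
    intro c hc c' hc'
    obtain ⟨h1, h2, h3, h4⟩ := box_nat hc
    obtain ⟨h1', h2', h3', h4'⟩ := box_nat hc'
    refine (h.fr.vrow _ (h.hq _ h1) _ (idx h.hM h2 le_rfl).1 _ (idx h.hM h2' h1'.le).1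
      ?_).mono le_rfl (psm_sub h h1' h2')
    intro he
    rcases Nat.lt_trichotomy c'.2.toNat c.2.toNat with hh | hh | hh
    · have := (idx h.hM h2' h1'.le).2.1
      have : (c'.2.toNat + 1) * (M + 1) ≤ c.2.toNat * (M + 1) := Nat.mul_le_mul_right _ hh
      omega
    · rw [hh] at he
      omega
    · have := (idx h.hM h2 (le_refl M)).2.1
      have : (c.2.toNat + 1) * (M + 1) ≤ c'.2.toNat * (M + 1) := Nat.mul_le_mul_right _ hh
      omega
  rconn := by
    intro y h1 h2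
    exact h.fr.rconn _ (idx h.hM (by omega : y.toNat < M) le_rfl).1
  ranti := by
    intro y y' h1 h2 h1' h2' hne
    refine h.fr.ranti _ (idx h.hM (by omega : y.toNat < M) le_rfl).1 _
      (idx h.hM (by omega : y'.toNat < M) le_rfl).1 ?_
    intro he
    have : y.toNat * (M + 1) = y'.toNat * (M + 1) := by omega
    have := Nat.eq_of_mul_eq_mul_right (Nat.succ_pos M) this
    omega
  rseg := by
    intro c hc y h1 h2 hne
    obtain ⟨g1, g2, g3, g4⟩ := box_nat hc
    rw [← not_touch_iff]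
    intro hT
    have := row_seg h g1 (y := y.toNat) (by omega) g2 le_rfl (le_refl _) hT
    omega
  rlega := by
    intro c hc y h1 h2 hne
    obtain ⟨g1, g2, g3, g4⟩ := box_nat hc
    refine (h.fr.vrow _ (h.hq _ g1) _ (idx h.hM g2 le_rfl).1 _
      (idx h.hM (by omega : y.toNat < M) le_rfl).1 ?_).symm
    intro he
    have : y.toNat * (M + 1) = c.2.toNat * (M + 1) := by omega
    have := Nat.eq_of_mul_eq_mul_right (Nat.succ_pos M) this
    omega

end XWLD

open XWLD XSTR in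
theorem i_WLD (hC : S_CUT) : S_WLD := by
  intro V _ G r t g M R w l α β τ Vg q e K hF hM hq hinj he hK
  have hcol : ∀ i, i + 1 < M → Anti G (rng (w (q i)) (l (q i)))
      (rng (w (q (i + 1))) (l (q (i + 1)))) := fun i hi =>
    hF.col _ (hq i (by omega)) _ (hq (i + 1) hi) (hinj i (by omega) (i + 1) hi (by omega))
  have htch : ∀ k < g, ∀ i, i + 1 < M → ∀ j < M, Touch G (K k i) (rng (w (q j)) (l (q j))) ↔
      j = i ∨ j = i + 1 := by
    intro k hk i hi j hj
    rw [← he i hi j hj, ← (hK k hk i hi).2.2, mem_tch]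
    exact ⟨fun h => ⟨hq j hj, h⟩, fun h => h.2⟩
  have hex : ∀ k i, ∃ K' : Set V, k < g → i + 1 < M → K' ⊆ K k i ∧ (G.induce K').Connected ∧
      Touch G K' (rng (w (q i)) (l (q i))) ∧ Touch G K' (rng (w (q (i + 1))) (l (q (i + 1)))) ∧
      Disjoint K' (rng (w (q i)) (l (q i)) ∪ rng (w (q (i + 1))) (l (q (i + 1)))) := by
    intro k i
    by_cases hk : k < g
    · by_cases hi : i + 1 < M
      · obtain ⟨K', h1, h2, h3, h4, h5⟩ := hC G (K k i) _ _ (hK k hk i hi).2.1
          ((htch k hk i hi i (by omega)).2 (Or.inl rfl))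
          ((htch k hk i hi (i + 1) hi).2 (Or.inr rfl)) (hcol i hi)
        exact ⟨K', fun _ _ => ⟨h1, h2, h3, h4, h5⟩⟩
      · exact ⟨∅, fun _ h => absurd h hi⟩
    · exact ⟨∅, fun h _ => absurd h hk⟩
  choose K' hK' using hex
  have hD : Dat G r t g M R w l α β τ Vg q K' := by
    refine ⟨hF, hM, hq, hinj, ?_, ?_, ?_, ?_, ?_, ?_⟩
    · intro k hk i hi
      exact (hK' k i hk hi).1.trans (hK k hk i hi).1
    · intro k hk i hi
      exact (hK' k i hk hi).2.1
    · intro k hk i hi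
      exact (hK' k i hk hi).2.2.1
    · intro k hk i hi
      exact (hK' k i hk hi).2.2.2.1
    · intro k hk i hi j hj hT
      exact (htch k hk i hi j hj).1 (hT.mono (hK' k i hk hi).1 le_rfl)
    · intro k hk i hi j hj
      by_cases hji : j = i ∨ j = i + 1
      · have := (hK' k i hk hi).2.2.2.2
        rw [Set.disjoint_union_right] at this
        rcases hji with rfl | rfl
        · exact this.1
        · exact this.2
      · apply anti_disjoint
        rw [← not_touch_iff]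
        intro hT
        exact hji ((htch k hk i hi j hj).1 (hT.mono (hK' k i hk hi).1 le_rfl))
  exact ⟨_, _, _, _, toWorld hD⟩

end Pool.Agent.IM55.PL
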