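import Pool.Agent.Work.MP_55ff09_co.PL.Base

/-!
# MP_55ff09_co, block PL: item WRL
-/

set_option autoImplicit false

namespace Pool.Agent.IM55.PL

open SimpleGraph Pool.Agent.IM55

namespace XWRL

theorem box_finite (a b s : ℤ) : (Box a b s).Finite := by
  have : Box a b s ⊆ (Finset.Ico a (a + s) ×ˢ Finset.Ico b (b + s) : Finset (ℤ × ℤ)) := by
    rintro ⟨x, y⟩ ⟨h1, h2, h3, h4⟩
    simp only [Finset.coe_product, Finset.coe_Ico, Set.mem_prod, Set.mem_Ico]
    exact ⟨⟨h1, h2⟩, h3, h4⟩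
  exact (Finset.finite_toSet _).subset this

theorem model_mono {V : Type} {G : SimpleGraph V} {Q Q' : Set (ℤ × ℤ)} {B : ℤ × ℤ → Set V}
    (h : Model G Q B) (hQ : Q' ⊆ Q) : Model G Q' B :=
  ⟨fun q hq => h.conn q (hQ hq), fun q hq q' hq' => h.disj q (hQ hq) q' (hQ hq'),
    fun q hq q' hq' => h.adj q (hQ hq) q' (hQ hq')⟩

theorem cellN_mono {V : Type} {G : SimpleGraph V} {Q Q' : Set (ℤ × ℤ)} {B : ℤ × ℤ → Set V}
    {X : Set V} (hQ : Q' ⊆ Q) (hf : Q.Finite) : cellN G Q' B X ≤ cellN G Q B X :=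
  Set.ncard_le_ncard (fun _ hq => ⟨hQ hq.1, hq.2⟩) (hf.subset fun _ hq => hq.1)

end XWRL

theorem i_WRL (hH : S_HDL) (hGT : S_GTK) (hGr : S_GRD) (hN : S_HND) : S_WRL := by
  intro n Δ
  rcases Nat.eq_zero_or_pos n with hn0 | hn0
  · subst hn0
    refine ⟨0, ?_⟩
    intro V _ G r seg ps Vg R _ _ H
    exact ⟨fun i => i.elim0, fun i => i.elim0, fun i => i.elim0, fun i => i.elim0⟩
  obtain ⟨L₀, hL₀⟩ := hH n Δ (3 * (n * n * (4 * (Δ + 1))) + 4)
  obtain ⟨N', hN'⟩ := hN n (4 * (Δ + 1))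
  choose Lf hLf1 hLf2 using hGT n Δ (4 * (Δ + 1))
  obtain ⟨S, hS1, hS2⟩ := hGr (fun s => n * Lf s) (n * n * N') L₀ (fun s => by
    calc s ≤ Lf s := hLf1 s
      _ = 1 * Lf s := (one_mul _).symm
      _ ≤ n * Lf s := Nat.mul_le_mul_right _ hn0)
  obtain ⟨L, x, y, hxy, hfin⟩ := hN' S
  refine ⟨n * L, ?_⟩
  intro V _ G r seg ps Vg R hG hw
  by_contra hcon
  have hmod : Model G (Box 0 0 ((n * L : ℕ) : ℤ)) (fun c => seg c ∪ ps c) := hw.model
  set W : Set (ℤ × ℤ) := Box 0 0 ((n * L : ℕ) : ℤ) with hWdef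
  have hWfin : W.Finite := XWRL.box_finite _ _ _
  let e : (Fin n × Fin n) × Fin N' ≃ Fin (n * n * N') :=
    (Equiv.prodCongr finProdFinEquiv (Equiv.refl _)).trans finProdFinEquiv
  let x' : ℕ → ℤ := fun i => if h : i < n * n * N' then x (e.symm ⟨i, h⟩) else 0
  let y' : ℕ → ℤ := fun i => if h : i < n * n * N' then y (e.symm ⟨i, h⟩) else 0
  obtain ⟨h, hh1, hh2⟩ := hS2 (Set V) W
    (fun x y s X => Hdl G (n * L) (fun c => seg c ∪ ps c)
      ((3 * (n * n * (4 * (Δ + 1))) + 4 : ℕ) : ℤ) (4 * (Δ + 1)) x y s X)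
    (fun X Y => Touch G X Y) (fun _ _ h => h.symm)
    (by
      rintro x y s x' y' s' X hsub ⟨h1, h2, q, hq, q', hq', h3⟩
      exact ⟨h1, h2, q, hsub hq, q', hsub hq', h3⟩)
    (by
      intro x y hb
      rcases hL₀ G r (n * L) seg ps Vg R hG hw x y hb with h | h
      · exact absurd h hcon
      · exact h)
    (by
      intro x y s X₀ hs hb hX₀
      by_contra hno
      push Not at hno
      obtain ⟨x₁, y₁, s₁, -, hX1, hX2, -⟩ := hX₀
      have hb' : Box x y ((n : ℤ) * (Lf s : ℤ)) ⊆ W := by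
        have : ((n * Lf s : ℕ) : ℤ) = (n : ℤ) * (Lf s : ℤ) := by push_cast; ring
        rw [← this]
        exact hb
      refine hcon (hLf2 s G x y (fun c => seg c ∪ ps c) X₀ hG (XWRL.model_mono hmod hb') hX1
        ((XWRL.cellN_mono hb' hWfin).trans hX2) ?_)
      intro a b hab
      obtain ⟨X', hX', hT⟩ := hno a b (by
        have : ((n * Lf s : ℕ) : ℤ) = (n : ℤ) * (Lf s : ℤ) := by push_cast; ring
        rw [this]
        exact hab)
      obtain ⟨h1, h2, q, hq, q', hq', -, h4, h5⟩ := hX'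
      exact ⟨q, hq, X', h1, h4, hT.symm, (XWRL.cellN_mono hb' hWfin).trans h2⟩)
    x' y' (by
      intro i hi
      have h1 : x' i = x (e.symm ⟨i, hi⟩) := dif_pos hi
      have h2 : y' i = y (e.symm ⟨i, hi⟩) := dif_pos hi
      rw [h1, h2, hWdef]
      have := hxy (e.symm ⟨i, hi⟩)
      push_cast
      exact this)
  refine hcon (hfin G (fun c => seg c ∪ ps c) (fun d => h (e d)) (by
    have : ((n * L : ℕ) : ℤ) = (n : ℤ) * (L : ℤ) := by push_cast; ring
    rw [← this]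
    exact hmod) ?_ ?_)
  · intro d
    have h1 := hh1 (e d) (e d).2
    have h2 : x' (e d) = x d := by
      have : x' (e d) = x (e.symm ⟨e d, (e d).2⟩) := dif_pos (e d).2
      rw [this]
      simp
    have h3 : y' (e d) = y d := by
      have : y' (e d) = y (e.symm ⟨e d, (e d).2⟩) := dif_pos (e d).2
      rw [this]
      simp
    rw [h2, h3] at h1
    push_cast at h1
    exact h1
  · intro d d' hd
    rw [← not_touch_iff]
    exact hh2 (e d) (e d).2 (e d') (e d').2 (fun h => hd (e.injective (Fin.ext h)))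

end Pool.Agent.IM55.PL
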