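import Pool.Agent.Work.MP_55ff09_co.PL.Base

/-!
# MP_55ff09_co, block PL, item ZHI: the largest minimum cut
-/

set_option autoImplicit false

namespace Pool.Agent.IM55.PL

open SimpleGraph Pool.Agent.IM55

namespace XZHI

/-- pairwise disjoint sets meeting `S` -/
theorem count {V : Type} [Finite V] (J : Finset ℕ) (R : ℕ → Set V) (S : Set V)
    (hd : ∀ a ∈ J, ∀ a' ∈ J, a ≠ a' → Disjoint (R a) (R a')) (hm : ∀ a ∈ J, (R a ∩ S).Nonempty) :
    J.card ≤ S.ncard := by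
  classical
  rcases J.eq_empty_or_nonempty with h0 | ⟨a0, ha0⟩
  · rw [h0]; simp
  obtain ⟨x0, -⟩ := hm a0 ha0
  have hex : ∀ a : ℕ, ∃ x : V, a ∈ J → x ∈ R a ∩ S := by
    intro a
    by_cases ha : a ∈ J
    · obtain ⟨x, hx⟩ := hm a ha
      exact ⟨x, fun _ => hx⟩
    · exact ⟨x0, fun h => absurd h ha⟩
  choose f hf using hex
  have h2 : (J : Set ℕ).ncard ≤ S.ncard := by
    refine Set.ncard_le_ncard_of_injOn f (fun a ha => (hf a (by simpa using ha)).2) ?_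
      (Set.toFinite S)
    intro a ha b hb hab
    by_contra hne
    have ha' : a ∈ J := by simpa using ha
    have hb' : b ∈ J := by simpa using hb
    exact Set.disjoint_left.1 (hd a ha' b hb' hne) (hf a ha').1 (by rw [hab]; exact (hf b hb').1)
  rw [Set.ncard_coe_finset] at h2
  exact h2

/-- a row without connector inside has a neighbour in `U` outside all rows -/
theorem nbr {V : Type} {G : SimpleGraph V} {U A B X : Set V} {I : Finset ℕ} {R : ℕ → Set V}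
    (hR : Rows G I R) {a : ℕ} (ha : a ∈ I) (hAX : A ∩ U ⊆ X) (hd : Disjoint (R a) X)
    {Q : Set V} (hQ : Cr G U A B Q) (ht : Touch G Q (R a)) :
    ∃ x ∈ R a, ∃ y ∈ U, G.Adj x y ∧ y ∉ Un I R := by
  obtain ⟨q, hqQ, hqA⟩ := hQ.hA
  have hq : q ∉ R a := fun h => Set.disjoint_left.1 hd h (hAX ⟨hqA, hQ.sub hqQ⟩)
  have key : ∃ x ∈ R a, ∃ y ∈ U, G.Adj x y ∧ y ∉ R a := by
    by_cases h : (Q ∩ R a).Nonempty
    · obtain ⟨z, hzQ, hzR⟩ := h
      obtain ⟨u, hu, v, hv, h1, h2, h3⟩ := exit_edge hQ.conn (fun z => z ∈ R a) hzQ hzR hqQ hq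
      exact ⟨u, h1, v, hQ.sub hv, h3, h2⟩
    · obtain ⟨x, hx, y, hy, hxy⟩ := ht
      rcases hxy with rfl | hxy
      · exact absurd ⟨x, hx, hy⟩ h
      · exact ⟨y, hy, x, hQ.sub hx, hxy.symm, fun hxR => h ⟨x, hx, hxR⟩⟩
  obtain ⟨x, hx, y, hy, hxy, hyR⟩ := key
  refine ⟨x, hx, y, hy, hxy, ?_⟩
  rintro ⟨a', ha', hya'⟩
  by_cases haa : a = a'
  · subst haa; exact hyR hya'
  · exact (hR.anti a ha a' ha' haa x hx y hya').2 hxy

end XZHI

open XZHI in
theorem i_ZHI (h1 : S_UNC) : S_ZHI := by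
  classical
  intro V _ G Δ U A B I I' R M hG hR hC hI hQ
  obtain ⟨X₂, hX₂⟩ := hC.ex
  obtain ⟨X₁, -, hX₁⟩ := Set.Finite.exists_le_maximal (s := {Y : Set V | Ct G U A B M Y})
    (Set.toFinite _) (a := X₂) hX₂
  have hc : Ct G U A B M X₁ := hX₁.prop
  have hgr : ∀ Y, Ct G U A B M Y → Y ⊆ X₁ := by
    intro Y hY
    have h3 := (h1 G U A B M hC.min X₁ Y hc hY).1
    have h2 := hX₁.le_of_ge (y := X₁ ∪ Y) h3 Set.subset_union_left
    exact fun v hv => h2 (Or.inr hv)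
  refine ⟨X₁, hc, hgr, ?_⟩
  set JX := I'.filter fun a => R a ⊆ X₁ ∧ Disjoint (R a) (bd G U B X₁) with hJX
  have hnX : nR G U B I' R X₁ = JX.card := by
    unfold nR; congr 1
  rw [hnX]
  have hdis : ∀ a ∈ I', ∀ a' ∈ I', a ≠ a' → Disjoint (R a) (R a') := fun a ha a' ha' hne =>
    anti_disjoint (hR.anti a (hI ha) a' (hI ha') hne)
  set J3 := I'.filter fun a => (R a ∩ clN G (bd G U B X₁)).Nonempty with hJ3
  have hc3 : J3.card ≤ M * (Δ + 1) := by
    have h2 := count J3 R (clN G (bd G U B X₁))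
      (fun a ha a' ha' => hdis a (Finset.mem_filter.1 ha).1 a' (Finset.mem_filter.1 ha').1)
      (fun a ha => (Finset.mem_filter.1 ha).2)
    refine h2.trans ((clN_ncard_set hG _).trans (Nat.mul_le_mul_right _ ?_))
    rw [hc.2.2]
  have hsub : I' ⊆ JX ∪ J3 := by
    intro a haI
    by_cases ha1 : (R a ∩ bd G U B X₁).Nonempty
    · obtain ⟨x, hx, hxb⟩ := ha1
      exact Finset.mem_union_right _ (Finset.mem_filter.2 ⟨haI, x, hx, subset_clN _ hxb⟩)
    have ha1' : Disjoint (R a) (bd G U B X₁) := by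
      rw [Set.disjoint_iff_inter_eq_empty]
      exact Set.not_nonempty_iff_eq_empty.1 ha1
    have hRU : R a ⊆ U := fun x hx => hC.sub ⟨a, hI haI, hx⟩
    rcases conn_in_or_out (hR.conn a (hI haI)) hRU ha1' with h | h
    · exact Finset.mem_union_left _ (Finset.mem_filter.2 ⟨haI, h, ha1'⟩)
    · refine Finset.mem_union_right _ (Finset.mem_filter.2 ⟨haI, ?_⟩)
      obtain ⟨Q, hQc, hQt⟩ := hQ a haI
      obtain ⟨x, hx, y, hyU, hxy, hyD⟩ := nbr hR (hI haI) hc.1 h hQc hQt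
      have hyX : y ∈ X₁ := by
        obtain ⟨X', hX', hyX'⟩ := hC.crit y hyU hyD
        exact hgr X' hX' (bd_subset _ _ _ hyX')
      have hy : y ∈ bd G U B X₁ :=
        ⟨hyX, Or.inr ⟨x, hRU hx, Set.disjoint_left.1 h hx, hxy.symm⟩⟩
      exact ⟨x, hx, y, hy, Or.inr hxy.symm⟩
  have hcard := (Finset.card_le_card hsub).trans (Finset.card_union_le _ _)
  have h5 : M * (Δ + 1) + M = (Δ + 2) * M := by ring
  omega

end Pool.Agent.IM55.PL
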