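import Pool.Agent.Work.MP_55ff09_co.PL.Base

/-! Item [55ff09 PL ZLO]: the least minimum cut. -/

set_option autoImplicit false

namespace Pool.Agent.IM55.PL

open SimpleGraph Pool.Agent.IM55

namespace XZLO

/-- at most `M` rows meet a set with `M` elements -/
theorem meet_le {V : Type} [Finite V] (G : SimpleGraph V) (I I' : Finset ℕ) (R : ℕ → Set V)
    (hR : Rows G I R) (hI : I' ⊆ I) (S : Set V) (J : Finset ℕ)
    (hJ : ∀ a ∈ J, a ∈ I' ∧ (R a ∩ S).Nonempty) : J.card ≤ S.ncard := by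
  classical
  rcases J.eq_empty_or_nonempty with h0 | ⟨a0, ha0⟩
  · rw [h0]; simp
  · obtain ⟨x0, -⟩ := (hJ a0 ha0).2
    have : Nonempty V := ⟨x0⟩
    have h1 : ∀ a, ∃ x : V, a ∈ J → x ∈ R a ∩ S := by
      intro a
      by_cases ha : a ∈ J
      · obtain ⟨x, hx⟩ := (hJ a ha).2
        exact ⟨x, fun _ => hx⟩
      · exact ⟨x0, fun h => absurd h ha⟩
    choose f hf using h1
    have h2 : (J : Set ℕ).ncard ≤ S.ncard := by
      refine Set.ncard_le_ncard_of_injOn f (fun a ha => (hf a (by simpa using ha)).2) ?_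
        (Set.toFinite S)
      intro a ha b hb hab
      by_contra hne
      have ha' : a ∈ J := by simpa using ha
      have hb' : b ∈ J := by simpa using hb
      have h3 := anti_disjoint (hR.anti a (hI (hJ a ha').1) b (hI (hJ b hb').1) hne)
      exact Set.disjoint_left.1 h3 (hf a ha').1 (by rw [hab]; exact (hf b hb').1)
    rw [Set.ncard_coe_finset] at h2
    exact h2

/-- a set touched by a connector and not meeting `B` has a neighbour in `U` outside -/
theorem exit_row {V : Type} (G : SimpleGraph V) (U A B Q S : Set V) (hQ : Cr G U A B Q)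
    (hT : Touch G Q S) (hB : Disjoint S B) : ∃ x ∈ S, ∃ y ∈ U, y ∉ S ∧ G.Adj x y := by
  obtain ⟨x, hx, x', hx', h⟩ := hT
  by_cases hxS : x ∈ S
  · obtain ⟨b, hbQ, hbB⟩ := hQ.hB
    have hbS : b ∉ S := fun hb => Set.disjoint_left.1 hB hb hbB
    obtain ⟨u, huQ, v, hvQ, h1, h2, h3⟩ := exit_edge hQ.conn (fun z => z ∈ S) hx hxS hbQ hbS
    exact ⟨u, h1, v, hQ.sub hvQ, h2, h3⟩
  · rcases h with h | h
    · rw [h] at hxS
      exact absurd hx' hxS
    · exact ⟨x', hx', x, hQ.sub hx, hxS, h.symm⟩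

end XZLO

open XZLO in
theorem i_ZLO (hu : S_UNC) : S_ZLO := by
  classical
  intro V _ G Δ U A B I I' R M hG hR hC hI hQ
  obtain ⟨X₁, hX₁⟩ := hC.ex
  obtain ⟨X₀, -, hX₀⟩ := Set.Finite.exists_le_minimal (s := {Y : Set V | Ct G U A B M Y})
    (Set.toFinite _) (a := X₁) hX₁
  have hc : Ct G U A B M X₀ := hX₀.prop
  have hleast : ∀ Y, Ct G U A B M Y → X₀ ⊆ Y := by
    intro Y hY
    have h1 := (hu G U A B M hC.min X₀ Y hc hY).2.1
    have h2 := hX₀.le_of_le (y := X₀ ∩ Y) h1 Set.inter_subset_left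
    exact fun v hv => (h2 hv).2
  refine ⟨X₀, hc, hleast, ?_⟩
  have hcard : (clN G (bd G U B X₀)).ncard ≤ M * (Δ + 1) := by
    have := clN_ncard_set hG (bd G U B X₀)
    rw [hc.2.2] at this
    exact this
  have hmain : nR G U B I' R X₀ ≤ (clN G (bd G U B X₀)).ncard := by
    unfold nR
    refine meet_le G I I' R hR hI _ _ ?_
    intro a ha
    rw [Finset.mem_filter] at ha
    obtain ⟨haI, haX, hab⟩ := ha
    refine ⟨haI, ?_⟩
    obtain ⟨Q, hQ1, hQ2⟩ := hQ a haI
    have hB : Disjoint (R a) B := by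
      rw [Set.disjoint_left]
      intro x hx hxB
      exact Set.disjoint_left.1 hab hx ⟨haX hx, Or.inl hxB⟩
    obtain ⟨x, hx, y, hyU, hyR, hxy⟩ := exit_row G U A B Q (R a) hQ1 hQ2 hB
    have hxb : x ∉ bd G U B X₀ := fun h => Set.disjoint_left.1 hab hx h
    have hyX : y ∈ X₀ := adj_of_not_bd (haX hx) hxb hyU hxy
    have hyUn : y ∉ Un I R := by
      rintro ⟨a', ha', hya'⟩
      by_cases haa : a = a'
      · rw [haa] at hyR
        exact hyR hya'
      · exact (hR.anti a (hI haI) a' ha' haa x hx y hya').2 hxy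
    obtain ⟨X', hX', hyX'⟩ := hC.crit y hyU hyUn
    have hyb : y ∈ bd G U B X₀ := by
      by_contra hcon
      have h4 := (hu G U A B M hC.min X₀ X' hc hX').2.2.2 y hyX' hyX hcon
      rw [Set.inter_eq_left.2 (hleast X' hX')] at h4
      exact hcon h4
    exact ⟨x, hx, y, hyb, Or.inr hxy.symm⟩
  calc nR G U B I' R X₀ ≤ (clN G (bd G U B X₀)).ncard := hmain
    _ ≤ M * (Δ + 1) := hcard
    _ = (Δ + 1) * M := Nat.mul_comm _ _

end Pool.Agent.IM55.PL
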