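import Pool.Agent.Work.MP_55ff09_co.PL.Base

/-! Item [55ff09 PL ZON]. -/

set_option autoImplicit false

namespace Pool.Agent.IM55.PL

open SimpleGraph Pool.Agent.IM55

namespace XZON

/-- at most `M` rows meet a set with `M` elements -/
theorem meet_le {V : Type} [Finite V] (G : SimpleGraph V) (I I' : Finset ℕ) (R : ℕ → Set V)
    (hR : Rows G I R) (hI : I' ⊆ I) (S : Set V) (J : Finset ℕ)
    (hJ : ∀ a ∈ J, a ∈ I' ∧ (R a ∩ S).Nonempty) : J.card ≤ S.ncard := by
  classical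
  rcases J.eq_empty_or_nonempty with h0 | ⟨a0, ha0⟩
  · rw [h0]; simp
  · obtain ⟨x0, -⟩ := (hJ a0 ha0).2
    have : Nonempty V := ⟨x0⟩
    have h1 : ∀ a, ∃ x : V, a ∈ J → x ∈ R a ∩ S := by
      intro a
      by_cases ha : a ∈ J
      · obtain ⟨x, hx⟩ := (hJ a ha).2
        exact ⟨x, fun _ => hx⟩
      · exact ⟨x0, fun h => absurd h ha⟩
    choose f hf using h1
    have h2 : (J : Set ℕ).ncard ≤ S.ncard := by
      refine Set.ncard_le_ncard_of_injOn f (fun a ha => (hf a (by simpa using ha)).2) ?_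
        (Set.toFinite S)
      intro a ha b hb hab
      by_contra hne
      have ha' : a ∈ J := by simpa using ha
      have hb' : b ∈ J := by simpa using hb
      have h3 := anti_disjoint (hR.anti a (hI (hJ a ha').1) b (hI (hJ b hb').1) hne)
      exact Set.disjoint_left.1 h3 (hf a ha').1 (by rw [hab]; exact (hf b hb').1)
    rw [Set.ncard_coe_finset] at h2
    exact h2

/-- the rows of the zone -/
theorem zone {V : Type} [Finite V] (G : SimpleGraph V) (U B : Set V) (I I' : Finset ℕ)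
    (R : ℕ → Set V) (hR : Rows G I R) (hI : I' ⊆ I) (hU : Un I R ⊆ U) (X Y : Set V) :
    nR G U B I' R X ≤ nR G U B I' R Y + (bd G U B Y).ncard + (zR G U B I' R Y X).card := by
  classical
  set J : Finset ℕ := I'.filter fun a => (R a ∩ bd G U B Y).Nonempty with hJ
  have h1 : J.card ≤ (bd G U B Y).ncard := meet_le G I I' R hR hI _ J (by
    intro a ha
    rw [hJ, Finset.mem_filter] at ha
    exact ha)
  have h2 : nR G U B I' R X ≤ ((I'.filter fun a => R a ⊆ Y ∧ Disjoint (R a) (bd G U B Y)) ∪ J ∪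
      zR G U B I' R Y X).card := by
    unfold nR
    refine Finset.card_le_card ?_
    intro a ha
    rw [Finset.mem_filter] at ha
    rw [Finset.mem_union, Finset.mem_union]
    by_cases h3 : (R a ∩ bd G U B Y).Nonempty
    · exact Or.inl (Or.inr (by rw [hJ, Finset.mem_filter]; exact ⟨ha.1, h3⟩))
    · have h4 : Disjoint (R a) (bd G U B Y) := by
        rw [Set.disjoint_iff_inter_eq_empty]
        exact Set.not_nonempty_iff_eq_empty.1 h3
      have h5 : R a ⊆ U := fun v hv => hU ⟨a, hI ha.1, hv⟩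
      rcases conn_in_or_out (hR.conn a (hI ha.1)) h5 h4 with h6 | h6
      · exact Or.inl (Or.inl (by rw [Finset.mem_filter]; exact ⟨ha.1, h6, h4⟩))
      · refine Or.inr ?_
        unfold zR
        rw [Finset.mem_filter]
        exact ⟨ha.1, ha.2.1, ha.2.2, h6⟩
  have h3 := Finset.card_union_le ((I'.filter fun a => R a ⊆ Y ∧ Disjoint (R a) (bd G U B Y)) ∪ J)
    (zR G U B I' R Y X)
  have h4 := Finset.card_union_le (I'.filter fun a => R a ⊆ Y ∧ Disjoint (R a) (bd G U B Y)) J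
  have h5 : (I'.filter fun a => R a ⊆ Y ∧ Disjoint (R a) (bd G U B Y)).card
      = nR G U B I' R Y := rfl
  omega

/-- one step -/
theorem step (hst : S_ZST) {V : Type} [Finite V] (G : SimpleGraph V) (Δ : ℕ) (U A B : Set V)
    (I I' : Finset ℕ) (R : ℕ → Set V) (M : ℕ) (hG : DegLe G Δ) (hR : Rows G I R)
    (hC : CutSys G U A B (Un I R) M) (hI : I' ⊆ I)
    (hQ : ∀ a ∈ I', ∃ Q, Cr G U A B Q ∧ Touch G Q (R a)) (X₁ : Set V) (hX₁ : Ct G U A B M X₁)
    (hX₁t : ∀ Y, Ct G U A B M Y → Y ⊆ X₁)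
    (τ : ℕ) (hτ : τ < nR G U B I' R X₁) (X : Set V) (hX : Ct G U A B M X)
    (hXτ : nR G U B I' R X ≤ τ) :
    ∃ W, Ct G U A B M W ∧ X ⊆ W ∧ nR G U B I' R W ≤ τ ∧
      τ < nR G U B I' R W + (2 * Δ + 3) * M := by
  classical
  obtain ⟨W, hXW, hW⟩ := Set.Finite.exists_le_maximal
    (s := {Y : Set V | Ct G U A B M Y ∧ X ⊆ Y ∧ nR G U B I' R Y ≤ τ}) (Set.toFinite _)
    (a := X) ⟨hX, subset_rfl, hXτ⟩
  have hWs := hW.prop
  have hWne : W ≠ X₁ := by
    intro h
    have := hWs.2.2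
    rw [h] at this
    omega
  have hWss : W ⊂ X₁ := lt_of_le_of_ne (hX₁t W hWs.1) hWne
  obtain ⟨Z, hZX, hZ⟩ := Set.Finite.exists_le_minimal
    (s := {Y : Set V | Ct G U A B M Y ∧ W ⊂ Y}) (Set.toFinite _) (a := X₁) ⟨hX₁, hWss⟩
  have hZs := hZ.prop
  have hZτ : τ < nR G U B I' R Z := by
    by_contra hcon
    push Not at hcon
    have h1 := hW.le_of_ge (y := Z) ⟨hZs.1, hWs.2.1.trans hZs.2.1, hcon⟩ hZs.2.1
    exact hZs.2.2 h1
  have h2 := hst G Δ U A B I I' R M hG hR hC hI hQ W Z hWs.1 hZs.1 hZs.2 (by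
    intro Y hY hWY hYZ
    exact le_antisymm hYZ (hZ.le_of_le (y := Y) ⟨hY, hWY⟩ hYZ))
  exact ⟨W, hWs.1, hWs.2.1, hWs.2.2, by omega⟩

end XZON

theorem i_ZON (hst : S_ZST) (hlo : S_ZLO) (hhi : S_ZHI) : S_ZON := by
  classical
  intro V _ G Δ U A B I I' R M s N hG hR hC hI hQ hcard
  rcases Nat.eq_zero_or_pos N with hN | hN
  · obtain ⟨X, hX⟩ := hC.ex
    exact ⟨fun _ => X, fun _ _ => hX, fun _ _ => subset_rfl, fun _ _ => by omega⟩
  obtain ⟨X₀, hX₀, -, hn₀⟩ := hlo G Δ U A B I I' R M hG hR hC hI hQ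
  obtain ⟨X₁, hX₁, hX₁t, hn₁⟩ := hhi G Δ U A B I I' R M hG hR hC hI hQ
  set D : ℕ := N + (2 * Δ + 4) * M with hD
  let τ : ℕ → ℕ := fun i => (Δ + 1) * M + i * D
  have hτ : ∀ i ≤ s, τ i < nR G U B I' R X₁ := by
    intro i hi
    have h1 : i * D ≤ s * D := Nat.mul_le_mul_right D hi
    have h2 : (s + 1) * D = s * D + D := by ring
    have e1 : (2 * Δ + 4) * M = (Δ + 1) * M + (Δ + 2) * M + M := by ring
    change (Δ + 1) * M + i * D < _
    omega
  let Good : ℕ → Set V → Prop := fun i X => Ct G U A B M X ∧ nR G U B I' R X ≤ τ i ∧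
    τ i < nR G U B I' R X + (2 * Δ + 3) * M
  have hstep : ∀ (i : ℕ) (X : Set V), ∃ Y : Set V, i < s → Good i X → Good (i + 1) Y ∧ X ⊆ Y := by
    intro i X
    by_cases hi : i < s
    · by_cases hX : Good i X
      · obtain ⟨W, h1, h2, h3, h4⟩ := XZON.step hst G Δ U A B I I' R M hG hR hC hI hQ X₁ hX₁ hX₁t
          (τ (i + 1)) (hτ (i + 1) (by omega)) X hX.1 (by
            refine hX.2.1.trans ?_
            change (Δ + 1) * M + i * D ≤ (Δ + 1) * M + (i + 1) * D
            have : i * D ≤ (i + 1) * D := Nat.mul_le_mul_right D (by omega)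
            omega)
        exact ⟨W, fun _ _ => ⟨⟨h1, h3, h4⟩, h2⟩⟩
      · exact ⟨X, fun _ h => absurd h hX⟩
    · exact ⟨X, fun h => absurd h hi⟩
  choose f hf using hstep
  obtain ⟨W0, h1, -, h3, h4⟩ := XZON.step hst G Δ U A B I I' R M hG hR hC hI hQ X₁ hX₁ hX₁t
    (τ 0) (hτ 0 (Nat.zero_le _)) X₀ hX₀ (by
      refine hn₀.trans ?_
      change (Δ + 1) * M ≤ (Δ + 1) * M + 0 * D
      omega)
  let W : ℕ → Set V := fun i => Nat.rec W0 (fun i X => f i X) i
  have hW0 : W 0 = W0 := rfl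
  have hWs : ∀ i, W (i + 1) = f i (W i) := fun i => rfl
  have hgood : ∀ i ≤ s, Good i (W i) := by
    intro i
    induction i with
    | zero => intro _; exact ⟨h1, h3, h4⟩
    | succ i ih =>
      intro hi
      rw [hWs]
      exact (hf i (W i) (by omega) (ih (by omega))).1
  refine ⟨W, fun i hi => (hgood i hi).1, fun i hi => ?_, fun i hi => ?_⟩
  · rw [hWs]
    exact (hf i (W i) hi (hgood i hi.le)).2
  · have h5 := XZON.zone G U B I I' R hR hI hC.sub (W (i + 1)) (W i)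
    have h6 := (hgood i hi.le).2.1
    have h7 := (hgood (i + 1) hi).2.2
    have h8 : (bd G U B (W i)).ncard = M := (hgood i hi.le).1.2.2
    rw [h8] at h5
    have h9 : τ (i + 1) = τ i + D := by
      change (Δ + 1) * M + (i + 1) * D = (Δ + 1) * M + i * D + D
      ring
    have e1 : (2 * Δ + 4) * M = (2 * Δ + 3) * M + M := by ring
    omega

end Pool.Agent.IM55.PL
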