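import Pool.Agent.Work.MP_55ff09_co.PL.Base

/-!
# MP_55ff09_co, block PL, item ZST: one step up in the lattice of minimum cuts
-/

set_option autoImplicit false

namespace Pool.Agent.IM55.PL

open SimpleGraph Pool.Agent.IM55

namespace XZST

/-- pairwise disjoint sets meeting `S` -/
theorem count {V : Type} [Finite V] (J : Finset ℕ) (R : ℕ → Set V) (S : Set V)
    (hd : ∀ a ∈ J, ∀ a' ∈ J, a ≠ a' → Disjoint (R a) (R a')) (hm : ∀ a ∈ J, (R a ∩ S).Nonempty) :
    J.card ≤ S.ncard := by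
  classical
  by_cases hJ : J = ∅
  · simp [hJ]
  have hV : Nonempty V := by
    obtain ⟨a, ha⟩ := Finset.nonempty_iff_ne_empty.2 hJ
    obtain ⟨x, -⟩ := hm a ha
    exact ⟨x⟩
  have hex : ∀ a : ℕ, ∃ x : V, a ∈ J → x ∈ R a ∧ x ∈ S := by
    intro a
    by_cases ha : a ∈ J
    · obtain ⟨x, hx⟩ := hm a ha
      exact ⟨x, fun _ => hx⟩
    · exact ⟨Classical.arbitrary V, fun h => absurd h ha⟩
  choose f hf using hex
  have hS : S.Finite := Set.toFinite S
  rw [Set.ncard_eq_toFinset_card S hS]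
  refine Finset.card_le_card_of_injOn f (fun a ha => ?_) ?_
  · rw [Set.Finite.coe_toFinset]
    exact (hf a ha).2
  · intro a ha a' ha' h
    by_contra hne
    exact Set.disjoint_left.1 (hd a ha a' ha' hne) (hf a ha).1 (h ▸ (hf a' ha').1)

/-- a row without connector inside has a neighbour in `U` outside all rows -/
theorem nbr {V : Type} {G : SimpleGraph V} {U A B X : Set V} {I : Finset ℕ} {R : ℕ → Set V}
    (hR : Rows G I R) {a : ℕ} (ha : a ∈ I) (hAX : A ∩ U ⊆ X) (hd : Disjoint (R a) X)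
    {Q : Set V} (hQ : Cr G U A B Q) (ht : Touch G Q (R a)) :
    ∃ x ∈ R a, ∃ y ∈ U, G.Adj x y ∧ y ∉ Un I R := by
  obtain ⟨q, hqQ, hqA⟩ := hQ.hA
  have hq : q ∉ R a := fun h => Set.disjoint_left.1 hd h (hAX ⟨hqA, hQ.sub hqQ⟩)
  have key : ∃ x ∈ R a, ∃ y ∈ U, G.Adj x y ∧ y ∉ R a := by
    by_cases h : (Q ∩ R a).Nonempty
    · obtain ⟨z, hzQ, hzR⟩ := h
      obtain ⟨u, hu, v, hv, h1, h2, h3⟩ := exit_edge hQ.conn (fun z => z ∈ R a) hzQ hzR hqQ hq
      exact ⟨u, h1, v, hQ.sub hv, h3, h2⟩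
    · obtain ⟨x, hx, y, hy, hxy⟩ := ht
      rcases hxy with rfl | hxy
      · exact absurd ⟨x, hx, hy⟩ h
      · exact ⟨y, hy, x, hQ.sub hx, hxy.symm, fun hxR => h ⟨x, hx, hxR⟩⟩
  obtain ⟨x, hx, y, hy, hxy, hyR⟩ := key
  refine ⟨x, hx, y, hy, hxy, ?_⟩
  rintro ⟨a', ha', hya'⟩
  by_cases haa : a = a'
  · subst haa; exact hyR hya'
  · exact (hR.anti a ha a' ha' haa x hx y hya').2 hxy

end XZST

open XZST in
theorem i_ZST (h1 : S_UNC) : S_ZST := by
  classical
  intro V _ G Δ U A B I I' R M hG hR hC hI hQ X Z hX hZ hXZ hmin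
  set JZ := I'.filter fun a => R a ⊆ Z ∧ Disjoint (R a) (bd G U B Z) with hJZ
  set JX := I'.filter fun a => R a ⊆ X ∧ Disjoint (R a) (bd G U B X) with hJX
  have hnZ : nR G U B I' R Z = JZ.card := by
    unfold nR; congr 1
  have hnX : nR G U B I' R X = JX.card := by
    unfold nR; congr 1
  rw [hnZ, hnX]
  have hdis : ∀ a ∈ I', ∀ a' ∈ I', a ≠ a' → Disjoint (R a) (R a') := fun a ha a' ha' hne =>
    anti_disjoint (hR.anti a (hI ha) a' (hI ha') hne)
  set J1 := I'.filter fun a => (R a ∩ bd G U B X).Nonempty with hJ1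
  set J3 := I'.filter fun a => (R a ∩ clN G (bd G U B X ∪ bd G U B Z)).Nonempty with hJ3
  have hc1 : J1.card ≤ M := by
    have h2 := count J1 R (bd G U B X)
      (fun a ha a' ha' => hdis a (Finset.mem_filter.1 ha).1 a' (Finset.mem_filter.1 ha').1)
      (fun a ha => (Finset.mem_filter.1 ha).2)
    rw [hX.2.2] at h2
    exact h2
  have hc3 : J3.card ≤ (2 * M) * (Δ + 1) := by
    have h2 := count J3 R (clN G (bd G U B X ∪ bd G U B Z))
      (fun a ha a' ha' => hdis a (Finset.mem_filter.1 ha).1 a' (Finset.mem_filter.1 ha').1)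
      (fun a ha => (Finset.mem_filter.1 ha).2)
    refine h2.trans ((clN_ncard_set hG _).trans (Nat.mul_le_mul_right _ ?_))
    refine (Set.ncard_union_le _ _).trans ?_
    rw [hX.2.2, hZ.2.2]
    omega
  have hsub : JZ ⊆ JX ∪ (J1 ∪ J3) := by
    intro a ha
    obtain ⟨haI, haZ, haZd⟩ := Finset.mem_filter.1 ha
    by_cases ha1 : (R a ∩ bd G U B X).Nonempty
    · exact Finset.mem_union_right _ (Finset.mem_union_left _ (Finset.mem_filter.2 ⟨haI, ha1⟩))
    have ha1' : Disjoint (R a) (bd G U B X) := by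
      rw [Set.disjoint_iff_inter_eq_empty]
      exact Set.not_nonempty_iff_eq_empty.1 ha1
    have hRU : R a ⊆ U := fun x hx => hC.sub ⟨a, hI haI, hx⟩
    rcases conn_in_or_out (hR.conn a (hI haI)) hRU ha1' with h | h
    · exact Finset.mem_union_left _ (Finset.mem_filter.2 ⟨haI, h, ha1'⟩)
    · refine Finset.mem_union_right _ (Finset.mem_union_right _ (Finset.mem_filter.2 ⟨haI, ?_⟩))
      obtain ⟨Q, hQc, hQt⟩ := hQ a haI
      obtain ⟨x, hx, y, hyU, hxy, hyD⟩ := nbr hR (hI haI) hX.1 h hQc hQt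
      have hxZ : x ∉ bd G U B Z := Set.disjoint_left.1 haZd hx
      have hyZ : y ∈ Z := adj_of_not_bd (haZ hx) hxZ hyU hxy
      have hy : y ∈ bd G U B X ∪ bd G U B Z := by
        by_cases hyX : y ∈ X
        · exact Or.inl ⟨hyX, Or.inr ⟨x, hRU hx, Set.disjoint_left.1 h hx, hxy.symm⟩⟩
        · right
          by_contra hyZb
          obtain ⟨X', hX', hyX'⟩ := hC.crit y hyU hyD
          obtain ⟨hu, -, hb, -⟩ := h1 G U A B M hC.min X X' hX hX'
          have hyb := hb y hyX' hyX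
          obtain ⟨-, hi, -, hb2⟩ := h1 G U A B M hC.min Z (X ∪ X') hZ hu
          have hyb2 := hb2 y hyb hyZ hyZb
          have hEq : Z ∩ (X ∪ X') = Z := by
            refine hmin _ hi ?_ Set.inter_subset_left
            refine ⟨fun z hz => ⟨hXZ.1 hz, Or.inl hz⟩, fun hcon => ?_⟩
            exact hyX (hcon ⟨hyZ, Or.inr (bd_subset _ _ _ hyX')⟩)
          rw [hEq] at hyb2
          exact hyZb hyb2
      exact ⟨x, hx, y, hy, Or.inr hxy.symm⟩
  have hcard := (Finset.card_le_card hsub).trans (Finset.card_union_le _ _)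
  have hcard2 := Finset.card_union_le J1 J3
  have : (2 * M) * (Δ + 1) + M = (2 * Δ + 3) * M := by ring
  omega

end Pool.Agent.IM55.PL
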