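import Pool.Agent.Work.MP_55ff09_co.PL.I_AVG
import Pool.Agent.Work.MP_55ff09_co.PL.I_AVH
import Pool.Agent.Work.MP_55ff09_co.PL.I_BDG
import Pool.Agent.Work.MP_55ff09_co.PL.I_BRM
import Pool.Agent.Work.MP_55ff09_co.PL.I_CLP
import Pool.Agent.Work.MP_55ff09_co.PL.I_COC
import Pool.Agent.Work.MP_55ff09_co.PL.I_COL
import Pool.Agent.Work.MP_55ff09_co.PL.I_COM
import Pool.Agent.Work.MP_55ff09_co.PL.I_COR
import Pool.Agent.Work.MP_55ff09_co.PL.I_CRI
import Pool.Agent.Work.MP_55ff09_co.PL.I_CUT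
import Pool.Agent.Work.MP_55ff09_co.PL.I_DEN
import Pool.Agent.Work.MP_55ff09_co.PL.I_DRW
import Pool.Agent.Work.MP_55ff09_co.PL.I_DSJ
import Pool.Agent.Work.MP_55ff09_co.PL.I_ES
import Pool.Agent.Work.MP_55ff09_co.PL.I_EX1
import Pool.Agent.Work.MP_55ff09_co.PL.I_EXI
import Pool.Agent.Work.MP_55ff09_co.PL.I_EXP
import Pool.Agent.Work.MP_55ff09_co.PL.I_EXT
import Pool.Agent.Work.MP_55ff09_co.PL.I_FAM
import Pool.Agent.Work.MP_55ff09_co.PL.I_FIN
import Pool.Agent.Work.MP_55ff09_co.PL.I_FRW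
import Pool.Agent.Work.MP_55ff09_co.PL.I_FSL
import Pool.Agent.Work.MP_55ff09_co.PL.I_GAP
import Pool.Agent.Work.MP_55ff09_co.PL.I_GR1
import Pool.Agent.Work.MP_55ff09_co.PL.I_GRD
import Pool.Agent.Work.MP_55ff09_co.PL.I_GT1
import Pool.Agent.Work.MP_55ff09_co.PL.I_GT2
import Pool.Agent.Work.MP_55ff09_co.PL.I_GTK
import Pool.Agent.Work.MP_55ff09_co.PL.I_HDL
import Pool.Agent.Work.MP_55ff09_co.PL.I_HND
import Pool.Agent.Work.MP_55ff09_co.PL.I_HOM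
import Pool.Agent.Work.MP_55ff09_co.PL.I_HUB
import Pool.Agent.Work.MP_55ff09_co.PL.I_IM
import Pool.Agent.Work.MP_55ff09_co.PL.I_IMQ
import Pool.Agent.Work.MP_55ff09_co.PL.I_IPA
import Pool.Agent.Work.MP_55ff09_co.PL.I_K1
import Pool.Agent.Work.MP_55ff09_co.PL.I_K1A
import Pool.Agent.Work.MP_55ff09_co.PL.I_LAB
import Pool.Agent.Work.MP_55ff09_co.PL.I_LEG
import Pool.Agent.Work.MP_55ff09_co.PL.I_LNK
import Pool.Agent.Work.MP_55ff09_co.PL.I_LOC
import Pool.Agent.Work.MP_55ff09_co.PL.I_MEN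
import Pool.Agent.Work.MP_55ff09_co.PL.I_MIB
import Pool.Agent.Work.MP_55ff09_co.PL.I_MPC
import Pool.Agent.Work.MP_55ff09_co.PL.I_NEA
import Pool.Agent.Work.MP_55ff09_co.PL.I_NET
import Pool.Agent.Work.MP_55ff09_co.PL.I_ORD
import Pool.Agent.Work.MP_55ff09_co.PL.I_PAS
import Pool.Agent.Work.MP_55ff09_co.PL.I_PRC
import Pool.Agent.Work.MP_55ff09_co.PL.I_PRD
import Pool.Agent.Work.MP_55ff09_co.PL.I_PSB
import Pool.Agent.Work.MP_55ff09_co.PL.I_PTH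
import Pool.Agent.Work.MP_55ff09_co.PL.I_RAD
import Pool.Agent.Work.MP_55ff09_co.PL.I_RLZ
import Pool.Agent.Work.MP_55ff09_co.PL.I_SEL
import Pool.Agent.Work.MP_55ff09_co.PL.I_SID
import Pool.Agent.Work.MP_55ff09_co.PL.I_SLT
import Pool.Agent.Work.MP_55ff09_co.PL.I_SMP
import Pool.Agent.Work.MP_55ff09_co.PL.I_SPR
import Pool.Agent.Work.MP_55ff09_co.PL.I_STG
import Pool.Agent.Work.MP_55ff09_co.PL.I_STP
import Pool.Agent.Work.MP_55ff09_co.PL.I_STR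
import Pool.Agent.Work.MP_55ff09_co.PL.I_TCH
import Pool.Agent.Work.MP_55ff09_co.PL.I_THN
import Pool.Agent.Work.MP_55ff09_co.PL.I_TPC
import Pool.Agent.Work.MP_55ff09_co.PL.I_UNC
import Pool.Agent.Work.MP_55ff09_co.PL.I_WID
import Pool.Agent.Work.MP_55ff09_co.PL.I_WLD
import Pool.Agent.Work.MP_55ff09_co.PL.I_WRL
import Pool.Agent.Work.MP_55ff09_co.PL.I_ZHI
import Pool.Agent.Work.MP_55ff09_co.PL.I_ZLO
import Pool.Agent.Work.MP_55ff09_co.PL.I_ZON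
import Pool.Agent.Work.MP_55ff09_co.PL.I_ZST
import Pool.Agent.Work.Tools.GridThm.T0
import Pool.Agent.Work.MP_55ff09_co.T
import Pool.Agent.Work.MP_55ff09_co.I
import Pool.Agent.Work.MP_55ff09_co.TC
import Pool.Agent.Work.MP_55ff09_co.SP
import Pool.Agent.Work.MP_55ff09_co.SE
import Pool.Agent.Work.MP_55ff09_co.LG
import Pool.Agent.Work.MP_55ff09_co.PG
import Pool.Agent.Work.MP_55ff09_co.ST
import Pool.Agent.Work.MP_55ff09_co.BL
import Pool.Agent.Work.MP_55ff09_co.BT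
import Pool.Agent.Work.MP_55ff09_co.LI
import Pool.Agent.Work.MP_55ff09_co.BG
import Pool.Agent.Work.MP_55ff09_co.AR
import Pool.Agent.Work.MP_55ff09_co.Link

/-!
# MP_55ff09_co, block PL: assembly
-/

set_option autoImplicit false

namespace Pool.Agent.IM55.PL

open SimpleGraph Pool.Agent.IM55

theorem main : S_FIN := by
  have hTR : ClaimTrans := claimTrans
  have hLK : ClaimLink := claimLink (claimLinkStep claimSpine
    (claimLegs (claimSelect claimTrans claimInterval)) claimPigeon)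
  have hAR : ClaimArray := claimArray (claimBlockG claimBlock (claimBlockT claimBlock) claimLift)
    claimLift
  have hAVG : S_AVG := i_AVG
  have hAVH : S_AVH := i_AVH
  have hBDG : S_BDG := i_BDG
  have hBRM : S_BRM := i_BRM
  have hCLP : S_CLP := i_CLP
  have hCOC : S_COC := i_COC
  have hCOL : S_COL := i_COL
  have hCOR : S_COR := i_COR
  have hDRW : S_DRW := i_DRW
  have hDSJ : S_DSJ := i_DSJ Pool.Agent.GridThm.T0
  have hES : S_ES := i_ES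
  have hEXI : S_EXI := i_EXI hCOC
  have hFSL : S_FSL := i_FSL
  have hGAP : S_GAP := i_GAP
  have hGR1 : S_GR1 := i_GR1
  have hGRD : S_GRD := i_GRD
  have hGT2 : S_GT2 := i_GT2 hAR
  have hHOM : S_HOM := i_HOM
  have hIPA : S_IPA := i_IPA
  have hEX1 : S_EX1 := i_EX1 hIPA
  have hEXT : S_EXT := i_EXT hEX1 hIPA
  have hLEG : S_LEG := i_LEG
  have hMEN : S_MEN := i_MEN hIPA
  have hIMQ : S_IMQ := i_IMQ hMEN
  have hIM : S_IM := i_IM hCOL hIMQ hIPA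
  have hMIB : S_MIB := i_MIB
  have hCRI : S_CRI := i_CRI hMEN hMIB
  have hMPC : S_MPC := i_MPC hIPA
  have hCOM : S_COM := i_COM hMPC claimTouchCard
  have hCUT : S_CUT := i_CUT hMPC
  have hEXP : S_EXP := i_EXP hMPC
  have hK1 : S_K1 := i_K1 hCUT
  have hK1A : S_K1A := i_K1A hK1
  have hNEA : S_NEA := i_NEA
  have hNET : S_NET := i_NET hGR1
  have hPRD : S_PRD := i_PRD
  have hPSB : S_PSB := i_PSB
  have hPTH : S_PTH := i_PTH hEXT
  have hHUB : S_HUB := i_HUB hPTH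
  have hRAD : S_RAD := i_RAD
  have hRLZ : S_RLZ := i_RLZ hIPA
  have hLNK : S_LNK := i_LNK hMEN hRLZ hIPA
  have hSEL : S_SEL := i_SEL hTR
  have hSID : S_SID := i_SID
  have hSLT : S_SLT := i_SLT
  have hGT1 : S_GT1 := i_GT1 hSLT hSEL hRAD
  have hGTK : S_GTK := i_GTK hGT1 hGT2 hLK
  have hHND : S_HND := i_HND hSLT hSEL hAR
  have hLOC : S_LOC := i_LOC hGTK claimTouchCard
  have hHDL : S_HDL := i_HDL hLOC hEXP hSID hK1A hCOM hCLP
  have hSTG : S_STG := i_STG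
  have hSTR : S_STR := i_STR hK1
  have hTCH : S_TCH := i_TCH
  have hORD : S_ORD := i_ORD hPSB hES hBDG hGAP hTCH
  have hPAS : S_PAS := i_PAS hMPC hTCH
  have hTHN : S_THN := i_THN
  have hUNC : S_UNC := i_UNC
  have hWID : S_WID := i_WID claimBall
  have hLAB : S_LAB := i_LAB hNET hCOR hCOC hNEA hEXI hWID hLEG
  have hWLD : S_WLD := i_WLD hCUT
  have hFRW : S_FRW := i_FRW hPAS hSTG hHOM hFSL hSTR hWLD
  have hWRL : S_WRL := i_WRL hHDL hGTK hGRD hHND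
  have hZHI : S_ZHI := i_ZHI hUNC
  have hZLO : S_ZLO := i_ZLO hUNC
  have hZST : S_ZST := i_ZST hUNC
  have hZON : S_ZON := i_ZON hZST hZLO hZHI
  have hSMP : S_SMP := i_SMP hZON hAVG hTR
  have hDEN : S_DEN := i_DEN hWRL hFRW hORD hPSB hSMP
  have hSPR : S_SPR := i_SPR hDEN hIM hCRI hDRW
  have hFAM : S_FAM := i_FAM hLNK hSPR hTHN hAVH
  have hSTP : S_STP := i_STP hSPR hTHN hTCH
  have hPRC : S_PRC := i_PRC hSTP
  have hTPC : S_TPC := i_TPC hBRM hHUB hFAM hPRC hK1 hPRD hLAB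
  intro W _ H Δ
  exact i_FIN hTPC hDSJ H Δ

end Pool.Agent.IM55.PL
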